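import Pool.Agent.G2F.Defs3

/-! MODULE CAlg (diff 1): `3 × 3` matrix identities.

* `cm_om`: `∑ₐ (S v)ₐ ([Ω,T] v)ₐ + (T v)ₐ ([Ω,S] v)ₐ = [S T + T S, B]_{m+1,m+2}` for symmetric `S, T`
  (`(T v)·(Ω S v) + (S v)·(Ω T v) = 0` as `Ω` is skew; `-(S v)·(T Ω v) - (T v)·(S Ω v) = -v (ST + TS) Ω v`).
  By brute force: `fin_cases m`, `cm`, `Matrix.mul_apply`, `Fin.sum_univ_three`, replace the lower entries
  (`S 1 0 = S 0 1`, ...) and `ring`.
* `cm_zero`: the commutator of symmetric matrices is skew, so it vanishes if its `(m+1,m+2)` entries vanish;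
  here for a sum of two commutators.
-/

namespace G2F

open scoped Matrix

theorem cm_om {S T : Matrix (Fin 3) (Fin 3) ℝ} (hS : Sᵀ = S) (hT : Tᵀ = T) (m : Fin 3) :
    ∑ a, ((S *ᵥ vv) a * (cm (Om m) T *ᵥ vv) a + (T *ᵥ vv) a * (cm (Om m) S *ᵥ vv) a) =
      cm (S * T + T * S) Bm (m + 1) (m + 2) := by
  have s10 : S 1 0 = S 0 1 := congrFun (congrFun hS 0) 1
  have s20 : S 2 0 = S 0 2 := congrFun (congrFun hS 0) 2
  have s21 : S 2 1 = S 1 2 := congrFun (congrFun hS 1) 2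
  have t10 : T 1 0 = T 0 1 := congrFun (congrFun hT 0) 1
  have t20 : T 2 0 = T 0 2 := congrFun (congrFun hT 0) 2
  have t21 : T 2 1 = T 1 2 := congrFun (congrFun hT 1) 2
  simp only [cm, Matrix.sub_apply, Matrix.add_apply, Matrix.mulVec, dotProduct,
    Matrix.mul_apply, Fin.sum_univ_three]
  fin_cases m <;> simp only [Fin.zero_eta, Fin.mk_one, Fin.reduceFinMk, Fin.reduceAdd,
    Fin.isValue, zero_add] <;>
    simp only [Om, Bm, vv, s10, s20, s21, t10, t20, t21, Matrix.of_apply, Matrix.cons_val,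
      Matrix.cons_val_zero, Matrix.cons_val_one] <;> ring

theorem cm_zero {S D R B : Matrix (Fin 3) (Fin 3) ℝ} (hS : Sᵀ = S) (hD : Dᵀ = D) (hR : Rᵀ = R)
    (hB : Bᵀ = B) (h : ∀ m : Fin 3, cm S D (m + 1) (m + 2) + cm R B (m + 1) (m + 2) = 0) :
    cm S D + cm R B = 0 := by
  have key : ∀ X Y : Matrix (Fin 3) (Fin 3) ℝ, Xᵀ = X → Yᵀ = Y → (cm X Y)ᵀ = -cm X Y := by
    intro X Y hX hY
    rw [cm, Matrix.transpose_sub, Matrix.transpose_mul, Matrix.transpose_mul, hX, hY, neg_sub]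
  have hsk : (cm S D + cm R B)ᵀ = -(cm S D + cm R B) := by
    rw [Matrix.transpose_add, key S D hS hD, key R B hR hB, neg_add]
  obtain ⟨W, hW⟩ : ∃ W, W = cm S D + cm R B := ⟨_, rfl⟩
  rw [← hW] at hsk ⊢
  have hw : ∀ i j, W j i = -W i j := fun i j => congrFun (congrFun hsk i) j
  have h0 : W 1 2 = 0 := by
    rw [hW]
    exact h 0
  have h1 : W 2 0 = 0 := by
    rw [hW]
    exact h 1
  have h2 : W 0 1 = 0 := by
    rw [hW]
    exact h 2
  have d : ∀ i, W i i = 0 := fun i => by linarith [hw i i]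
  ext i j
  have e1 := hw 1 2
  have e2 := hw 2 0
  have e3 := hw 0 1
  fin_cases i <;> fin_cases j <;> simp only [Matrix.zero_apply] <;>
    first
      | exact d _
      | assumption
      | (simp_all)

theorem Tm_symm (x y : V11) : (Tm x y)ᵀ = Tm x y := by
  rw [Tm, Matrix.transpose_add, Matrix.transpose_mul, Matrix.transpose_mul,
    Matrix.transpose_transpose, Matrix.transpose_transpose, add_comm]

end G2F
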