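import Pool.Agent.G2F.Defs3

/-! MODULE JM: the polarised formula for `M1` (generated). -/

namespace G2F

open HFinG
open scoped RealInnerProductSpace Matrix

set_option linter.unusedSimpArgs false

theorem Tm_00 (x y : V11) : Tm x y 0 0 =
    ((-(2 * k * x 9)) * (-(2 * k * y 9)) + (-(2 * k * x 10)) * (-(2 * k * y 10)) + (2 * k * x 7) * (2 * k * y 7) + (2 * k * x 8) * (2 * k * y 8)) + ((-(2 * k * y 9)) * (-(2 * k * x 9)) + (-(2 * k * y 10)) * (-(2 * k * x 10)) + (2 * k * y 7) * (2 * k * x 7) + (2 * k * y 8) * (2 * k * x 8)) := by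
  rw [Tm, Matrix.add_apply, mulT4, mulT4]
  rfl

theorem Tm_01 (x y : V11) : Tm x y 0 1 =
    ((-(2 * k * x 9)) * (y 3 - k * y 8) + (-(2 * k * x 10)) * (y 4 + k * y 7) + (2 * k * x 7) * (y 5 + k * y 10) + (2 * k * x 8) * (y 6 - k * y 9)) + ((-(2 * k * y 9)) * (x 3 - k * x 8) + (-(2 * k * y 10)) * (x 4 + k * x 7) + (2 * k * y 7) * (x 5 + k * x 10) + (2 * k * y 8) * (x 6 - k * x 9)) := by
  rw [Tm, Matrix.add_apply, mulT4, mulT4]
  rfl

theorem Tm_02 (x y : V11) : Tm x y 0 2 =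
    ((-(2 * k * x 9)) * (-y 4 + k * y 7) + (-(2 * k * x 10)) * (y 3 + k * y 8) + (2 * k * x 7) * (y 6 + k * y 9) + (2 * k * x 8) * (-y 5 + k * y 10)) + ((-(2 * k * y 9)) * (-x 4 + k * x 7) + (-(2 * k * y 10)) * (x 3 + k * x 8) + (2 * k * y 7) * (x 6 + k * x 9) + (2 * k * y 8) * (-x 5 + k * x 10)) := by
  rw [Tm, Matrix.add_apply, mulT4, mulT4]
  rfl

theorem Tm_10 (x y : V11) : Tm x y 1 0 =
    ((x 3 - k * x 8) * (-(2 * k * y 9)) + (x 4 + k * x 7) * (-(2 * k * y 10)) + (x 5 + k * x 10) * (2 * k * y 7) + (x 6 - k * x 9) * (2 * k * y 8)) + ((y 3 - k * y 8) * (-(2 * k * x 9)) + (y 4 + k * y 7) * (-(2 * k * x 10)) + (y 5 + k * y 10) * (2 * k * x 7) + (y 6 - k * y 9) * (2 * k * x 8)) := by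
  rw [Tm, Matrix.add_apply, mulT4, mulT4]
  rfl

theorem Tm_11 (x y : V11) : Tm x y 1 1 =
    ((x 3 - k * x 8) * (y 3 - k * y 8) + (x 4 + k * x 7) * (y 4 + k * y 7) + (x 5 + k * x 10) * (y 5 + k * y 10) + (x 6 - k * x 9) * (y 6 - k * y 9)) + ((y 3 - k * y 8) * (x 3 - k * x 8) + (y 4 + k * y 7) * (x 4 + k * x 7) + (y 5 + k * y 10) * (x 5 + k * x 10) + (y 6 - k * y 9) * (x 6 - k * x 9)) := by
  rw [Tm, Matrix.add_apply, mulT4, mulT4]
  rfl

theorem Tm_12 (x y : V11) : Tm x y 1 2 =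
    ((x 3 - k * x 8) * (-y 4 + k * y 7) + (x 4 + k * x 7) * (y 3 + k * y 8) + (x 5 + k * x 10) * (y 6 + k * y 9) + (x 6 - k * x 9) * (-y 5 + k * y 10)) + ((y 3 - k * y 8) * (-x 4 + k * x 7) + (y 4 + k * y 7) * (x 3 + k * x 8) + (y 5 + k * y 10) * (x 6 + k * x 9) + (y 6 - k * y 9) * (-x 5 + k * x 10)) := by
  rw [Tm, Matrix.add_apply, mulT4, mulT4]
  rfl

theorem Tm_20 (x y : V11) : Tm x y 2 0 =
    ((-x 4 + k * x 7) * (-(2 * k * y 9)) + (x 3 + k * x 8) * (-(2 * k * y 10)) + (x 6 + k * x 9) * (2 * k * y 7) + (-x 5 + k * x 10) * (2 * k * y 8)) + ((-y 4 + k * y 7) * (-(2 * k * x 9)) + (y 3 + k * y 8) * (-(2 * k * x 10)) + (y 6 + k * y 9) * (2 * k * x 7) + (-y 5 + k * y 10) * (2 * k * x 8)) := by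
  rw [Tm, Matrix.add_apply, mulT4, mulT4]
  rfl

theorem Tm_21 (x y : V11) : Tm x y 2 1 =
    ((-x 4 + k * x 7) * (y 3 - k * y 8) + (x 3 + k * x 8) * (y 4 + k * y 7) + (x 6 + k * x 9) * (y 5 + k * y 10) + (-x 5 + k * x 10) * (y 6 - k * y 9)) + ((-y 4 + k * y 7) * (x 3 - k * x 8) + (y 3 + k * y 8) * (x 4 + k * x 7) + (y 6 + k * y 9) * (x 5 + k * x 10) + (-y 5 + k * y 10) * (x 6 - k * x 9)) := by
  rw [Tm, Matrix.add_apply, mulT4, mulT4]
  rfl

theorem Tm_22 (x y : V11) : Tm x y 2 2 =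
    ((-x 4 + k * x 7) * (-y 4 + k * y 7) + (x 3 + k * x 8) * (y 3 + k * y 8) + (x 6 + k * x 9) * (y 6 + k * y 9) + (-x 5 + k * x 10) * (-y 5 + k * y 10)) + ((-y 4 + k * y 7) * (-x 4 + k * x 7) + (y 3 + k * y 8) * (x 3 + k * x 8) + (y 6 + k * y 9) * (x 6 + k * x 9) + (-y 5 + k * y 10) * (-x 5 + k * x 10)) := by
  rw [Tm, Matrix.add_apply, mulT4, mulT4]
  rfl

theorem me_0_0 (y : V11) : mmF (em 0) y 0 = 0 := by
  have e0 : em 0 0 = 1 := by simp [em]
  have e1 : em 0 1 = 0 := by simp [em]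
  have e2 : em 0 2 = 0 := by simp [em]
  have e3 : em 0 3 = 0 := by simp [em]
  have e4 : em 0 4 = 0 := by simp [em]
  have e5 : em 0 5 = 0 := by simp [em]
  have e6 : em 0 6 = 0 := by simp [em]
  have e7 : em 0 7 = 0 := by simp [em]
  have e8 : em 0 8 = 0 := by simp [em]
  have e9 : em 0 9 = 0 := by simp [em]
  have e10 : em 0 10 = 0 := by simp [em]
  rw [mmF_0, mm0]
  simp only [w, e0, e1, e2, e3, e4, e5, e6, e7, e8, e9, e10]
  ring

theorem me_0_1 (y : V11) : mmF (em 0) y 1 = -2 * k * y 2 := by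
  have e0 : em 0 0 = 1 := by simp [em]
  have e1 : em 0 1 = 0 := by simp [em]
  have e2 : em 0 2 = 0 := by simp [em]
  have e3 : em 0 3 = 0 := by simp [em]
  have e4 : em 0 4 = 0 := by simp [em]
  have e5 : em 0 5 = 0 := by simp [em]
  have e6 : em 0 6 = 0 := by simp [em]
  have e7 : em 0 7 = 0 := by simp [em]
  have e8 : em 0 8 = 0 := by simp [em]
  have e9 : em 0 9 = 0 := by simp [em]
  have e10 : em 0 10 = 0 := by simp [em]
  rw [mmF_1, mm1]
  simp only [w, e0, e1, e2, e3, e4, e5, e6, e7, e8, e9, e10]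
  ring

theorem me_0_2 (y : V11) : mmF (em 0) y 2 = 2 * k * y 1 := by
  have e0 : em 0 0 = 1 := by simp [em]
  have e1 : em 0 1 = 0 := by simp [em]
  have e2 : em 0 2 = 0 := by simp [em]
  have e3 : em 0 3 = 0 := by simp [em]
  have e4 : em 0 4 = 0 := by simp [em]
  have e5 : em 0 5 = 0 := by simp [em]
  have e6 : em 0 6 = 0 := by simp [em]
  have e7 : em 0 7 = 0 := by simp [em]
  have e8 : em 0 8 = 0 := by simp [em]
  have e9 : em 0 9 = 0 := by simp [em]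
  have e10 : em 0 10 = 0 := by simp [em]
  rw [mmF_2, mm2]
  simp only [w, e0, e1, e2, e3, e4, e5, e6, e7, e8, e9, e10]
  ring

theorem me_0_3 (y : V11) : mmF (em 0) y 3 = 3 * k * y 4 := by
  have e0 : em 0 0 = 1 := by simp [em]
  have e1 : em 0 1 = 0 := by simp [em]
  have e2 : em 0 2 = 0 := by simp [em]
  have e3 : em 0 3 = 0 := by simp [em]
  have e4 : em 0 4 = 0 := by simp [em]
  have e5 : em 0 5 = 0 := by simp [em]
  have e6 : em 0 6 = 0 := by simp [em]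
  have e7 : em 0 7 = 0 := by simp [em]
  have e8 : em 0 8 = 0 := by simp [em]
  have e9 : em 0 9 = 0 := by simp [em]
  have e10 : em 0 10 = 0 := by simp [em]
  rw [mmF_3, mm3]
  simp only [w, e0, e1, e2, e3, e4, e5, e6, e7, e8, e9, e10]
  ring

theorem me_0_4 (y : V11) : mmF (em 0) y 4 = -3 * k * y 3 := by
  have e0 : em 0 0 = 1 := by simp [em]
  have e1 : em 0 1 = 0 := by simp [em]
  have e2 : em 0 2 = 0 := by simp [em]
  have e3 : em 0 3 = 0 := by simp [em]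
  have e4 : em 0 4 = 0 := by simp [em]
  have e5 : em 0 5 = 0 := by simp [em]
  have e6 : em 0 6 = 0 := by simp [em]
  have e7 : em 0 7 = 0 := by simp [em]
  have e8 : em 0 8 = 0 := by simp [em]
  have e9 : em 0 9 = 0 := by simp [em]
  have e10 : em 0 10 = 0 := by simp [em]
  rw [mmF_4, mm4]
  simp only [w, e0, e1, e2, e3, e4, e5, e6, e7, e8, e9, e10]
  ring

theorem me_0_5 (y : V11) : mmF (em 0) y 5 = -3 * k * y 6 := by
  have e0 : em 0 0 = 1 := by simp [em]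
  have e1 : em 0 1 = 0 := by simp [em]
  have e2 : em 0 2 = 0 := by simp [em]
  have e3 : em 0 3 = 0 := by simp [em]
  have e4 : em 0 4 = 0 := by simp [em]
  have e5 : em 0 5 = 0 := by simp [em]
  have e6 : em 0 6 = 0 := by simp [em]
  have e7 : em 0 7 = 0 := by simp [em]
  have e8 : em 0 8 = 0 := by simp [em]
  have e9 : em 0 9 = 0 := by simp [em]
  have e10 : em 0 10 = 0 := by simp [em]
  rw [mmF_5, mm5]
  simp only [w, e0, e1, e2, e3, e4, e5, e6, e7, e8, e9, e10]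
  ring

theorem me_0_6 (y : V11) : mmF (em 0) y 6 = 3 * k * y 5 := by
  have e0 : em 0 0 = 1 := by simp [em]
  have e1 : em 0 1 = 0 := by simp [em]
  have e2 : em 0 2 = 0 := by simp [em]
  have e3 : em 0 3 = 0 := by simp [em]
  have e4 : em 0 4 = 0 := by simp [em]
  have e5 : em 0 5 = 0 := by simp [em]
  have e6 : em 0 6 = 0 := by simp [em]
  have e7 : em 0 7 = 0 := by simp [em]
  have e8 : em 0 8 = 0 := by simp [em]
  have e9 : em 0 9 = 0 := by simp [em]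
  have e10 : em 0 10 = 0 := by simp [em]
  rw [mmF_6, mm6]
  simp only [w, e0, e1, e2, e3, e4, e5, e6, e7, e8, e9, e10]
  ring

theorem me_0_7 (y : V11) : mmF (em 0) y 7 = -k * y 8 := by
  have e0 : em 0 0 = 1 := by simp [em]
  have e1 : em 0 1 = 0 := by simp [em]
  have e2 : em 0 2 = 0 := by simp [em]
  have e3 : em 0 3 = 0 := by simp [em]
  have e4 : em 0 4 = 0 := by simp [em]
  have e5 : em 0 5 = 0 := by simp [em]
  have e6 : em 0 6 = 0 := by simp [em]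
  have e7 : em 0 7 = 0 := by simp [em]
  have e8 : em 0 8 = 0 := by simp [em]
  have e9 : em 0 9 = 0 := by simp [em]
  have e10 : em 0 10 = 0 := by simp [em]
  rw [mmF_7, mm7]
  simp only [w, e0, e1, e2, e3, e4, e5, e6, e7, e8, e9, e10]
  ring

theorem me_0_8 (y : V11) : mmF (em 0) y 8 = k * y 7 := by
  have e0 : em 0 0 = 1 := by simp [em]
  have e1 : em 0 1 = 0 := by simp [em]
  have e2 : em 0 2 = 0 := by simp [em]
  have e3 : em 0 3 = 0 := by simp [em]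
  have e4 : em 0 4 = 0 := by simp [em]
  have e5 : em 0 5 = 0 := by simp [em]
  have e6 : em 0 6 = 0 := by simp [em]
  have e7 : em 0 7 = 0 := by simp [em]
  have e8 : em 0 8 = 0 := by simp [em]
  have e9 : em 0 9 = 0 := by simp [em]
  have e10 : em 0 10 = 0 := by simp [em]
  rw [mmF_8, mm8]
  simp only [w, e0, e1, e2, e3, e4, e5, e6, e7, e8, e9, e10]
  ring

theorem me_0_9 (y : V11) : mmF (em 0) y 9 = k * y 10 := by
  have e0 : em 0 0 = 1 := by simp [em]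
  have e1 : em 0 1 = 0 := by simp [em]
  have e2 : em 0 2 = 0 := by simp [em]
  have e3 : em 0 3 = 0 := by simp [em]
  have e4 : em 0 4 = 0 := by simp [em]
  have e5 : em 0 5 = 0 := by simp [em]
  have e6 : em 0 6 = 0 := by simp [em]
  have e7 : em 0 7 = 0 := by simp [em]
  have e8 : em 0 8 = 0 := by simp [em]
  have e9 : em 0 9 = 0 := by simp [em]
  have e10 : em 0 10 = 0 := by simp [em]
  rw [mmF_9, mm9]
  simp only [w, e0, e1, e2, e3, e4, e5, e6, e7, e8, e9, e10]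
  ring

theorem me_0_10 (y : V11) : mmF (em 0) y 10 = -k * y 9 := by
  have e0 : em 0 0 = 1 := by simp [em]
  have e1 : em 0 1 = 0 := by simp [em]
  have e2 : em 0 2 = 0 := by simp [em]
  have e3 : em 0 3 = 0 := by simp [em]
  have e4 : em 0 4 = 0 := by simp [em]
  have e5 : em 0 5 = 0 := by simp [em]
  have e6 : em 0 6 = 0 := by simp [em]
  have e7 : em 0 7 = 0 := by simp [em]
  have e8 : em 0 8 = 0 := by simp [em]
  have e9 : em 0 9 = 0 := by simp [em]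
  have e10 : em 0 10 = 0 := by simp [em]
  rw [mmF_10, mm10]
  simp only [w, e0, e1, e2, e3, e4, e5, e6, e7, e8, e9, e10]
  ring

theorem me_1_0 (y : V11) : mmF (em 1) y 0 = 2 * k * y 2 := by
  have e0 : em 1 0 = 0 := by simp [em]
  have e1 : em 1 1 = 1 := by simp [em]
  have e2 : em 1 2 = 0 := by simp [em]
  have e3 : em 1 3 = 0 := by simp [em]
  have e4 : em 1 4 = 0 := by simp [em]
  have e5 : em 1 5 = 0 := by simp [em]
  have e6 : em 1 6 = 0 := by simp [em]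
  have e7 : em 1 7 = 0 := by simp [em]
  have e8 : em 1 8 = 0 := by simp [em]
  have e9 : em 1 9 = 0 := by simp [em]
  have e10 : em 1 10 = 0 := by simp [em]
  rw [mmF_0, mm0]
  simp only [w, e0, e1, e2, e3, e4, e5, e6, e7, e8, e9, e10]
  ring

theorem me_1_1 (y : V11) : mmF (em 1) y 1 = 0 := by
  have e0 : em 1 0 = 0 := by simp [em]
  have e1 : em 1 1 = 1 := by simp [em]
  have e2 : em 1 2 = 0 := by simp [em]
  have e3 : em 1 3 = 0 := by simp [em]
  have e4 : em 1 4 = 0 := by simp [em]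
  have e5 : em 1 5 = 0 := by simp [em]
  have e6 : em 1 6 = 0 := by simp [em]
  have e7 : em 1 7 = 0 := by simp [em]
  have e8 : em 1 8 = 0 := by simp [em]
  have e9 : em 1 9 = 0 := by simp [em]
  have e10 : em 1 10 = 0 := by simp [em]
  rw [mmF_1, mm1]
  simp only [w, e0, e1, e2, e3, e4, e5, e6, e7, e8, e9, e10]
  ring

theorem me_1_2 (y : V11) : mmF (em 1) y 2 = -2 * k * y 0 := by
  have e0 : em 1 0 = 0 := by simp [em]
  have e1 : em 1 1 = 1 := by simp [em]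
  have e2 : em 1 2 = 0 := by simp [em]
  have e3 : em 1 3 = 0 := by simp [em]
  have e4 : em 1 4 = 0 := by simp [em]
  have e5 : em 1 5 = 0 := by simp [em]
  have e6 : em 1 6 = 0 := by simp [em]
  have e7 : em 1 7 = 0 := by simp [em]
  have e8 : em 1 8 = 0 := by simp [em]
  have e9 : em 1 9 = 0 := by simp [em]
  have e10 : em 1 10 = 0 := by simp [em]
  rw [mmF_2, mm2]
  simp only [w, e0, e1, e2, e3, e4, e5, e6, e7, e8, e9, e10]
  ring

theorem me_1_3 (y : V11) : mmF (em 1) y 3 = y 10 := by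
  have e0 : em 1 0 = 0 := by simp [em]
  have e1 : em 1 1 = 1 := by simp [em]
  have e2 : em 1 2 = 0 := by simp [em]
  have e3 : em 1 3 = 0 := by simp [em]
  have e4 : em 1 4 = 0 := by simp [em]
  have e5 : em 1 5 = 0 := by simp [em]
  have e6 : em 1 6 = 0 := by simp [em]
  have e7 : em 1 7 = 0 := by simp [em]
  have e8 : em 1 8 = 0 := by simp [em]
  have e9 : em 1 9 = 0 := by simp [em]
  have e10 : em 1 10 = 0 := by simp [em]
  rw [mmF_3, mm3]
  simp only [w, e0, e1, e2, e3, e4, e5, e6, e7, e8, e9, e10]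
  ring

theorem me_1_4 (y : V11) : mmF (em 1) y 4 = -y 9 := by
  have e0 : em 1 0 = 0 := by simp [em]
  have e1 : em 1 1 = 1 := by simp [em]
  have e2 : em 1 2 = 0 := by simp [em]
  have e3 : em 1 3 = 0 := by simp [em]
  have e4 : em 1 4 = 0 := by simp [em]
  have e5 : em 1 5 = 0 := by simp [em]
  have e6 : em 1 6 = 0 := by simp [em]
  have e7 : em 1 7 = 0 := by simp [em]
  have e8 : em 1 8 = 0 := by simp [em]
  have e9 : em 1 9 = 0 := by simp [em]
  have e10 : em 1 10 = 0 := by simp [em]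
  rw [mmF_4, mm4]
  simp only [w, e0, e1, e2, e3, e4, e5, e6, e7, e8, e9, e10]
  ring

theorem me_1_5 (y : V11) : mmF (em 1) y 5 = y 8 := by
  have e0 : em 1 0 = 0 := by simp [em]
  have e1 : em 1 1 = 1 := by simp [em]
  have e2 : em 1 2 = 0 := by simp [em]
  have e3 : em 1 3 = 0 := by simp [em]
  have e4 : em 1 4 = 0 := by simp [em]
  have e5 : em 1 5 = 0 := by simp [em]
  have e6 : em 1 6 = 0 := by simp [em]
  have e7 : em 1 7 = 0 := by simp [em]
  have e8 : em 1 8 = 0 := by simp [em]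
  have e9 : em 1 9 = 0 := by simp [em]
  have e10 : em 1 10 = 0 := by simp [em]
  rw [mmF_5, mm5]
  simp only [w, e0, e1, e2, e3, e4, e5, e6, e7, e8, e9, e10]
  ring

theorem me_1_6 (y : V11) : mmF (em 1) y 6 = -y 7 := by
  have e0 : em 1 0 = 0 := by simp [em]
  have e1 : em 1 1 = 1 := by simp [em]
  have e2 : em 1 2 = 0 := by simp [em]
  have e3 : em 1 3 = 0 := by simp [em]
  have e4 : em 1 4 = 0 := by simp [em]
  have e5 : em 1 5 = 0 := by simp [em]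
  have e6 : em 1 6 = 0 := by simp [em]
  have e7 : em 1 7 = 0 := by simp [em]
  have e8 : em 1 8 = 0 := by simp [em]
  have e9 : em 1 9 = 0 := by simp [em]
  have e10 : em 1 10 = 0 := by simp [em]
  rw [mmF_6, mm6]
  simp only [w, e0, e1, e2, e3, e4, e5, e6, e7, e8, e9, e10]
  ring

theorem me_1_7 (y : V11) : mmF (em 1) y 7 = 2 * k * y 9 + y 6 := by
  have e0 : em 1 0 = 0 := by simp [em]
  have e1 : em 1 1 = 1 := by simp [em]
  have e2 : em 1 2 = 0 := by simp [em]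
  have e3 : em 1 3 = 0 := by simp [em]
  have e4 : em 1 4 = 0 := by simp [em]
  have e5 : em 1 5 = 0 := by simp [em]
  have e6 : em 1 6 = 0 := by simp [em]
  have e7 : em 1 7 = 0 := by simp [em]
  have e8 : em 1 8 = 0 := by simp [em]
  have e9 : em 1 9 = 0 := by simp [em]
  have e10 : em 1 10 = 0 := by simp [em]
  rw [mmF_7, mm7]
  simp only [w, e0, e1, e2, e3, e4, e5, e6, e7, e8, e9, e10]
  ring

theorem me_1_8 (y : V11) : mmF (em 1) y 8 = 2 * k * y 10 - y 5 := by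
  have e0 : em 1 0 = 0 := by simp [em]
  have e1 : em 1 1 = 1 := by simp [em]
  have e2 : em 1 2 = 0 := by simp [em]
  have e3 : em 1 3 = 0 := by simp [em]
  have e4 : em 1 4 = 0 := by simp [em]
  have e5 : em 1 5 = 0 := by simp [em]
  have e6 : em 1 6 = 0 := by simp [em]
  have e7 : em 1 7 = 0 := by simp [em]
  have e8 : em 1 8 = 0 := by simp [em]
  have e9 : em 1 9 = 0 := by simp [em]
  have e10 : em 1 10 = 0 := by simp [em]
  rw [mmF_8, mm8]
  simp only [w, e0, e1, e2, e3, e4, e5, e6, e7, e8, e9, e10]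
  ring

theorem me_1_9 (y : V11) : mmF (em 1) y 9 = -2 * k * y 7 + y 4 := by
  have e0 : em 1 0 = 0 := by simp [em]
  have e1 : em 1 1 = 1 := by simp [em]
  have e2 : em 1 2 = 0 := by simp [em]
  have e3 : em 1 3 = 0 := by simp [em]
  have e4 : em 1 4 = 0 := by simp [em]
  have e5 : em 1 5 = 0 := by simp [em]
  have e6 : em 1 6 = 0 := by simp [em]
  have e7 : em 1 7 = 0 := by simp [em]
  have e8 : em 1 8 = 0 := by simp [em]
  have e9 : em 1 9 = 0 := by simp [em]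
  have e10 : em 1 10 = 0 := by simp [em]
  rw [mmF_9, mm9]
  simp only [w, e0, e1, e2, e3, e4, e5, e6, e7, e8, e9, e10]
  ring

theorem me_1_10 (y : V11) : mmF (em 1) y 10 = -2 * k * y 8 - y 3 := by
  have e0 : em 1 0 = 0 := by simp [em]
  have e1 : em 1 1 = 1 := by simp [em]
  have e2 : em 1 2 = 0 := by simp [em]
  have e3 : em 1 3 = 0 := by simp [em]
  have e4 : em 1 4 = 0 := by simp [em]
  have e5 : em 1 5 = 0 := by simp [em]
  have e6 : em 1 6 = 0 := by simp [em]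
  have e7 : em 1 7 = 0 := by simp [em]
  have e8 : em 1 8 = 0 := by simp [em]
  have e9 : em 1 9 = 0 := by simp [em]
  have e10 : em 1 10 = 0 := by simp [em]
  rw [mmF_10, mm10]
  simp only [w, e0, e1, e2, e3, e4, e5, e6, e7, e8, e9, e10]
  ring

theorem me_2_0 (y : V11) : mmF (em 2) y 0 = -2 * k * y 1 := by
  have e0 : em 2 0 = 0 := by simp [em]
  have e1 : em 2 1 = 0 := by simp [em]
  have e2 : em 2 2 = 1 := by simp [em]
  have e3 : em 2 3 = 0 := by simp [em]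
  have e4 : em 2 4 = 0 := by simp [em]
  have e5 : em 2 5 = 0 := by simp [em]
  have e6 : em 2 6 = 0 := by simp [em]
  have e7 : em 2 7 = 0 := by simp [em]
  have e8 : em 2 8 = 0 := by simp [em]
  have e9 : em 2 9 = 0 := by simp [em]
  have e10 : em 2 10 = 0 := by simp [em]
  rw [mmF_0, mm0]
  simp only [w, e0, e1, e2, e3, e4, e5, e6, e7, e8, e9, e10]
  ring

theorem me_2_1 (y : V11) : mmF (em 2) y 1 = 2 * k * y 0 := by
  have e0 : em 2 0 = 0 := by simp [em]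
  have e1 : em 2 1 = 0 := by simp [em]
  have e2 : em 2 2 = 1 := by simp [em]
  have e3 : em 2 3 = 0 := by simp [em]
  have e4 : em 2 4 = 0 := by simp [em]
  have e5 : em 2 5 = 0 := by simp [em]
  have e6 : em 2 6 = 0 := by simp [em]
  have e7 : em 2 7 = 0 := by simp [em]
  have e8 : em 2 8 = 0 := by simp [em]
  have e9 : em 2 9 = 0 := by simp [em]
  have e10 : em 2 10 = 0 := by simp [em]
  rw [mmF_1, mm1]
  simp only [w, e0, e1, e2, e3, e4, e5, e6, e7, e8, e9, e10]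
  ring

theorem me_2_2 (y : V11) : mmF (em 2) y 2 = 0 := by
  have e0 : em 2 0 = 0 := by simp [em]
  have e1 : em 2 1 = 0 := by simp [em]
  have e2 : em 2 2 = 1 := by simp [em]
  have e3 : em 2 3 = 0 := by simp [em]
  have e4 : em 2 4 = 0 := by simp [em]
  have e5 : em 2 5 = 0 := by simp [em]
  have e6 : em 2 6 = 0 := by simp [em]
  have e7 : em 2 7 = 0 := by simp [em]
  have e8 : em 2 8 = 0 := by simp [em]
  have e9 : em 2 9 = 0 := by simp [em]
  have e10 : em 2 10 = 0 := by simp [em]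
  rw [mmF_2, mm2]
  simp only [w, e0, e1, e2, e3, e4, e5, e6, e7, e8, e9, e10]
  ring

theorem me_2_3 (y : V11) : mmF (em 2) y 3 = -y 9 := by
  have e0 : em 2 0 = 0 := by simp [em]
  have e1 : em 2 1 = 0 := by simp [em]
  have e2 : em 2 2 = 1 := by simp [em]
  have e3 : em 2 3 = 0 := by simp [em]
  have e4 : em 2 4 = 0 := by simp [em]
  have e5 : em 2 5 = 0 := by simp [em]
  have e6 : em 2 6 = 0 := by simp [em]
  have e7 : em 2 7 = 0 := by simp [em]
  have e8 : em 2 8 = 0 := by simp [em]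
  have e9 : em 2 9 = 0 := by simp [em]
  have e10 : em 2 10 = 0 := by simp [em]
  rw [mmF_3, mm3]
  simp only [w, e0, e1, e2, e3, e4, e5, e6, e7, e8, e9, e10]
  ring

theorem me_2_4 (y : V11) : mmF (em 2) y 4 = -y 10 := by
  have e0 : em 2 0 = 0 := by simp [em]
  have e1 : em 2 1 = 0 := by simp [em]
  have e2 : em 2 2 = 1 := by simp [em]
  have e3 : em 2 3 = 0 := by simp [em]
  have e4 : em 2 4 = 0 := by simp [em]
  have e5 : em 2 5 = 0 := by simp [em]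
  have e6 : em 2 6 = 0 := by simp [em]
  have e7 : em 2 7 = 0 := by simp [em]
  have e8 : em 2 8 = 0 := by simp [em]
  have e9 : em 2 9 = 0 := by simp [em]
  have e10 : em 2 10 = 0 := by simp [em]
  rw [mmF_4, mm4]
  simp only [w, e0, e1, e2, e3, e4, e5, e6, e7, e8, e9, e10]
  ring

theorem me_2_5 (y : V11) : mmF (em 2) y 5 = y 7 := by
  have e0 : em 2 0 = 0 := by simp [em]
  have e1 : em 2 1 = 0 := by simp [em]
  have e2 : em 2 2 = 1 := by simp [em]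
  have e3 : em 2 3 = 0 := by simp [em]
  have e4 : em 2 4 = 0 := by simp [em]
  have e5 : em 2 5 = 0 := by simp [em]
  have e6 : em 2 6 = 0 := by simp [em]
  have e7 : em 2 7 = 0 := by simp [em]
  have e8 : em 2 8 = 0 := by simp [em]
  have e9 : em 2 9 = 0 := by simp [em]
  have e10 : em 2 10 = 0 := by simp [em]
  rw [mmF_5, mm5]
  simp only [w, e0, e1, e2, e3, e4, e5, e6, e7, e8, e9, e10]
  ring

theorem me_2_6 (y : V11) : mmF (em 2) y 6 = y 8 := by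
  have e0 : em 2 0 = 0 := by simp [em]
  have e1 : em 2 1 = 0 := by simp [em]
  have e2 : em 2 2 = 1 := by simp [em]
  have e3 : em 2 3 = 0 := by simp [em]
  have e4 : em 2 4 = 0 := by simp [em]
  have e5 : em 2 5 = 0 := by simp [em]
  have e6 : em 2 6 = 0 := by simp [em]
  have e7 : em 2 7 = 0 := by simp [em]
  have e8 : em 2 8 = 0 := by simp [em]
  have e9 : em 2 9 = 0 := by simp [em]
  have e10 : em 2 10 = 0 := by simp [em]
  rw [mmF_6, mm6]
  simp only [w, e0, e1, e2, e3, e4, e5, e6, e7, e8, e9, e10]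
  ring

theorem me_2_7 (y : V11) : mmF (em 2) y 7 = -2 * k * y 10 - y 5 := by
  have e0 : em 2 0 = 0 := by simp [em]
  have e1 : em 2 1 = 0 := by simp [em]
  have e2 : em 2 2 = 1 := by simp [em]
  have e3 : em 2 3 = 0 := by simp [em]
  have e4 : em 2 4 = 0 := by simp [em]
  have e5 : em 2 5 = 0 := by simp [em]
  have e6 : em 2 6 = 0 := by simp [em]
  have e7 : em 2 7 = 0 := by simp [em]
  have e8 : em 2 8 = 0 := by simp [em]
  have e9 : em 2 9 = 0 := by simp [em]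
  have e10 : em 2 10 = 0 := by simp [em]
  rw [mmF_7, mm7]
  simp only [w, e0, e1, e2, e3, e4, e5, e6, e7, e8, e9, e10]
  ring

theorem me_2_8 (y : V11) : mmF (em 2) y 8 = 2 * k * y 9 - y 6 := by
  have e0 : em 2 0 = 0 := by simp [em]
  have e1 : em 2 1 = 0 := by simp [em]
  have e2 : em 2 2 = 1 := by simp [em]
  have e3 : em 2 3 = 0 := by simp [em]
  have e4 : em 2 4 = 0 := by simp [em]
  have e5 : em 2 5 = 0 := by simp [em]
  have e6 : em 2 6 = 0 := by simp [em]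
  have e7 : em 2 7 = 0 := by simp [em]
  have e8 : em 2 8 = 0 := by simp [em]
  have e9 : em 2 9 = 0 := by simp [em]
  have e10 : em 2 10 = 0 := by simp [em]
  rw [mmF_8, mm8]
  simp only [w, e0, e1, e2, e3, e4, e5, e6, e7, e8, e9, e10]
  ring

theorem me_2_9 (y : V11) : mmF (em 2) y 9 = -2 * k * y 8 + y 3 := by
  have e0 : em 2 0 = 0 := by simp [em]
  have e1 : em 2 1 = 0 := by simp [em]
  have e2 : em 2 2 = 1 := by simp [em]
  have e3 : em 2 3 = 0 := by simp [em]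
  have e4 : em 2 4 = 0 := by simp [em]
  have e5 : em 2 5 = 0 := by simp [em]
  have e6 : em 2 6 = 0 := by simp [em]
  have e7 : em 2 7 = 0 := by simp [em]
  have e8 : em 2 8 = 0 := by simp [em]
  have e9 : em 2 9 = 0 := by simp [em]
  have e10 : em 2 10 = 0 := by simp [em]
  rw [mmF_9, mm9]
  simp only [w, e0, e1, e2, e3, e4, e5, e6, e7, e8, e9, e10]
  ring

theorem me_2_10 (y : V11) : mmF (em 2) y 10 = 2 * k * y 7 + y 4 := by
  have e0 : em 2 0 = 0 := by simp [em]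
  have e1 : em 2 1 = 0 := by simp [em]
  have e2 : em 2 2 = 1 := by simp [em]
  have e3 : em 2 3 = 0 := by simp [em]
  have e4 : em 2 4 = 0 := by simp [em]
  have e5 : em 2 5 = 0 := by simp [em]
  have e6 : em 2 6 = 0 := by simp [em]
  have e7 : em 2 7 = 0 := by simp [em]
  have e8 : em 2 8 = 0 := by simp [em]
  have e9 : em 2 9 = 0 := by simp [em]
  have e10 : em 2 10 = 0 := by simp [em]
  rw [mmF_10, mm10]
  simp only [w, e0, e1, e2, e3, e4, e5, e6, e7, e8, e9, e10]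
  ring

theorem JM_pol (m : Fin 3) (x y : V11) :
    ⟪M1 x, mmF (em m) y⟫ + ⟪M1 y, mmF (em m) x⟫ = 4 * k * cm (Tm x y) Dm (m + 1) (m + 2) := by
  rw [cm, Matrix.sub_apply, mul3, mul3, inner11, inner11]
  fin_cases m
  · change M1 x 0 * mmF (em 0) y 0 + M1 x 1 * mmF (em 0) y 1 + M1 x 2 * mmF (em 0) y 2 + M1 x 3 * mmF (em 0) y 3 + M1 x 4 * mmF (em 0) y 4 + M1 x 5 * mmF (em 0) y 5 + M1 x 6 * mmF (em 0) y 6 + M1 x 7 * mmF (em 0) y 7 + M1 x 8 * mmF (em 0) y 8 + M1 x 9 * mmF (em 0) y 9 + M1 x 10 * mmF (em 0) y 10 + (M1 y 0 * mmF (em 0) x 0 + M1 y 1 * mmF (em 0) x 1 + M1 y 2 * mmF (em 0) x 2 + M1 y 3 * mmF (em 0) x 3 + M1 y 4 * mmF (em 0) x 4 + M1 y 5 * mmF (em 0) x 5 + M1 y 6 * mmF (em 0) x 6 + M1 y 7 * mmF (em 0) x 7 + M1 y 8 * mmF (em 0) x 8 + M1 y 9 * mmF (em 0) x 9 + M1 y 10 * mmF (em 0) x 10) = 4 * k * ((Tm x y 1 0 * (0 : ℝ) + Tm x y 1 1 * (0 : ℝ) + Tm x y 1 2 * (-1 : ℝ)) - ((0 : ℝ) * Tm x y 0 2 +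 (0 : ℝ) * Tm x y 1 2 + (0 : ℝ) * Tm x y 2 2))
    simp only [M1_0, M1_1, M1_2, M1_3, M1_4, M1_5, M1_6, M1_7, M1_8, M1_9, M1_10, me_0_0, me_0_1, me_0_2, me_0_3, me_0_4, me_0_5, me_0_6, me_0_7, me_0_8, me_0_9, me_0_10,
      Tm_00, Tm_01, Tm_02, Tm_10, Tm_11, Tm_12, Tm_20, Tm_21, Tm_22]
    linear_combination (0) * k_sq'
  · change M1 x 0 * mmF (em 1) y 0 + M1 x 1 * mmF (em 1) y 1 + M1 x 2 * mmF (em 1) y 2 + M1 x 3 * mmF (em 1) y 3 + M1 x 4 * mmF (em 1) y 4 + M1 x 5 * mmF (em 1) y 5 + M1 x 6 * mmF (em 1) y 6 + M1 x 7 * mmF (em 1) y 7 + M1 x 8 * mmF (em 1) y 8 + M1 x 9 * mmF (em 1) y 9 + M1 x 10 * mmF (em 1) y 10 + (M1 y 0 * mmF (em 1) x 0 + M1 y 1 * mmF (em 1) x 1 + M1 y 2 * mmF (em 1) x 2 + M1 y 3 * mmF (em 1) x 3 + M1 y 4 * mmF (em 1) x 4 + M1 y 5 * mmF (em 1) x 5 + M1 y 6 * mmF (em 1) x 6 + M1 y 7 * mmF (em 1) x 7 + M1 y 8 * mmF (em 1) x 8 + M1 y 9 * mmF (em 1) x 9 + M1 y 10 * mmF (em 1) x 10) =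 4 * k * ((Tm x y 2 0 * (1 : ℝ) + Tm x y 2 1 * (0 : ℝ) + Tm x y 2 2 * (0 : ℝ)) - ((0 : ℝ) * Tm x y 0 0 + (0 : ℝ) * Tm x y 1 0 + (-1 : ℝ) * Tm x y 2 0))
    simp only [M1_0, M1_1, M1_2, M1_3, M1_4, M1_5, M1_6, M1_7, M1_8, M1_9, M1_10, me_1_0, me_1_1, me_1_2, me_1_3, me_1_4, me_1_5, me_1_6, me_1_7, me_1_8, me_1_9, me_1_10,
      Tm_00, Tm_01, Tm_02, Tm_10, Tm_11, Tm_12, Tm_20, Tm_21, Tm_22]
    linear_combination (12 * x 10 * y 3 + 12 * x 3 * y 10 - 12 * x 4 * y 9 + 12 * x 5 * y 8 - 12 * x 6 * y 7 - 12 * x 7 * y 6 + 12 * x 8 * y 5 - 12 * x 9 * y 4) * k_sq'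
  · change M1 x 0 * mmF (em 2) y 0 + M1 x 1 * mmF (em 2) y 1 + M1 x 2 * mmF (em 2) y 2 + M1 x 3 * mmF (em 2) y 3 + M1 x 4 * mmF (em 2) y 4 + M1 x 5 * mmF (em 2) y 5 + M1 x 6 * mmF (em 2) y 6 + M1 x 7 * mmF (em 2) y 7 + M1 x 8 * mmF (em 2) y 8 + M1 x 9 * mmF (em 2) y 9 + M1 x 10 * mmF (em 2) y 10 + (M1 y 0 * mmF (em 2) x 0 + M1 y 1 * mmF (em 2) x 1 + M1 y 2 * mmF (em 2) x 2 + M1 y 3 * mmF (em 2) x 3 + M1 y 4 * mmF (em 2) x 4 + M1 y 5 * mmF (em 2) x 5 + M1 y 6 * mmF (em 2) x 6 + M1 y 7 * mmF (em 2) x 7 + M1 y 8 * mmF (em 2) x 8 + M1 y 9 * mmF (em 2) x 9 + M1 y 10 * mmF (em 2) x 10) = 4 * k * ((Tm x y 0 0 * (0 : ℝ) + Tm x y 0 1 * (0 : ℝ) + Tm x y 0 2 * (0 : ℝ)) - ((1 : ℝ) * Tm x y 0 1 + (0 : ℝ) * Tm x y 1 1 + (0 : ℝ) * Tm x y 2 1))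
    simp only [M1_0, M1_1, M1_2, M1_3, M1_4, M1_5, M1_6, M1_7, M1_8, M1_9, M1_10, me_2_0, me_2_1, me_2_2, me_2_3, me_2_4, me_2_5, me_2_6, me_2_7, me_2_8, me_2_9, me_2_10,
      Tm_00, Tm_01, Tm_02, Tm_10, Tm_11, Tm_12, Tm_20, Tm_21, Tm_22]
    linear_combination (-12 * x 10 * y 4 - 12 * x 3 * y 9 - 12 * x 4 * y 10 + 12 * x 5 * y 7 + 12 * x 6 * y 8 + 12 * x 7 * y 5 + 12 * x 8 * y 6 - 12 * x 9 * y 3) * k_sq'

end G2F
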