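import Pool.Agent.G2F.JM

/-! MODULE JW: the polarised formulas for `W a` (generated). -/

namespace G2F

open HFinG
open scoped RealInnerProductSpace Matrix

set_option linter.unusedSimpArgs false

theorem mulvv (M : Matrix (Fin 3) (Fin 3) ℝ) (a : Fin 3) :
    (M *ᵥ vv) a = M a 0 + M a 1 + M a 2 := by
  rw [Matrix.mulVec, dotProduct, Fin.sum_univ_three]
  simp [vv]

theorem gW (a : Fin 3) (x y : V11) : 2 * ⟪Wm a x, y⟫ = (Tm x y *ᵥ vv) a := by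
  rw [mulvv, inner11]
  fin_cases a
  · change 2 * (W1 x 0 * y 0 + W1 x 1 * y 1 + W1 x 2 * y 2 + W1 x 3 * y 3 + W1 x 4 * y 4 + W1 x 5 * y 5 + W1 x 6 * y 6 + W1 x 7 * y 7 + W1 x 8 * y 8 + W1 x 9 * y 9 + W1 x 10 * y 10) = Tm x y 0 0 + Tm x y 0 1 + Tm x y 0 2
    simp only [W1_0, W1_1, W1_2, W1_3, W1_4, W1_5, W1_6, W1_7, W1_8, W1_9, W1_10,
      Tm_00, Tm_01, Tm_02, Tm_10, Tm_11, Tm_12, Tm_20, Tm_21, Tm_22]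
    linear_combination (-8 * x 10 * y 10 - 8 * x 7 * y 7 - 8 * x 8 * y 8 - 8 * x 9 * y 9) * k_sq'
  · change 2 * (W2 x 0 * y 0 + W2 x 1 * y 1 + W2 x 2 * y 2 + W2 x 3 * y 3 + W2 x 4 * y 4 + W2 x 5 * y 5 + W2 x 6 * y 6 + W2 x 7 * y 7 + W2 x 8 * y 8 + W2 x 9 * y 9 + W2 x 10 * y 10) = Tm x y 1 0 + Tm x y 1 1 + Tm x y 1 2
    simp only [W2_0, W2_1, W2_2, W2_3, W2_4, W2_5, W2_6, W2_7, W2_8, W2_9, W2_10,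
      Tm_00, Tm_01, Tm_02, Tm_10, Tm_11, Tm_12, Tm_20, Tm_21, Tm_22]
    linear_combination (-2 * x 10 * y 10 - 2 * x 7 * y 7 - 2 * x 8 * y 8 - 2 * x 9 * y 9) * k_sq'
  · change 2 * (W3 x 0 * y 0 + W3 x 1 * y 1 + W3 x 2 * y 2 + W3 x 3 * y 3 + W3 x 4 * y 4 + W3 x 5 * y 5 + W3 x 6 * y 6 + W3 x 7 * y 7 + W3 x 8 * y 8 + W3 x 9 * y 9 + W3 x 10 * y 10) = Tm x y 2 0 + Tm x y 2 1 + Tm x y 2 2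
    simp only [W3_0, W3_1, W3_2, W3_3, W3_4, W3_5, W3_6, W3_7, W3_8, W3_9, W3_10,
      Tm_00, Tm_01, Tm_02, Tm_10, Tm_11, Tm_12, Tm_20, Tm_21, Tm_22]
    linear_combination (-2 * x 10 * y 10 - 2 * x 7 * y 7 - 2 * x 8 * y 8 - 2 * x 9 * y 9) * k_sq'

theorem jw_00 (x y : V11) : W1 x 0 * mmF (em 0) y 0 + W1 x 1 * mmF (em 0) y 1 + W1 x 2 * mmF (em 0) y 2 + W1 x 3 * mmF (em 0) y 3 + W1 x 4 * mmF (em 0) y 4 + W1 x 5 * mmF (em 0) y 5 + W1 x 6 * mmF (em 0) y 6 + W1 x 7 * mmF (em 0) y 7 + W1 x 8 * mmF (em 0) y 8 + W1 x 9 * mmF (em 0) y 9 + W1 x 10 * mmF (em 0) y 10 + (W1 y 0 * mmF (em 0) x 0 + W1 y 1 * mmF (em 0) x 1 + W1 y 2 * mmF (em 0) x 2 + W1 y 3 * mmF (em 0) x 3 + W1 y 4 * mmF (em 0) x 4 + W1 y 5 * mmF (em 0) x 5 + W1 y 6 * mmF (em 0) x 6 + W1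 y 7 * mmF (em 0) x 7 + W1 y 8 * mmF (em 0) x 8 + W1 y 9 * mmF (em 0) x 9 + W1 y 10 * mmF (em 0) x 10) =
    k * ((((0 : ℝ) * Tm x y 0 0 + (0 : ℝ) * Tm x y 1 0 + (0 : ℝ) * Tm x y 2 0) - (Tm x y 0 0 * (0 : ℝ) + Tm x y 0 1 * (0 : ℝ) + Tm x y 0 2 * (0 : ℝ))) + (((0 : ℝ) * Tm x y 0 1 + (0 : ℝ) * Tm x y 1 1 + (0 : ℝ) * Tm x y 2 1) - (Tm x y 0 0 * (0 : ℝ) + Tm x y 0 1 * (0 : ℝ) + Tm x y 0 2 * (1 : ℝ))) + (((0 : ℝ) * Tm x y 0 2 + (0 : ℝ) * Tm x y 1 2 + (0 : ℝ) * Tm x y 2 2) - (Tm x y 0 0 * (0 : ℝ) + Tm x y 0 1 * (-1 : ℝ) + Tm x y 0 2 * (0 : ℝ)))) := by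
  simp only [W1_0, W1_1, W1_2, W1_3, W1_4, W1_5, W1_6, W1_7, W1_8, W1_9, W1_10, me_0_0, me_0_1, me_0_2, me_0_3, me_0_4, me_0_5, me_0_6, me_0_7, me_0_8, me_0_9, me_0_10,
      Tm_00, Tm_01, Tm_02, Tm_10, Tm_11, Tm_12, Tm_20, Tm_21, Tm_22]
  linear_combination (0) * k_sq'

theorem jw_01 (x y : V11) : W2 x 0 * mmF (em 0) y 0 + W2 x 1 * mmF (em 0) y 1 + W2 x 2 * mmF (em 0) y 2 + W2 x 3 * mmF (em 0) y 3 + W2 x 4 * mmF (em 0) y 4 + W2 x 5 * mmF (em 0) y 5 + W2 x 6 * mmF (em 0) y 6 + W2 x 7 * mmF (em 0) y 7 + W2 x 8 * mmF (em 0) y 8 + W2 x 9 * mmF (em 0) y 9 + W2 x 10 * mmF (em 0) y 10 + (W2 y 0 * mmF (em 0) x 0 + W2 y 1 * mmF (em 0) x 1 + W2 y 2 * mmF (em 0) x 2 + W2 y 3 * mmF (em 0) x 3 + W2 y 4 * mmF (em 0) x 4 + W2 y 5 * mmF (em 0) x 5 + W2 y 6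 * mmF (em 0) x 6 + W2 y 7 * mmF (em 0) x 7 + W2 y 8 * mmF (em 0) x 8 + W2 y 9 * mmF (em 0) x 9 + W2 y 10 * mmF (em 0) x 10) =
    k * ((((0 : ℝ) * Tm x y 0 0 + (0 : ℝ) * Tm x y 1 0 + (-1 : ℝ) * Tm x y 2 0) - (Tm x y 1 0 * (0 : ℝ) + Tm x y 1 1 * (0 : ℝ) + Tm x y 1 2 * (0 : ℝ))) + (((0 : ℝ) * Tm x y 0 1 + (0 : ℝ) * Tm x y 1 1 + (-1 : ℝ) * Tm x y 2 1) - (Tm x y 1 0 * (0 : ℝ) + Tm x y 1 1 * (0 : ℝ) + Tm x y 1 2 * (1 : ℝ))) + (((0 : ℝ) * Tm x y 0 2 + (0 : ℝ) * Tm x y 1 2 + (-1 : ℝ) * Tm x y 2 2) - (Tm x y 1 0 * (0 : ℝ) + Tm x y 1 1 * (-1 : ℝ) + Tm x y 1 2 * (0 : ℝ)))) := by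
  simp only [W2_0, W2_1, W2_2, W2_3, W2_4, W2_5, W2_6, W2_7, W2_8, W2_9, W2_10, me_0_0, me_0_1, me_0_2, me_0_3, me_0_4, me_0_5, me_0_6, me_0_7, me_0_8, me_0_9, me_0_10,
      Tm_00, Tm_01, Tm_02, Tm_10, Tm_11, Tm_12, Tm_20, Tm_21, Tm_22]
  linear_combination (0) * k_sq'

theorem jw_02 (x y : V11) : W3 x 0 * mmF (em 0) y 0 + W3 x 1 * mmF (em 0) y 1 + W3 x 2 * mmF (em 0) y 2 + W3 x 3 * mmF (em 0) y 3 + W3 x 4 * mmF (em 0) y 4 + W3 x 5 * mmF (em 0) y 5 + W3 x 6 * mmF (em 0) y 6 + W3 x 7 * mmF (em 0) y 7 + W3 x 8 * mmF (em 0) y 8 + W3 x 9 * mmF (em 0) y 9 + W3 x 10 * mmF (em 0) y 10 + (W3 y 0 * mmF (em 0) x 0 + W3 y 1 * mmF (em 0) x 1 + W3 y 2 * mmF (em 0) x 2 + W3 y 3 * mmF (em 0) x 3 + W3 y 4 * mmF (em 0) x 4 + W3 y 5 * mmF (em 0) x 5 + W3 y 6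 * mmF (em 0) x 6 + W3 y 7 * mmF (em 0) x 7 + W3 y 8 * mmF (em 0) x 8 + W3 y 9 * mmF (em 0) x 9 + W3 y 10 * mmF (em 0) x 10) =
    k * ((((0 : ℝ) * Tm x y 0 0 + (1 : ℝ) * Tm x y 1 0 + (0 : ℝ) * Tm x y 2 0) - (Tm x y 2 0 * (0 : ℝ) + Tm x y 2 1 * (0 : ℝ) + Tm x y 2 2 * (0 : ℝ))) + (((0 : ℝ) * Tm x y 0 1 + (1 : ℝ) * Tm x y 1 1 + (0 : ℝ) * Tm x y 2 1) - (Tm x y 2 0 * (0 : ℝ) + Tm x y 2 1 * (0 : ℝ) + Tm x y 2 2 * (1 : ℝ))) + (((0 : ℝ) * Tm x y 0 2 + (1 : ℝ) * Tm x y 1 2 + (0 : ℝ) * Tm x y 2 2) - (Tm x y 2 0 * (0 : ℝ) + Tm x y 2 1 * (-1 : ℝ) + Tm x y 2 2 * (0 : ℝ)))) := by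
  simp only [W3_0, W3_1, W3_2, W3_3, W3_4, W3_5, W3_6, W3_7, W3_8, W3_9, W3_10, me_0_0, me_0_1, me_0_2, me_0_3, me_0_4, me_0_5, me_0_6, me_0_7, me_0_8, me_0_9, me_0_10,
      Tm_00, Tm_01, Tm_02, Tm_10, Tm_11, Tm_12, Tm_20, Tm_21, Tm_22]
  linear_combination (0) * k_sq'

theorem jw_10 (x y : V11) : W1 x 0 * mmF (em 1) y 0 + W1 x 1 * mmF (em 1) y 1 + W1 x 2 * mmF (em 1) y 2 + W1 x 3 * mmF (em 1) y 3 + W1 x 4 * mmF (em 1) y 4 + W1 x 5 * mmF (em 1) y 5 + W1 x 6 * mmF (em 1) y 6 + W1 x 7 * mmF (em 1) y 7 + W1 x 8 * mmF (em 1) y 8 + W1 x 9 * mmF (em 1) y 9 + W1 x 10 * mmF (em 1) y 10 + (W1 y 0 * mmF (em 1) x 0 + W1 y 1 * mmF (em 1) x 1 + W1 y 2 * mmF (em 1) x 2 + W1 y 3 * mmF (em 1) x 3 + W1 y 4 * mmF (em 1) x 4 + W1 y 5 * mmF (em 1) x 5 + W1 y 6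 * mmF (em 1) x 6 + W1 y 7 * mmF (em 1) x 7 + W1 y 8 * mmF (em 1) x 8 + W1 y 9 * mmF (em 1) x 9 + W1 y 10 * mmF (em 1) x 10) =
    k * ((((0 : ℝ) * Tm x y 0 0 + (0 : ℝ) * Tm x y 1 0 + (1 : ℝ) * Tm x y 2 0) - (Tm x y 0 0 * (0 : ℝ) + Tm x y 0 1 * (0 : ℝ) + Tm x y 0 2 * (-1 : ℝ))) + (((0 : ℝ) * Tm x y 0 1 + (0 : ℝ) * Tm x y 1 1 + (1 : ℝ) * Tm x y 2 1) - (Tm x y 0 0 * (0 : ℝ) + Tm x y 0 1 * (0 : ℝ) + Tm x y 0 2 * (0 : ℝ))) + (((0 : ℝ) * Tm x y 0 2 + (0 : ℝ) * Tm x y 1 2 + (1 : ℝ) * Tm x y 2 2) - (Tm x y 0 0 * (1 : ℝ) + Tm x y 0 1 * (0 : ℝ) + Tm x y 0 2 * (0 : ℝ)))) := by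
  simp only [W1_0, W1_1, W1_2, W1_3, W1_4, W1_5, W1_6, W1_7, W1_8, W1_9, W1_10, me_1_0, me_1_1, me_1_2, me_1_3, me_1_4, me_1_5, me_1_6, me_1_7, me_1_8, me_1_9, me_1_10,
      Tm_00, Tm_01, Tm_02, Tm_10, Tm_11, Tm_12, Tm_20, Tm_21, Tm_22]
  linear_combination (6 * k * x 10 * y 10 + 6 * k * x 7 * y 7 + 6 * k * x 8 * y 8 + 6 * k * x 9 * y 9 + 4 * x 10 * y 3 + 4 * x 3 * y 10 - 4 * x 4 * y 9 + 4 * x 5 * y 8 - 4 * x 6 * y 7 - 4 * x 7 * y 6 + 4 * x 8 * y 5 - 4 * x 9 * y 4) * k_sq'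

theorem jw_11 (x y : V11) : W2 x 0 * mmF (em 1) y 0 + W2 x 1 * mmF (em 1) y 1 + W2 x 2 * mmF (em 1) y 2 + W2 x 3 * mmF (em 1) y 3 + W2 x 4 * mmF (em 1) y 4 + W2 x 5 * mmF (em 1) y 5 + W2 x 6 * mmF (em 1) y 6 + W2 x 7 * mmF (em 1) y 7 + W2 x 8 * mmF (em 1) y 8 + W2 x 9 * mmF (em 1) y 9 + W2 x 10 * mmF (em 1) y 10 + (W2 y 0 * mmF (em 1) x 0 + W2 y 1 * mmF (em 1) x 1 + W2 y 2 * mmF (em 1) x 2 + W2 y 3 * mmF (em 1) x 3 + W2 y 4 * mmF (em 1) x 4 + W2 y 5 * mmF (em 1) x 5 + W2 y 6 * mmF (em 1) x 6 + W2 y 7 * mmF (em 1) x 7 + W2 y 8 * mmF (em 1) x 8 + W2 y 9 * mmF (em 1) x 9 + W2 y 10 * mmF (em 1) x 10) =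
    k * ((((0 : ℝ) * Tm x y 0 0 + (0 : ℝ) * Tm x y 1 0 + (0 : ℝ) * Tm x y 2 0) - (Tm x y 1 0 * (0 : ℝ) + Tm x y 1 1 * (0 : ℝ) + Tm x y 1 2 * (-1 : ℝ))) + (((0 : ℝ) * Tm x y 0 1 + (0 : ℝ) * Tm x y 1 1 + (0 : ℝ) * Tm x y 2 1) - (Tm x y 1 0 * (0 : ℝ) + Tm x y 1 1 * (0 : ℝ) + Tm x y 1 2 * (0 : ℝ))) + (((0 : ℝ) * Tm x y 0 2 + (0 : ℝ) * Tm x y 1 2 + (0 : ℝ) * Tm x y 2 2) - (Tm x y 1 0 * (1 : ℝ) + Tm x y 1 1 * (0 : ℝ) + Tm x y 1 2 * (0 : ℝ)))) := by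
  simp only [W2_0, W2_1, W2_2, W2_3, W2_4, W2_5, W2_6, W2_7, W2_8, W2_9, W2_10, me_1_0, me_1_1, me_1_2, me_1_3, me_1_4, me_1_5, me_1_6, me_1_7, me_1_8, me_1_9, me_1_10,
      Tm_00, Tm_01, Tm_02, Tm_10, Tm_11, Tm_12, Tm_20, Tm_21, Tm_22]
  linear_combination (-2 * x 10 * y 3 - 2 * x 3 * y 10 + 2 * x 4 * y 9 - 2 * x 5 * y 8 + 2 * x 6 * y 7 + 2 * x 7 * y 6 - 2 * x 8 * y 5 + 2 * x 9 * y 4) * k_sq'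

theorem jw_12 (x y : V11) : W3 x 0 * mmF (em 1) y 0 + W3 x 1 * mmF (em 1) y 1 + W3 x 2 * mmF (em 1) y 2 + W3 x 3 * mmF (em 1) y 3 + W3 x 4 * mmF (em 1) y 4 + W3 x 5 * mmF (em 1) y 5 + W3 x 6 * mmF (em 1) y 6 + W3 x 7 * mmF (em 1) y 7 + W3 x 8 * mmF (em 1) y 8 + W3 x 9 * mmF (em 1) y 9 + W3 x 10 * mmF (em 1) y 10 + (W3 y 0 * mmF (em 1) x 0 + W3 y 1 * mmF (em 1) x 1 + W3 y 2 * mmF (em 1) x 2 + W3 y 3 * mmF (em 1) x 3 + W3 y 4 * mmF (em 1) x 4 + W3 y 5 * mmF (em 1) x 5 + W3 y 6 * mmF (em 1) x 6 + W3 y 7 * mmF (em 1) x 7 + W3 y 8 * mmF (em 1) x 8 + W3 y 9 * mmF (em 1) x 9 + W3 y 10 * mmF (em 1) x 10) =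
    k * ((((-1 : ℝ) * Tm x y 0 0 + (0 : ℝ) * Tm x y 1 0 + (0 : ℝ) * Tm x y 2 0) - (Tm x y 2 0 * (0 : ℝ) + Tm x y 2 1 * (0 : ℝ) + Tm x y 2 2 * (-1 : ℝ))) + (((-1 : ℝ) * Tm x y 0 1 + (0 : ℝ) * Tm x y 1 1 + (0 : ℝ) * Tm x y 2 1) - (Tm x y 2 0 * (0 : ℝ) + Tm x y 2 1 * (0 : ℝ) + Tm x y 2 2 * (0 : ℝ))) + (((-1 : ℝ) * Tm x y 0 2 + (0 : ℝ) * Tm x y 1 2 + (0 : ℝ) * Tm x y 2 2) - (Tm x y 2 0 * (1 : ℝ) + Tm x y 2 1 * (0 : ℝ) + Tm x y 2 2 * (0 : ℝ)))) := by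
  simp only [W3_0, W3_1, W3_2, W3_3, W3_4, W3_5, W3_6, W3_7, W3_8, W3_9, W3_10, me_1_0, me_1_1, me_1_2, me_1_3, me_1_4, me_1_5, me_1_6, me_1_7, me_1_8, me_1_9, me_1_10,
      Tm_00, Tm_01, Tm_02, Tm_10, Tm_11, Tm_12, Tm_20, Tm_21, Tm_22]
  linear_combination (6 * k * x 10 * y 10 + 6 * k * x 7 * y 7 + 6 * k * x 8 * y 8 + 6 * k * x 9 * y 9 - 2 * x 10 * y 3 - 2 * x 3 * y 10 + 2 * x 4 * y 9 - 2 * x 5 * y 8 + 2 * x 6 * y 7 + 2 * x 7 * y 6 - 2 * x 8 * y 5 + 2 * x 9 * y 4) * k_sq'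

theorem jw_20 (x y : V11) : W1 x 0 * mmF (em 2) y 0 + W1 x 1 * mmF (em 2) y 1 + W1 x 2 * mmF (em 2) y 2 + W1 x 3 * mmF (em 2) y 3 + W1 x 4 * mmF (em 2) y 4 + W1 x 5 * mmF (em 2) y 5 + W1 x 6 * mmF (em 2) y 6 + W1 x 7 * mmF (em 2) y 7 + W1 x 8 * mmF (em 2) y 8 + W1 x 9 * mmF (em 2) y 9 + W1 x 10 * mmF (em 2) y 10 + (W1 y 0 * mmF (em 2) x 0 + W1 y 1 * mmF (em 2) x 1 + W1 y 2 * mmF (em 2) x 2 + W1 y 3 * mmF (em 2) x 3 + W1 y 4 * mmF (em 2) x 4 + W1 y 5 * mmF (em 2) x 5 + W1 y 6 * mmF (em 2) x 6 + W1 y 7 * mmF (em 2) x 7 + W1 y 8 * mmF (em 2) x 8 + W1 y 9 * mmF (em 2) x 9 + W1 y 10 * mmF (em 2) x 10) =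
    k * ((((0 : ℝ) * Tm x y 0 0 + (-1 : ℝ) * Tm x y 1 0 + (0 : ℝ) * Tm x y 2 0) - (Tm x y 0 0 * (0 : ℝ) + Tm x y 0 1 * (1 : ℝ) + Tm x y 0 2 * (0 : ℝ))) + (((0 : ℝ) * Tm x y 0 1 + (-1 : ℝ) * Tm x y 1 1 + (0 : ℝ) * Tm x y 2 1) - (Tm x y 0 0 * (-1 : ℝ) + Tm x y 0 1 * (0 : ℝ) + Tm x y 0 2 * (0 : ℝ))) + (((0 : ℝ) * Tm x y 0 2 + (-1 : ℝ) * Tm x y 1 2 + (0 : ℝ) * Tm x y 2 2) - (Tm x y 0 0 * (0 : ℝ) + Tm x y 0 1 * (0 : ℝ) + Tm x y 0 2 * (0 : ℝ)))) := by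
  simp only [W1_0, W1_1, W1_2, W1_3, W1_4, W1_5, W1_6, W1_7, W1_8, W1_9, W1_10, me_2_0, me_2_1, me_2_2, me_2_3, me_2_4, me_2_5, me_2_6, me_2_7, me_2_8, me_2_9, me_2_10,
      Tm_00, Tm_01, Tm_02, Tm_10, Tm_11, Tm_12, Tm_20, Tm_21, Tm_22]
  linear_combination (-6 * k * x 10 * y 10 - 6 * k * x 7 * y 7 - 6 * k * x 8 * y 8 - 6 * k * x 9 * y 9 - 4 * x 10 * y 4 - 4 * x 3 * y 9 - 4 * x 4 * y 10 + 4 * x 5 * y 7 + 4 * x 6 * y 8 + 4 * x 7 * y 5 + 4 * x 8 * y 6 - 4 * x 9 * y 3) * k_sq'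

theorem jw_21 (x y : V11) : W2 x 0 * mmF (em 2) y 0 + W2 x 1 * mmF (em 2) y 1 + W2 x 2 * mmF (em 2) y 2 + W2 x 3 * mmF (em 2) y 3 + W2 x 4 * mmF (em 2) y 4 + W2 x 5 * mmF (em 2) y 5 + W2 x 6 * mmF (em 2) y 6 + W2 x 7 * mmF (em 2) y 7 + W2 x 8 * mmF (em 2) y 8 + W2 x 9 * mmF (em 2) y 9 + W2 x 10 * mmF (em 2) y 10 + (W2 y 0 * mmF (em 2) x 0 + W2 y 1 * mmF (em 2) x 1 + W2 y 2 * mmF (em 2) x 2 + W2 y 3 * mmF (em 2) x 3 + W2 y 4 * mmF (em 2) x 4 + W2 y 5 * mmF (em 2) x 5 + W2 y 6 * mmF (em 2) x 6 + W2 y 7 * mmF (em 2) x 7 + W2 y 8 * mmF (em 2) x 8 + W2 y 9 * mmF (em 2) x 9 + W2 y 10 * mmF (em 2) x 10) =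
    k * ((((1 : ℝ) * Tm x y 0 0 + (0 : ℝ) * Tm x y 1 0 + (0 : ℝ) * Tm x y 2 0) - (Tm x y 1 0 * (0 : ℝ) + Tm x y 1 1 * (1 : ℝ) + Tm x y 1 2 * (0 : ℝ))) + (((1 : ℝ) * Tm x y 0 1 + (0 : ℝ) * Tm x y 1 1 + (0 : ℝ) * Tm x y 2 1) - (Tm x y 1 0 * (-1 : ℝ) + Tm x y 1 1 * (0 : ℝ) + Tm x y 1 2 * (0 : ℝ))) + (((1 : ℝ) * Tm x y 0 2 + (0 : ℝ) * Tm x y 1 2 + (0 : ℝ) * Tm x y 2 2) - (Tm x y 1 0 * (0 : ℝ) + Tm x y 1 1 * (0 : ℝ) + Tm x y 1 2 * (0 : ℝ)))) := by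
  simp only [W2_0, W2_1, W2_2, W2_3, W2_4, W2_5, W2_6, W2_7, W2_8, W2_9, W2_10, me_2_0, me_2_1, me_2_2, me_2_3, me_2_4, me_2_5, me_2_6, me_2_7, me_2_8, me_2_9, me_2_10,
      Tm_00, Tm_01, Tm_02, Tm_10, Tm_11, Tm_12, Tm_20, Tm_21, Tm_22]
  linear_combination (-6 * k * x 10 * y 10 - 6 * k * x 7 * y 7 - 6 * k * x 8 * y 8 - 6 * k * x 9 * y 9 + 2 * x 10 * y 4 + 2 * x 3 * y 9 + 2 * x 4 * y 10 - 2 * x 5 * y 7 - 2 * x 6 * y 8 - 2 * x 7 * y 5 - 2 * x 8 * y 6 + 2 * x 9 * y 3) * k_sq'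

theorem jw_22 (x y : V11) : W3 x 0 * mmF (em 2) y 0 + W3 x 1 * mmF (em 2) y 1 + W3 x 2 * mmF (em 2) y 2 + W3 x 3 * mmF (em 2) y 3 + W3 x 4 * mmF (em 2) y 4 + W3 x 5 * mmF (em 2) y 5 + W3 x 6 * mmF (em 2) y 6 + W3 x 7 * mmF (em 2) y 7 + W3 x 8 * mmF (em 2) y 8 + W3 x 9 * mmF (em 2) y 9 + W3 x 10 * mmF (em 2) y 10 + (W3 y 0 * mmF (em 2) x 0 + W3 y 1 * mmF (em 2) x 1 + W3 y 2 * mmF (em 2) x 2 + W3 y 3 * mmF (em 2) x 3 + W3 y 4 * mmF (em 2) x 4 + W3 y 5 * mmF (em 2) x 5 + W3 y 6 * mmF (em 2) x 6 + W3 y 7 * mmF (em 2) x 7 + W3 y 8 * mmF (em 2) x 8 + W3 y 9 * mmF (em 2) x 9 + W3 y 10 * mmF (em 2) x 10) =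
    k * ((((0 : ℝ) * Tm x y 0 0 + (0 : ℝ) * Tm x y 1 0 + (0 : ℝ) * Tm x y 2 0) - (Tm x y 2 0 * (0 : ℝ) + Tm x y 2 1 * (1 : ℝ) + Tm x y 2 2 * (0 : ℝ))) + (((0 : ℝ) * Tm x y 0 1 + (0 : ℝ) * Tm x y 1 1 + (0 : ℝ) * Tm x y 2 1) - (Tm x y 2 0 * (-1 : ℝ) + Tm x y 2 1 * (0 : ℝ) + Tm x y 2 2 * (0 : ℝ))) + (((0 : ℝ) * Tm x y 0 2 + (0 : ℝ) * Tm x y 1 2 + (0 : ℝ) * Tm x y 2 2) - (Tm x y 2 0 * (0 : ℝ) + Tm x y 2 1 * (0 : ℝ) + Tm x y 2 2 * (0 : ℝ)))) := by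
  simp only [W3_0, W3_1, W3_2, W3_3, W3_4, W3_5, W3_6, W3_7, W3_8, W3_9, W3_10, me_2_0, me_2_1, me_2_2, me_2_3, me_2_4, me_2_5, me_2_6, me_2_7, me_2_8, me_2_9, me_2_10,
      Tm_00, Tm_01, Tm_02, Tm_10, Tm_11, Tm_12, Tm_20, Tm_21, Tm_22]
  linear_combination (2 * x 10 * y 4 + 2 * x 3 * y 9 + 2 * x 4 * y 10 - 2 * x 5 * y 7 - 2 * x 6 * y 8 - 2 * x 7 * y 5 - 2 * x 8 * y 6 + 2 * x 9 * y 3) * k_sq'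

theorem JW_pol (m a : Fin 3) (x y : V11) :
    ⟪Wm a x, mmF (em m) y⟫ + ⟪Wm a y, mmF (em m) x⟫ = k * (cm (Om m) (Tm x y) *ᵥ vv) a := by
  rw [mulvv, cm, Matrix.sub_apply, Matrix.sub_apply, Matrix.sub_apply, mul3, mul3, mul3, mul3, mul3,
    mul3, inner11, inner11]
  fin_cases m <;> fin_cases a
  · exact jw_00 x y
  · exact jw_01 x y
  · exact jw_02 x y
  · exact jw_10 x y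
  · exact jw_11 x y
  · exact jw_12 x y
  · exact jw_20 x y
  · exact jw_21 x y
  · exact jw_22 x y

end G2F
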