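import Pool.Agent.G2F.Rep

/-! The cross product of `ℝ⁷`, operators on `E7`, and the action of the unit quaternions (generated). -/

namespace G2F

open HFinG
open scoped RealInnerProductSpace Matrix

set_option linter.unusedSimpArgs false

/-- component 0 of `u × v` -/
def cr0 (u v : E7) : ℝ :=
  u 1 * v 2 - u 2 * v 1 + u 3 * v 4 - u 4 * v 3 - u 5 * v 6 + u 6 * v 5

/-- component 1 of `u × v` -/
def cr1 (u v : E7) : ℝ :=
  u 2 * v 0 - u 0 * v 2 + u 3 * v 5 + u 4 * v 6 - u 5 * v 3 - u 6 * v 4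

/-- component 2 of `u × v` -/
def cr2 (u v : E7) : ℝ :=
  u 0 * v 1 - u 1 * v 0 + u 3 * v 6 - u 4 * v 5 + u 5 * v 4 - u 6 * v 3

/-- component 3 of `u × v` -/
def cr3 (u v : E7) : ℝ :=
  u 4 * v 0 - u 0 * v 4 - u 1 * v 5 - u 2 * v 6 + u 5 * v 1 + u 6 * v 2

/-- component 4 of `u × v` -/
def cr4 (u v : E7) : ℝ :=
  u 0 * v 3 - u 1 * v 6 + u 2 * v 5 - u 3 * v 0 - u 5 * v 2 + u 6 * v 1

/-- component 5 of `u × v` -/
def cr5 (u v : E7) : ℝ :=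
  u 0 * v 6 + u 1 * v 3 - u 2 * v 4 - u 3 * v 1 + u 4 * v 2 - u 6 * v 0

/-- component 6 of `u × v` -/
def cr6 (u v : E7) : ℝ :=
  u 1 * v 4 - u 0 * v 5 + u 2 * v 3 - u 3 * v 2 - u 4 * v 1 + u 5 * v 0

/-- `u × v` -/
noncomputable def crossF (u v : E7) : E7 :=
  !₂[cr0 u v, cr1 u v, cr2 u v, cr3 u v, cr4 u v, cr5 u v, cr6 u v]

lemma crossF_0 (u v : E7) : crossF u v 0 = cr0 u v := rfl
lemma crossF_1 (u v : E7) : crossF u v 1 = cr1 u v := rfl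
lemma crossF_2 (u v : E7) : crossF u v 2 = cr2 u v := rfl
lemma crossF_3 (u v : E7) : crossF u v 3 = cr3 u v := rfl
lemma crossF_4 (u v : E7) : crossF u v 4 = cr4 u v := rfl
lemma crossF_5 (u v : E7) : crossF u v 5 = cr5 u v := rfl
lemma crossF_6 (u v : E7) : crossF u v 6 = cr6 u v := rfl

/-- The cross product of `ℝ⁷ = Im 𝕆`, `𝕆 = ℍ ⊕ ℍℓ`, basis `i, j, k, ℓ, iℓ, jℓ, kℓ`. -/
noncomputable def cross : E7 →L[ℝ] E7 →L[ℝ] E7 := toCB (LinearMap.mk₂ ℝ crossF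
    (by
      intro u u' v
      ext i
      fin_cases i
      · change cr0 (u + u') v = cr0 u v + cr0 u' v
        simp only [cr0, PiLp.add_apply]
        ring
      · change cr1 (u + u') v = cr1 u v + cr1 u' v
        simp only [cr1, PiLp.add_apply]
        ring
      · change cr2 (u + u') v = cr2 u v + cr2 u' v
        simp only [cr2, PiLp.add_apply]
        ring
      · change cr3 (u + u') v = cr3 u v + cr3 u' v
        simp only [cr3, PiLp.add_apply]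
        ring
      · change cr4 (u + u') v = cr4 u v + cr4 u' v
        simp only [cr4, PiLp.add_apply]
        ring
      · change cr5 (u + u') v = cr5 u v + cr5 u' v
        simp only [cr5, PiLp.add_apply]
        ring
      · change cr6 (u + u') v = cr6 u v + cr6 u' v
        simp only [cr6, PiLp.add_apply]
        ring)
    (by
      intro c u v
      ext i
      fin_cases i
      · change cr0 (c • u) v = c * cr0 u v
        simp only [cr0, PiLp.smul_apply, smul_eq_mul]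
        ring
      · change cr1 (c • u) v = c * cr1 u v
        simp only [cr1, PiLp.smul_apply, smul_eq_mul]
        ring
      · change cr2 (c • u) v = c * cr2 u v
        simp only [cr2, PiLp.smul_apply, smul_eq_mul]
        ring
      · change cr3 (c • u) v = c * cr3 u v
        simp only [cr3, PiLp.smul_apply, smul_eq_mul]
        ring
      · change cr4 (c • u) v = c * cr4 u v
        simp only [cr4, PiLp.smul_apply, smul_eq_mul]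
        ring
      · change cr5 (c • u) v = c * cr5 u v
        simp only [cr5, PiLp.smul_apply, smul_eq_mul]
        ring
      · change cr6 (c • u) v = c * cr6 u v
        simp only [cr6, PiLp.smul_apply, smul_eq_mul]
        ring)
    (by
      intro u v v'
      ext i
      fin_cases i
      · change cr0 u (v + v') = cr0 u v + cr0 u v'
        simp only [cr0, PiLp.add_apply]
        ring
      · change cr1 u (v + v') = cr1 u v + cr1 u v'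
        simp only [cr1, PiLp.add_apply]
        ring
      · change cr2 u (v + v') = cr2 u v + cr2 u v'
        simp only [cr2, PiLp.add_apply]
        ring
      · change cr3 u (v + v') = cr3 u v + cr3 u v'
        simp only [cr3, PiLp.add_apply]
        ring
      · change cr4 u (v + v') = cr4 u v + cr4 u v'
        simp only [cr4, PiLp.add_apply]
        ring
      · change cr5 u (v + v') = cr5 u v + cr5 u v'
        simp only [cr5, PiLp.add_apply]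
        ring
      · change cr6 u (v + v') = cr6 u v + cr6 u v'
        simp only [cr6, PiLp.add_apply]
        ring)
    (by
      intro c u v
      ext i
      fin_cases i
      · change cr0 u (c • v) = c * cr0 u v
        simp only [cr0, PiLp.smul_apply, smul_eq_mul]
        ring
      · change cr1 u (c • v) = c * cr1 u v
        simp only [cr1, PiLp.smul_apply, smul_eq_mul]
        ring
      · change cr2 u (c • v) = c * cr2 u v
        simp only [cr2, PiLp.smul_apply, smul_eq_mul]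
        ring
      · change cr3 u (c • v) = c * cr3 u v
        simp only [cr3, PiLp.smul_apply, smul_eq_mul]
        ring
      · change cr4 u (c • v) = c * cr4 u v
        simp only [cr4, PiLp.smul_apply, smul_eq_mul]
        ring
      · change cr5 u (c • v) = c * cr5 u v
        simp only [cr5, PiLp.smul_apply, smul_eq_mul]
        ring
      · change cr6 u (c • v) = c * cr6 u v
        simp only [cr6, PiLp.smul_apply, smul_eq_mul]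
        ring))

lemma cross_apply (u v : E7) : cross u v = crossF u v := rfl

theorem iota_add (x x' : V11) : iota (x + x') = iota x + iota x' := by
  ext i j
  rw [Matrix.add_apply]
  fin_cases i <;> fin_cases j
  · change (0 : ℝ) = 0 + 0
    ring
  · change -(2 * k * (x + x') 2) = (-(2 * k * x 2)) + (-(2 * k * x' 2))
    simp only [PiLp.add_apply]
    try ring
  · change 2 * k * (x + x') 1 = (2 * k * x 1) + (2 * k * x' 1)
    simp only [PiLp.add_apply]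
    try ring
  · change 2 * k * (x + x') 9 = (2 * k * x 9) + (2 * k * x' 9)
    simp only [PiLp.add_apply]
    try ring
  · change 2 * k * (x + x') 10 = (2 * k * x 10) + (2 * k * x' 10)
    simp only [PiLp.add_apply]
    try ring
  · change -(2 * k * (x + x') 7) = (-(2 * k * x 7)) + (-(2 * k * x' 7))
    simp only [PiLp.add_apply]
    try ring
  · change -(2 * k * (x + x') 8) = (-(2 * k * x 8)) + (-(2 * k * x' 8))
    simp only [PiLp.add_apply]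
    try ring
  · change 2 * k * (x + x') 2 = (2 * k * x 2) + (2 * k * x' 2)
    simp only [PiLp.add_apply]
    try ring
  · change (0 : ℝ) = 0 + 0
    ring
  · change -(2 * k * (x + x') 0) = (-(2 * k * x 0)) + (-(2 * k * x' 0))
    simp only [PiLp.add_apply]
    try ring
  · change -(x + x') 3 + k * (x + x') 8 = (-x 3 + k * x 8) + (-x' 3 + k * x' 8)
    simp only [PiLp.add_apply]
    try ring
  · change -(x + x') 4 - k * (x + x') 7 = (-x 4 - k * x 7) + (-x' 4 - k * x' 7)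
    simp only [PiLp.add_apply]
    try ring
  · change -(x + x') 5 - k * (x + x') 10 = (-x 5 - k * x 10) + (-x' 5 - k * x' 10)
    simp only [PiLp.add_apply]
    try ring
  · change -(x + x') 6 + k * (x + x') 9 = (-x 6 + k * x 9) + (-x' 6 + k * x' 9)
    simp only [PiLp.add_apply]
    try ring
  · change -(2 * k * (x + x') 1) = (-(2 * k * x 1)) + (-(2 * k * x' 1))
    simp only [PiLp.add_apply]
    try ring
  · change 2 * k * (x + x') 0 = (2 * k * x 0) + (2 * k * x' 0)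
    simp only [PiLp.add_apply]
    try ring
  · change (0 : ℝ) = 0 + 0
    ring
  · change (x + x') 4 - k * (x + x') 7 = (x 4 - k * x 7) + (x' 4 - k * x' 7)
    simp only [PiLp.add_apply]
    try ring
  · change -(x + x') 3 - k * (x + x') 8 = (-x 3 - k * x 8) + (-x' 3 - k * x' 8)
    simp only [PiLp.add_apply]
    try ring
  · change -(x + x') 6 - k * (x + x') 9 = (-x 6 - k * x 9) + (-x' 6 - k * x' 9)
    simp only [PiLp.add_apply]
    try ring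
  · change (x + x') 5 - k * (x + x') 10 = (x 5 - k * x 10) + (x' 5 - k * x' 10)
    simp only [PiLp.add_apply]
    try ring
  · change -(2 * k * (x + x') 9) = (-(2 * k * x 9)) + (-(2 * k * x' 9))
    simp only [PiLp.add_apply]
    try ring
  · change (x + x') 3 - k * (x + x') 8 = (x 3 - k * x 8) + (x' 3 - k * x' 8)
    simp only [PiLp.add_apply]
    try ring
  · change -(x + x') 4 + k * (x + x') 7 = (-x 4 + k * x 7) + (-x' 4 + k * x' 7)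
    simp only [PiLp.add_apply]
    try ring
  · change (0 : ℝ) = 0 + 0
    ring
  · change k * (x + x') 0 = (k * x 0) + (k * x' 0)
    simp only [PiLp.add_apply]
    try ring
  · change k * (x + x') 1 = (k * x 1) + (k * x' 1)
    simp only [PiLp.add_apply]
    try ring
  · change k * (x + x') 2 = (k * x 2) + (k * x' 2)
    simp only [PiLp.add_apply]
    try ring
  · change -(2 * k * (x + x') 10) = (-(2 * k * x 10)) + (-(2 * k * x' 10))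
    simp only [PiLp.add_apply]
    try ring
  · change (x + x') 4 + k * (x + x') 7 = (x 4 + k * x 7) + (x' 4 + k * x' 7)
    simp only [PiLp.add_apply]
    try ring
  · change (x + x') 3 + k * (x + x') 8 = (x 3 + k * x 8) + (x' 3 + k * x' 8)
    simp only [PiLp.add_apply]
    try ring
  · change -(k * (x + x') 0) = (-(k * x 0)) + (-(k * x' 0))
    simp only [PiLp.add_apply]
    try ring
  · change (0 : ℝ) = 0 + 0
    ring
  · change -(k * (x + x') 2) = (-(k * x 2)) + (-(k * x' 2))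
    simp only [PiLp.add_apply]
    try ring
  · change k * (x + x') 1 = (k * x 1) + (k * x' 1)
    simp only [PiLp.add_apply]
    try ring
  · change 2 * k * (x + x') 7 = (2 * k * x 7) + (2 * k * x' 7)
    simp only [PiLp.add_apply]
    try ring
  · change (x + x') 5 + k * (x + x') 10 = (x 5 + k * x 10) + (x' 5 + k * x' 10)
    simp only [PiLp.add_apply]
    try ring
  · change (x + x') 6 + k * (x + x') 9 = (x 6 + k * x 9) + (x' 6 + k * x' 9)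
    simp only [PiLp.add_apply]
    try ring
  · change -(k * (x + x') 1) = (-(k * x 1)) + (-(k * x' 1))
    simp only [PiLp.add_apply]
    try ring
  · change k * (x + x') 2 = (k * x 2) + (k * x' 2)
    simp only [PiLp.add_apply]
    try ring
  · change (0 : ℝ) = 0 + 0
    ring
  · change -(k * (x + x') 0) = (-(k * x 0)) + (-(k * x' 0))
    simp only [PiLp.add_apply]
    try ring
  · change 2 * k * (x + x') 8 = (2 * k * x 8) + (2 * k * x' 8)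
    simp only [PiLp.add_apply]
    try ring
  · change (x + x') 6 - k * (x + x') 9 = (x 6 - k * x 9) + (x' 6 - k * x' 9)
    simp only [PiLp.add_apply]
    try ring
  · change -(x + x') 5 + k * (x + x') 10 = (-x 5 + k * x 10) + (-x' 5 + k * x' 10)
    simp only [PiLp.add_apply]
    try ring
  · change -(k * (x + x') 2) = (-(k * x 2)) + (-(k * x' 2))
    simp only [PiLp.add_apply]
    try ring
  · change -(k * (x + x') 1) = (-(k * x 1)) + (-(k * x' 1))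
    simp only [PiLp.add_apply]
    try ring
  · change k * (x + x') 0 = (k * x 0) + (k * x' 0)
    simp only [PiLp.add_apply]
    try ring
  · change (0 : ℝ) = 0 + 0
    ring

theorem iota_smul (c : ℝ) (x : V11) : iota (c • x) = c • iota x := by
  ext i j
  rw [Matrix.smul_apply]
  fin_cases i <;> fin_cases j
  · change (0 : ℝ) = c * 0
    ring
  · change -(2 * k * (c • x) 2) = c * (-(2 * k * x 2))
    simp only [PiLp.smul_apply, smul_eq_mul]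
    try ring
  · change 2 * k * (c • x) 1 = c * (2 * k * x 1)
    simp only [PiLp.smul_apply, smul_eq_mul]
    try ring
  · change 2 * k * (c • x) 9 = c * (2 * k * x 9)
    simp only [PiLp.smul_apply, smul_eq_mul]
    try ring
  · change 2 * k * (c • x) 10 = c * (2 * k * x 10)
    simp only [PiLp.smul_apply, smul_eq_mul]
    try ring
  · change -(2 * k * (c • x) 7) = c * (-(2 * k * x 7))
    simp only [PiLp.smul_apply, smul_eq_mul]
    try ring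
  · change -(2 * k * (c • x) 8) = c * (-(2 * k * x 8))
    simp only [PiLp.smul_apply, smul_eq_mul]
    try ring
  · change 2 * k * (c • x) 2 = c * (2 * k * x 2)
    simp only [PiLp.smul_apply, smul_eq_mul]
    try ring
  · change (0 : ℝ) = c * 0
    ring
  · change -(2 * k * (c • x) 0) = c * (-(2 * k * x 0))
    simp only [PiLp.smul_apply, smul_eq_mul]
    try ring
  · change -(c • x) 3 + k * (c • x) 8 = c * (-x 3 + k * x 8)
    simp only [PiLp.smul_apply, smul_eq_mul]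
    try ring
  · change -(c • x) 4 - k * (c • x) 7 = c * (-x 4 - k * x 7)
    simp only [PiLp.smul_apply, smul_eq_mul]
    try ring
  · change -(c • x) 5 - k * (c • x) 10 = c * (-x 5 - k * x 10)
    simp only [PiLp.smul_apply, smul_eq_mul]
    try ring
  · change -(c • x) 6 + k * (c • x) 9 = c * (-x 6 + k * x 9)
    simp only [PiLp.smul_apply, smul_eq_mul]
    try ring
  · change -(2 * k * (c • x) 1) = c * (-(2 * k * x 1))
    simp only [PiLp.smul_apply, smul_eq_mul]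
    try ring
  · change 2 * k * (c • x) 0 = c * (2 * k * x 0)
    simp only [PiLp.smul_apply, smul_eq_mul]
    try ring
  · change (0 : ℝ) = c * 0
    ring
  · change (c • x) 4 - k * (c • x) 7 = c * (x 4 - k * x 7)
    simp only [PiLp.smul_apply, smul_eq_mul]
    try ring
  · change -(c • x) 3 - k * (c • x) 8 = c * (-x 3 - k * x 8)
    simp only [PiLp.smul_apply, smul_eq_mul]
    try ring
  · change -(c • x) 6 - k * (c • x) 9 = c * (-x 6 - k * x 9)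
    simp only [PiLp.smul_apply, smul_eq_mul]
    try ring
  · change (c • x) 5 - k * (c • x) 10 = c * (x 5 - k * x 10)
    simp only [PiLp.smul_apply, smul_eq_mul]
    try ring
  · change -(2 * k * (c • x) 9) = c * (-(2 * k * x 9))
    simp only [PiLp.smul_apply, smul_eq_mul]
    try ring
  · change (c • x) 3 - k * (c • x) 8 = c * (x 3 - k * x 8)
    simp only [PiLp.smul_apply, smul_eq_mul]
    try ring
  · change -(c • x) 4 + k * (c • x) 7 = c * (-x 4 + k * x 7)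
    simp only [PiLp.smul_apply, smul_eq_mul]
    try ring
  · change (0 : ℝ) = c * 0
    ring
  · change k * (c • x) 0 = c * (k * x 0)
    simp only [PiLp.smul_apply, smul_eq_mul]
    try ring
  · change k * (c • x) 1 = c * (k * x 1)
    simp only [PiLp.smul_apply, smul_eq_mul]
    try ring
  · change k * (c • x) 2 = c * (k * x 2)
    simp only [PiLp.smul_apply, smul_eq_mul]
    try ring
  · change -(2 * k * (c • x) 10) = c * (-(2 * k * x 10))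
    simp only [PiLp.smul_apply, smul_eq_mul]
    try ring
  · change (c • x) 4 + k * (c • x) 7 = c * (x 4 + k * x 7)
    simp only [PiLp.smul_apply, smul_eq_mul]
    try ring
  · change (c • x) 3 + k * (c • x) 8 = c * (x 3 + k * x 8)
    simp only [PiLp.smul_apply, smul_eq_mul]
    try ring
  · change -(k * (c • x) 0) = c * (-(k * x 0))
    simp only [PiLp.smul_apply, smul_eq_mul]
    try ring
  · change (0 : ℝ) = c * 0
    ring
  · change -(k * (c • x) 2) = c * (-(k * x 2))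
    simp only [PiLp.smul_apply, smul_eq_mul]
    try ring
  · change k * (c • x) 1 = c * (k * x 1)
    simp only [PiLp.smul_apply, smul_eq_mul]
    try ring
  · change 2 * k * (c • x) 7 = c * (2 * k * x 7)
    simp only [PiLp.smul_apply, smul_eq_mul]
    try ring
  · change (c • x) 5 + k * (c • x) 10 = c * (x 5 + k * x 10)
    simp only [PiLp.smul_apply, smul_eq_mul]
    try ring
  · change (c • x) 6 + k * (c • x) 9 = c * (x 6 + k * x 9)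
    simp only [PiLp.smul_apply, smul_eq_mul]
    try ring
  · change -(k * (c • x) 1) = c * (-(k * x 1))
    simp only [PiLp.smul_apply, smul_eq_mul]
    try ring
  · change k * (c • x) 2 = c * (k * x 2)
    simp only [PiLp.smul_apply, smul_eq_mul]
    try ring
  · change (0 : ℝ) = c * 0
    ring
  · change -(k * (c • x) 0) = c * (-(k * x 0))
    simp only [PiLp.smul_apply, smul_eq_mul]
    try ring
  · change 2 * k * (c • x) 8 = c * (2 * k * x 8)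
    simp only [PiLp.smul_apply, smul_eq_mul]
    try ring
  · change (c • x) 6 - k * (c • x) 9 = c * (x 6 - k * x 9)
    simp only [PiLp.smul_apply, smul_eq_mul]
    try ring
  · change -(c • x) 5 + k * (c • x) 10 = c * (-x 5 + k * x 10)
    simp only [PiLp.smul_apply, smul_eq_mul]
    try ring
  · change -(k * (c • x) 2) = c * (-(k * x 2))
    simp only [PiLp.smul_apply, smul_eq_mul]
    try ring
  · change -(k * (c • x) 1) = c * (-(k * x 1))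
    simp only [PiLp.smul_apply, smul_eq_mul]
    try ring
  · change k * (c • x) 0 = c * (k * x 0)
    simp only [PiLp.smul_apply, smul_eq_mul]
    try ring
  · change (0 : ℝ) = c * 0
    ring

theorem hat_add (A A' : E3) : hat (A + A') = hat A + hat A' := by
  ext i j
  rw [Matrix.add_apply]
  fin_cases i <;> fin_cases j
  · change (0 : ℝ) = 0 + 0
    ring
  · change (0 : ℝ) = 0 + 0
    ring
  · change (0 : ℝ) = 0 + 0
    ring
  · change (0 : ℝ) = 0 + 0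
    ring
  · change (0 : ℝ) = 0 + 0
    ring
  · change (0 : ℝ) = 0 + 0
    ring
  · change (0 : ℝ) = 0 + 0
    ring
  · change (0 : ℝ) = 0 + 0
    ring
  · change (0 : ℝ) = 0 + 0
    ring
  · change (0 : ℝ) = 0 + 0
    ring
  · change (0 : ℝ) = 0 + 0
    ring
  · change (0 : ℝ) = 0 + 0
    ring
  · change (0 : ℝ) = 0 + 0
    ring
  · change (0 : ℝ) = 0 + 0
    ring
  · change (0 : ℝ) = 0 + 0
    ring
  · change (0 : ℝ) = 0 + 0
    ring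
  · change (0 : ℝ) = 0 + 0
    ring
  · change (0 : ℝ) = 0 + 0
    ring
  · change (0 : ℝ) = 0 + 0
    ring
  · change (0 : ℝ) = 0 + 0
    ring
  · change (0 : ℝ) = 0 + 0
    ring
  · change (0 : ℝ) = 0 + 0
    ring
  · change (0 : ℝ) = 0 + 0
    ring
  · change (0 : ℝ) = 0 + 0
    ring
  · change (0 : ℝ) = 0 + 0
    ring
  · change -(A + A') 0 = (-A 0) + (-A' 0)
    simp only [PiLp.add_apply]
    try ring
  · change -(A + A') 1 = (-A 1) + (-A' 1)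
    simp only [PiLp.add_apply]
    try ring
  · change -(A + A') 2 = (-A 2) + (-A' 2)
    simp only [PiLp.add_apply]
    try ring
  · change (0 : ℝ) = 0 + 0
    ring
  · change (0 : ℝ) = 0 + 0
    ring
  · change (0 : ℝ) = 0 + 0
    ring
  · change (A + A') 0 = (A 0) + (A' 0)
    simp only [PiLp.add_apply]
    try ring
  · change (0 : ℝ) = 0 + 0
    ring
  · change -(A + A') 2 = (-A 2) + (-A' 2)
    simp only [PiLp.add_apply]
    try ring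
  · change (A + A') 1 = (A 1) + (A' 1)
    simp only [PiLp.add_apply]
    try ring
  · change (0 : ℝ) = 0 + 0
    ring
  · change (0 : ℝ) = 0 + 0
    ring
  · change (0 : ℝ) = 0 + 0
    ring
  · change (A + A') 1 = (A 1) + (A' 1)
    simp only [PiLp.add_apply]
    try ring
  · change (A + A') 2 = (A 2) + (A' 2)
    simp only [PiLp.add_apply]
    try ring
  · change (0 : ℝ) = 0 + 0
    ring
  · change -(A + A') 0 = (-A 0) + (-A' 0)
    simp only [PiLp.add_apply]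
    try ring
  · change (0 : ℝ) = 0 + 0
    ring
  · change (0 : ℝ) = 0 + 0
    ring
  · change (0 : ℝ) = 0 + 0
    ring
  · change (A + A') 2 = (A 2) + (A' 2)
    simp only [PiLp.add_apply]
    try ring
  · change -(A + A') 1 = (-A 1) + (-A' 1)
    simp only [PiLp.add_apply]
    try ring
  · change (A + A') 0 = (A 0) + (A' 0)
    simp only [PiLp.add_apply]
    try ring
  · change (0 : ℝ) = 0 + 0
    ring

theorem hat_smul (c : ℝ) (A : E3) : hat (c • A) = c • hat A := by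
  ext i j
  rw [Matrix.smul_apply]
  fin_cases i <;> fin_cases j
  · change (0 : ℝ) = c * 0
    ring
  · change (0 : ℝ) = c * 0
    ring
  · change (0 : ℝ) = c * 0
    ring
  · change (0 : ℝ) = c * 0
    ring
  · change (0 : ℝ) = c * 0
    ring
  · change (0 : ℝ) = c * 0
    ring
  · change (0 : ℝ) = c * 0
    ring
  · change (0 : ℝ) = c * 0
    ring
  · change (0 : ℝ) = c * 0
    ring
  · change (0 : ℝ) = c * 0
    ring
  · change (0 : ℝ) = c * 0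
    ring
  · change (0 : ℝ) = c * 0
    ring
  · change (0 : ℝ) = c * 0
    ring
  · change (0 : ℝ) = c * 0
    ring
  · change (0 : ℝ) = c * 0
    ring
  · change (0 : ℝ) = c * 0
    ring
  · change (0 : ℝ) = c * 0
    ring
  · change (0 : ℝ) = c * 0
    ring
  · change (0 : ℝ) = c * 0
    ring
  · change (0 : ℝ) = c * 0
    ring
  · change (0 : ℝ) = c * 0
    ring
  · change (0 : ℝ) = c * 0
    ring
  · change (0 : ℝ) = c * 0
    ring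
  · change (0 : ℝ) = c * 0
    ring
  · change (0 : ℝ) = c * 0
    ring
  · change -(c • A) 0 = c * (-A 0)
    simp only [PiLp.smul_apply, smul_eq_mul]
    try ring
  · change -(c • A) 1 = c * (-A 1)
    simp only [PiLp.smul_apply, smul_eq_mul]
    try ring
  · change -(c • A) 2 = c * (-A 2)
    simp only [PiLp.smul_apply, smul_eq_mul]
    try ring
  · change (0 : ℝ) = c * 0
    ring
  · change (0 : ℝ) = c * 0
    ring
  · change (0 : ℝ) = c * 0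
    ring
  · change (c • A) 0 = c * (A 0)
    simp only [PiLp.smul_apply, smul_eq_mul]
    try ring
  · change (0 : ℝ) = c * 0
    ring
  · change -(c • A) 2 = c * (-A 2)
    simp only [PiLp.smul_apply, smul_eq_mul]
    try ring
  · change (c • A) 1 = c * (A 1)
    simp only [PiLp.smul_apply, smul_eq_mul]
    try ring
  · change (0 : ℝ) = c * 0
    ring
  · change (0 : ℝ) = c * 0
    ring
  · change (0 : ℝ) = c * 0
    ring
  · change (c • A) 1 = c * (A 1)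
    simp only [PiLp.smul_apply, smul_eq_mul]
    try ring
  · change (c • A) 2 = c * (A 2)
    simp only [PiLp.smul_apply, smul_eq_mul]
    try ring
  · change (0 : ℝ) = c * 0
    ring
  · change -(c • A) 0 = c * (-A 0)
    simp only [PiLp.smul_apply, smul_eq_mul]
    try ring
  · change (0 : ℝ) = c * 0
    ring
  · change (0 : ℝ) = c * 0
    ring
  · change (0 : ℝ) = c * 0
    ring
  · change (c • A) 2 = c * (A 2)
    simp only [PiLp.smul_apply, smul_eq_mul]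
    try ring
  · change -(c • A) 1 = c * (-A 1)
    simp only [PiLp.smul_apply, smul_eq_mul]
    try ring
  · change (c • A) 0 = c * (A 0)
    simp only [PiLp.smul_apply, smul_eq_mul]
    try ring
  · change (0 : ℝ) = c * 0
    ring

/-- A matrix as an operator of `ℝ⁷`. -/
noncomputable def toC : Matrix (Fin 7) (Fin 7) ℝ ≃⋆ₐ[ℝ] (E7 →L[ℝ] E7) :=
  Matrix.toEuclideanCLM (n := Fin 7) (𝕜 := ℝ)

/-- The inclusion of `𝔪` in the derivations. -/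
noncomputable def iotaL : V11 →L[ℝ] (E7 →L[ℝ] E7) := LinearMap.toContinuousLinearMap
  { toFun := fun x => toC (iota x)
    map_add' := by
      intro x y
      rw [iota_add, map_add]
    map_smul' := by
      intro c x
      rw [iota_smul, map_smul]
      rfl }

/-- The inclusion of `𝔥` in the derivations. -/
noncomputable def hatL : E3 →L[ℝ] (E7 →L[ℝ] E7) := LinearMap.toContinuousLinearMap
  { toFun := fun A => toC (hat A)
    map_add' := by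
      intro x y
      rw [hat_add, map_add]
    map_smul' := by
      intro c x
      rw [hat_smul, map_smul]
      rfl }

lemma iotaL_eq (x : V11) : iotaL x = toC (iota x) := rfl
lemma hatL_eq (A : E3) : hatL A = toC (hat A) := rfl

lemma toC_apply (M : Matrix (Fin 7) (Fin 7) ℝ) (u : E7) (i : Fin 7) : toC M u i =
    M i 0 * u 0 + M i 1 * u 1 + M i 2 * u 2 + M i 3 * u 3 + M i 4 * u 4 + M i 5 * u 5
      + M i 6 * u 6 := by
  have h : toC M u i = ∑ j, M i j * u j := by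
    change (Matrix.toEuclideanCLM (n := Fin 7) (𝕜 := ℝ) M u).ofLp i = _
    rw [Matrix.ofLp_toEuclideanCLM]
    rfl
  rw [h, Fin.sum_univ_seven]

lemma inner7 (u v : E7) : ⟪u, v⟫ = u 0 * v 0 + u 1 * v 1 + u 2 * v 2 + u 3 * v 3 + u 4 * v 4
    + u 5 * v 5 + u 6 * v 6 := by
  rw [PiLp.inner_apply]
  simp only [Fin.sum_univ_succ, Fin.sum_univ_zero]
  change v 0 * u 0 + (v 1 * u 1 + (v 2 * u 2 + (v 3 * u 3 + (v 4 * u 4 + (v 5 * u 5 + (v 6 * u 6 +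
    0)))))) = _
  ring

lemma toC_skew {M : Matrix (Fin 7) (Fin 7) ℝ} (h : Mᵀ = -M) (u v : E7) :
    ⟪toC M u, v⟫ = -⟪u, toC M v⟫ := by
  have e : ∀ i j, M j i = -M i j := fun i j => by
    have := congrFun (congrFun h i) j
    rwa [Matrix.transpose_apply, Matrix.neg_apply] at this
  have d : ∀ i, M i i = 0 := fun i => by
    have := e i i
    linarith
  rw [inner7, inner7]
  simp only [toC_apply, d]
  rw [e 0 1, e 0 2, e 0 3, e 0 4, e 0 5, e 0 6, e 1 2, e 1 3, e 1 4, e 1 5, e 1 6, e 2 3, e 2 4,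
    e 2 5, e 2 6, e 3 4, e 3 5, e 3 6, e 4 5, e 4 6, e 5 6]
  ring

theorem iota_skew (x : V11) (u v : E7) : ⟪iotaL x u, v⟫ = -⟪u, iotaL x v⟫ :=
  toC_skew (iota_transpose x) u v

theorem hat_skew (A : E3) (u v : E7) : ⟪hatL A u, v⟫ = -⟪u, hatL A v⟫ :=
  toC_skew (hat_transpose A) u v

theorem comm_iota (x y : V11) : iotaL x * iotaL y - iotaL y * iotaL x =
    iotaL (g2.mm x y) + hatL (g2.mh x y) := by
  rw [g2_mm, g2_mh, iotaL_eq, iotaL_eq, iotaL_eq, hatL_eq, ← map_mul, ← map_mul, ← map_sub,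
    iota_comm, map_add]

theorem comm_hat (A : E3) (x : V11) : hatL A * iotaL x - iotaL x * hatL A = iotaL (g2.act A x) := by
  rw [g2_act, iotaL_eq, iotaL_eq, hatL_eq, ← map_mul, ← map_mul, ← map_sub, hat_iota]

theorem inj_g2 (x : V11) (A : E3) (h : iotaL x + hatL A = 0) : x = 0 ∧ A = 0 := by
  rw [iotaL_eq, hatL_eq, ← map_add] at h
  exact iota_hat_zero ((map_eq_zero_iff toC toC.injective).1 h)

/-- the bracket of `𝔥` -/
noncomputable def hh : E3 →L[ℝ] E3 →L[ℝ] E3 := toCB (LinearMap.mk₂ ℝ crF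
    (by
      intro A A' B
      ext i
      fin_cases i
      · change 2 * ((A + A') 1 * B 2 - (A + A') 2 * B 1) = 2 * (A 1 * B 2 - A 2 * B 1) + 2 * (A' 1 * B 2 - A' 2 * B 1)
        simp only [PiLp.add_apply]
        ring
      · change 2 * ((A + A') 2 * B 0 - (A + A') 0 * B 2) = 2 * (A 2 * B 0 - A 0 * B 2) + 2 * (A' 2 * B 0 - A' 0 * B 2)
        simp only [PiLp.add_apply]
        ring
      · change 2 * ((A + A') 0 * B 1 - (A + A') 1 * B 0) = 2 * (A 0 * B 1 - A 1 * B 0) + 2 * (A' 0 * B 1 - A' 1 * B 0)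
        simp only [PiLp.add_apply]
        ring)
    (by
      intro c A B
      ext i
      fin_cases i
      · change 2 * ((c • A) 1 * B 2 - (c • A) 2 * B 1) = c * (2 * (A 1 * B 2 - A 2 * B 1))
        simp only [PiLp.smul_apply, smul_eq_mul]
        ring
      · change 2 * ((c • A) 2 * B 0 - (c • A) 0 * B 2) = c * (2 * (A 2 * B 0 - A 0 * B 2))
        simp only [PiLp.smul_apply, smul_eq_mul]
        ring
      · change 2 * ((c • A) 0 * B 1 - (c • A) 1 * B 0) = c * (2 * (A 0 * B 1 - A 1 * B 0))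
        simp only [PiLp.smul_apply, smul_eq_mul]
        ring)
    (by
      intro A B B'
      ext i
      fin_cases i
      · change 2 * (A 1 * (B + B') 2 - A 2 * (B + B') 1) = 2 * (A 1 * B 2 - A 2 * B 1) + 2 * (A 1 * B' 2 - A 2 * B' 1)
        simp only [PiLp.add_apply]
        ring
      · change 2 * (A 2 * (B + B') 0 - A 0 * (B + B') 2) = 2 * (A 2 * B 0 - A 0 * B 2) + 2 * (A 2 * B' 0 - A 0 * B' 2)
        simp only [PiLp.add_apply]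
        ring
      · change 2 * (A 0 * (B + B') 1 - A 1 * (B + B') 0) = 2 * (A 0 * B 1 - A 1 * B 0) + 2 * (A 0 * B' 1 - A 1 * B' 0)
        simp only [PiLp.add_apply]
        ring)
    (by
      intro c A B
      ext i
      fin_cases i
      · change 2 * (A 1 * (c • B) 2 - A 2 * (c • B) 1) = c * (2 * (A 1 * B 2 - A 2 * B 1))
        simp only [PiLp.smul_apply, smul_eq_mul]
        ring
      · change 2 * (A 2 * (c • B) 0 - A 0 * (c • B) 2) = c * (2 * (A 2 * B 0 - A 0 * B 2))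
        simp only [PiLp.smul_apply, smul_eq_mul]
        ring
      · change 2 * (A 0 * (c • B) 1 - A 1 * (c • B) 0) = c * (2 * (A 0 * B 1 - A 1 * B 0))
        simp only [PiLp.smul_apply, smul_eq_mul]
        ring))

lemma hh_apply (A B : E3) : hh A B = crF A B := rfl

theorem comm_hh (A B : E3) : hatL A * hatL B - hatL B * hatL A = hatL (hh A B) := by
  rw [hh_apply, hatL_eq, hatL_eq, hatL_eq, ← map_mul, ← map_mul, ← map_sub, hat_hat]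

lemma iota_e00 (x : V11) : iota x 0 0 = 0 := rfl
lemma iota_e01 (x : V11) : iota x 0 1 = -(2 * k * x 2) := rfl
lemma iota_e02 (x : V11) : iota x 0 2 = 2 * k * x 1 := rfl
lemma iota_e03 (x : V11) : iota x 0 3 = 2 * k * x 9 := rfl
lemma iota_e04 (x : V11) : iota x 0 4 = 2 * k * x 10 := rfl
lemma iota_e05 (x : V11) : iota x 0 5 = -(2 * k * x 7) := rfl
lemma iota_e06 (x : V11) : iota x 0 6 = -(2 * k * x 8) := rfl
lemma iota_e10 (x : V11) : iota x 1 0 = 2 * k * x 2 := rfl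
lemma iota_e11 (x : V11) : iota x 1 1 = 0 := rfl
lemma iota_e12 (x : V11) : iota x 1 2 = -(2 * k * x 0) := rfl
lemma iota_e13 (x : V11) : iota x 1 3 = -x 3 + k * x 8 := rfl
lemma iota_e14 (x : V11) : iota x 1 4 = -x 4 - k * x 7 := rfl
lemma iota_e15 (x : V11) : iota x 1 5 = -x 5 - k * x 10 := rfl
lemma iota_e16 (x : V11) : iota x 1 6 = -x 6 + k * x 9 := rfl
lemma iota_e20 (x : V11) : iota x 2 0 = -(2 * k * x 1) := rfl
lemma iota_e21 (x : V11) : iota x 2 1 = 2 * k * x 0 := rfl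
lemma iota_e22 (x : V11) : iota x 2 2 = 0 := rfl
lemma iota_e23 (x : V11) : iota x 2 3 = x 4 - k * x 7 := rfl
lemma iota_e24 (x : V11) : iota x 2 4 = -x 3 - k * x 8 := rfl
lemma iota_e25 (x : V11) : iota x 2 5 = -x 6 - k * x 9 := rfl
lemma iota_e26 (x : V11) : iota x 2 6 = x 5 - k * x 10 := rfl
lemma iota_e30 (x : V11) : iota x 3 0 = -(2 * k * x 9) := rfl
lemma iota_e31 (x : V11) : iota x 3 1 = x 3 - k * x 8 := rfl
lemma iota_e32 (x : V11) : iota x 3 2 = -x 4 + k * x 7 := rfl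
lemma iota_e33 (x : V11) : iota x 3 3 = 0 := rfl
lemma iota_e34 (x : V11) : iota x 3 4 = k * x 0 := rfl
lemma iota_e35 (x : V11) : iota x 3 5 = k * x 1 := rfl
lemma iota_e36 (x : V11) : iota x 3 6 = k * x 2 := rfl
lemma iota_e40 (x : V11) : iota x 4 0 = -(2 * k * x 10) := rfl
lemma iota_e41 (x : V11) : iota x 4 1 = x 4 + k * x 7 := rfl
lemma iota_e42 (x : V11) : iota x 4 2 = x 3 + k * x 8 := rfl
lemma iota_e43 (x : V11) : iota x 4 3 = -(k * x 0) := rfl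
lemma iota_e44 (x : V11) : iota x 4 4 = 0 := rfl
lemma iota_e45 (x : V11) : iota x 4 5 = -(k * x 2) := rfl
lemma iota_e46 (x : V11) : iota x 4 6 = k * x 1 := rfl
lemma iota_e50 (x : V11) : iota x 5 0 = 2 * k * x 7 := rfl
lemma iota_e51 (x : V11) : iota x 5 1 = x 5 + k * x 10 := rfl
lemma iota_e52 (x : V11) : iota x 5 2 = x 6 + k * x 9 := rfl
lemma iota_e53 (x : V11) : iota x 5 3 = -(k * x 1) := rfl
lemma iota_e54 (x : V11) : iota x 5 4 = k * x 2 := rfl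
lemma iota_e55 (x : V11) : iota x 5 5 = 0 := rfl
lemma iota_e56 (x : V11) : iota x 5 6 = -(k * x 0) := rfl
lemma iota_e60 (x : V11) : iota x 6 0 = 2 * k * x 8 := rfl
lemma iota_e61 (x : V11) : iota x 6 1 = x 6 - k * x 9 := rfl
lemma iota_e62 (x : V11) : iota x 6 2 = -x 5 + k * x 10 := rfl
lemma iota_e63 (x : V11) : iota x 6 3 = -(k * x 2) := rfl
lemma iota_e64 (x : V11) : iota x 6 4 = -(k * x 1) := rfl
lemma iota_e65 (x : V11) : iota x 6 5 = k * x 0 := rfl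
lemma iota_e66 (x : V11) : iota x 6 6 = 0 := rfl

lemma hat_e00 (A : E3) : hat A 0 0 = 0 := rfl
lemma hat_e01 (A : E3) : hat A 0 1 = 0 := rfl
lemma hat_e02 (A : E3) : hat A 0 2 = 0 := rfl
lemma hat_e03 (A : E3) : hat A 0 3 = 0 := rfl
lemma hat_e04 (A : E3) : hat A 0 4 = 0 := rfl
lemma hat_e05 (A : E3) : hat A 0 5 = 0 := rfl
lemma hat_e06 (A : E3) : hat A 0 6 = 0 := rfl
lemma hat_e10 (A : E3) : hat A 1 0 = 0 := rfl
lemma hat_e11 (A : E3) : hat A 1 1 = 0 := rfl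
lemma hat_e12 (A : E3) : hat A 1 2 = 0 := rfl
lemma hat_e13 (A : E3) : hat A 1 3 = 0 := rfl
lemma hat_e14 (A : E3) : hat A 1 4 = 0 := rfl
lemma hat_e15 (A : E3) : hat A 1 5 = 0 := rfl
lemma hat_e16 (A : E3) : hat A 1 6 = 0 := rfl
lemma hat_e20 (A : E3) : hat A 2 0 = 0 := rfl
lemma hat_e21 (A : E3) : hat A 2 1 = 0 := rfl
lemma hat_e22 (A : E3) : hat A 2 2 = 0 := rfl
lemma hat_e23 (A : E3) : hat A 2 3 = 0 := rfl
lemma hat_e24 (A : E3) : hat A 2 4 = 0 := rfl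
lemma hat_e25 (A : E3) : hat A 2 5 = 0 := rfl
lemma hat_e26 (A : E3) : hat A 2 6 = 0 := rfl
lemma hat_e30 (A : E3) : hat A 3 0 = 0 := rfl
lemma hat_e31 (A : E3) : hat A 3 1 = 0 := rfl
lemma hat_e32 (A : E3) : hat A 3 2 = 0 := rfl
lemma hat_e33 (A : E3) : hat A 3 3 = 0 := rfl
lemma hat_e34 (A : E3) : hat A 3 4 = -A 0 := rfl
lemma hat_e35 (A : E3) : hat A 3 5 = -A 1 := rfl
lemma hat_e36 (A : E3) : hat A 3 6 = -A 2 := rfl
lemma hat_e40 (A : E3) : hat A 4 0 = 0 := rfl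
lemma hat_e41 (A : E3) : hat A 4 1 = 0 := rfl
lemma hat_e42 (A : E3) : hat A 4 2 = 0 := rfl
lemma hat_e43 (A : E3) : hat A 4 3 = A 0 := rfl
lemma hat_e44 (A : E3) : hat A 4 4 = 0 := rfl
lemma hat_e45 (A : E3) : hat A 4 5 = -A 2 := rfl
lemma hat_e46 (A : E3) : hat A 4 6 = A 1 := rfl
lemma hat_e50 (A : E3) : hat A 5 0 = 0 := rfl
lemma hat_e51 (A : E3) : hat A 5 1 = 0 := rfl
lemma hat_e52 (A : E3) : hat A 5 2 = 0 := rfl
lemma hat_e53 (A : E3) : hat A 5 3 = A 1 := rfl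
lemma hat_e54 (A : E3) : hat A 5 4 = A 2 := rfl
lemma hat_e55 (A : E3) : hat A 5 5 = 0 := rfl
lemma hat_e56 (A : E3) : hat A 5 6 = -A 0 := rfl
lemma hat_e60 (A : E3) : hat A 6 0 = 0 := rfl
lemma hat_e61 (A : E3) : hat A 6 1 = 0 := rfl
lemma hat_e62 (A : E3) : hat A 6 2 = 0 := rfl
lemma hat_e63 (A : E3) : hat A 6 3 = A 2 := rfl
lemma hat_e64 (A : E3) : hat A 6 4 = -A 1 := rfl
lemma hat_e65 (A : E3) : hat A 6 5 = A 0 := rfl
lemma hat_e66 (A : E3) : hat A 6 6 = 0 := rfl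

theorem iota_der (x : V11) (u v : E7) : iotaL x (cross u v) = cross (iotaL x u) v + cross u (iotaL x v) := by
  simp only [cross_apply]
  ext i
  rw [PiLp.add_apply]
  have e : ∀ (w : E7) (i : Fin 7), iotaL x w i = iota x i 0 * w 0 + iota x i 1 * w 1 + iota x i 2 * w 2
      + iota x i 3 * w 3 + iota x i 4 * w 4 + iota x i 5 * w 5 + iota x i 6 * w 6 :=
    fun w i => toC_apply _ _ _
  rw [e]
  fin_cases i
  · change iota x 0 0 * cr0 u v + iota x 0 1 * cr1 u v + iota x 0 2 * cr2 u v + iota x 0 3 * cr3 u v + iota x 0 4 * cr4 u v + iota x 0 5 * cr5 u v + iota x 0 6 * cr6 u v =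
      cr0 (iotaL x u) v + cr0 u (iotaL x v)
    simp only [cr0, cr1, cr2, cr3, cr4, cr5, cr6, e]
    simp only [iota_e00, iota_e01, iota_e02, iota_e03, iota_e04, iota_e05, iota_e06, iota_e10, iota_e11, iota_e12, iota_e13, iota_e14, iota_e15, iota_e16, iota_e20, iota_e21, iota_e22, iota_e23, iota_e24, iota_e25, iota_e26, iota_e30, iota_e31, iota_e32, iota_e33, iota_e34, iota_e35, iota_e36, iota_e40, iota_e41, iota_e42, iota_e43, iota_e44, iota_e45, iota_e46, iota_e50, iota_e51, iota_e52, iota_e53, iota_e54, iota_e55, iota_e56, iota_e60, iota_e61, iota_e62, iota_e63, iota_e64, iota_e65, iota_e66]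
    ring
  · change iota x 1 0 * cr0 u v + iota x 1 1 * cr1 u v + iota x 1 2 * cr2 u v + iota x 1 3 * cr3 u v + iota x 1 4 * cr4 u v + iota x 1 5 * cr5 u v + iota x 1 6 * cr6 u v =
      cr1 (iotaL x u) v + cr1 u (iotaL x v)
    simp only [cr0, cr1, cr2, cr3, cr4, cr5, cr6, e]
    simp only [iota_e00, iota_e01, iota_e02, iota_e03, iota_e04, iota_e05, iota_e06, iota_e10, iota_e11, iota_e12, iota_e13, iota_e14, iota_e15, iota_e16, iota_e20, iota_e21, iota_e22, iota_e23, iota_e24, iota_e25, iota_e26, iota_e30, iota_e31, iota_e32, iota_e33, iota_e34, iota_e35, iota_e36, iota_e40, iota_e41, iota_e42, iota_e43, iota_e44, iota_e45, iota_e46, iota_e50, iota_e51, iota_e52, iota_e53, iota_e54, iota_e55, iota_e56, iota_e60, iota_e61, iota_e62, iota_e63, iota_e64, iota_e65, iota_e66]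
    ring
  · change iota x 2 0 * cr0 u v + iota x 2 1 * cr1 u v + iota x 2 2 * cr2 u v + iota x 2 3 * cr3 u v + iota x 2 4 * cr4 u v + iota x 2 5 * cr5 u v + iota x 2 6 * cr6 u v =
      cr2 (iotaL x u) v + cr2 u (iotaL x v)
    simp only [cr0, cr1, cr2, cr3, cr4, cr5, cr6, e]
    simp only [iota_e00, iota_e01, iota_e02, iota_e03, iota_e04, iota_e05, iota_e06, iota_e10, iota_e11, iota_e12, iota_e13, iota_e14, iota_e15, iota_e16, iota_e20, iota_e21, iota_e22, iota_e23, iota_e24, iota_e25, iota_e26, iota_e30, iota_e31, iota_e32, iota_e33, iota_e34, iota_e35, iota_e36, iota_e40, iota_e41, iota_e42, iota_e43, iota_e44, iota_e45, iota_e46, iota_e50, iota_e51, iota_e52, iota_e53, iota_e54, iota_e55, iota_e56, iota_e60, iota_e61, iota_e62, iota_e63, iota_e64, iota_e65, iota_e66]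
    ring
  · change iota x 3 0 * cr0 u v + iota x 3 1 * cr1 u v + iota x 3 2 * cr2 u v + iota x 3 3 * cr3 u v + iota x 3 4 * cr4 u v + iota x 3 5 * cr5 u v + iota x 3 6 * cr6 u v =
      cr3 (iotaL x u) v + cr3 u (iotaL x v)
    simp only [cr0, cr1, cr2, cr3, cr4, cr5, cr6, e]
    simp only [iota_e00, iota_e01, iota_e02, iota_e03, iota_e04, iota_e05, iota_e06, iota_e10, iota_e11, iota_e12, iota_e13, iota_e14, iota_e15, iota_e16, iota_e20, iota_e21, iota_e22, iota_e23, iota_e24, iota_e25, iota_e26, iota_e30, iota_e31, iota_e32, iota_e33, iota_e34, iota_e35, iota_e36, iota_e40, iota_e41, iota_e42, iota_e43, iota_e44, iota_e45, iota_e46, iota_e50, iota_e51, iota_e52, iota_e53, iota_e54, iota_e55, iota_e56, iota_e60, iota_e61, iota_e62, iota_e63, iota_e64, iota_e65, iota_e66]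
    ring
  · change iota x 4 0 * cr0 u v + iota x 4 1 * cr1 u v + iota x 4 2 * cr2 u v + iota x 4 3 * cr3 u v + iota x 4 4 * cr4 u v + iota x 4 5 * cr5 u v + iota x 4 6 * cr6 u v =
      cr4 (iotaL x u) v + cr4 u (iotaL x v)
    simp only [cr0, cr1, cr2, cr3, cr4, cr5, cr6, e]
    simp only [iota_e00, iota_e01, iota_e02, iota_e03, iota_e04, iota_e05, iota_e06, iota_e10, iota_e11, iota_e12, iota_e13, iota_e14, iota_e15, iota_e16, iota_e20, iota_e21, iota_e22, iota_e23, iota_e24, iota_e25, iota_e26, iota_e30, iota_e31, iota_e32, iota_e33, iota_e34, iota_e35, iota_e36, iota_e40, iota_e41, iota_e42, iota_e43, iota_e44, iota_e45, iota_e46, iota_e50, iota_e51, iota_e52, iota_e53, iota_e54, iota_e55, iota_e56, iota_e60, iota_e61, iota_e62, iota_e63, iota_e64, iota_e65, iota_e66]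
    ring
  · change iota x 5 0 * cr0 u v + iota x 5 1 * cr1 u v + iota x 5 2 * cr2 u v + iota x 5 3 * cr3 u v + iota x 5 4 * cr4 u v + iota x 5 5 * cr5 u v + iota x 5 6 * cr6 u v =
      cr5 (iotaL x u) v + cr5 u (iotaL x v)
    simp only [cr0, cr1, cr2, cr3, cr4, cr5, cr6, e]
    simp only [iota_e00, iota_e01, iota_e02, iota_e03, iota_e04, iota_e05, iota_e06, iota_e10, iota_e11, iota_e12, iota_e13, iota_e14, iota_e15, iota_e16, iota_e20, iota_e21, iota_e22, iota_e23, iota_e24, iota_e25, iota_e26, iota_e30, iota_e31, iota_e32, iota_e33, iota_e34, iota_e35, iota_e36, iota_e40, iota_e41, iota_e42, iota_e43, iota_e44, iota_e45, iota_e46, iota_e50, iota_e51, iota_e52, iota_e53, iota_e54, iota_e55, iota_e56, iota_e60, iota_e61, iota_e62, iota_e63, iota_e64, iota_e65, iota_e66]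
    ring
  · change iota x 6 0 * cr0 u v + iota x 6 1 * cr1 u v + iota x 6 2 * cr2 u v + iota x 6 3 * cr3 u v + iota x 6 4 * cr4 u v + iota x 6 5 * cr5 u v + iota x 6 6 * cr6 u v =
      cr6 (iotaL x u) v + cr6 u (iotaL x v)
    simp only [cr0, cr1, cr2, cr3, cr4, cr5, cr6, e]
    simp only [iota_e00, iota_e01, iota_e02, iota_e03, iota_e04, iota_e05, iota_e06, iota_e10, iota_e11, iota_e12, iota_e13, iota_e14, iota_e15, iota_e16, iota_e20, iota_e21, iota_e22, iota_e23, iota_e24, iota_e25, iota_e26, iota_e30, iota_e31, iota_e32, iota_e33, iota_e34, iota_e35, iota_e36, iota_e40, iota_e41, iota_e42, iota_e43, iota_e44, iota_e45, iota_e46, iota_e50, iota_e51, iota_e52, iota_e53, iota_e54, iota_e55, iota_e56, iota_e60, iota_e61, iota_e62, iota_e63, iota_e64, iota_e65, iota_e66]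
    ring

theorem hat_der (A : E3) (u v : E7) : hatL A (cross u v) = cross (hatL A u) v + cross u (hatL A v) := by
  simp only [cross_apply]
  ext i
  rw [PiLp.add_apply]
  have e : ∀ (w : E7) (i : Fin 7), hatL A w i = hat A i 0 * w 0 + hat A i 1 * w 1 + hat A i 2 * w 2
      + hat A i 3 * w 3 + hat A i 4 * w 4 + hat A i 5 * w 5 + hat A i 6 * w 6 :=
    fun w i => toC_apply _ _ _
  rw [e]
  fin_cases i
  · change hat A 0 0 * cr0 u v + hat A 0 1 * cr1 u v + hat A 0 2 * cr2 u v + hat A 0 3 * cr3 u v + hat A 0 4 * cr4 u v + hat A 0 5 * cr5 u v + hat A 0 6 * cr6 u v =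
      cr0 (hatL A u) v + cr0 u (hatL A v)
    simp only [cr0, cr1, cr2, cr3, cr4, cr5, cr6, e]
    simp only [hat_e00, hat_e01, hat_e02, hat_e03, hat_e04, hat_e05, hat_e06, hat_e10, hat_e11, hat_e12, hat_e13, hat_e14, hat_e15, hat_e16, hat_e20, hat_e21, hat_e22, hat_e23, hat_e24, hat_e25, hat_e26, hat_e30, hat_e31, hat_e32, hat_e33, hat_e34, hat_e35, hat_e36, hat_e40, hat_e41, hat_e42, hat_e43, hat_e44, hat_e45, hat_e46, hat_e50, hat_e51, hat_e52, hat_e53, hat_e54, hat_e55, hat_e56, hat_e60, hat_e61, hat_e62, hat_e63, hat_e64, hat_e65, hat_e66]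
    ring
  · change hat A 1 0 * cr0 u v + hat A 1 1 * cr1 u v + hat A 1 2 * cr2 u v + hat A 1 3 * cr3 u v + hat A 1 4 * cr4 u v + hat A 1 5 * cr5 u v + hat A 1 6 * cr6 u v =
      cr1 (hatL A u) v + cr1 u (hatL A v)
    simp only [cr0, cr1, cr2, cr3, cr4, cr5, cr6, e]
    simp only [hat_e00, hat_e01, hat_e02, hat_e03, hat_e04, hat_e05, hat_e06, hat_e10, hat_e11, hat_e12, hat_e13, hat_e14, hat_e15, hat_e16, hat_e20, hat_e21, hat_e22, hat_e23, hat_e24, hat_e25, hat_e26, hat_e30, hat_e31, hat_e32, hat_e33, hat_e34, hat_e35, hat_e36, hat_e40, hat_e41, hat_e42, hat_e43, hat_e44, hat_e45, hat_e46, hat_e50, hat_e51, hat_e52, hat_e53, hat_e54, hat_e55, hat_e56, hat_e60, hat_e61, hat_e62, hat_e63, hat_e64, hat_e65, hat_e66]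
    ring
  · change hat A 2 0 * cr0 u v + hat A 2 1 * cr1 u v + hat A 2 2 * cr2 u v + hat A 2 3 * cr3 u v + hat A 2 4 * cr4 u v + hat A 2 5 * cr5 u v + hat A 2 6 * cr6 u v =
      cr2 (hatL A u) v + cr2 u (hatL A v)
    simp only [cr0, cr1, cr2, cr3, cr4, cr5, cr6, e]
    simp only [hat_e00, hat_e01, hat_e02, hat_e03, hat_e04, hat_e05, hat_e06, hat_e10, hat_e11, hat_e12, hat_e13, hat_e14, hat_e15, hat_e16, hat_e20, hat_e21, hat_e22, hat_e23, hat_e24, hat_e25, hat_e26, hat_e30, hat_e31, hat_e32, hat_e33, hat_e34, hat_e35, hat_e36, hat_e40, hat_e41, hat_e42, hat_e43, hat_e44, hat_e45, hat_e46, hat_e50, hat_e51, hat_e52, hat_e53, hat_e54, hat_e55, hat_e56, hat_e60, hat_e61, hat_e62, hat_e63, hat_e64, hat_e65, hat_e66]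
    ring
  · change hat A 3 0 * cr0 u v + hat A 3 1 * cr1 u v + hat A 3 2 * cr2 u v + hat A 3 3 * cr3 u v + hat A 3 4 * cr4 u v + hat A 3 5 * cr5 u v + hat A 3 6 * cr6 u v =
      cr3 (hatL A u) v + cr3 u (hatL A v)
    simp only [cr0, cr1, cr2, cr3, cr4, cr5, cr6, e]
    simp only [hat_e00, hat_e01, hat_e02, hat_e03, hat_e04, hat_e05, hat_e06, hat_e10, hat_e11, hat_e12, hat_e13, hat_e14, hat_e15, hat_e16, hat_e20, hat_e21, hat_e22, hat_e23, hat_e24, hat_e25, hat_e26, hat_e30, hat_e31, hat_e32, hat_e33, hat_e34, hat_e35, hat_e36, hat_e40, hat_e41, hat_e42, hat_e43, hat_e44, hat_e45, hat_e46, hat_e50, hat_e51, hat_e52, hat_e53, hat_e54, hat_e55, hat_e56, hat_e60, hat_e61, hat_e62, hat_e63, hat_e64, hat_e65, hat_e66]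
    ring
  · change hat A 4 0 * cr0 u v + hat A 4 1 * cr1 u v + hat A 4 2 * cr2 u v + hat A 4 3 * cr3 u v + hat A 4 4 * cr4 u v + hat A 4 5 * cr5 u v + hat A 4 6 * cr6 u v =
      cr4 (hatL A u) v + cr4 u (hatL A v)
    simp only [cr0, cr1, cr2, cr3, cr4, cr5, cr6, e]
    simp only [hat_e00, hat_e01, hat_e02, hat_e03, hat_e04, hat_e05, hat_e06, hat_e10, hat_e11, hat_e12, hat_e13, hat_e14, hat_e15, hat_e16, hat_e20, hat_e21, hat_e22, hat_e23, hat_e24, hat_e25, hat_e26, hat_e30, hat_e31, hat_e32, hat_e33, hat_e34, hat_e35, hat_e36, hat_e40, hat_e41, hat_e42, hat_e43, hat_e44, hat_e45, hat_e46, hat_e50, hat_e51, hat_e52, hat_e53, hat_e54, hat_e55, hat_e56, hat_e60, hat_e61, hat_e62, hat_e63, hat_e64, hat_e65, hat_e66]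
    ring
  · change hat A 5 0 * cr0 u v + hat A 5 1 * cr1 u v + hat A 5 2 * cr2 u v + hat A 5 3 * cr3 u v + hat A 5 4 * cr4 u v + hat A 5 5 * cr5 u v + hat A 5 6 * cr6 u v =
      cr5 (hatL A u) v + cr5 u (hatL A v)
    simp only [cr0, cr1, cr2, cr3, cr4, cr5, cr6, e]
    simp only [hat_e00, hat_e01, hat_e02, hat_e03, hat_e04, hat_e05, hat_e06, hat_e10, hat_e11, hat_e12, hat_e13, hat_e14, hat_e15, hat_e16, hat_e20, hat_e21, hat_e22, hat_e23, hat_e24, hat_e25, hat_e26, hat_e30, hat_e31, hat_e32, hat_e33, hat_e34, hat_e35, hat_e36, hat_e40, hat_e41, hat_e42, hat_e43, hat_e44, hat_e45, hat_e46, hat_e50, hat_e51, hat_e52, hat_e53, hat_e54, hat_e55, hat_e56, hat_e60, hat_e61, hat_e62, hat_e63, hat_e64, hat_e65, hat_e66]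
    ring
  · change hat A 6 0 * cr0 u v + hat A 6 1 * cr1 u v + hat A 6 2 * cr2 u v + hat A 6 3 * cr3 u v + hat A 6 4 * cr4 u v + hat A 6 5 * cr5 u v + hat A 6 6 * cr6 u v =
      cr6 (hatL A u) v + cr6 u (hatL A v)
    simp only [cr0, cr1, cr2, cr3, cr4, cr5, cr6, e]
    simp only [hat_e00, hat_e01, hat_e02, hat_e03, hat_e04, hat_e05, hat_e06, hat_e10, hat_e11, hat_e12, hat_e13, hat_e14, hat_e15, hat_e16, hat_e20, hat_e21, hat_e22, hat_e23, hat_e24, hat_e25, hat_e26, hat_e30, hat_e31, hat_e32, hat_e33, hat_e34, hat_e35, hat_e36, hat_e40, hat_e41, hat_e42, hat_e43, hat_e44, hat_e45, hat_e46, hat_e50, hat_e51, hat_e52, hat_e53, hat_e54, hat_e55, hat_e56, hat_e60, hat_e61, hat_e62, hat_e63, hat_e64, hat_e65, hat_e66]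
    ring

/-- `diag (1, L_q)` -/
noncomputable def LqM (q : EuclideanSpace ℝ (Fin 4)) : Matrix (Fin 7) (Fin 7) ℝ :=
  !![1, 0, 0, 0, 0, 0, 0;
    0, 1, 0, 0, 0, 0, 0;
    0, 0, 1, 0, 0, 0, 0;
    0, 0, 0, q 0, -q 1, -q 2, -q 3;
    0, 0, 0, q 1, q 0, -q 3, q 2;
    0, 0, 0, q 2, q 3, q 0, -q 1;
    0, 0, 0, q 3, -q 2, q 1, q 0]

lemma LqM_e00 (q : EuclideanSpace ℝ (Fin 4)) : LqM q 0 0 = 1 := rfl
lemma LqM_e01 (q : EuclideanSpace ℝ (Fin 4)) : LqM q 0 1 = 0 := rfl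
lemma LqM_e02 (q : EuclideanSpace ℝ (Fin 4)) : LqM q 0 2 = 0 := rfl
lemma LqM_e03 (q : EuclideanSpace ℝ (Fin 4)) : LqM q 0 3 = 0 := rfl
lemma LqM_e04 (q : EuclideanSpace ℝ (Fin 4)) : LqM q 0 4 = 0 := rfl
lemma LqM_e05 (q : EuclideanSpace ℝ (Fin 4)) : LqM q 0 5 = 0 := rfl
lemma LqM_e06 (q : EuclideanSpace ℝ (Fin 4)) : LqM q 0 6 = 0 := rfl
lemma LqM_e10 (q : EuclideanSpace ℝ (Fin 4)) : LqM q 1 0 = 0 := rfl
lemma LqM_e11 (q : EuclideanSpace ℝ (Fin 4)) : LqM q 1 1 = 1 := rfl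
lemma LqM_e12 (q : EuclideanSpace ℝ (Fin 4)) : LqM q 1 2 = 0 := rfl
lemma LqM_e13 (q : EuclideanSpace ℝ (Fin 4)) : LqM q 1 3 = 0 := rfl
lemma LqM_e14 (q : EuclideanSpace ℝ (Fin 4)) : LqM q 1 4 = 0 := rfl
lemma LqM_e15 (q : EuclideanSpace ℝ (Fin 4)) : LqM q 1 5 = 0 := rfl
lemma LqM_e16 (q : EuclideanSpace ℝ (Fin 4)) : LqM q 1 6 = 0 := rfl
lemma LqM_e20 (q : EuclideanSpace ℝ (Fin 4)) : LqM q 2 0 = 0 := rfl
lemma LqM_e21 (q : EuclideanSpace ℝ (Fin 4)) : LqM q 2 1 = 0 := rfl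
lemma LqM_e22 (q : EuclideanSpace ℝ (Fin 4)) : LqM q 2 2 = 1 := rfl
lemma LqM_e23 (q : EuclideanSpace ℝ (Fin 4)) : LqM q 2 3 = 0 := rfl
lemma LqM_e24 (q : EuclideanSpace ℝ (Fin 4)) : LqM q 2 4 = 0 := rfl
lemma LqM_e25 (q : EuclideanSpace ℝ (Fin 4)) : LqM q 2 5 = 0 := rfl
lemma LqM_e26 (q : EuclideanSpace ℝ (Fin 4)) : LqM q 2 6 = 0 := rfl
lemma LqM_e30 (q : EuclideanSpace ℝ (Fin 4)) : LqM q 3 0 = 0 := rfl
lemma LqM_e31 (q : EuclideanSpace ℝ (Fin 4)) : LqM q 3 1 = 0 := rfl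
lemma LqM_e32 (q : EuclideanSpace ℝ (Fin 4)) : LqM q 3 2 = 0 := rfl
lemma LqM_e33 (q : EuclideanSpace ℝ (Fin 4)) : LqM q 3 3 = q 0 := rfl
lemma LqM_e34 (q : EuclideanSpace ℝ (Fin 4)) : LqM q 3 4 = -q 1 := rfl
lemma LqM_e35 (q : EuclideanSpace ℝ (Fin 4)) : LqM q 3 5 = -q 2 := rfl
lemma LqM_e36 (q : EuclideanSpace ℝ (Fin 4)) : LqM q 3 6 = -q 3 := rfl
lemma LqM_e40 (q : EuclideanSpace ℝ (Fin 4)) : LqM q 4 0 = 0 := rfl
lemma LqM_e41 (q : EuclideanSpace ℝ (Fin 4)) : LqM q 4 1 = 0 := rfl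
lemma LqM_e42 (q : EuclideanSpace ℝ (Fin 4)) : LqM q 4 2 = 0 := rfl
lemma LqM_e43 (q : EuclideanSpace ℝ (Fin 4)) : LqM q 4 3 = q 1 := rfl
lemma LqM_e44 (q : EuclideanSpace ℝ (Fin 4)) : LqM q 4 4 = q 0 := rfl
lemma LqM_e45 (q : EuclideanSpace ℝ (Fin 4)) : LqM q 4 5 = -q 3 := rfl
lemma LqM_e46 (q : EuclideanSpace ℝ (Fin 4)) : LqM q 4 6 = q 2 := rfl
lemma LqM_e50 (q : EuclideanSpace ℝ (Fin 4)) : LqM q 5 0 = 0 := rfl
lemma LqM_e51 (q : EuclideanSpace ℝ (Fin 4)) : LqM q 5 1 = 0 := rfl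
lemma LqM_e52 (q : EuclideanSpace ℝ (Fin 4)) : LqM q 5 2 = 0 := rfl
lemma LqM_e53 (q : EuclideanSpace ℝ (Fin 4)) : LqM q 5 3 = q 2 := rfl
lemma LqM_e54 (q : EuclideanSpace ℝ (Fin 4)) : LqM q 5 4 = q 3 := rfl
lemma LqM_e55 (q : EuclideanSpace ℝ (Fin 4)) : LqM q 5 5 = q 0 := rfl
lemma LqM_e56 (q : EuclideanSpace ℝ (Fin 4)) : LqM q 5 6 = -q 1 := rfl
lemma LqM_e60 (q : EuclideanSpace ℝ (Fin 4)) : LqM q 6 0 = 0 := rfl
lemma LqM_e61 (q : EuclideanSpace ℝ (Fin 4)) : LqM q 6 1 = 0 := rfl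
lemma LqM_e62 (q : EuclideanSpace ℝ (Fin 4)) : LqM q 6 2 = 0 := rfl
lemma LqM_e63 (q : EuclideanSpace ℝ (Fin 4)) : LqM q 6 3 = q 3 := rfl
lemma LqM_e64 (q : EuclideanSpace ℝ (Fin 4)) : LqM q 6 4 = -q 2 := rfl
lemma LqM_e65 (q : EuclideanSpace ℝ (Fin 4)) : LqM q 6 5 = q 1 := rfl
lemma LqM_e66 (q : EuclideanSpace ℝ (Fin 4)) : LqM q 6 6 = q 0 := rfl

theorem LqM_iota {q : EuclideanSpace ℝ (Fin 4)} (hq : q 0 ^ 2 + q 1 ^ 2 + q 2 ^ 2 + q 3 ^ 2 = 1)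
    (x : V11) : LqM q * iota x = iota (rotF q x) * LqM q := by
  ext i j
  rw [mul7, mul7]
  fin_cases i <;> fin_cases j
  · change (1) * 0 + 0 * (2 * k * x 2) + 0 * (-(2 * k * x 1)) + 0 * (-(2 * k * x 9)) + 0 * (-(2 * k * x 10)) + 0 * (2 * k * x 7) + 0 * (2 * k * x 8) =
      0 * (1) + (-(2 * k * x 2)) * 0 + (2 * k * x 1) * 0 + (2 * k * (q 0 * x 9 - q 1 * x 10 + q 2 * x 7 + q 3 * x 8)) * 0 + (2 * k * (q 0 * x 10 + q 1 * x 9 - q 2 * x 8 + q 3 * x 7)) * 0 + (-(2 * k * (q 0 * x 7 - q 1 * x 8 - q 2 * x 9 - q 3 * x 10))) * 0 + (-(2 * k * (q 0 * x 8 + q 1 * x 7 + q 2 * x 10 - q 3 * x 9))) * 0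
    ring
  · change (1) * (-(2 * k * x 2)) + 0 * 0 + 0 * (2 * k * x 0) + 0 * (x 3 - k * x 8) + 0 * (x 4 + k * x 7) + 0 * (x 5 + k * x 10) + 0 * (x 6 - k * x 9) =
      0 * 0 + (-(2 * k * x 2)) * (1) + (2 * k * x 1) * 0 + (2 * k * (q 0 * x 9 - q 1 * x 10 + q 2 * x 7 + q 3 * x 8)) * 0 + (2 * k * (q 0 * x 10 + q 1 * x 9 - q 2 * x 8 + q 3 * x 7)) * 0 + (-(2 * k * (q 0 * x 7 - q 1 * x 8 - q 2 * x 9 - q 3 * x 10))) * 0 + (-(2 * k * (q 0 * x 8 + q 1 * x 7 + q 2 * x 10 - q 3 * x 9))) * 0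
    ring
  · change (1) * (2 * k * x 1) + 0 * (-(2 * k * x 0)) + 0 * 0 + 0 * (-x 4 + k * x 7) + 0 * (x 3 + k * x 8) + 0 * (x 6 + k * x 9) + 0 * (-x 5 + k * x 10) =
      0 * 0 + (-(2 * k * x 2)) * 0 + (2 * k * x 1) * (1) + (2 * k * (q 0 * x 9 - q 1 * x 10 + q 2 * x 7 + q 3 * x 8)) * 0 + (2 * k * (q 0 * x 10 + q 1 * x 9 - q 2 * x 8 + q 3 * x 7)) * 0 + (-(2 * k * (q 0 * x 7 - q 1 * x 8 - q 2 * x 9 - q 3 * x 10))) * 0 + (-(2 * k * (q 0 * x 8 + q 1 * x 7 + q 2 * x 10 - q 3 * x 9))) * 0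
    ring
  · change (1) * (2 * k * x 9) + 0 * (-x 3 + k * x 8) + 0 * (x 4 - k * x 7) + 0 * 0 + 0 * (-(k * x 0)) + 0 * (-(k * x 1)) + 0 * (-(k * x 2)) =
      0 * 0 + (-(2 * k * x 2)) * 0 + (2 * k * x 1) * 0 + (2 * k * (q 0 * x 9 - q 1 * x 10 + q 2 * x 7 + q 3 * x 8)) * q 0 + (2 * k * (q 0 * x 10 + q 1 * x 9 - q 2 * x 8 + q 3 * x 7)) * q 1 + (-(2 * k * (q 0 * x 7 - q 1 * x 8 - q 2 * x 9 - q 3 * x 10))) * q 2 + (-(2 * k * (q 0 * x 8 + q 1 * x 7 + q 2 * x 10 - q 3 * x 9))) * q 3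
    linear_combination (-(2 * k * x 9)) * hq
  · change (1) * (2 * k * x 10) + 0 * (-x 4 - k * x 7) + 0 * (-x 3 - k * x 8) + 0 * (k * x 0) + 0 * 0 + 0 * (k * x 2) + 0 * (-(k * x 1)) =
      0 * 0 + (-(2 * k * x 2)) * 0 + (2 * k * x 1) * 0 + (2 * k * (q 0 * x 9 - q 1 * x 10 + q 2 * x 7 + q 3 * x 8)) * (-q 1) + (2 * k * (q 0 * x 10 + q 1 * x 9 - q 2 * x 8 + q 3 * x 7)) * q 0 + (-(2 * k * (q 0 * x 7 - q 1 * x 8 - q 2 * x 9 - q 3 * x 10))) * q 3 + (-(2 * k * (q 0 * x 8 + q 1 * x 7 + q 2 * x 10 - q 3 * x 9))) * (-q 2)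
    linear_combination (-(2 * k * x 10)) * hq
  · change (1) * (-(2 * k * x 7)) + 0 * (-x 5 - k * x 10) + 0 * (-x 6 - k * x 9) + 0 * (k * x 1) + 0 * (-(k * x 2)) + 0 * 0 + 0 * (k * x 0) =
      0 * 0 + (-(2 * k * x 2)) * 0 + (2 * k * x 1) * 0 + (2 * k * (q 0 * x 9 - q 1 * x 10 + q 2 * x 7 + q 3 * x 8)) * (-q 2) + (2 * k * (q 0 * x 10 + q 1 * x 9 - q 2 * x 8 + q 3 * x 7)) * (-q 3) + (-(2 * k * (q 0 * x 7 - q 1 * x 8 - q 2 * x 9 - q 3 * x 10))) * q 0 + (-(2 * k * (q 0 * x 8 + q 1 * x 7 + q 2 * x 10 - q 3 * x 9))) * q 1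
    linear_combination (-(-(2 * k * x 7))) * hq
  · change (1) * (-(2 * k * x 8)) + 0 * (-x 6 + k * x 9) + 0 * (x 5 - k * x 10) + 0 * (k * x 2) + 0 * (k * x 1) + 0 * (-(k * x 0)) + 0 * 0 =
      0 * 0 + (-(2 * k * x 2)) * 0 + (2 * k * x 1) * 0 + (2 * k * (q 0 * x 9 - q 1 * x 10 + q 2 * x 7 + q 3 * x 8)) * (-q 3) + (2 * k * (q 0 * x 10 + q 1 * x 9 - q 2 * x 8 + q 3 * x 7)) * q 2 + (-(2 * k * (q 0 * x 7 - q 1 * x 8 - q 2 * x 9 - q 3 * x 10))) * (-q 1) + (-(2 * k * (q 0 * x 8 + q 1 * x 7 + q 2 * x 10 - q 3 * x 9))) * q 0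
    linear_combination (-(-(2 * k * x 8))) * hq
  · change 0 * 0 + (1) * (2 * k * x 2) + 0 * (-(2 * k * x 1)) + 0 * (-(2 * k * x 9)) + 0 * (-(2 * k * x 10)) + 0 * (2 * k * x 7) + 0 * (2 * k * x 8) =
      (2 * k * x 2) * (1) + 0 * 0 + (-(2 * k * x 0)) * 0 + (-(q 0 * x 3 - q 1 * x 4 - q 2 * x 5 - q 3 * x 6) + k * (q 0 * x 8 + q 1 * x 7 + q 2 * x 10 - q 3 * x 9)) * 0 + (-(q 0 * x 4 + q 1 * x 3 + q 2 * x 6 - q 3 * x 5) - k * (q 0 * x 7 - q 1 * x 8 - q 2 * x 9 - q 3 * x 10)) * 0 + (-(q 0 * x 5 - q 1 * x 6 + q 2 * x 3 + q 3 * x 4) - k * (q 0 * x 10 + q 1 * x 9 - q 2 * x 8 + q 3 * x 7)) * 0 + (-(q 0 * x 6 + q 1 * x 5 - q 2 * x 4 + q 3 * x 3) + k * (q 0 * x 9 - q 1 * x 10 + q 2 * x 7 + q 3 * x 8)) * 0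
    ring
  · change 0 * (-(2 * k * x 2)) + (1) * 0 + 0 * (2 * k * x 0) + 0 * (x 3 - k * x 8) + 0 * (x 4 + k * x 7) + 0 * (x 5 + k * x 10) + 0 * (x 6 - k * x 9) =
      (2 * k * x 2) * 0 + 0 * (1) + (-(2 * k * x 0)) * 0 + (-(q 0 * x 3 - q 1 * x 4 - q 2 * x 5 - q 3 * x 6) + k * (q 0 * x 8 + q 1 * x 7 + q 2 * x 10 - q 3 * x 9)) * 0 + (-(q 0 * x 4 + q 1 * x 3 + q 2 * x 6 - q 3 * x 5) - k * (q 0 * x 7 - q 1 * x 8 - q 2 * x 9 - q 3 * x 10)) * 0 + (-(q 0 * x 5 - q 1 * x 6 + q 2 * x 3 + q 3 * x 4) - k * (q 0 * x 10 + q 1 * x 9 - q 2 * x 8 + q 3 * x 7)) * 0 + (-(q 0 * x 6 + q 1 * x 5 - q 2 * x 4 + q 3 * x 3) + k * (q 0 * x 9 - q 1 * x 10 + q 2 * x 7 + q 3 * x 8)) * 0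
    ring
  · change 0 * (2 * k * x 1) + (1) * (-(2 * k * x 0)) + 0 * 0 + 0 * (-x 4 + k * x 7) + 0 * (x 3 + k * x 8) + 0 * (x 6 + k * x 9) + 0 * (-x 5 + k * x 10) =
      (2 * k * x 2) * 0 + 0 * 0 + (-(2 * k * x 0)) * (1) + (-(q 0 * x 3 - q 1 * x 4 - q 2 * x 5 - q 3 * x 6) + k * (q 0 * x 8 + q 1 * x 7 + q 2 * x 10 - q 3 * x 9)) * 0 + (-(q 0 * x 4 + q 1 * x 3 + q 2 * x 6 - q 3 * x 5) - k * (q 0 * x 7 - q 1 * x 8 - q 2 * x 9 - q 3 * x 10)) * 0 + (-(q 0 * x 5 - q 1 * x 6 + q 2 * x 3 + q 3 * x 4) - k * (q 0 * x 10 + q 1 * x 9 - q 2 * x 8 + q 3 * x 7)) * 0 + (-(q 0 * x 6 + q 1 * x 5 - q 2 * x 4 + q 3 * x 3) + k * (q 0 * x 9 - q 1 * x 10 + q 2 * x 7 + q 3 * x 8)) * 0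
    ring
  · change 0 * (2 * k * x 9) + (1) * (-x 3 + k * x 8) + 0 * (x 4 - k * x 7) + 0 * 0 + 0 * (-(k * x 0)) + 0 * (-(k * x 1)) + 0 * (-(k * x 2)) =
      (2 * k * x 2) * 0 + 0 * 0 + (-(2 * k * x 0)) * 0 + (-(q 0 * x 3 - q 1 * x 4 - q 2 * x 5 - q 3 * x 6) + k * (q 0 * x 8 + q 1 * x 7 + q 2 * x 10 - q 3 * x 9)) * q 0 + (-(q 0 * x 4 + q 1 * x 3 + q 2 * x 6 - q 3 * x 5) - k * (q 0 * x 7 - q 1 * x 8 - q 2 * x 9 - q 3 * x 10)) * q 1 + (-(q 0 * x 5 - q 1 * x 6 + q 2 * x 3 + q 3 * x 4) - k * (q 0 * x 10 + q 1 * x 9 - q 2 * x 8 + q 3 * x 7)) * q 2 + (-(q 0 * x 6 + q 1 * x 5 - q 2 * x 4 + q 3 * x 3) + k * (q 0 * x 9 - q 1 * x 10 + q 2 * x 7 + q 3 * x 8)) * q 3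
    linear_combination (-(-x 3 + k * x 8)) * hq
  · change 0 * (2 * k * x 10) + (1) * (-x 4 - k * x 7) + 0 * (-x 3 - k * x 8) + 0 * (k * x 0) + 0 * 0 + 0 * (k * x 2) + 0 * (-(k * x 1)) =
      (2 * k * x 2) * 0 + 0 * 0 + (-(2 * k * x 0)) * 0 + (-(q 0 * x 3 - q 1 * x 4 - q 2 * x 5 - q 3 * x 6) + k * (q 0 * x 8 + q 1 * x 7 + q 2 * x 10 - q 3 * x 9)) * (-q 1) + (-(q 0 * x 4 + q 1 * x 3 + q 2 * x 6 - q 3 * x 5) - k * (q 0 * x 7 - q 1 * x 8 - q 2 * x 9 - q 3 * x 10)) * q 0 + (-(q 0 * x 5 - q 1 * x 6 + q 2 * x 3 + q 3 * x 4) - k * (q 0 * x 10 + q 1 * x 9 - q 2 * x 8 + q 3 * x 7)) * q 3 + (-(q 0 * x 6 + q 1 * x 5 - q 2 * x 4 + q 3 * x 3) + k * (q 0 * x 9 - q 1 * x 10 + q 2 * x 7 + q 3 * x 8)) * (-q 2)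
    linear_combination (-(-x 4 - k * x 7)) * hq
  · change 0 * (-(2 * k * x 7)) + (1) * (-x 5 - k * x 10) + 0 * (-x 6 - k * x 9) + 0 * (k * x 1) + 0 * (-(k * x 2)) + 0 * 0 + 0 * (k * x 0) =
      (2 * k * x 2) * 0 + 0 * 0 + (-(2 * k * x 0)) * 0 + (-(q 0 * x 3 - q 1 * x 4 - q 2 * x 5 - q 3 * x 6) + k * (q 0 * x 8 + q 1 * x 7 + q 2 * x 10 - q 3 * x 9)) * (-q 2) + (-(q 0 * x 4 + q 1 * x 3 + q 2 * x 6 - q 3 * x 5) - k * (q 0 * x 7 - q 1 * x 8 - q 2 * x 9 - q 3 * x 10)) * (-q 3) + (-(q 0 * x 5 - q 1 * x 6 + q 2 * x 3 + q 3 * x 4) - k * (q 0 * x 10 + q 1 * x 9 - q 2 * x 8 + q 3 * x 7)) * q 0 + (-(q 0 * x 6 + q 1 * x 5 - q 2 * x 4 + q 3 * x 3) + k * (q 0 * x 9 - q 1 * x 10 + q 2 * x 7 + q 3 * x 8)) * q 1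
    linear_combination (-(-x 5 - k * x 10)) * hq
  · change 0 * (-(2 * k * x 8)) + (1) * (-x 6 + k * x 9) + 0 * (x 5 - k * x 10) + 0 * (k * x 2) + 0 * (k * x 1) + 0 * (-(k * x 0)) + 0 * 0 =
      (2 * k * x 2) * 0 + 0 * 0 + (-(2 * k * x 0)) * 0 + (-(q 0 * x 3 - q 1 * x 4 - q 2 * x 5 - q 3 * x 6) + k * (q 0 * x 8 + q 1 * x 7 + q 2 * x 10 - q 3 * x 9)) * (-q 3) + (-(q 0 * x 4 + q 1 * x 3 + q 2 * x 6 - q 3 * x 5) - k * (q 0 * x 7 - q 1 * x 8 - q 2 * x 9 - q 3 * x 10)) * q 2 + (-(q 0 * x 5 - q 1 * x 6 + q 2 * x 3 + q 3 * x 4) - k * (q 0 * x 10 + q 1 * x 9 - q 2 * x 8 + q 3 * x 7)) * (-q 1) + (-(q 0 * x 6 + q 1 * x 5 - q 2 * x 4 + q 3 * x 3) + k * (q 0 * x 9 - q 1 * x 10 + q 2 * x 7 + q 3 * x 8)) * q 0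
    linear_combination (-(-x 6 + k * x 9)) * hq
  · change 0 * 0 + 0 * (2 * k * x 2) + (1) * (-(2 * k * x 1)) + 0 * (-(2 * k * x 9)) + 0 * (-(2 * k * x 10)) + 0 * (2 * k * x 7) + 0 * (2 * k * x 8) =
      (-(2 * k * x 1)) * (1) + (2 * k * x 0) * 0 + 0 * 0 + ((q 0 * x 4 + q 1 * x 3 + q 2 * x 6 - q 3 * x 5) - k * (q 0 * x 7 - q 1 * x 8 - q 2 * x 9 - q 3 * x 10)) * 0 + (-(q 0 * x 3 - q 1 * x 4 - q 2 * x 5 - q 3 * x 6) - k * (q 0 * x 8 + q 1 * x 7 + q 2 * x 10 - q 3 * x 9)) * 0 + (-(q 0 * x 6 + q 1 * x 5 - q 2 * x 4 + q 3 * x 3) - k * (q 0 * x 9 - q 1 * x 10 + q 2 * x 7 + q 3 * x 8)) * 0 + ((q 0 * x 5 - q 1 * x 6 + q 2 * x 3 + q 3 * x 4) - k * (q 0 * x 10 + q 1 * x 9 - q 2 * x 8 + q 3 * x 7)) * 0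
    ring
  · change 0 * (-(2 * k * x 2)) + 0 * 0 + (1) * (2 * k * x 0) + 0 * (x 3 - k * x 8) + 0 * (x 4 + k * x 7) + 0 * (x 5 + k * x 10) + 0 * (x 6 - k * x 9) =
      (-(2 * k * x 1)) * 0 + (2 * k * x 0) * (1) + 0 * 0 + ((q 0 * x 4 + q 1 * x 3 + q 2 * x 6 - q 3 * x 5) - k * (q 0 * x 7 - q 1 * x 8 - q 2 * x 9 - q 3 * x 10)) * 0 + (-(q 0 * x 3 - q 1 * x 4 - q 2 * x 5 - q 3 * x 6) - k * (q 0 * x 8 + q 1 * x 7 + q 2 * x 10 - q 3 * x 9)) * 0 + (-(q 0 * x 6 + q 1 * x 5 - q 2 * x 4 + q 3 * x 3) - k * (q 0 * x 9 - q 1 * x 10 + q 2 * x 7 + q 3 * x 8)) * 0 + ((q 0 * x 5 - q 1 * x 6 + q 2 * x 3 + q 3 * x 4) - k * (q 0 * x 10 + q 1 * x 9 - q 2 * x 8 + q 3 * x 7)) * 0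
    ring
  · change 0 * (2 * k * x 1) + 0 * (-(2 * k * x 0)) + (1) * 0 + 0 * (-x 4 + k * x 7) + 0 * (x 3 + k * x 8) + 0 * (x 6 + k * x 9) + 0 * (-x 5 + k * x 10) =
      (-(2 * k * x 1)) * 0 + (2 * k * x 0) * 0 + 0 * (1) + ((q 0 * x 4 + q 1 * x 3 + q 2 * x 6 - q 3 * x 5) - k * (q 0 * x 7 - q 1 * x 8 - q 2 * x 9 - q 3 * x 10)) * 0 + (-(q 0 * x 3 - q 1 * x 4 - q 2 * x 5 - q 3 * x 6) - k * (q 0 * x 8 + q 1 * x 7 + q 2 * x 10 - q 3 * x 9)) * 0 + (-(q 0 * x 6 + q 1 * x 5 - q 2 * x 4 + q 3 * x 3) - k * (q 0 * x 9 - q 1 * x 10 + q 2 * x 7 + q 3 * x 8)) * 0 + ((q 0 * x 5 - q 1 * x 6 + q 2 * x 3 + q 3 * x 4) - k * (q 0 * x 10 + q 1 * x 9 - q 2 * x 8 + q 3 * x 7)) * 0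
    ring
  · change 0 * (2 * k * x 9) + 0 * (-x 3 + k * x 8) + (1) * (x 4 - k * x 7) + 0 * 0 + 0 * (-(k * x 0)) + 0 * (-(k * x 1)) + 0 * (-(k * x 2)) =
      (-(2 * k * x 1)) * 0 + (2 * k * x 0) * 0 + 0 * 0 + ((q 0 * x 4 + q 1 * x 3 + q 2 * x 6 - q 3 * x 5) - k * (q 0 * x 7 - q 1 * x 8 - q 2 * x 9 - q 3 * x 10)) * q 0 + (-(q 0 * x 3 - q 1 * x 4 - q 2 * x 5 - q 3 * x 6) - k * (q 0 * x 8 + q 1 * x 7 + q 2 * x 10 - q 3 * x 9)) * q 1 + (-(q 0 * x 6 + q 1 * x 5 - q 2 * x 4 + q 3 * x 3) - k * (q 0 * x 9 - q 1 * x 10 + q 2 * x 7 + q 3 * x 8)) * q 2 + ((q 0 * x 5 - q 1 * x 6 + q 2 * x 3 + q 3 * x 4) - k * (q 0 * x 10 + q 1 * x 9 - q 2 * x 8 + q 3 * x 7)) * q 3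
    linear_combination (-(x 4 - k * x 7)) * hq
  · change 0 * (2 * k * x 10) + 0 * (-x 4 - k * x 7) + (1) * (-x 3 - k * x 8) + 0 * (k * x 0) + 0 * 0 + 0 * (k * x 2) + 0 * (-(k * x 1)) =
      (-(2 * k * x 1)) * 0 + (2 * k * x 0) * 0 + 0 * 0 + ((q 0 * x 4 + q 1 * x 3 + q 2 * x 6 - q 3 * x 5) - k * (q 0 * x 7 - q 1 * x 8 - q 2 * x 9 - q 3 * x 10)) * (-q 1) + (-(q 0 * x 3 - q 1 * x 4 - q 2 * x 5 - q 3 * x 6) - k * (q 0 * x 8 + q 1 * x 7 + q 2 * x 10 - q 3 * x 9)) * q 0 + (-(q 0 * x 6 + q 1 * x 5 - q 2 * x 4 + q 3 * x 3) - k * (q 0 * x 9 - q 1 * x 10 + q 2 * x 7 + q 3 * x 8)) * q 3 + ((q 0 * x 5 - q 1 * x 6 + q 2 * x 3 + q 3 * x 4) - k * (q 0 * x 10 + q 1 * x 9 - q 2 * x 8 + q 3 * x 7)) * (-q 2)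
    linear_combination (-(-x 3 - k * x 8)) * hq
  · change 0 * (-(2 * k * x 7)) + 0 * (-x 5 - k * x 10) + (1) * (-x 6 - k * x 9) + 0 * (k * x 1) + 0 * (-(k * x 2)) + 0 * 0 + 0 * (k * x 0) =
      (-(2 * k * x 1)) * 0 + (2 * k * x 0) * 0 + 0 * 0 + ((q 0 * x 4 + q 1 * x 3 + q 2 * x 6 - q 3 * x 5) - k * (q 0 * x 7 - q 1 * x 8 - q 2 * x 9 - q 3 * x 10)) * (-q 2) + (-(q 0 * x 3 - q 1 * x 4 - q 2 * x 5 - q 3 * x 6) - k * (q 0 * x 8 + q 1 * x 7 + q 2 * x 10 - q 3 * x 9)) * (-q 3) + (-(q 0 * x 6 + q 1 * x 5 - q 2 * x 4 + q 3 * x 3) - k * (q 0 * x 9 - q 1 * x 10 + q 2 * x 7 + q 3 * x 8)) * q 0 + ((q 0 * x 5 - q 1 * x 6 + q 2 * x 3 + q 3 * x 4) - k * (q 0 * x 10 + q 1 * x 9 - q 2 * x 8 + q 3 * x 7)) * q 1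
    linear_combination (-(-x 6 - k * x 9)) * hq
  · change 0 * (-(2 * k * x 8)) + 0 * (-x 6 + k * x 9) + (1) * (x 5 - k * x 10) + 0 * (k * x 2) + 0 * (k * x 1) + 0 * (-(k * x 0)) + 0 * 0 =
      (-(2 * k * x 1)) * 0 + (2 * k * x 0) * 0 + 0 * 0 + ((q 0 * x 4 + q 1 * x 3 + q 2 * x 6 - q 3 * x 5) - k * (q 0 * x 7 - q 1 * x 8 - q 2 * x 9 - q 3 * x 10)) * (-q 3) + (-(q 0 * x 3 - q 1 * x 4 - q 2 * x 5 - q 3 * x 6) - k * (q 0 * x 8 + q 1 * x 7 + q 2 * x 10 - q 3 * x 9)) * q 2 + (-(q 0 * x 6 + q 1 * x 5 - q 2 * x 4 + q 3 * x 3) - k * (q 0 * x 9 - q 1 * x 10 + q 2 * x 7 + q 3 * x 8)) * (-q 1) + ((q 0 * x 5 - q 1 * x 6 + q 2 * x 3 + q 3 * x 4) - k * (q 0 * x 10 + q 1 * x 9 - q 2 * x 8 + q 3 * x 7)) * q 0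
    linear_combination (-(x 5 - k * x 10)) * hq
  · change 0 * 0 + 0 * (2 * k * x 2) + 0 * (-(2 * k * x 1)) + q 0 * (-(2 * k * x 9)) + (-q 1) * (-(2 * k * x 10)) + (-q 2) * (2 * k * x 7) + (-q 3) * (2 * k * x 8) =
      (-(2 * k * (q 0 * x 9 - q 1 * x 10 + q 2 * x 7 + q 3 * x 8))) * (1) + ((q 0 * x 3 - q 1 * x 4 - q 2 * x 5 - q 3 * x 6) - k * (q 0 * x 8 + q 1 * x 7 + q 2 * x 10 - q 3 * x 9)) * 0 + (-(q 0 * x 4 + q 1 * x 3 + q 2 * x 6 - q 3 * x 5) + k * (q 0 * x 7 - q 1 * x 8 - q 2 * x 9 - q 3 * x 10)) * 0 + 0 * 0 + (k * x 0) * 0 + (k * x 1) * 0 + (k * x 2) * 0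
    ring
  · change 0 * (-(2 * k * x 2)) + 0 * 0 + 0 * (2 * k * x 0) + q 0 * (x 3 - k * x 8) + (-q 1) * (x 4 + k * x 7) + (-q 2) * (x 5 + k * x 10) + (-q 3) * (x 6 - k * x 9) =
      (-(2 * k * (q 0 * x 9 - q 1 * x 10 + q 2 * x 7 + q 3 * x 8))) * 0 + ((q 0 * x 3 - q 1 * x 4 - q 2 * x 5 - q 3 * x 6) - k * (q 0 * x 8 + q 1 * x 7 + q 2 * x 10 - q 3 * x 9)) * (1) + (-(q 0 * x 4 + q 1 * x 3 + q 2 * x 6 - q 3 * x 5) + k * (q 0 * x 7 - q 1 * x 8 - q 2 * x 9 - q 3 * x 10)) * 0 + 0 * 0 + (k * x 0) * 0 + (k * x 1) * 0 + (k * x 2) * 0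
    ring
  · change 0 * (2 * k * x 1) + 0 * (-(2 * k * x 0)) + 0 * 0 + q 0 * (-x 4 + k * x 7) + (-q 1) * (x 3 + k * x 8) + (-q 2) * (x 6 + k * x 9) + (-q 3) * (-x 5 + k * x 10) =
      (-(2 * k * (q 0 * x 9 - q 1 * x 10 + q 2 * x 7 + q 3 * x 8))) * 0 + ((q 0 * x 3 - q 1 * x 4 - q 2 * x 5 - q 3 * x 6) - k * (q 0 * x 8 + q 1 * x 7 + q 2 * x 10 - q 3 * x 9)) * 0 + (-(q 0 * x 4 + q 1 * x 3 + q 2 * x 6 - q 3 * x 5) + k * (q 0 * x 7 - q 1 * x 8 - q 2 * x 9 - q 3 * x 10)) * (1) + 0 * 0 + (k * x 0) * 0 + (k * x 1) * 0 + (k * x 2) * 0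
    ring
  · change 0 * (2 * k * x 9) + 0 * (-x 3 + k * x 8) + 0 * (x 4 - k * x 7) + q 0 * 0 + (-q 1) * (-(k * x 0)) + (-q 2) * (-(k * x 1)) + (-q 3) * (-(k * x 2)) =
      (-(2 * k * (q 0 * x 9 - q 1 * x 10 + q 2 * x 7 + q 3 * x 8))) * 0 + ((q 0 * x 3 - q 1 * x 4 - q 2 * x 5 - q 3 * x 6) - k * (q 0 * x 8 + q 1 * x 7 + q 2 * x 10 - q 3 * x 9)) * 0 + (-(q 0 * x 4 + q 1 * x 3 + q 2 * x 6 - q 3 * x 5) + k * (q 0 * x 7 - q 1 * x 8 - q 2 * x 9 - q 3 * x 10)) * 0 + 0 * q 0 + (k * x 0) * q 1 + (k * x 1) * q 2 + (k * x 2) * q 3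
    ring
  · change 0 * (2 * k * x 10) + 0 * (-x 4 - k * x 7) + 0 * (-x 3 - k * x 8) + q 0 * (k * x 0) + (-q 1) * 0 + (-q 2) * (k * x 2) + (-q 3) * (-(k * x 1)) =
      (-(2 * k * (q 0 * x 9 - q 1 * x 10 + q 2 * x 7 + q 3 * x 8))) * 0 + ((q 0 * x 3 - q 1 * x 4 - q 2 * x 5 - q 3 * x 6) - k * (q 0 * x 8 + q 1 * x 7 + q 2 * x 10 - q 3 * x 9)) * 0 + (-(q 0 * x 4 + q 1 * x 3 + q 2 * x 6 - q 3 * x 5) + k * (q 0 * x 7 - q 1 * x 8 - q 2 * x 9 - q 3 * x 10)) * 0 + 0 * (-q 1) + (k * x 0) * q 0 + (k * x 1) * q 3 + (k * x 2) * (-q 2)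
    ring
  · change 0 * (-(2 * k * x 7)) + 0 * (-x 5 - k * x 10) + 0 * (-x 6 - k * x 9) + q 0 * (k * x 1) + (-q 1) * (-(k * x 2)) + (-q 2) * 0 + (-q 3) * (k * x 0) =
      (-(2 * k * (q 0 * x 9 - q 1 * x 10 + q 2 * x 7 + q 3 * x 8))) * 0 + ((q 0 * x 3 - q 1 * x 4 - q 2 * x 5 - q 3 * x 6) - k * (q 0 * x 8 + q 1 * x 7 + q 2 * x 10 - q 3 * x 9)) * 0 + (-(q 0 * x 4 + q 1 * x 3 + q 2 * x 6 - q 3 * x 5) + k * (q 0 * x 7 - q 1 * x 8 - q 2 * x 9 - q 3 * x 10)) * 0 + 0 * (-q 2) + (k * x 0) * (-q 3) + (k * x 1) * q 0 + (k * x 2) * q 1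
    ring
  · change 0 * (-(2 * k * x 8)) + 0 * (-x 6 + k * x 9) + 0 * (x 5 - k * x 10) + q 0 * (k * x 2) + (-q 1) * (k * x 1) + (-q 2) * (-(k * x 0)) + (-q 3) * 0 =
      (-(2 * k * (q 0 * x 9 - q 1 * x 10 + q 2 * x 7 + q 3 * x 8))) * 0 + ((q 0 * x 3 - q 1 * x 4 - q 2 * x 5 - q 3 * x 6) - k * (q 0 * x 8 + q 1 * x 7 + q 2 * x 10 - q 3 * x 9)) * 0 + (-(q 0 * x 4 + q 1 * x 3 + q 2 * x 6 - q 3 * x 5) + k * (q 0 * x 7 - q 1 * x 8 - q 2 * x 9 - q 3 * x 10)) * 0 + 0 * (-q 3) + (k * x 0) * q 2 + (k * x 1) * (-q 1) + (k * x 2) * q 0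
    ring
  · change 0 * 0 + 0 * (2 * k * x 2) + 0 * (-(2 * k * x 1)) + q 1 * (-(2 * k * x 9)) + q 0 * (-(2 * k * x 10)) + (-q 3) * (2 * k * x 7) + q 2 * (2 * k * x 8) =
      (-(2 * k * (q 0 * x 10 + q 1 * x 9 - q 2 * x 8 + q 3 * x 7))) * (1) + ((q 0 * x 4 + q 1 * x 3 + q 2 * x 6 - q 3 * x 5) + k * (q 0 * x 7 - q 1 * x 8 - q 2 * x 9 - q 3 * x 10)) * 0 + ((q 0 * x 3 - q 1 * x 4 - q 2 * x 5 - q 3 * x 6) + k * (q 0 * x 8 + q 1 * x 7 + q 2 * x 10 - q 3 * x 9)) * 0 + (-(k * x 0)) * 0 + 0 * 0 + (-(k * x 2)) * 0 + (k * x 1) * 0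
    ring
  · change 0 * (-(2 * k * x 2)) + 0 * 0 + 0 * (2 * k * x 0) + q 1 * (x 3 - k * x 8) + q 0 * (x 4 + k * x 7) + (-q 3) * (x 5 + k * x 10) + q 2 * (x 6 - k * x 9) =
      (-(2 * k * (q 0 * x 10 + q 1 * x 9 - q 2 * x 8 + q 3 * x 7))) * 0 + ((q 0 * x 4 + q 1 * x 3 + q 2 * x 6 - q 3 * x 5) + k * (q 0 * x 7 - q 1 * x 8 - q 2 * x 9 - q 3 * x 10)) * (1) + ((q 0 * x 3 - q 1 * x 4 - q 2 * x 5 - q 3 * x 6) + k * (q 0 * x 8 + q 1 * x 7 + q 2 * x 10 - q 3 * x 9)) * 0 + (-(k * x 0)) * 0 + 0 * 0 + (-(k * x 2)) * 0 + (k * x 1) * 0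
    ring
  · change 0 * (2 * k * x 1) + 0 * (-(2 * k * x 0)) + 0 * 0 + q 1 * (-x 4 + k * x 7) + q 0 * (x 3 + k * x 8) + (-q 3) * (x 6 + k * x 9) + q 2 * (-x 5 + k * x 10) =
      (-(2 * k * (q 0 * x 10 + q 1 * x 9 - q 2 * x 8 + q 3 * x 7))) * 0 + ((q 0 * x 4 + q 1 * x 3 + q 2 * x 6 - q 3 * x 5) + k * (q 0 * x 7 - q 1 * x 8 - q 2 * x 9 - q 3 * x 10)) * 0 + ((q 0 * x 3 - q 1 * x 4 - q 2 * x 5 - q 3 * x 6) + k * (q 0 * x 8 + q 1 * x 7 + q 2 * x 10 - q 3 * x 9)) * (1) + (-(k * x 0)) * 0 + 0 * 0 + (-(k * x 2)) * 0 + (k * x 1) * 0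
    ring
  · change 0 * (2 * k * x 9) + 0 * (-x 3 + k * x 8) + 0 * (x 4 - k * x 7) + q 1 * 0 + q 0 * (-(k * x 0)) + (-q 3) * (-(k * x 1)) + q 2 * (-(k * x 2)) =
      (-(2 * k * (q 0 * x 10 + q 1 * x 9 - q 2 * x 8 + q 3 * x 7))) * 0 + ((q 0 * x 4 + q 1 * x 3 + q 2 * x 6 - q 3 * x 5) + k * (q 0 * x 7 - q 1 * x 8 - q 2 * x 9 - q 3 * x 10)) * 0 + ((q 0 * x 3 - q 1 * x 4 - q 2 * x 5 - q 3 * x 6) + k * (q 0 * x 8 + q 1 * x 7 + q 2 * x 10 - q 3 * x 9)) * 0 + (-(k * x 0)) * q 0 + 0 * q 1 + (-(k * x 2)) * q 2 + (k * x 1) * q 3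
    ring
  · change 0 * (2 * k * x 10) + 0 * (-x 4 - k * x 7) + 0 * (-x 3 - k * x 8) + q 1 * (k * x 0) + q 0 * 0 + (-q 3) * (k * x 2) + q 2 * (-(k * x 1)) =
      (-(2 * k * (q 0 * x 10 + q 1 * x 9 - q 2 * x 8 + q 3 * x 7))) * 0 + ((q 0 * x 4 + q 1 * x 3 + q 2 * x 6 - q 3 * x 5) + k * (q 0 * x 7 - q 1 * x 8 - q 2 * x 9 - q 3 * x 10)) * 0 + ((q 0 * x 3 - q 1 * x 4 - q 2 * x 5 - q 3 * x 6) + k * (q 0 * x 8 + q 1 * x 7 + q 2 * x 10 - q 3 * x 9)) * 0 + (-(k * x 0)) * (-q 1) + 0 * q 0 + (-(k * x 2)) * q 3 + (k * x 1) * (-q 2)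
    ring
  · change 0 * (-(2 * k * x 7)) + 0 * (-x 5 - k * x 10) + 0 * (-x 6 - k * x 9) + q 1 * (k * x 1) + q 0 * (-(k * x 2)) + (-q 3) * 0 + q 2 * (k * x 0) =
      (-(2 * k * (q 0 * x 10 + q 1 * x 9 - q 2 * x 8 + q 3 * x 7))) * 0 + ((q 0 * x 4 + q 1 * x 3 + q 2 * x 6 - q 3 * x 5) + k * (q 0 * x 7 - q 1 * x 8 - q 2 * x 9 - q 3 * x 10)) * 0 + ((q 0 * x 3 - q 1 * x 4 - q 2 * x 5 - q 3 * x 6) + k * (q 0 * x 8 + q 1 * x 7 + q 2 * x 10 - q 3 * x 9)) * 0 + (-(k * x 0)) * (-q 2) + 0 * (-q 3) + (-(k * x 2)) * q 0 + (k * x 1) * q 1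
    ring
  · change 0 * (-(2 * k * x 8)) + 0 * (-x 6 + k * x 9) + 0 * (x 5 - k * x 10) + q 1 * (k * x 2) + q 0 * (k * x 1) + (-q 3) * (-(k * x 0)) + q 2 * 0 =
      (-(2 * k * (q 0 * x 10 + q 1 * x 9 - q 2 * x 8 + q 3 * x 7))) * 0 + ((q 0 * x 4 + q 1 * x 3 + q 2 * x 6 - q 3 * x 5) + k * (q 0 * x 7 - q 1 * x 8 - q 2 * x 9 - q 3 * x 10)) * 0 + ((q 0 * x 3 - q 1 * x 4 - q 2 * x 5 - q 3 * x 6) + k * (q 0 * x 8 + q 1 * x 7 + q 2 * x 10 - q 3 * x 9)) * 0 + (-(k * x 0)) * (-q 3) + 0 * q 2 + (-(k * x 2)) * (-q 1) + (k * x 1) * q 0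
    ring
  · change 0 * 0 + 0 * (2 * k * x 2) + 0 * (-(2 * k * x 1)) + q 2 * (-(2 * k * x 9)) + q 3 * (-(2 * k * x 10)) + q 0 * (2 * k * x 7) + (-q 1) * (2 * k * x 8) =
      (2 * k * (q 0 * x 7 - q 1 * x 8 - q 2 * x 9 - q 3 * x 10)) * (1) + ((q 0 * x 5 - q 1 * x 6 + q 2 * x 3 + q 3 * x 4) + k * (q 0 * x 10 + q 1 * x 9 - q 2 * x 8 + q 3 * x 7)) * 0 + ((q 0 * x 6 + q 1 * x 5 - q 2 * x 4 + q 3 * x 3) + k * (q 0 * x 9 - q 1 * x 10 + q 2 * x 7 + q 3 * x 8)) * 0 + (-(k * x 1)) * 0 + (k * x 2) * 0 + 0 * 0 + (-(k * x 0)) * 0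
    ring
  · change 0 * (-(2 * k * x 2)) + 0 * 0 + 0 * (2 * k * x 0) + q 2 * (x 3 - k * x 8) + q 3 * (x 4 + k * x 7) + q 0 * (x 5 + k * x 10) + (-q 1) * (x 6 - k * x 9) =
      (2 * k * (q 0 * x 7 - q 1 * x 8 - q 2 * x 9 - q 3 * x 10)) * 0 + ((q 0 * x 5 - q 1 * x 6 + q 2 * x 3 + q 3 * x 4) + k * (q 0 * x 10 + q 1 * x 9 - q 2 * x 8 + q 3 * x 7)) * (1) + ((q 0 * x 6 + q 1 * x 5 - q 2 * x 4 + q 3 * x 3) + k * (q 0 * x 9 - q 1 * x 10 + q 2 * x 7 + q 3 * x 8)) * 0 + (-(k * x 1)) * 0 + (k * x 2) * 0 + 0 * 0 + (-(k * x 0)) * 0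
    ring
  · change 0 * (2 * k * x 1) + 0 * (-(2 * k * x 0)) + 0 * 0 + q 2 * (-x 4 + k * x 7) + q 3 * (x 3 + k * x 8) + q 0 * (x 6 + k * x 9) + (-q 1) * (-x 5 + k * x 10) =
      (2 * k * (q 0 * x 7 - q 1 * x 8 - q 2 * x 9 - q 3 * x 10)) * 0 + ((q 0 * x 5 - q 1 * x 6 + q 2 * x 3 + q 3 * x 4) + k * (q 0 * x 10 + q 1 * x 9 - q 2 * x 8 + q 3 * x 7)) * 0 + ((q 0 * x 6 + q 1 * x 5 - q 2 * x 4 + q 3 * x 3) + k * (q 0 * x 9 - q 1 * x 10 + q 2 * x 7 + q 3 * x 8)) * (1) + (-(k * x 1)) * 0 + (k * x 2) * 0 + 0 * 0 + (-(k * x 0)) * 0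
    ring
  · change 0 * (2 * k * x 9) + 0 * (-x 3 + k * x 8) + 0 * (x 4 - k * x 7) + q 2 * 0 + q 3 * (-(k * x 0)) + q 0 * (-(k * x 1)) + (-q 1) * (-(k * x 2)) =
      (2 * k * (q 0 * x 7 - q 1 * x 8 - q 2 * x 9 - q 3 * x 10)) * 0 + ((q 0 * x 5 - q 1 * x 6 + q 2 * x 3 + q 3 * x 4) + k * (q 0 * x 10 + q 1 * x 9 - q 2 * x 8 + q 3 * x 7)) * 0 + ((q 0 * x 6 + q 1 * x 5 - q 2 * x 4 + q 3 * x 3) + k * (q 0 * x 9 - q 1 * x 10 + q 2 * x 7 + q 3 * x 8)) * 0 + (-(k * x 1)) * q 0 + (k * x 2) * q 1 + 0 * q 2 + (-(k * x 0)) * q 3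
    ring
  · change 0 * (2 * k * x 10) + 0 * (-x 4 - k * x 7) + 0 * (-x 3 - k * x 8) + q 2 * (k * x 0) + q 3 * 0 + q 0 * (k * x 2) + (-q 1) * (-(k * x 1)) =
      (2 * k * (q 0 * x 7 - q 1 * x 8 - q 2 * x 9 - q 3 * x 10)) * 0 + ((q 0 * x 5 - q 1 * x 6 + q 2 * x 3 + q 3 * x 4) + k * (q 0 * x 10 + q 1 * x 9 - q 2 * x 8 + q 3 * x 7)) * 0 + ((q 0 * x 6 + q 1 * x 5 - q 2 * x 4 + q 3 * x 3) + k * (q 0 * x 9 - q 1 * x 10 + q 2 * x 7 + q 3 * x 8)) * 0 + (-(k * x 1)) * (-q 1) + (k * x 2) * q 0 + 0 * q 3 + (-(k * x 0)) * (-q 2)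
    ring
  · change 0 * (-(2 * k * x 7)) + 0 * (-x 5 - k * x 10) + 0 * (-x 6 - k * x 9) + q 2 * (k * x 1) + q 3 * (-(k * x 2)) + q 0 * 0 + (-q 1) * (k * x 0) =
      (2 * k * (q 0 * x 7 - q 1 * x 8 - q 2 * x 9 - q 3 * x 10)) * 0 + ((q 0 * x 5 - q 1 * x 6 + q 2 * x 3 + q 3 * x 4) + k * (q 0 * x 10 + q 1 * x 9 - q 2 * x 8 + q 3 * x 7)) * 0 + ((q 0 * x 6 + q 1 * x 5 - q 2 * x 4 + q 3 * x 3) + k * (q 0 * x 9 - q 1 * x 10 + q 2 * x 7 + q 3 * x 8)) * 0 + (-(k * x 1)) * (-q 2) + (k * x 2) * (-q 3) + 0 * q 0 + (-(k * x 0)) * q 1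
    ring
  · change 0 * (-(2 * k * x 8)) + 0 * (-x 6 + k * x 9) + 0 * (x 5 - k * x 10) + q 2 * (k * x 2) + q 3 * (k * x 1) + q 0 * (-(k * x 0)) + (-q 1) * 0 =
      (2 * k * (q 0 * x 7 - q 1 * x 8 - q 2 * x 9 - q 3 * x 10)) * 0 + ((q 0 * x 5 - q 1 * x 6 + q 2 * x 3 + q 3 * x 4) + k * (q 0 * x 10 + q 1 * x 9 - q 2 * x 8 + q 3 * x 7)) * 0 + ((q 0 * x 6 + q 1 * x 5 - q 2 * x 4 + q 3 * x 3) + k * (q 0 * x 9 - q 1 * x 10 + q 2 * x 7 + q 3 * x 8)) * 0 + (-(k * x 1)) * (-q 3) + (k * x 2) * q 2 + 0 * (-q 1) + (-(k * x 0)) * q 0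
    ring
  · change 0 * 0 + 0 * (2 * k * x 2) + 0 * (-(2 * k * x 1)) + q 3 * (-(2 * k * x 9)) + (-q 2) * (-(2 * k * x 10)) + q 1 * (2 * k * x 7) + q 0 * (2 * k * x 8) =
      (2 * k * (q 0 * x 8 + q 1 * x 7 + q 2 * x 10 - q 3 * x 9)) * (1) + ((q 0 * x 6 + q 1 * x 5 - q 2 * x 4 + q 3 * x 3) - k * (q 0 * x 9 - q 1 * x 10 + q 2 * x 7 + q 3 * x 8)) * 0 + (-(q 0 * x 5 - q 1 * x 6 + q 2 * x 3 + q 3 * x 4) + k * (q 0 * x 10 + q 1 * x 9 - q 2 * x 8 + q 3 * x 7)) * 0 + (-(k * x 2)) * 0 + (-(k * x 1)) * 0 + (k * x 0) * 0 + 0 * 0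
    ring
  · change 0 * (-(2 * k * x 2)) + 0 * 0 + 0 * (2 * k * x 0) + q 3 * (x 3 - k * x 8) + (-q 2) * (x 4 + k * x 7) + q 1 * (x 5 + k * x 10) + q 0 * (x 6 - k * x 9) =
      (2 * k * (q 0 * x 8 + q 1 * x 7 + q 2 * x 10 - q 3 * x 9)) * 0 + ((q 0 * x 6 + q 1 * x 5 - q 2 * x 4 + q 3 * x 3) - k * (q 0 * x 9 - q 1 * x 10 + q 2 * x 7 + q 3 * x 8)) * (1) + (-(q 0 * x 5 - q 1 * x 6 + q 2 * x 3 + q 3 * x 4) + k * (q 0 * x 10 + q 1 * x 9 - q 2 * x 8 + q 3 * x 7)) * 0 + (-(k * x 2)) * 0 + (-(k * x 1)) * 0 + (k * x 0) * 0 + 0 * 0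
    ring
  · change 0 * (2 * k * x 1) + 0 * (-(2 * k * x 0)) + 0 * 0 + q 3 * (-x 4 + k * x 7) + (-q 2) * (x 3 + k * x 8) + q 1 * (x 6 + k * x 9) + q 0 * (-x 5 + k * x 10) =
      (2 * k * (q 0 * x 8 + q 1 * x 7 + q 2 * x 10 - q 3 * x 9)) * 0 + ((q 0 * x 6 + q 1 * x 5 - q 2 * x 4 + q 3 * x 3) - k * (q 0 * x 9 - q 1 * x 10 + q 2 * x 7 + q 3 * x 8)) * 0 + (-(q 0 * x 5 - q 1 * x 6 + q 2 * x 3 + q 3 * x 4) + k * (q 0 * x 10 + q 1 * x 9 - q 2 * x 8 + q 3 * x 7)) * (1) + (-(k * x 2)) * 0 + (-(k * x 1)) * 0 + (k * x 0) * 0 + 0 * 0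
    ring
  · change 0 * (2 * k * x 9) + 0 * (-x 3 + k * x 8) + 0 * (x 4 - k * x 7) + q 3 * 0 + (-q 2) * (-(k * x 0)) + q 1 * (-(k * x 1)) + q 0 * (-(k * x 2)) =
      (2 * k * (q 0 * x 8 + q 1 * x 7 + q 2 * x 10 - q 3 * x 9)) * 0 + ((q 0 * x 6 + q 1 * x 5 - q 2 * x 4 + q 3 * x 3) - k * (q 0 * x 9 - q 1 * x 10 + q 2 * x 7 + q 3 * x 8)) * 0 + (-(q 0 * x 5 - q 1 * x 6 + q 2 * x 3 + q 3 * x 4) + k * (q 0 * x 10 + q 1 * x 9 - q 2 * x 8 + q 3 * x 7)) * 0 + (-(k * x 2)) * q 0 + (-(k * x 1)) * q 1 + (k * x 0) * q 2 + 0 * q 3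
    ring
  · change 0 * (2 * k * x 10) + 0 * (-x 4 - k * x 7) + 0 * (-x 3 - k * x 8) + q 3 * (k * x 0) + (-q 2) * 0 + q 1 * (k * x 2) + q 0 * (-(k * x 1)) =
      (2 * k * (q 0 * x 8 + q 1 * x 7 + q 2 * x 10 - q 3 * x 9)) * 0 + ((q 0 * x 6 + q 1 * x 5 - q 2 * x 4 + q 3 * x 3) - k * (q 0 * x 9 - q 1 * x 10 + q 2 * x 7 + q 3 * x 8)) * 0 + (-(q 0 * x 5 - q 1 * x 6 + q 2 * x 3 + q 3 * x 4) + k * (q 0 * x 10 + q 1 * x 9 - q 2 * x 8 + q 3 * x 7)) * 0 + (-(k * x 2)) * (-q 1) + (-(k * x 1)) * q 0 + (k * x 0) * q 3 + 0 * (-q 2)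
    ring
  · change 0 * (-(2 * k * x 7)) + 0 * (-x 5 - k * x 10) + 0 * (-x 6 - k * x 9) + q 3 * (k * x 1) + (-q 2) * (-(k * x 2)) + q 1 * 0 + q 0 * (k * x 0) =
      (2 * k * (q 0 * x 8 + q 1 * x 7 + q 2 * x 10 - q 3 * x 9)) * 0 + ((q 0 * x 6 + q 1 * x 5 - q 2 * x 4 + q 3 * x 3) - k * (q 0 * x 9 - q 1 * x 10 + q 2 * x 7 + q 3 * x 8)) * 0 + (-(q 0 * x 5 - q 1 * x 6 + q 2 * x 3 + q 3 * x 4) + k * (q 0 * x 10 + q 1 * x 9 - q 2 * x 8 + q 3 * x 7)) * 0 + (-(k * x 2)) * (-q 2) + (-(k * x 1)) * (-q 3) + (k * x 0) * q 0 + 0 * q 1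
    ring
  · change 0 * (-(2 * k * x 8)) + 0 * (-x 6 + k * x 9) + 0 * (x 5 - k * x 10) + q 3 * (k * x 2) + (-q 2) * (k * x 1) + q 1 * (-(k * x 0)) + q 0 * 0 =
      (2 * k * (q 0 * x 8 + q 1 * x 7 + q 2 * x 10 - q 3 * x 9)) * 0 + ((q 0 * x 6 + q 1 * x 5 - q 2 * x 4 + q 3 * x 3) - k * (q 0 * x 9 - q 1 * x 10 + q 2 * x 7 + q 3 * x 8)) * 0 + (-(q 0 * x 5 - q 1 * x 6 + q 2 * x 3 + q 3 * x 4) + k * (q 0 * x 10 + q 1 * x 9 - q 2 * x 8 + q 3 * x 7)) * 0 + (-(k * x 2)) * (-q 3) + (-(k * x 1)) * q 2 + (k * x 0) * (-q 1) + 0 * q 0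
    ring

/-- `diag (1, L_q)` -/
noncomputable def Lq (q : EuclideanSpace ℝ (Fin 4)) : E7 →L[ℝ] E7 := toC (LqM q)

theorem Lq_iota {q : EuclideanSpace ℝ (Fin 4)} (hq : q 0 ^ 2 + q 1 ^ 2 + q 2 ^ 2 + q 3 ^ 2 = 1)
    (x : V11) : Lq q * iotaL x = iotaL (rotF q x) * Lq q := by
  rw [iotaL_eq, iotaL_eq, Lq, ← map_mul, ← map_mul, LqM_iota hq]

lemma inner4 (u v : EuclideanSpace ℝ (Fin 4)) :
    ⟪u, v⟫ = u 0 * v 0 + u 1 * v 1 + u 2 * v 2 + u 3 * v 3 := by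
  rw [PiLp.inner_apply]
  simp only [Fin.sum_univ_succ, Fin.sum_univ_zero]
  change v 0 * u 0 + (v 1 * u 1 + (v 2 * u 2 + (v 3 * u 3 + 0))) = _
  ring

lemma q_sq {q : EuclideanSpace ℝ (Fin 4)} (hq : ‖q‖ = 1) :
    q 0 ^ 2 + q 1 ^ 2 + q 2 ^ 2 + q 3 ^ 2 = 1 := by
  have h := real_inner_self_eq_norm_sq q
  rw [inner4, hq] at h
  linarith

lemma rotF_add (q : EuclideanSpace ℝ (Fin 4)) (x y : V11) : rotF q (x + y) = rotF q x + rotF q y := by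
  ext i
  rw [PiLp.add_apply]
  fin_cases i
  · change (x + y) 0 = (x 0) + (y 0)
    simp only [PiLp.add_apply]
    try ring
  · change (x + y) 1 = (x 1) + (y 1)
    simp only [PiLp.add_apply]
    try ring
  · change (x + y) 2 = (x 2) + (y 2)
    simp only [PiLp.add_apply]
    try ring
  · change q 0 * (x + y) 3 - q 1 * (x + y) 4 - q 2 * (x + y) 5 - q 3 * (x + y) 6 = (q 0 * x 3 - q 1 * x 4 - q 2 * x 5 - q 3 * x 6) + (q 0 * y 3 - q 1 * y 4 - q 2 * y 5 - q 3 * y 6)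
    simp only [PiLp.add_apply]
    try ring
  · change q 0 * (x + y) 4 + q 1 * (x + y) 3 + q 2 * (x + y) 6 - q 3 * (x + y) 5 = (q 0 * x 4 + q 1 * x 3 + q 2 * x 6 - q 3 * x 5) + (q 0 * y 4 + q 1 * y 3 + q 2 * y 6 - q 3 * y 5)
    simp only [PiLp.add_apply]
    try ring
  · change q 0 * (x + y) 5 - q 1 * (x + y) 6 + q 2 * (x + y) 3 + q 3 * (x + y) 4 = (q 0 * x 5 - q 1 * x 6 + q 2 * x 3 + q 3 * x 4) + (q 0 * y 5 - q 1 * y 6 + q 2 * y 3 + q 3 * y 4)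
    simp only [PiLp.add_apply]
    try ring
  · change q 0 * (x + y) 6 + q 1 * (x + y) 5 - q 2 * (x + y) 4 + q 3 * (x + y) 3 = (q 0 * x 6 + q 1 * x 5 - q 2 * x 4 + q 3 * x 3) + (q 0 * y 6 + q 1 * y 5 - q 2 * y 4 + q 3 * y 3)
    simp only [PiLp.add_apply]
    try ring
  · change q 0 * (x + y) 7 - q 1 * (x + y) 8 - q 2 * (x + y) 9 - q 3 * (x + y) 10 = (q 0 * x 7 - q 1 * x 8 - q 2 * x 9 - q 3 * x 10) + (q 0 * y 7 - q 1 * y 8 - q 2 * y 9 - q 3 * y 10)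
    simp only [PiLp.add_apply]
    try ring
  · change q 0 * (x + y) 8 + q 1 * (x + y) 7 + q 2 * (x + y) 10 - q 3 * (x + y) 9 = (q 0 * x 8 + q 1 * x 7 + q 2 * x 10 - q 3 * x 9) + (q 0 * y 8 + q 1 * y 7 + q 2 * y 10 - q 3 * y 9)
    simp only [PiLp.add_apply]
    try ring
  · change q 0 * (x + y) 9 - q 1 * (x + y) 10 + q 2 * (x + y) 7 + q 3 * (x + y) 8 = (q 0 * x 9 - q 1 * x 10 + q 2 * x 7 + q 3 * x 8) + (q 0 * y 9 - q 1 * y 10 + q 2 * y 7 + q 3 * y 8)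
    simp only [PiLp.add_apply]
    try ring
  · change q 0 * (x + y) 10 + q 1 * (x + y) 9 - q 2 * (x + y) 8 + q 3 * (x + y) 7 = (q 0 * x 10 + q 1 * x 9 - q 2 * x 8 + q 3 * x 7) + (q 0 * y 10 + q 1 * y 9 - q 2 * y 8 + q 3 * y 7)
    simp only [PiLp.add_apply]
    try ring

lemma rotF_smul (q : EuclideanSpace ℝ (Fin 4)) (c : ℝ) (x : V11) : rotF q (c • x) = c • rotF q x := by
  ext i
  rw [PiLp.smul_apply, smul_eq_mul]
  fin_cases i
  · change (c • x) 0 = c * (x 0)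
    simp only [PiLp.smul_apply, smul_eq_mul]
    try ring
  · change (c • x) 1 = c * (x 1)
    simp only [PiLp.smul_apply, smul_eq_mul]
    try ring
  · change (c • x) 2 = c * (x 2)
    simp only [PiLp.smul_apply, smul_eq_mul]
    try ring
  · change q 0 * (c • x) 3 - q 1 * (c • x) 4 - q 2 * (c • x) 5 - q 3 * (c • x) 6 = c * (q 0 * x 3 - q 1 * x 4 - q 2 * x 5 - q 3 * x 6)
    simp only [PiLp.smul_apply, smul_eq_mul]
    try ring
  · change q 0 * (c • x) 4 + q 1 * (c • x) 3 + q 2 * (c • x) 6 - q 3 * (c • x) 5 = c * (q 0 * x 4 + q 1 * x 3 + q 2 * x 6 - q 3 * x 5)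
    simp only [PiLp.smul_apply, smul_eq_mul]
    try ring
  · change q 0 * (c • x) 5 - q 1 * (c • x) 6 + q 2 * (c • x) 3 + q 3 * (c • x) 4 = c * (q 0 * x 5 - q 1 * x 6 + q 2 * x 3 + q 3 * x 4)
    simp only [PiLp.smul_apply, smul_eq_mul]
    try ring
  · change q 0 * (c • x) 6 + q 1 * (c • x) 5 - q 2 * (c • x) 4 + q 3 * (c • x) 3 = c * (q 0 * x 6 + q 1 * x 5 - q 2 * x 4 + q 3 * x 3)
    simp only [PiLp.smul_apply, smul_eq_mul]
    try ring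
  · change q 0 * (c • x) 7 - q 1 * (c • x) 8 - q 2 * (c • x) 9 - q 3 * (c • x) 10 = c * (q 0 * x 7 - q 1 * x 8 - q 2 * x 9 - q 3 * x 10)
    simp only [PiLp.smul_apply, smul_eq_mul]
    try ring
  · change q 0 * (c • x) 8 + q 1 * (c • x) 7 + q 2 * (c • x) 10 - q 3 * (c • x) 9 = c * (q 0 * x 8 + q 1 * x 7 + q 2 * x 10 - q 3 * x 9)
    simp only [PiLp.smul_apply, smul_eq_mul]
    try ring
  · change q 0 * (c • x) 9 - q 1 * (c • x) 10 + q 2 * (c • x) 7 + q 3 * (c • x) 8 = c * (q 0 * x 9 - q 1 * x 10 + q 2 * x 7 + q 3 * x 8)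
    simp only [PiLp.smul_apply, smul_eq_mul]
    try ring
  · change q 0 * (c • x) 10 + q 1 * (c • x) 9 - q 2 * (c • x) 8 + q 3 * (c • x) 7 = c * (q 0 * x 10 + q 1 * x 9 - q 2 * x 8 + q 3 * x 7)
    simp only [PiLp.smul_apply, smul_eq_mul]
    try ring

lemma rotF_inner {q : EuclideanSpace ℝ (Fin 4)} (hq : q 0 ^ 2 + q 1 ^ 2 + q 2 ^ 2 + q 3 ^ 2 = 1)
    (x y : V11) : ⟪rotF q x, rotF q y⟫ = ⟪x, y⟫ := by
  rw [inner11, inner11]
  simp only [rotF_0, rotF_1, rotF_2, rotF_3, rotF_4, rotF_5, rotF_6, rotF_7, rotF_8, rotF_9,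
    rotF_10]
  linear_combination (x 3 * y 3 + x 4 * y 4 + x 5 * y 5 + x 6 * y 6 + x 7 * y 7 + x 8 * y 8
    + x 9 * y 9 + x 10 * y 10) * hq

/-- `rotF q` as a linear isometry -/
noncomputable def rotI (q : EuclideanSpace ℝ (Fin 4)) (hq : ‖q‖ = 1) : V11 →ₗᵢ[ℝ] V11 :=
  LinearMap.isometryOfInner
    { toFun := rotF q
      map_add' := rotF_add q
      map_smul' := rotF_smul q } (rotF_inner (q_sq hq))

/-- `(p; s; t) ↦ (p; q s; q t)` as a linear isometry, `q` a unit quaternion -/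
noncomputable def rotV (q : EuclideanSpace ℝ (Fin 4)) (hq : ‖q‖ = 1) : V11 ≃ₗᵢ[ℝ] V11 :=
  (rotI q hq).toLinearIsometryEquiv rfl

lemma rotV_apply (q : EuclideanSpace ℝ (Fin 4)) (hq : ‖q‖ = 1) (x : V11) :
    rotV q hq x = rotF q x := rfl

end G2F
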