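import Pool.Agent.G2F.Defs2

/-! Further definitions. -/

namespace G2F

open HFinG
open scoped RealInnerProductSpace Matrix

/-- `x ∈ 𝔭` -/
def InP (x : V11) : Prop := x 0 = 0 ∧ x 1 = 0 ∧ x 2 = 0

/-- `z ∈ 𝔪₀ = 𝔭^⊥` -/
def InM (z : V11) : Prop := z 3 = 0 ∧ z 4 = 0 ∧ z 5 = 0 ∧ z 6 = 0 ∧ z 7 = 0 ∧ z 8 = 0 ∧ z 9 = 0 ∧
  z 10 = 0

/-- the basis of `𝔪₀` -/
noncomputable def em : Fin 3 → V11 :=
  ![EuclideanSpace.single 0 1, EuclideanSpace.single 1 1, EuclideanSpace.single 2 1]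

/-- `D = diag (1, 0, -1)` -/
def Dm : Matrix (Fin 3) (Fin 3) ℝ := !![1, 0, 0; 0, 0, 0; 0, 0, -1]

/-- `B = v vᵀ`, `v = (1, 1, 1)` -/
def Bm : Matrix (Fin 3) (Fin 3) ℝ := !![1, 1, 1; 1, 1, 1; 1, 1, 1]

/-- the rotation generators -/
def Om : Fin 3 → Matrix (Fin 3) (Fin 3) ℝ :=
  ![!![0, 0, 0; 0, 0, -1; 0, 1, 0], !![0, 0, 1; 0, 0, 0; -1, 0, 0], !![0, -1, 0; 1, 0, 0; 0, 0, 0]]

/-- `v = (1, 1, 1)` -/
def vv : Fin 3 → ℝ := fun _ => 1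

/-- the perturbation with `c = 0` -/
noncomputable def p0 : V11 → V11 := pert M1 Wm

/-- its derivative (`ξ ≠ 0`) -/
noncomputable def b0 (ξ u : V11) : V11 := dpert M1 Wm ξ u

/-- commutator of matrices -/
def cm {n : ℕ} (A B : Matrix (Fin n) (Fin n) ℝ) : Matrix (Fin n) (Fin n) ℝ := A * B - B * A

end G2F
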