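import Pool.Agent.G2F.Norm
import Pool.Agent.G2F.Cross
import Pool.Agent.G2F.Defs3

/-! MODULE Ops: `P0`, `M1`, `W1`, `W2`, `W3` are symmetric and commute with `act` and with `rotF q`
(generated). -/

namespace G2F

open HFinG
open scoped RealInnerProductSpace Matrix

set_option linter.unusedSimpArgs false

theorem P0_sy (x y : V11) : ⟪P0 x, y⟫ = ⟪x, P0 y⟫ := by
  rw [inner11, inner11]
  simp only [P0_0, P0_1, P0_2, P0_3, P0_4, P0_5, P0_6, P0_7, P0_8, P0_9, P0_10]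
  ring

theorem P0_ac (A : E3) (x : V11) : P0 (actF A x) = actF A (P0 x) := by
  ext i
  fin_cases i
  · change (0 : ℝ) = (0 : ℝ)
    try simp only [ac3, ac4, ac5, ac6, ac7, ac8, ac9, ac10]
    try ring
  · change (0 : ℝ) = (0 : ℝ)
    try simp only [ac3, ac4, ac5, ac6, ac7, ac8, ac9, ac10]
    try ring
  · change (0 : ℝ) = (0 : ℝ)
    try simp only [ac3, ac4, ac5, ac6, ac7, ac8, ac9, ac10]
    try ring
  · change (0 : ℝ) = -(A 0 * (0)) - A 1 * (0) - A 2 * (0)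
    try simp only [ac3, ac4, ac5, ac6, ac7, ac8, ac9, ac10]
    try ring
  · change (0 : ℝ) = A 0 * (0) + A 1 * (0) - A 2 * (0)
    try simp only [ac3, ac4, ac5, ac6, ac7, ac8, ac9, ac10]
    try ring
  · change (0 : ℝ) = -(A 0 * (0)) + A 1 * (0) + A 2 * (0)
    try simp only [ac3, ac4, ac5, ac6, ac7, ac8, ac9, ac10]
    try ring
  · change (0 : ℝ) = A 0 * (0) - A 1 * (0) + A 2 * (0)
    try simp only [ac3, ac4, ac5, ac6, ac7, ac8, ac9, ac10]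
    try ring
  · change (0 : ℝ) = -(A 0 * (0)) - A 1 * (0) - A 2 * (0)
    try simp only [ac3, ac4, ac5, ac6, ac7, ac8, ac9, ac10]
    try ring
  · change (0 : ℝ) = A 0 * (0) + A 1 * (0) - A 2 * (0)
    try simp only [ac3, ac4, ac5, ac6, ac7, ac8, ac9, ac10]
    try ring
  · change (0 : ℝ) = -(A 0 * (0)) + A 1 * (0) + A 2 * (0)
    try simp only [ac3, ac4, ac5, ac6, ac7, ac8, ac9, ac10]
    try ring
  · change (0 : ℝ) = A 0 * (0) - A 1 * (0) + A 2 * (0)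
    try simp only [ac3, ac4, ac5, ac6, ac7, ac8, ac9, ac10]
    try ring

theorem P0_ro (q : EuclideanSpace ℝ (Fin 4)) (x : V11) : P0 (rotF q x) = rotF q (P0 x) := by
  ext i
  fin_cases i
  · change (x 0) = (x 0)
    try ring
  · change (x 1) = (x 1)
    try ring
  · change (x 2) = (x 2)
    try ring
  · change (0 : ℝ) = q 0 * (0) - q 1 * (0) - q 2 * (0) - q 3 * (0)
    try ring
  · change (0 : ℝ) = q 0 * (0) + q 1 * (0) + q 2 * (0) - q 3 * (0)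
    try ring
  · change (0 : ℝ) = q 0 * (0) - q 1 * (0) + q 2 * (0) + q 3 * (0)
    try ring
  · change (0 : ℝ) = q 0 * (0) + q 1 * (0) - q 2 * (0) + q 3 * (0)
    try ring
  · change (0 : ℝ) = q 0 * (0) - q 1 * (0) - q 2 * (0) - q 3 * (0)
    try ring
  · change (0 : ℝ) = q 0 * (0) + q 1 * (0) + q 2 * (0) - q 3 * (0)
    try ring
  · change (0 : ℝ) = q 0 * (0) - q 1 * (0) + q 2 * (0) + q 3 * (0)
    try ring
  · change (0 : ℝ) = q 0 * (0) + q 1 * (0) - q 2 * (0) + q 3 * (0)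
    try ring

theorem M1_sy (x y : V11) : ⟪M1 x, y⟫ = ⟪x, M1 y⟫ := by
  rw [inner11, inner11]
  simp only [M1_0, M1_1, M1_2, M1_3, M1_4, M1_5, M1_6, M1_7, M1_8, M1_9, M1_10]
  ring

theorem M1_ac (A : E3) (x : V11) : M1 (actF A x) = actF A (M1 x) := by
  ext i
  fin_cases i
  · change (0 : ℝ) = (0 : ℝ)
    try simp only [ac3, ac4, ac5, ac6, ac7, ac8, ac9, ac10]
    try ring
  · change (0 : ℝ) = (0 : ℝ)
    try simp only [ac3, ac4, ac5, ac6, ac7, ac8, ac9, ac10]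
    try ring
  · change (0 : ℝ) = (0 : ℝ)
    try simp only [ac3, ac4, ac5, ac6, ac7, ac8, ac9, ac10]
    try ring
  · change -(2 * (ac3 A x)) - 2 * k * (ac8 A x) = -(A 0 * (-(2 * x 4) + 2 * k * x 7)) - A 1 * (-(2 * x 5) + 2 * k * x 10) - A 2 * (-(2 * x 6) - 2 * k * x 9)
    try simp only [ac3, ac4, ac5, ac6, ac7, ac8, ac9, ac10]
    try ring
  · change -(2 * (ac4 A x)) + 2 * k * (ac7 A x) = A 0 * (-(2 * x 3) - 2 * k * x 8) + A 1 * (-(2 * x 6) - 2 * k * x 9) - A 2 * (-(2 * x 5) + 2 * k * x 10)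
    try simp only [ac3, ac4, ac5, ac6, ac7, ac8, ac9, ac10]
    try ring
  · change -(2 * (ac5 A x)) + 2 * k * (ac10 A x) = -(A 0 * (-(2 * x 6) - 2 * k * x 9)) + A 1 * (-(2 * x 3) - 2 * k * x 8) + A 2 * (-(2 * x 4) + 2 * k * x 7)
    try simp only [ac3, ac4, ac5, ac6, ac7, ac8, ac9, ac10]
    try ring
  · change -(2 * (ac6 A x)) - 2 * k * (ac9 A x) = A 0 * (-(2 * x 5) + 2 * k * x 10) - A 1 * (-(2 * x 4) + 2 * k * x 7) + A 2 * (-(2 * x 3) - 2 * k * x 8)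
    try simp only [ac3, ac4, ac5, ac6, ac7, ac8, ac9, ac10]
    try ring
  · change 2 * (ac7 A x) + 2 * k * (ac4 A x) = -(A 0 * (2 * x 8 - 2 * k * x 3)) - A 1 * (2 * x 9 - 2 * k * x 6) - A 2 * (2 * x 10 + 2 * k * x 5)
    try simp only [ac3, ac4, ac5, ac6, ac7, ac8, ac9, ac10]
    try ring
  · change 2 * (ac8 A x) - 2 * k * (ac3 A x) = A 0 * (2 * x 7 + 2 * k * x 4) + A 1 * (2 * x 10 + 2 * k * x 5) - A 2 * (2 * x 9 - 2 * k * x 6)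
    try simp only [ac3, ac4, ac5, ac6, ac7, ac8, ac9, ac10]
    try ring
  · change 2 * (ac9 A x) - 2 * k * (ac6 A x) = -(A 0 * (2 * x 10 + 2 * k * x 5)) + A 1 * (2 * x 7 + 2 * k * x 4) + A 2 * (2 * x 8 - 2 * k * x 3)
    try simp only [ac3, ac4, ac5, ac6, ac7, ac8, ac9, ac10]
    try ring
  · change 2 * (ac10 A x) + 2 * k * (ac5 A x) = A 0 * (2 * x 9 - 2 * k * x 6) - A 1 * (2 * x 8 - 2 * k * x 3) + A 2 * (2 * x 7 + 2 * k * x 4)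
    try simp only [ac3, ac4, ac5, ac6, ac7, ac8, ac9, ac10]
    try ring

theorem M1_ro (q : EuclideanSpace ℝ (Fin 4)) (x : V11) : M1 (rotF q x) = rotF q (M1 x) := by
  ext i
  fin_cases i
  · change (0 : ℝ) = (0)
    try ring
  · change (0 : ℝ) = (0)
    try ring
  · change (0 : ℝ) = (0)
    try ring
  · change -(2 * (q 0 * x 3 - q 1 * x 4 - q 2 * x 5 - q 3 * x 6)) - 2 * k * (q 0 * x 8 + q 1 * x 7 + q 2 * x 10 - q 3 * x 9) = q 0 * (-(2 * x 3) - 2 * k * x 8) - q 1 * (-(2 * x 4) + 2 * k * x 7) - q 2 * (-(2 * x 5) + 2 * k * x 10) - q 3 * (-(2 * x 6) - 2 * k * x 9)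
    try ring
  · change -(2 * (q 0 * x 4 + q 1 * x 3 + q 2 * x 6 - q 3 * x 5)) + 2 * k * (q 0 * x 7 - q 1 * x 8 - q 2 * x 9 - q 3 * x 10) = q 0 * (-(2 * x 4) + 2 * k * x 7) + q 1 * (-(2 * x 3) - 2 * k * x 8) + q 2 * (-(2 * x 6) - 2 * k * x 9) - q 3 * (-(2 * x 5) + 2 * k * x 10)
    try ring
  · change -(2 * (q 0 * x 5 - q 1 * x 6 + q 2 * x 3 + q 3 * x 4)) + 2 * k * (q 0 * x 10 + q 1 * x 9 - q 2 * x 8 + q 3 * x 7) = q 0 * (-(2 * x 5) + 2 * k * x 10) - q 1 * (-(2 * x 6) - 2 * k * x 9) + q 2 * (-(2 * x 3) - 2 * k * x 8) + q 3 * (-(2 * x 4) + 2 * k * x 7)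
    try ring
  · change -(2 * (q 0 * x 6 + q 1 * x 5 - q 2 * x 4 + q 3 * x 3)) - 2 * k * (q 0 * x 9 - q 1 * x 10 + q 2 * x 7 + q 3 * x 8) = q 0 * (-(2 * x 6) - 2 * k * x 9) + q 1 * (-(2 * x 5) + 2 * k * x 10) - q 2 * (-(2 * x 4) + 2 * k * x 7) + q 3 * (-(2 * x 3) - 2 * k * x 8)
    try ring
  · change 2 * (q 0 * x 7 - q 1 * x 8 - q 2 * x 9 - q 3 * x 10) + 2 * k * (q 0 * x 4 + q 1 * x 3 + q 2 * x 6 - q 3 * x 5) = q 0 * (2 * x 7 + 2 * k * x 4) - q 1 * (2 * x 8 - 2 * k * x 3) - q 2 * (2 * x 9 - 2 * k * x 6) - q 3 * (2 * x 10 + 2 * k * x 5)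
    try ring
  · change 2 * (q 0 * x 8 + q 1 * x 7 + q 2 * x 10 - q 3 * x 9) - 2 * k * (q 0 * x 3 - q 1 * x 4 - q 2 * x 5 - q 3 * x 6) = q 0 * (2 * x 8 - 2 * k * x 3) + q 1 * (2 * x 7 + 2 * k * x 4) + q 2 * (2 * x 10 + 2 * k * x 5) - q 3 * (2 * x 9 - 2 * k * x 6)
    try ring
  · change 2 * (q 0 * x 9 - q 1 * x 10 + q 2 * x 7 + q 3 * x 8) - 2 * k * (q 0 * x 6 + q 1 * x 5 - q 2 * x 4 + q 3 * x 3) = q 0 * (2 * x 9 - 2 * k * x 6) - q 1 * (2 * x 10 + 2 * k * x 5) + q 2 * (2 * x 7 + 2 * k * x 4) + q 3 * (2 * x 8 - 2 * k * x 3)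
    try ring
  · change 2 * (q 0 * x 10 + q 1 * x 9 - q 2 * x 8 + q 3 * x 7) + 2 * k * (q 0 * x 5 - q 1 * x 6 + q 2 * x 3 + q 3 * x 4) = q 0 * (2 * x 10 + 2 * k * x 5) + q 1 * (2 * x 9 - 2 * k * x 6) - q 2 * (2 * x 8 - 2 * k * x 3) + q 3 * (2 * x 7 + 2 * k * x 4)
    try ring

theorem W1_sy (x y : V11) : ⟪W1 x, y⟫ = ⟪x, W1 y⟫ := by
  rw [inner11, inner11]
  simp only [W1_0, W1_1, W1_2, W1_3, W1_4, W1_5, W1_6, W1_7, W1_8, W1_9, W1_10]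
  ring

theorem W1_ac (A : E3) (x : V11) : W1 (actF A x) = actF A (W1 x) := by
  ext i
  fin_cases i
  · change (0 : ℝ) = (0 : ℝ)
    try simp only [ac3, ac4, ac5, ac6, ac7, ac8, ac9, ac10]
    try ring
  · change (0 : ℝ) = (0 : ℝ)
    try simp only [ac3, ac4, ac5, ac6, ac7, ac8, ac9, ac10]
    try ring
  · change (0 : ℝ) = (0 : ℝ)
    try simp only [ac3, ac4, ac5, ac6, ac7, ac8, ac9, ac10]
    try ring
  · change k * (-(ac9 A x) - (ac10 A x)) = -(A 0 * (k * (x 9 - x 10))) - A 1 * (k * (x 7 - x 8)) - A 2 * (k * (x 7 + x 8))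
    try simp only [ac3, ac4, ac5, ac6, ac7, ac8, ac9, ac10]
    try ring
  · change k * ((ac9 A x) - (ac10 A x)) = A 0 * (k * (-x 9 - x 10)) + A 1 * (k * (x 7 + x 8)) - A 2 * (k * (x 7 - x 8))
    try simp only [ac3, ac4, ac5, ac6, ac7, ac8, ac9, ac10]
    try ring
  · change k * ((ac7 A x) - (ac8 A x)) = -(A 0 * (k * (x 7 + x 8))) + A 1 * (k * (-x 9 - x 10)) + A 2 * (k * (x 9 - x 10))
    try simp only [ac3, ac4, ac5, ac6, ac7, ac8, ac9, ac10]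
    try ring
  · change k * ((ac7 A x) + (ac8 A x)) = A 0 * (k * (x 7 - x 8)) - A 1 * (k * (x 9 - x 10)) + A 2 * (k * (-x 9 - x 10))
    try simp only [ac3, ac4, ac5, ac6, ac7, ac8, ac9, ac10]
    try ring
  · change 4 / 3 * (ac7 A x) + k * ((ac5 A x) + (ac6 A x)) = -(A 0 * (4 / 3 * x 8 - k * (x 5 - x 6))) - A 1 * (4 / 3 * x 9 - k * (x 3 - x 4)) - A 2 * (4 / 3 * x 10 - k * (x 3 + x 4))
    try simp only [ac3, ac4, ac5, ac6, ac7, ac8, ac9, ac10]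
    try ring
  · change 4 / 3 * (ac8 A x) - k * ((ac5 A x) - (ac6 A x)) = A 0 * (4 / 3 * x 7 + k * (x 5 + x 6)) + A 1 * (4 / 3 * x 10 - k * (x 3 + x 4)) - A 2 * (4 / 3 * x 9 - k * (x 3 - x 4))
    try simp only [ac3, ac4, ac5, ac6, ac7, ac8, ac9, ac10]
    try ring
  · change 4 / 3 * (ac9 A x) - k * ((ac3 A x) - (ac4 A x)) = -(A 0 * (4 / 3 * x 10 - k * (x 3 + x 4))) + A 1 * (4 / 3 * x 7 + k * (x 5 + x 6)) + A 2 * (4 / 3 * x 8 - k * (x 5 - x 6))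
    try simp only [ac3, ac4, ac5, ac6, ac7, ac8, ac9, ac10]
    try ring
  · change 4 / 3 * (ac10 A x) - k * ((ac3 A x) + (ac4 A x)) = A 0 * (4 / 3 * x 9 - k * (x 3 - x 4)) - A 1 * (4 / 3 * x 8 - k * (x 5 - x 6)) + A 2 * (4 / 3 * x 7 + k * (x 5 + x 6))
    try simp only [ac3, ac4, ac5, ac6, ac7, ac8, ac9, ac10]
    try ring

theorem W1_ro (q : EuclideanSpace ℝ (Fin 4)) (x : V11) : W1 (rotF q x) = rotF q (W1 x) := by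
  ext i
  fin_cases i
  · change (0 : ℝ) = (0)
    try ring
  · change (0 : ℝ) = (0)
    try ring
  · change (0 : ℝ) = (0)
    try ring
  · change k * (-(q 0 * x 9 - q 1 * x 10 + q 2 * x 7 + q 3 * x 8) - (q 0 * x 10 + q 1 * x 9 - q 2 * x 8 + q 3 * x 7)) = q 0 * (k * (-x 9 - x 10)) - q 1 * (k * (x 9 - x 10)) - q 2 * (k * (x 7 - x 8)) - q 3 * (k * (x 7 + x 8))
    try ring
  · change k * ((q 0 * x 9 - q 1 * x 10 + q 2 * x 7 + q 3 * x 8) - (q 0 * x 10 + q 1 * x 9 - q 2 * x 8 + q 3 * x 7)) = q 0 * (k * (x 9 - x 10)) + q 1 * (k * (-x 9 - x 10)) + q 2 * (k * (x 7 + x 8)) - q 3 * (k * (x 7 - x 8))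
    try ring
  · change k * ((q 0 * x 7 - q 1 * x 8 - q 2 * x 9 - q 3 * x 10) - (q 0 * x 8 + q 1 * x 7 + q 2 * x 10 - q 3 * x 9)) = q 0 * (k * (x 7 - x 8)) - q 1 * (k * (x 7 + x 8)) + q 2 * (k * (-x 9 - x 10)) + q 3 * (k * (x 9 - x 10))
    try ring
  · change k * ((q 0 * x 7 - q 1 * x 8 - q 2 * x 9 - q 3 * x 10) + (q 0 * x 8 + q 1 * x 7 + q 2 * x 10 - q 3 * x 9)) = q 0 * (k * (x 7 + x 8)) + q 1 * (k * (x 7 - x 8)) - q 2 * (k * (x 9 - x 10)) + q 3 * (k * (-x 9 - x 10))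
    try ring
  · change 4 / 3 * (q 0 * x 7 - q 1 * x 8 - q 2 * x 9 - q 3 * x 10) + k * ((q 0 * x 5 - q 1 * x 6 + q 2 * x 3 + q 3 * x 4) + (q 0 * x 6 + q 1 * x 5 - q 2 * x 4 + q 3 * x 3)) = q 0 * (4 / 3 * x 7 + k * (x 5 + x 6)) - q 1 * (4 / 3 * x 8 - k * (x 5 - x 6)) - q 2 * (4 / 3 * x 9 - k * (x 3 - x 4)) - q 3 * (4 / 3 * x 10 - k * (x 3 + x 4))
    try ring
  · change 4 / 3 * (q 0 * x 8 + q 1 * x 7 + q 2 * x 10 - q 3 * x 9) - k * ((q 0 * x 5 - q 1 * x 6 + q 2 * x 3 + q 3 * x 4) - (q 0 * x 6 + q 1 * x 5 - q 2 * x 4 + q 3 * x 3)) = q 0 * (4 / 3 * x 8 - k * (x 5 - x 6)) + q 1 * (4 / 3 * x 7 + k * (x 5 + x 6)) + q 2 * (4 / 3 * x 10 - k * (x 3 + x 4)) - q 3 * (4 / 3 * x 9 - k * (x 3 - x 4))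
    try ring
  · change 4 / 3 * (q 0 * x 9 - q 1 * x 10 + q 2 * x 7 + q 3 * x 8) - k * ((q 0 * x 3 - q 1 * x 4 - q 2 * x 5 - q 3 * x 6) - (q 0 * x 4 + q 1 * x 3 + q 2 * x 6 - q 3 * x 5)) = q 0 * (4 / 3 * x 9 - k * (x 3 - x 4)) - q 1 * (4 / 3 * x 10 - k * (x 3 + x 4)) + q 2 * (4 / 3 * x 7 + k * (x 5 + x 6)) + q 3 * (4 / 3 * x 8 - k * (x 5 - x 6))
    try ring
  · change 4 / 3 * (q 0 * x 10 + q 1 * x 9 - q 2 * x 8 + q 3 * x 7) - k * ((q 0 * x 3 - q 1 * x 4 - q 2 * x 5 - q 3 * x 6) + (q 0 * x 4 + q 1 * x 3 + q 2 * x 6 - q 3 * x 5)) = q 0 * (4 / 3 * x 10 - k * (x 3 + x 4)) + q 1 * (4 / 3 * x 9 - k * (x 3 - x 4)) - q 2 * (4 / 3 * x 8 - k * (x 5 - x 6)) + q 3 * (4 / 3 * x 7 + k * (x 5 + x 6))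
    try ring

theorem W2_sy (x y : V11) : ⟪W2 x, y⟫ = ⟪x, W2 y⟫ := by
  rw [inner11, inner11]
  simp only [W2_0, W2_1, W2_2, W2_3, W2_4, W2_5, W2_6, W2_7, W2_8, W2_9, W2_10]
  ring

theorem W2_ac (A : E3) (x : V11) : W2 (actF A x) = actF A (W2 x) := by
  ext i
  fin_cases i
  · change (0 : ℝ) = (0 : ℝ)
    try simp only [ac3, ac4, ac5, ac6, ac7, ac8, ac9, ac10]
    try ring
  · change (0 : ℝ) = (0 : ℝ)
    try simp only [ac3, ac4, ac5, ac6, ac7, ac8, ac9, ac10]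
    try ring
  · change (0 : ℝ) = (0 : ℝ)
    try simp only [ac3, ac4, ac5, ac6, ac7, ac8, ac9, ac10]
    try ring
  · change (ac3 A x) + k * ((ac7 A x) - (ac8 A x) - (ac9 A x)) = -(A 0 * (x 4 + k * (x 7 + x 8 - x 10))) - A 1 * (x 5 + k * (x 7 + x 9 + x 10)) - A 2 * (x 6 + k * (x 8 - x 9 + x 10))
    try simp only [ac3, ac4, ac5, ac6, ac7, ac8, ac9, ac10]
    try ring
  · change (ac4 A x) + k * ((ac7 A x) + (ac8 A x) - (ac10 A x)) = A 0 * (x 3 + k * (x 7 - x 8 - x 9)) + A 1 * (x 6 + k * (x 8 - x 9 + x 10)) - A 2 * (x 5 + k * (x 7 + x 9 + x 10))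
    try simp only [ac3, ac4, ac5, ac6, ac7, ac8, ac9, ac10]
    try ring
  · change (ac5 A x) + k * ((ac7 A x) + (ac9 A x) + (ac10 A x)) = -(A 0 * (x 6 + k * (x 8 - x 9 + x 10))) + A 1 * (x 3 + k * (x 7 - x 8 - x 9)) + A 2 * (x 4 + k * (x 7 + x 8 - x 10))
    try simp only [ac3, ac4, ac5, ac6, ac7, ac8, ac9, ac10]
    try ring
  · change (ac6 A x) + k * ((ac8 A x) - (ac9 A x) + (ac10 A x)) = A 0 * (x 5 + k * (x 7 + x 9 + x 10)) - A 1 * (x 4 + k * (x 7 + x 8 - x 10)) + A 2 * (x 3 + k * (x 7 - x 8 - x 9))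
    try simp only [ac3, ac4, ac5, ac6, ac7, ac8, ac9, ac10]
    try ring
  · change (ac7 A x) / 3 + k * ((ac3 A x) + (ac4 A x) + (ac5 A x)) = -(A 0 * (x 8 / 3 + k * (-x 3 + x 4 + x 6))) - A 1 * (x 9 / 3 + k * (-x 3 + x 5 - x 6)) - A 2 * (x 10 / 3 + k * (-x 4 + x 5 + x 6))
    try simp only [ac3, ac4, ac5, ac6, ac7, ac8, ac9, ac10]
    try ring
  · change (ac8 A x) / 3 + k * (-(ac3 A x) + (ac4 A x) + (ac6 A x)) = A 0 * (x 7 / 3 + k * (x 3 + x 4 + x 5)) + A 1 * (x 10 / 3 + k * (-x 4 + x 5 + x 6)) - A 2 * (x 9 / 3 + k * (-x 3 + x 5 - x 6))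
    try simp only [ac3, ac4, ac5, ac6, ac7, ac8, ac9, ac10]
    try ring
  · change (ac9 A x) / 3 + k * (-(ac3 A x) + (ac5 A x) - (ac6 A x)) = -(A 0 * (x 10 / 3 + k * (-x 4 + x 5 + x 6))) + A 1 * (x 7 / 3 + k * (x 3 + x 4 + x 5)) + A 2 * (x 8 / 3 + k * (-x 3 + x 4 + x 6))
    try simp only [ac3, ac4, ac5, ac6, ac7, ac8, ac9, ac10]
    try ring
  · change (ac10 A x) / 3 + k * (-(ac4 A x) + (ac5 A x) + (ac6 A x)) = A 0 * (x 9 / 3 + k * (-x 3 + x 5 - x 6)) - A 1 * (x 8 / 3 + k * (-x 3 + x 4 + x 6)) + A 2 * (x 7 / 3 + k * (x 3 + x 4 + x 5))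
    try simp only [ac3, ac4, ac5, ac6, ac7, ac8, ac9, ac10]
    try ring

theorem W2_ro (q : EuclideanSpace ℝ (Fin 4)) (x : V11) : W2 (rotF q x) = rotF q (W2 x) := by
  ext i
  fin_cases i
  · change (0 : ℝ) = (0)
    try ring
  · change (0 : ℝ) = (0)
    try ring
  · change (0 : ℝ) = (0)
    try ring
  · change (q 0 * x 3 - q 1 * x 4 - q 2 * x 5 - q 3 * x 6) + k * ((q 0 * x 7 - q 1 * x 8 - q 2 * x 9 - q 3 * x 10) - (q 0 * x 8 + q 1 * x 7 + q 2 * x 10 - q 3 * x 9) - (q 0 * x 9 - q 1 * x 10 + q 2 * x 7 + q 3 * x 8)) = q 0 * (x 3 + k * (x 7 - x 8 - x 9)) - q 1 * (x 4 + k * (x 7 + x 8 - x 10)) - q 2 * (x 5 + k * (x 7 + x 9 + x 10)) - q 3 * (x 6 + k * (x 8 - x 9 + x 10))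
    try ring
  · change (q 0 * x 4 + q 1 * x 3 + q 2 * x 6 - q 3 * x 5) + k * ((q 0 * x 7 - q 1 * x 8 - q 2 * x 9 - q 3 * x 10) + (q 0 * x 8 + q 1 * x 7 + q 2 * x 10 - q 3 * x 9) - (q 0 * x 10 + q 1 * x 9 - q 2 * x 8 + q 3 * x 7)) = q 0 * (x 4 + k * (x 7 + x 8 - x 10)) + q 1 * (x 3 + k * (x 7 - x 8 - x 9)) + q 2 * (x 6 + k * (x 8 - x 9 + x 10)) - q 3 * (x 5 + k * (x 7 + x 9 + x 10))
    try ring
  · change (q 0 * x 5 - q 1 * x 6 + q 2 * x 3 + q 3 * x 4) + k * ((q 0 * x 7 - q 1 * x 8 - q 2 * x 9 - q 3 * x 10) + (q 0 * x 9 - q 1 * x 10 + q 2 * x 7 + q 3 * x 8) + (q 0 * x 10 + q 1 * x 9 - q 2 * x 8 + q 3 * x 7)) = q 0 * (x 5 + k * (x 7 + x 9 + x 10)) - q 1 * (x 6 + k * (x 8 - x 9 + x 10)) + q 2 * (x 3 + k * (x 7 - x 8 - x 9)) + q 3 * (x 4 + k * (x 7 + x 8 - x 10))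
    try ring
  · change (q 0 * x 6 + q 1 * x 5 - q 2 * x 4 + q 3 * x 3) + k * ((q 0 * x 8 + q 1 * x 7 + q 2 * x 10 - q 3 * x 9) - (q 0 * x 9 - q 1 * x 10 + q 2 * x 7 + q 3 * x 8) + (q 0 * x 10 + q 1 * x 9 - q 2 * x 8 + q 3 * x 7)) = q 0 * (x 6 + k * (x 8 - x 9 + x 10)) + q 1 * (x 5 + k * (x 7 + x 9 + x 10)) - q 2 * (x 4 + k * (x 7 + x 8 - x 10)) + q 3 * (x 3 + k * (x 7 - x 8 - x 9))
    try ring
  · change (q 0 * x 7 - q 1 * x 8 - q 2 * x 9 - q 3 * x 10) / 3 + k * ((q 0 * x 3 - q 1 * x 4 - q 2 * x 5 - q 3 * x 6) + (q 0 * x 4 + q 1 * x 3 + q 2 * x 6 - q 3 * x 5) + (q 0 * x 5 - q 1 * x 6 + q 2 * x 3 + q 3 * x 4)) = q 0 * (x 7 / 3 + k * (x 3 + x 4 + x 5)) - q 1 * (x 8 / 3 + k * (-x 3 + x 4 + x 6)) - q 2 * (x 9 / 3 + k * (-x 3 + x 5 - x 6)) - q 3 * (x 10 / 3 + k * (-x 4 + x 5 + x 6))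
    try ring
  · change (q 0 * x 8 + q 1 * x 7 + q 2 * x 10 - q 3 * x 9) / 3 + k * (-(q 0 * x 3 - q 1 * x 4 - q 2 * x 5 - q 3 * x 6) + (q 0 * x 4 + q 1 * x 3 + q 2 * x 6 - q 3 * x 5) + (q 0 * x 6 + q 1 * x 5 - q 2 * x 4 + q 3 * x 3)) = q 0 * (x 8 / 3 + k * (-x 3 + x 4 + x 6)) + q 1 * (x 7 / 3 + k * (x 3 + x 4 + x 5)) + q 2 * (x 10 / 3 + k * (-x 4 + x 5 + x 6)) - q 3 * (x 9 / 3 + k * (-x 3 + x 5 - x 6))
    try ring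
  · change (q 0 * x 9 - q 1 * x 10 + q 2 * x 7 + q 3 * x 8) / 3 + k * (-(q 0 * x 3 - q 1 * x 4 - q 2 * x 5 - q 3 * x 6) + (q 0 * x 5 - q 1 * x 6 + q 2 * x 3 + q 3 * x 4) - (q 0 * x 6 + q 1 * x 5 - q 2 * x 4 + q 3 * x 3)) = q 0 * (x 9 / 3 + k * (-x 3 + x 5 - x 6)) - q 1 * (x 10 / 3 + k * (-x 4 + x 5 + x 6)) + q 2 * (x 7 / 3 + k * (x 3 + x 4 + x 5)) + q 3 * (x 8 / 3 + k * (-x 3 + x 4 + x 6))
    try ring
  · change (q 0 * x 10 + q 1 * x 9 - q 2 * x 8 + q 3 * x 7) / 3 + k * (-(q 0 * x 4 + q 1 * x 3 + q 2 * x 6 - q 3 * x 5) + (q 0 * x 5 - q 1 * x 6 + q 2 * x 3 + q 3 * x 4) + (q 0 * x 6 + q 1 * x 5 - q 2 * x 4 + q 3 * x 3)) = q 0 * (x 10 / 3 + k * (-x 4 + x 5 + x 6)) + q 1 * (x 9 / 3 + k * (-x 3 + x 5 - x 6)) - q 2 * (x 8 / 3 + k * (-x 3 + x 4 + x 6)) + q 3 * (x 7 / 3 + k * (x 3 + x 4 + x 5))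
    try ring

theorem W3_sy (x y : V11) : ⟪W3 x, y⟫ = ⟪x, W3 y⟫ := by
  rw [inner11, inner11]
  simp only [W3_0, W3_1, W3_2, W3_3, W3_4, W3_5, W3_6, W3_7, W3_8, W3_9, W3_10]
  ring

theorem W3_ac (A : E3) (x : V11) : W3 (actF A x) = actF A (W3 x) := by
  ext i
  fin_cases i
  · change (0 : ℝ) = (0 : ℝ)
    try simp only [ac3, ac4, ac5, ac6, ac7, ac8, ac9, ac10]
    try ring
  · change (0 : ℝ) = (0 : ℝ)
    try simp only [ac3, ac4, ac5, ac6, ac7, ac8, ac9, ac10]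
    try ring
  · change (0 : ℝ) = (0 : ℝ)
    try simp only [ac3, ac4, ac5, ac6, ac7, ac8, ac9, ac10]
    try ring
  · change (ac3 A x) + k * ((ac7 A x) + (ac8 A x) - (ac10 A x)) = -(A 0 * (x 4 + k * (-x 7 + x 8 + x 9))) - A 1 * (x 5 + k * (-x 8 + x 9 - x 10)) - A 2 * (x 6 + k * (x 7 + x 9 + x 10))
    try simp only [ac3, ac4, ac5, ac6, ac7, ac8, ac9, ac10]
    try ring
  · change (ac4 A x) + k * (-(ac7 A x) + (ac8 A x) + (ac9 A x)) = A 0 * (x 3 + k * (x 7 + x 8 - x 10)) + A 1 * (x 6 + k * (x 7 + x 9 + x 10)) - A 2 * (x 5 + k * (-x 8 + x 9 - x 10))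
    try simp only [ac3, ac4, ac5, ac6, ac7, ac8, ac9, ac10]
    try ring
  · change (ac5 A x) + k * (-(ac8 A x) + (ac9 A x) - (ac10 A x)) = -(A 0 * (x 6 + k * (x 7 + x 9 + x 10))) + A 1 * (x 3 + k * (x 7 + x 8 - x 10)) + A 2 * (x 4 + k * (-x 7 + x 8 + x 9))
    try simp only [ac3, ac4, ac5, ac6, ac7, ac8, ac9, ac10]
    try ring
  · change (ac6 A x) + k * ((ac7 A x) + (ac9 A x) + (ac10 A x)) = A 0 * (x 5 + k * (-x 8 + x 9 - x 10)) - A 1 * (x 4 + k * (-x 7 + x 8 + x 9)) + A 2 * (x 3 + k * (x 7 + x 8 - x 10))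
    try simp only [ac3, ac4, ac5, ac6, ac7, ac8, ac9, ac10]
    try ring
  · change (ac7 A x) / 3 + k * ((ac3 A x) - (ac4 A x) + (ac6 A x)) = -(A 0 * (x 8 / 3 + k * (x 3 + x 4 - x 5))) - A 1 * (x 9 / 3 + k * (x 4 + x 5 + x 6)) - A 2 * (x 10 / 3 + k * (-x 3 - x 5 + x 6))
    try simp only [ac3, ac4, ac5, ac6, ac7, ac8, ac9, ac10]
    try ring
  · change (ac8 A x) / 3 + k * ((ac3 A x) + (ac4 A x) - (ac5 A x)) = A 0 * (x 7 / 3 + k * (x 3 - x 4 + x 6)) + A 1 * (x 10 / 3 + k * (-x 3 - x 5 + x 6)) - A 2 * (x 9 / 3 + k * (x 4 + x 5 + x 6))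
    try simp only [ac3, ac4, ac5, ac6, ac7, ac8, ac9, ac10]
    try ring
  · change (ac9 A x) / 3 + k * ((ac4 A x) + (ac5 A x) + (ac6 A x)) = -(A 0 * (x 10 / 3 + k * (-x 3 - x 5 + x 6))) + A 1 * (x 7 / 3 + k * (x 3 - x 4 + x 6)) + A 2 * (x 8 / 3 + k * (x 3 + x 4 - x 5))
    try simp only [ac3, ac4, ac5, ac6, ac7, ac8, ac9, ac10]
    try ring
  · change (ac10 A x) / 3 + k * (-(ac3 A x) - (ac5 A x) + (ac6 A x)) = A 0 * (x 9 / 3 + k * (x 4 + x 5 + x 6)) - A 1 * (x 8 / 3 + k * (x 3 + x 4 - x 5)) + A 2 * (x 7 / 3 + k * (x 3 - x 4 + x 6))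
    try simp only [ac3, ac4, ac5, ac6, ac7, ac8, ac9, ac10]
    try ring

theorem W3_ro (q : EuclideanSpace ℝ (Fin 4)) (x : V11) : W3 (rotF q x) = rotF q (W3 x) := by
  ext i
  fin_cases i
  · change (0 : ℝ) = (0)
    try ring
  · change (0 : ℝ) = (0)
    try ring
  · change (0 : ℝ) = (0)
    try ring
  · change (q 0 * x 3 - q 1 * x 4 - q 2 * x 5 - q 3 * x 6) + k * ((q 0 * x 7 - q 1 * x 8 - q 2 * x 9 - q 3 * x 10) + (q 0 * x 8 + q 1 * x 7 + q 2 * x 10 - q 3 * x 9) - (q 0 * x 10 + q 1 * x 9 - q 2 * x 8 + q 3 * x 7)) = q 0 * (x 3 + k * (x 7 + x 8 - x 10)) - q 1 * (x 4 + k * (-x 7 + x 8 + x 9)) - q 2 * (x 5 + k * (-x 8 + x 9 - x 10)) - q 3 * (x 6 + k * (x 7 + x 9 + x 10))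
    try ring
  · change (q 0 * x 4 + q 1 * x 3 + q 2 * x 6 - q 3 * x 5) + k * (-(q 0 * x 7 - q 1 * x 8 - q 2 * x 9 - q 3 * x 10) + (q 0 * x 8 + q 1 * x 7 + q 2 * x 10 - q 3 * x 9) + (q 0 * x 9 - q 1 * x 10 + q 2 * x 7 + q 3 * x 8)) = q 0 * (x 4 + k * (-x 7 + x 8 + x 9)) + q 1 * (x 3 + k * (x 7 + x 8 - x 10)) + q 2 * (x 6 + k * (x 7 + x 9 + x 10)) - q 3 * (x 5 + k * (-x 8 + x 9 - x 10))
    try ring
  · change (q 0 * x 5 - q 1 * x 6 + q 2 * x 3 + q 3 * x 4) + k * (-(q 0 * x 8 + q 1 * x 7 + q 2 * x 10 - q 3 * x 9) + (q 0 * x 9 - q 1 * x 10 + q 2 * x 7 + q 3 * x 8) - (q 0 * x 10 + q 1 * x 9 - q 2 * x 8 + q 3 * x 7)) = q 0 * (x 5 + k * (-x 8 + x 9 - x 10)) - q 1 * (x 6 + k * (x 7 + x 9 + x 10)) + q 2 * (x 3 + k * (x 7 + x 8 - x 10)) + q 3 * (x 4 + k * (-x 7 + x 8 + x 9))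
    try ring
  · change (q 0 * x 6 + q 1 * x 5 - q 2 * x 4 + q 3 * x 3) + k * ((q 0 * x 7 - q 1 * x 8 - q 2 * x 9 - q 3 * x 10) + (q 0 * x 9 - q 1 * x 10 + q 2 * x 7 + q 3 * x 8) + (q 0 * x 10 + q 1 * x 9 - q 2 * x 8 + q 3 * x 7)) = q 0 * (x 6 + k * (x 7 + x 9 + x 10)) + q 1 * (x 5 + k * (-x 8 + x 9 - x 10)) - q 2 * (x 4 + k * (-x 7 + x 8 + x 9)) + q 3 * (x 3 + k * (x 7 + x 8 - x 10))
    try ring
  · change (q 0 * x 7 - q 1 * x 8 - q 2 * x 9 - q 3 * x 10) / 3 + k * ((q 0 * x 3 - q 1 * x 4 - q 2 * x 5 - q 3 * x 6) - (q 0 * x 4 + q 1 * x 3 + q 2 * x 6 - q 3 * x 5) + (q 0 * x 6 + q 1 * x 5 - q 2 * x 4 + q 3 * x 3)) = q 0 * (x 7 / 3 + k * (x 3 - x 4 + x 6)) - q 1 * (x 8 / 3 + k * (x 3 + x 4 - x 5)) - q 2 * (x 9 / 3 + k * (x 4 + x 5 + x 6)) - q 3 * (x 10 / 3 + k * (-x 3 - x 5 + x 6))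
    try ring
  · change (q 0 * x 8 + q 1 * x 7 + q 2 * x 10 - q 3 * x 9) / 3 + k * ((q 0 * x 3 - q 1 * x 4 - q 2 * x 5 - q 3 * x 6) + (q 0 * x 4 + q 1 * x 3 + q 2 * x 6 - q 3 * x 5) - (q 0 * x 5 - q 1 * x 6 + q 2 * x 3 + q 3 * x 4)) = q 0 * (x 8 / 3 + k * (x 3 + x 4 - x 5)) + q 1 * (x 7 / 3 + k * (x 3 - x 4 + x 6)) + q 2 * (x 10 / 3 + k * (-x 3 - x 5 + x 6)) - q 3 * (x 9 / 3 + k * (x 4 + x 5 + x 6))
    try ring
  · change (q 0 * x 9 - q 1 * x 10 + q 2 * x 7 + q 3 * x 8) / 3 + k * ((q 0 * x 4 + q 1 * x 3 + q 2 * x 6 - q 3 * x 5) + (q 0 * x 5 - q 1 * x 6 + q 2 * x 3 + q 3 * x 4) + (q 0 * x 6 + q 1 * x 5 - q 2 * x 4 + q 3 * x 3)) = q 0 * (x 9 / 3 + k * (x 4 + x 5 + x 6)) - q 1 * (x 10 / 3 + k * (-x 3 - x 5 + x 6)) + q 2 * (x 7 / 3 + k * (x 3 - x 4 + x 6)) + q 3 * (x 8 / 3 + k * (x 3 + x 4 - x 5))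
    try ring
  · change (q 0 * x 10 + q 1 * x 9 - q 2 * x 8 + q 3 * x 7) / 3 + k * (-(q 0 * x 3 - q 1 * x 4 - q 2 * x 5 - q 3 * x 6) - (q 0 * x 5 - q 1 * x 6 + q 2 * x 3 + q 3 * x 4) + (q 0 * x 6 + q 1 * x 5 - q 2 * x 4 + q 3 * x 3)) = q 0 * (x 10 / 3 + k * (-x 3 - x 5 + x 6)) + q 1 * (x 9 / 3 + k * (x 4 + x 5 + x 6)) - q 2 * (x 8 / 3 + k * (x 3 + x 4 - x 5)) + q 3 * (x 7 / 3 + k * (x 3 - x 4 + x 6))
    try ring

theorem P0_symm (x y : V11) : ⟪P0 x, y⟫ = ⟪x, P0 y⟫ := P0_sy x y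

theorem M1_symm (x y : V11) : ⟪M1 x, y⟫ = ⟪x, M1 y⟫ := M1_sy x y

theorem Wm_symm (a : Fin 3) (x y : V11) : ⟪Wm a x, y⟫ = ⟪x, Wm a y⟫ := by
  fin_cases a
  · exact W1_sy x y
  · exact W2_sy x y
  · exact W3_sy x y

theorem P0_act (A : E3) (x : V11) : P0 (g2.act A x) = g2.act A (P0 x) := P0_ac A x

theorem M1_act (A : E3) (x : V11) : M1 (g2.act A x) = g2.act A (M1 x) := M1_ac A x

theorem Wm_act (a : Fin 3) (A : E3) (x : V11) : Wm a (g2.act A x) = g2.act A (Wm a x) := by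
  fin_cases a
  · exact W1_ac A x
  · exact W2_ac A x
  · exact W3_ac A x

theorem P0_rot (q : EuclideanSpace ℝ (Fin 4)) (x : V11) : P0 (rotF q x) = rotF q (P0 x) := P0_ro q x

theorem M1_rot (q : EuclideanSpace ℝ (Fin 4)) (x : V11) : M1 (rotF q x) = rotF q (M1 x) := M1_ro q x

theorem Wm_rot (a : Fin 3) (q : EuclideanSpace ℝ (Fin 4)) (x : V11) :
    Wm a (rotF q x) = rotF q (Wm a x) := by
  fin_cases a
  · exact W1_ro q x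
  · exact W2_ro q x
  · exact W3_ro q x

end G2F
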