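import Pool.Agent.G2F.Norm
import Pool.Agent.G2F.Ops
import Pool.Agent.G2F.JM
import Pool.Agent.G2F.JW
import Pool.Agent.G2F.CAlg

/-! MODULE CC (diff 2-3): the two matrix equations.

Notation `e = em m`, `i = m+1`, `j = m+2`, `[,] = mm`, `T = (Tm ξ ξ)/2 = LᵀL`, `τ = Tm ξ σ`, `v = vv`,
`g a = ⟪W a ξ, ξ⟫ = (T v)ₐ` (`gW`), `‖ξ‖ = 1`.
`⟪y, [e, y]⟫ = 0` and `⟪σ,[e,ξ]⟫ + ⟪ξ,[e,σ]⟫ = 0` (`g2_skew`).

* `c_one`: `p0 ξ = M1 ξ + 4 ∑ gₐ Wₐ ξ - 2(∑gₐ²) ξ`, so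
  `⟪p0 ξ,[e,ξ]⟫ = 4k [T,D]_{ij} + 4 ∑ (T v)ₐ k ([Ω,T] v)ₐ = 4k([T,D] + [T²,B])_{ij}` (`JM_pol`, `JW_pol` with
  `x = y = ξ`, halved; `cm_om` with `S = T`, halved).
* `c_two`: `b0 ξ σ = M1 σ + ∑(8⟪Wₐξ,σ⟫ Wₐξ + 4 gₐ Wₐσ) - (∑ 8 gₐ⟪Wₐξ,σ⟫) ξ - 2(∑gₐ²)σ` (`⟪ξ,σ⟫ = 0`), so
  `⟪b0 ξ σ,[e,ξ]⟫ + ⟪p0 ξ,[e,σ]⟫ = 4k[τ,D]_{ij} + ∑(4 (τv)ₐ · k([Ω,T]v)ₐ + 4 (T v)ₐ · k([Ω,τ]v)ₐ)
   = 4k([τ,D] + [τT + Tτ, B])_{ij}` (`2⟪Wₐξ,σ⟫ = (τ v)ₐ`).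
* If `p0 ξ = a ξ + b σ` and `[ξ,σ] = 0` then `⟪p0 ξ,[e,ξ]⟫ = b⟪σ,[e,ξ]⟫ = -b ⟪σ,[ξ,e]⟫ = b⟪[ξ,σ],e⟫ = 0`,
  `⟪p0 ξ,[e,σ]⟫ = 0` in the same way, and `⟪b0 ξ σ,[e,ξ]⟫ = -⟪b0 ξ σ,[ξ,e]⟫ = ⟪[ξ, b0 ξ σ], e⟫ = 0`.
  (`[x,y] = -[y,x]` from `mm_self`.)  Divide by `4k ≠ 0`, use `cm_zero`.
-/

namespace G2F

open HFinG
open scoped RealInnerProductSpace Matrix

theorem cc_Txx (x : V11) : Tm x x = (2 : ℝ) • ((Lm x)ᵀ * Lm x) := by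
  rw [Tm, two_smul]

theorem cc_Tsymm (x : V11) : ((Lm x)ᵀ * Lm x)ᵀ = (Lm x)ᵀ * Lm x := by
  rw [Matrix.transpose_mul, Matrix.transpose_transpose]

theorem cc_self (m : Fin 3) (x : V11) : ⟪x, g2.mm (em m) x⟫ = 0 := by
  have h := g2_skew (em m) x x
  rw [real_inner_comm] at h
  linarith

theorem cc_pol (m : Fin 3) (x y : V11) :
    ⟪x, g2.mm (em m) y⟫ + ⟪y, g2.mm (em m) x⟫ = 0 := by
  have h := g2_skew (em m) x y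
  rw [real_inner_comm] at h
  linarith

theorem cc_M (m : Fin 3) (x y : V11) :
    ⟪M1 x, g2.mm (em m) y⟫ + ⟪M1 y, g2.mm (em m) x⟫ = 4 * k * cm (Tm x y) Dm (m + 1) (m + 2) :=
  JM_pol m x y

theorem cc_W (m a : Fin 3) (x y : V11) :
    ⟪Wm a x, g2.mm (em m) y⟫ + ⟪Wm a y, g2.mm (em m) x⟫ = k * (cm (Om m) (Tm x y) *ᵥ vv) a :=
  JW_pol m a x y

theorem cc_cm_smul_left (c : ℝ) (A B : Matrix (Fin 3) (Fin 3) ℝ) : cm (c • A) B = c • cm A B := by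
  rw [cm, cm, Matrix.smul_mul, Matrix.mul_smul, smul_sub]

theorem cc_cm_smul_right (c : ℝ) (A B : Matrix (Fin 3) (Fin 3) ℝ) : cm A (c • B) = c • cm A B := by
  rw [cm, cm, Matrix.smul_mul, Matrix.mul_smul, smul_sub]

theorem cc_M1 (m : Fin 3) (x : V11) :
    ⟪M1 x, g2.mm (em m) x⟫ = 4 * k * cm ((Lm x)ᵀ * Lm x) Dm (m + 1) (m + 2) := by
  have h := cc_M m x x
  rw [cc_Txx, cc_cm_smul_left, Matrix.smul_apply, smul_eq_mul] at h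
  linarith

theorem cc_W1 (m a : Fin 3) (x : V11) :
    ⟪Wm a x, g2.mm (em m) x⟫ = k * (cm (Om m) ((Lm x)ᵀ * Lm x) *ᵥ vv) a := by
  have h := cc_W m a x x
  rw [cc_Txx, cc_cm_smul_right, Matrix.smul_mulVec, Pi.smul_apply, smul_eq_mul] at h
  linarith

theorem cc_g1 (a : Fin 3) (x : V11) :
    ⟪Wm a x, x⟫ = (((Lm x)ᵀ * Lm x) *ᵥ vv) a := by
  have h := gW a x x
  rw [cc_Txx, Matrix.smul_mulVec, Pi.smul_apply, smul_eq_mul] at h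
  linarith

theorem c_one {ξ : V11} (hξ : ‖ξ‖ = 1) (m : Fin 3) :
    ⟪p0 ξ, g2.mm (em m) ξ⟫ = 4 * k * (cm ((Lm ξ)ᵀ * Lm ξ) Dm (m + 1) (m + 2)
      + cm (((Lm ξ)ᵀ * Lm ξ) * ((Lm ξ)ᵀ * Lm ξ)) Bm (m + 1) (m + 2)) := by
  have hom := cm_om (cc_Tsymm ξ) (cc_Tsymm ξ) m
  have hM := cc_M1 m ξ
  have hS := cc_self m ξ
  have hW := fun a => cc_W1 m a ξ
  have hg := fun a => cc_g1 a ξ
  set T := (Lm ξ)ᵀ * Lm ξ with hT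
  have e2 : cm (T * T + T * T) Bm = (2 : ℝ) • cm (T * T) Bm := by
    rw [← two_smul ℝ (T * T), cc_cm_smul_left]
  rw [e2, Matrix.smul_apply, smul_eq_mul] at hom
  simp only [Fin.sum_univ_three] at hom
  have hw0 := hW 0
  have hw1 := hW 1
  have hw2 := hW 2
  have hg0 := hg 0
  have hg1 := hg 1
  have hg2 := hg 2
  rw [p0, pert]
  simp only [hξ, Fin.sum_univ_three, inner_sub_left, inner_add_left, real_inner_smul_left, hM, hS,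
    hw0, hw1, hw2, hg0, hg1, hg2]
  linear_combination (2 * k) * hom

theorem c_two {ξ σ : V11} (hξ : ‖ξ‖ = 1) (ho : ⟪ξ, σ⟫ = 0) (m : Fin 3) :
    ⟪b0 ξ σ, g2.mm (em m) ξ⟫ + ⟪p0 ξ, g2.mm (em m) σ⟫ = 4 * k * (cm (Tm ξ σ) Dm (m + 1) (m + 2)
      + cm (Tm ξ σ * ((Lm ξ)ᵀ * Lm ξ) + ((Lm ξ)ᵀ * Lm ξ) * Tm ξ σ) Bm (m + 1) (m + 2)) := by
  have hom := cm_om (Tm_symm ξ σ) (cc_Tsymm ξ) m
  have hM := cc_M m ξ σ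
  have hS := cc_self m ξ
  have hSp := cc_pol m ξ σ
  have hW := fun a => cc_W1 m a ξ
  have hWp := fun a => cc_W m a ξ σ
  have hg := fun a => cc_g1 a ξ
  have hgp := fun a => gW a ξ σ
  set T := (Lm ξ)ᵀ * Lm ξ with hT
  simp only [Fin.sum_univ_three] at hom
  have hw0 := hW 0
  have hw1 := hW 1
  have hw2 := hW 2
  have hg0 := hg 0
  have hg1 := hg 1
  have hg2 := hg 2
  have hp0 := hWp 0
  have hp1 := hWp 1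
  have hp2 := hWp 2
  have hq0 := hgp 0
  have hq1 := hgp 1
  have hq2 := hgp 2
  rw [p0, pert, b0, dpert]
  simp only [hξ, ho, Fin.sum_univ_three, inner_sub_left, inner_add_left, real_inner_smul_left, hS,
    hw0, hw1, hw2, hg0, hg1, hg2]
  linear_combination hM + 4 * (T *ᵥ vv) 0 * hp0 + 4 * (T *ᵥ vv) 1 * hp1 + 4 * (T *ᵥ vv) 2 * hp2
    + 4 * k * (cm (Om m) T *ᵥ vv) 0 * hq0 + 4 * k * (cm (Om m) T *ᵥ vv) 1 * hq1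
    + 4 * k * (cm (Om m) T *ᵥ vv) 2 * hq2
    - 2 * ((T *ᵥ vv) 0 ^ 2 + (T *ᵥ vv) 1 ^ 2 + (T *ᵥ vv) 2 ^ 2) * hSp
    + (4 * k) * hom

theorem cc_Dm : Dmᵀ = Dm := by
  ext i j; fin_cases i <;> fin_cases j <;> rfl

theorem cc_Bm : Bmᵀ = Bm := by
  ext i j; fin_cases i <;> fin_cases j <;> rfl

theorem cc_swap (m : Fin 3) (x y : V11) : ⟪y, g2.mm (em m) x⟫ = ⟪g2.mm x y, em m⟫ := by
  rw [mm_anti g2 (em m) x, inner_neg_right, g2_skew]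

theorem C_one {ξ σ : V11} (hξ : ‖ξ‖ = 1) {a b : ℝ} (hp : p0 ξ = a • ξ + b • σ)
    (hm : g2.mm ξ σ = 0) :
    cm ((Lm ξ)ᵀ * Lm ξ) Dm + cm (((Lm ξ)ᵀ * Lm ξ) * ((Lm ξ)ᵀ * Lm ξ)) Bm = 0 := by
  have hT := cc_Tsymm ξ
  refine cm_zero hT cc_Dm (by rw [Matrix.transpose_mul, hT]) cc_Bm fun m => ?_
  have h := c_one hξ m
  rw [hp, inner_add_left, real_inner_smul_left, real_inner_smul_left, cc_self, cc_swap, hm,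
    inner_zero_left, mul_zero, mul_zero, add_zero] at h
  have hk : (4 * k : ℝ) ≠ 0 := by have := k_pos; positivity
  exact (mul_eq_zero.1 h.symm).resolve_left hk

theorem C_two {ξ σ : V11} (hξ : ‖ξ‖ = 1) (ho : ⟪ξ, σ⟫ = 0) {a b : ℝ} (hp : p0 ξ = a • ξ + b • σ)
    (hm : g2.mm ξ σ = 0) (hZ : g2.mm ξ (b0 ξ σ) = 0) :
    cm (Tm ξ σ) Dm + cm (Tm ξ σ * ((Lm ξ)ᵀ * Lm ξ) + ((Lm ξ)ᵀ * Lm ξ) * Tm ξ σ) Bm = 0 := by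
  have hT := cc_Tsymm ξ
  have hS := Tm_symm ξ σ
  have hR : (Tm ξ σ * ((Lm ξ)ᵀ * Lm ξ) + ((Lm ξ)ᵀ * Lm ξ) * Tm ξ σ)ᵀ =
      Tm ξ σ * ((Lm ξ)ᵀ * Lm ξ) + ((Lm ξ)ᵀ * Lm ξ) * Tm ξ σ := by
    rw [Matrix.transpose_add, Matrix.transpose_mul (Tm ξ σ), Matrix.transpose_mul _ (Tm ξ σ), hT, hS,
      add_comm]
  refine cm_zero hS cc_Dm hR cc_Bm fun m => ?_
  have h := c_two hξ ho m
  rw [hp, inner_add_left, real_inner_smul_left, real_inner_smul_left, cc_self, cc_swap m ξ (b0 ξ σ),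
    hZ, cc_swap m σ ξ, mm_anti g2 σ ξ, hm, neg_zero, inner_zero_left, mul_zero, mul_zero, add_zero,
    add_zero] at h
  have hk : (4 * k : ℝ) ≠ 0 := by have := k_pos; positivity
  exact (mul_eq_zero.1 h.symm).resolve_left hk

end G2F
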