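import Pool.Agent.HFinG.Dual

/-! MODULE Crit (diff 1): the third order term at a flat with `p ξ ∈ span (ξ, σ)`.

`[ξ,σ]_𝔪 = 0`, so `[σ,ξ]_𝔪 = 0` (from `mm_self`: `mm (ξ+σ) (ξ+σ) = 0`), `[pξ, ξ]_𝔪 = b [σ,ξ] = 0` and
`[pξ,σ]_𝔪 = a [ξ,σ] = 0`, `[pξ,σ]_𝔥 = 0` (`mh_self`).  So in `P3` the first term is `fderiv .. 0 = 0`,
`qq2 ξ σ = 0 - mm (pξ) (βσ) + β 0`, the last term is `0`, and with `Z = mm ξ (βσ)`:
`P3 = ⟪-mm (pξ)(βσ), 0 + Z⟫ + ⟪β Z, Z⟫`.
-/

namespace G2F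

open HFinG
open scoped ContDiff RealInnerProductSpace

variable {V H : Type*} [NormedAddCommGroup V] [InnerProductSpace ℝ V]
  [NormedAddCommGroup H] [InnerProductSpace ℝ H]

theorem P3_span {D : RedData V H} {p : V → V} {ξ σ : V} {a b : ℝ} (hp : p ξ = a • ξ + b • σ)
    (hm : D.mm ξ σ = 0) (hh : D.mh ξ σ = 0) :
    P3 D p ξ σ = ⟪fderiv ℝ p ξ (D.mm ξ (fderiv ℝ p ξ σ)) - D.mm (p ξ) (fderiv ℝ p ξ σ),
      D.mm ξ (fderiv ℝ p ξ σ)⟫ := by
  have hanti : D.mm σ ξ = 0 := by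
    have h := D.mm_self (ξ + σ)
    simp only [map_add, ContinuousLinearMap.add_apply, D.mm_self, hm, zero_add, add_zero] at h
    exact h
  have h1 : D.mm (p ξ) ξ = 0 := by
    rw [hp]
    simp only [map_add, map_smul, ContinuousLinearMap.add_apply, ContinuousLinearMap.smul_apply,
      D.mm_self, hanti, smul_zero, add_zero]
  have h2 : D.mm (p ξ) σ = 0 := by
    rw [hp]
    simp only [map_add, map_smul, ContinuousLinearMap.add_apply, ContinuousLinearMap.smul_apply,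
      D.mm_self, hm, smul_zero, add_zero]
  have h3 : D.mh (p ξ) σ = 0 := by
    rw [hp]
    simp only [map_add, map_smul, ContinuousLinearMap.add_apply, ContinuousLinearMap.smul_apply,
      D.mh_self, hh, smul_zero, add_zero]
  unfold P3 qq2
  rw [h1, h2, h3]
  simp only [map_zero, inner_zero_left, zero_div, zero_add, add_zero, zero_sub, inner_neg_left,
    inner_sub_left]
  ring

end G2F
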