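import Pool.Agent.HFinG.I
import Pool.Agent.HFinG.Model

/-!
# `G₂/SU(2)` (long root): bracket data

`ℝ⁷ = Im ℍ ⊕ ℍ` (coordinates `0,1,2` and `3,4,5,6`).  `V11 = 𝔪`, `x = (p; s; t)`, `p = (x₀,x₁,x₂)`,
`s = (x₃,..,x₆) ∈ ℍ`, `t = (x₇,..,x₁₀) ∈ ℍ`.  With `k = 1/√3` put `X₁ = 2k t j`, `X₂ = s + k t i`,
`X₃ = s i + k t` (so `X₁ i + X₂ j + X₃ k = 0`).  `iota x` is the derivation of the octonions
`a ↦ [k p, a] + (∑ aᵢ Xᵢ) ℓ` (`a ∈ Im ℍ`), `b ℓ ↦ -∑ ⟨b, Xᵢ⟩ eᵢ - (b k p) ℓ`; `hat A : b ℓ ↦ (A b) ℓ`.
The inner products are `-¼ tr`.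
-/

namespace G2F

set_option linter.unusedSimpArgs false

open HFinG
open scoped ContDiff RealInnerProductSpace

/-- `𝔪` -/
abbrev V11 := EuclideanSpace ℝ (Fin 11)
/-- `𝔥 = 𝔰𝔲(2)` -/
abbrev E3 := EuclideanSpace ℝ (Fin 3)
/-- `ℝ⁷` -/
abbrev E7 := EuclideanSpace ℝ (Fin 7)

/-- `1/√3` -/
noncomputable def k : ℝ := (Real.sqrt 3)⁻¹

lemma k_pos : 0 < k := by unfold k; positivity

lemma k_sq : k * k = 1 / 3 := by
  unfold k
  rw [← mul_inv, Real.mul_self_sqrt (by norm_num)]
  norm_num

lemma k_sq' : k ^ 2 = 1 / 3 := by rw [pow_two, k_sq]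

/-- `x_i y_j - x_j y_i` -/
def w {n : ℕ} (x y : EuclideanSpace ℝ (Fin n)) (i j : Fin n) : ℝ := x i * y j - x j * y i

/-- component 0 of `[x, y]_𝔪` -/
noncomputable def mm0 (x y : V11) : ℝ :=
  2 * k * w x y 1 2 - 3 * k * w x y 3 4 + 3 * k * w x y 5 6 + k * w x y 7 8 - k * w x y 9 10

/-- component 1 of `[x, y]_𝔪` -/
noncomputable def mm1 (x y : V11) : ℝ :=
  -(2 * k * w x y 0 2) - w x y 3 10 + w x y 4 9 - w x y 5 8 + w x y 6 7 - 2 * k * w x y 7 9
    - 2 * k * w x y 8 10

/-- component 2 of `[x, y]_𝔪` -/
noncomputable def mm2 (x y : V11) : ℝ :=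
  2 * k * w x y 0 1 + w x y 3 9 + w x y 4 10 - w x y 5 7 - w x y 6 8 + 2 * k * w x y 7 10
    - 2 * k * w x y 8 9

/-- component 3 of `[x, y]_𝔪` -/
noncomputable def mm3 (x y : V11) : ℝ :=
  3 * k * w x y 0 4 + w x y 1 10 - w x y 2 9

/-- component 4 of `[x, y]_𝔪` -/
noncomputable def mm4 (x y : V11) : ℝ :=
  -(3 * k * w x y 0 3) - w x y 1 9 - w x y 2 10

/-- component 5 of `[x, y]_𝔪` -/
noncomputable def mm5 (x y : V11) : ℝ :=
  -(3 * k * w x y 0 6) + w x y 1 8 + w x y 2 7

/-- component 6 of `[x, y]_𝔪` -/
noncomputable def mm6 (x y : V11) : ℝ :=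
  3 * k * w x y 0 5 - w x y 1 7 + w x y 2 8

/-- component 7 of `[x, y]_𝔪` -/
noncomputable def mm7 (x y : V11) : ℝ :=
  -(k * w x y 0 8) + w x y 1 6 + 2 * k * w x y 1 9 - w x y 2 5 - 2 * k * w x y 2 10

/-- component 8 of `[x, y]_𝔪` -/
noncomputable def mm8 (x y : V11) : ℝ :=
  k * w x y 0 7 - w x y 1 5 + 2 * k * w x y 1 10 - w x y 2 6 + 2 * k * w x y 2 9

/-- component 9 of `[x, y]_𝔪` -/
noncomputable def mm9 (x y : V11) : ℝ :=
  k * w x y 0 10 + w x y 1 4 - 2 * k * w x y 1 7 + w x y 2 3 - 2 * k * w x y 2 8

/-- component 10 of `[x, y]_𝔪` -/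
noncomputable def mm10 (x y : V11) : ℝ :=
  -(k * w x y 0 9) - w x y 1 3 - 2 * k * w x y 1 8 + w x y 2 4 + 2 * k * w x y 2 7

/-- component 0 of `[x, y]_𝔥` -/
noncomputable def mh0 (x y : V11) : ℝ :=
  w x y 3 4 + w x y 5 6 + w x y 7 8 + w x y 9 10

/-- component 1 of `[x, y]_𝔥` -/
noncomputable def mh1 (x y : V11) : ℝ :=
  w x y 3 5 - w x y 4 6 + w x y 7 9 - w x y 8 10

/-- component 2 of `[x, y]_𝔥` -/
noncomputable def mh2 (x y : V11) : ℝ :=
  w x y 3 6 + w x y 4 5 + w x y 7 10 + w x y 8 9

/-- component 3 of `[A, x]` -/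
noncomputable def ac3 (A : E3) (x : V11) : ℝ :=
  -(A 0 * x 4) - A 1 * x 5 - A 2 * x 6

/-- component 4 of `[A, x]` -/
noncomputable def ac4 (A : E3) (x : V11) : ℝ :=
  A 0 * x 3 + A 1 * x 6 - A 2 * x 5

/-- component 5 of `[A, x]` -/
noncomputable def ac5 (A : E3) (x : V11) : ℝ :=
  -(A 0 * x 6) + A 1 * x 3 + A 2 * x 4

/-- component 6 of `[A, x]` -/
noncomputable def ac6 (A : E3) (x : V11) : ℝ :=
  A 0 * x 5 - A 1 * x 4 + A 2 * x 3

/-- component 7 of `[A, x]` -/
noncomputable def ac7 (A : E3) (x : V11) : ℝ :=
  -(A 0 * x 8) - A 1 * x 9 - A 2 * x 10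

/-- component 8 of `[A, x]` -/
noncomputable def ac8 (A : E3) (x : V11) : ℝ :=
  A 0 * x 7 + A 1 * x 10 - A 2 * x 9

/-- component 9 of `[A, x]` -/
noncomputable def ac9 (A : E3) (x : V11) : ℝ :=
  -(A 0 * x 10) + A 1 * x 7 + A 2 * x 8

/-- component 10 of `[A, x]` -/
noncomputable def ac10 (A : E3) (x : V11) : ℝ :=
  A 0 * x 9 - A 1 * x 8 + A 2 * x 7

/-- `[x, y]_𝔪` -/
noncomputable def mmF (x y : V11) : V11 :=
  !₂[mm0 x y, mm1 x y, mm2 x y, mm3 x y, mm4 x y, mm5 x y, mm6 x y, mm7 x y, mm8 x y, mm9 x y, mm10 x y]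

/-- `[x, y]_𝔥` -/
noncomputable def mhF (x y : V11) : E3 := !₂[mh0 x y, mh1 x y, mh2 x y]

/-- `[A, x]` -/
noncomputable def actF (A : E3) (x : V11) : V11 :=
  !₂[0, 0, 0, ac3 A x, ac4 A x, ac5 A x, ac6 A x, ac7 A x, ac8 A x, ac9 A x, ac10 A x]

lemma mmF_0 (x y : V11) : mmF x y 0 = mm0 x y := rfl
lemma mmF_1 (x y : V11) : mmF x y 1 = mm1 x y := rfl
lemma mmF_2 (x y : V11) : mmF x y 2 = mm2 x y := rfl
lemma mmF_3 (x y : V11) : mmF x y 3 = mm3 x y := rfl
lemma mmF_4 (x y : V11) : mmF x y 4 = mm4 x y := rfl
lemma mmF_5 (x y : V11) : mmF x y 5 = mm5 x y := rfl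
lemma mmF_6 (x y : V11) : mmF x y 6 = mm6 x y := rfl
lemma mmF_7 (x y : V11) : mmF x y 7 = mm7 x y := rfl
lemma mmF_8 (x y : V11) : mmF x y 8 = mm8 x y := rfl
lemma mmF_9 (x y : V11) : mmF x y 9 = mm9 x y := rfl
lemma mmF_10 (x y : V11) : mmF x y 10 = mm10 x y := rfl
lemma mhF_0 (x y : V11) : mhF x y 0 = mh0 x y := rfl
lemma mhF_1 (x y : V11) : mhF x y 1 = mh1 x y := rfl
lemma mhF_2 (x y : V11) : mhF x y 2 = mh2 x y := rfl
lemma actF_0 (A : E3) (x : V11) : actF A x 0 = 0 := rfl
lemma actF_1 (A : E3) (x : V11) : actF A x 1 = 0 := rfl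
lemma actF_2 (A : E3) (x : V11) : actF A x 2 = 0 := rfl
lemma actF_3 (A : E3) (x : V11) : actF A x 3 = ac3 A x := rfl
lemma actF_4 (A : E3) (x : V11) : actF A x 4 = ac4 A x := rfl
lemma actF_5 (A : E3) (x : V11) : actF A x 5 = ac5 A x := rfl
lemma actF_6 (A : E3) (x : V11) : actF A x 6 = ac6 A x := rfl
lemma actF_7 (A : E3) (x : V11) : actF A x 7 = ac7 A x := rfl
lemma actF_8 (A : E3) (x : V11) : actF A x 8 = ac8 A x := rfl
lemma actF_9 (A : E3) (x : V11) : actF A x 9 = ac9 A x := rfl
lemma actF_10 (A : E3) (x : V11) : actF A x 10 = ac10 A x := rfl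

/-- The bracket data of `G₂/SU(2)`. -/
noncomputable def g2 : RedData V11 E3 where
  mm := toCB (LinearMap.mk₂ ℝ mmF
    (by
      intro x x' y
      ext i
      fin_cases i
      · change mm0 (x + x') y = mm0 x y + mm0 x' y
        simp only [mm0, w, PiLp.add_apply]
        ring
      · change mm1 (x + x') y = mm1 x y + mm1 x' y
        simp only [mm1, w, PiLp.add_apply]
        ring
      · change mm2 (x + x') y = mm2 x y + mm2 x' y
        simp only [mm2, w, PiLp.add_apply]
        ring
      · change mm3 (x + x') y = mm3 x y + mm3 x' y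
        simp only [mm3, w, PiLp.add_apply]
        ring
      · change mm4 (x + x') y = mm4 x y + mm4 x' y
        simp only [mm4, w, PiLp.add_apply]
        ring
      · change mm5 (x + x') y = mm5 x y + mm5 x' y
        simp only [mm5, w, PiLp.add_apply]
        ring
      · change mm6 (x + x') y = mm6 x y + mm6 x' y
        simp only [mm6, w, PiLp.add_apply]
        ring
      · change mm7 (x + x') y = mm7 x y + mm7 x' y
        simp only [mm7, w, PiLp.add_apply]
        ring
      · change mm8 (x + x') y = mm8 x y + mm8 x' y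
        simp only [mm8, w, PiLp.add_apply]
        ring
      · change mm9 (x + x') y = mm9 x y + mm9 x' y
        simp only [mm9, w, PiLp.add_apply]
        ring
      · change mm10 (x + x') y = mm10 x y + mm10 x' y
        simp only [mm10, w, PiLp.add_apply]
        ring)
    (by
      intro c x y
      ext i
      fin_cases i
      · change mm0 (c • x) y = c * mm0 x y
        simp only [mm0, w, PiLp.smul_apply, smul_eq_mul]
        ring
      · change mm1 (c • x) y = c * mm1 x y
        simp only [mm1, w, PiLp.smul_apply, smul_eq_mul]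
        ring
      · change mm2 (c • x) y = c * mm2 x y
        simp only [mm2, w, PiLp.smul_apply, smul_eq_mul]
        ring
      · change mm3 (c • x) y = c * mm3 x y
        simp only [mm3, w, PiLp.smul_apply, smul_eq_mul]
        ring
      · change mm4 (c • x) y = c * mm4 x y
        simp only [mm4, w, PiLp.smul_apply, smul_eq_mul]
        ring
      · change mm5 (c • x) y = c * mm5 x y
        simp only [mm5, w, PiLp.smul_apply, smul_eq_mul]
        ring
      · change mm6 (c • x) y = c * mm6 x y
        simp only [mm6, w, PiLp.smul_apply, smul_eq_mul]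
        ring
      · change mm7 (c • x) y = c * mm7 x y
        simp only [mm7, w, PiLp.smul_apply, smul_eq_mul]
        ring
      · change mm8 (c • x) y = c * mm8 x y
        simp only [mm8, w, PiLp.smul_apply, smul_eq_mul]
        ring
      · change mm9 (c • x) y = c * mm9 x y
        simp only [mm9, w, PiLp.smul_apply, smul_eq_mul]
        ring
      · change mm10 (c • x) y = c * mm10 x y
        simp only [mm10, w, PiLp.smul_apply, smul_eq_mul]
        ring)
    (by
      intro x y y'
      ext i
      fin_cases i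
      · change mm0 x (y + y') = mm0 x y + mm0 x y'
        simp only [mm0, w, PiLp.add_apply]
        ring
      · change mm1 x (y + y') = mm1 x y + mm1 x y'
        simp only [mm1, w, PiLp.add_apply]
        ring
      · change mm2 x (y + y') = mm2 x y + mm2 x y'
        simp only [mm2, w, PiLp.add_apply]
        ring
      · change mm3 x (y + y') = mm3 x y + mm3 x y'
        simp only [mm3, w, PiLp.add_apply]
        ring
      · change mm4 x (y + y') = mm4 x y + mm4 x y'
        simp only [mm4, w, PiLp.add_apply]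
        ring
      · change mm5 x (y + y') = mm5 x y + mm5 x y'
        simp only [mm5, w, PiLp.add_apply]
        ring
      · change mm6 x (y + y') = mm6 x y + mm6 x y'
        simp only [mm6, w, PiLp.add_apply]
        ring
      · change mm7 x (y + y') = mm7 x y + mm7 x y'
        simp only [mm7, w, PiLp.add_apply]
        ring
      · change mm8 x (y + y') = mm8 x y + mm8 x y'
        simp only [mm8, w, PiLp.add_apply]
        ring
      · change mm9 x (y + y') = mm9 x y + mm9 x y'
        simp only [mm9, w, PiLp.add_apply]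
        ring
      · change mm10 x (y + y') = mm10 x y + mm10 x y'
        simp only [mm10, w, PiLp.add_apply]
        ring)
    (by
      intro c x y
      ext i
      fin_cases i
      · change mm0 x (c • y) = c * mm0 x y
        simp only [mm0, w, PiLp.smul_apply, smul_eq_mul]
        ring
      · change mm1 x (c • y) = c * mm1 x y
        simp only [mm1, w, PiLp.smul_apply, smul_eq_mul]
        ring
      · change mm2 x (c • y) = c * mm2 x y
        simp only [mm2, w, PiLp.smul_apply, smul_eq_mul]
        ring
      · change mm3 x (c • y) = c * mm3 x y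
        simp only [mm3, w, PiLp.smul_apply, smul_eq_mul]
        ring
      · change mm4 x (c • y) = c * mm4 x y
        simp only [mm4, w, PiLp.smul_apply, smul_eq_mul]
        ring
      · change mm5 x (c • y) = c * mm5 x y
        simp only [mm5, w, PiLp.smul_apply, smul_eq_mul]
        ring
      · change mm6 x (c • y) = c * mm6 x y
        simp only [mm6, w, PiLp.smul_apply, smul_eq_mul]
        ring
      · change mm7 x (c • y) = c * mm7 x y
        simp only [mm7, w, PiLp.smul_apply, smul_eq_mul]
        ring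
      · change mm8 x (c • y) = c * mm8 x y
        simp only [mm8, w, PiLp.smul_apply, smul_eq_mul]
        ring
      · change mm9 x (c • y) = c * mm9 x y
        simp only [mm9, w, PiLp.smul_apply, smul_eq_mul]
        ring
      · change mm10 x (c • y) = c * mm10 x y
        simp only [mm10, w, PiLp.smul_apply, smul_eq_mul]
        ring))
  mh := toCB (LinearMap.mk₂ ℝ mhF
    (by
      intro x x' y
      ext i
      fin_cases i
      · change mh0 (x + x') y = mh0 x y + mh0 x' y
        simp only [mh0, w, PiLp.add_apply]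
        ring
      · change mh1 (x + x') y = mh1 x y + mh1 x' y
        simp only [mh1, w, PiLp.add_apply]
        ring
      · change mh2 (x + x') y = mh2 x y + mh2 x' y
        simp only [mh2, w, PiLp.add_apply]
        ring)
    (by
      intro c x y
      ext i
      fin_cases i
      · change mh0 (c • x) y = c * mh0 x y
        simp only [mh0, w, PiLp.smul_apply, smul_eq_mul]
        ring
      · change mh1 (c • x) y = c * mh1 x y
        simp only [mh1, w, PiLp.smul_apply, smul_eq_mul]
        ring
      · change mh2 (c • x) y = c * mh2 x y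
        simp only [mh2, w, PiLp.smul_apply, smul_eq_mul]
        ring)
    (by
      intro x y y'
      ext i
      fin_cases i
      · change mh0 x (y + y') = mh0 x y + mh0 x y'
        simp only [mh0, w, PiLp.add_apply]
        ring
      · change mh1 x (y + y') = mh1 x y + mh1 x y'
        simp only [mh1, w, PiLp.add_apply]
        ring
      · change mh2 x (y + y') = mh2 x y + mh2 x y'
        simp only [mh2, w, PiLp.add_apply]
        ring)
    (by
      intro c x y
      ext i
      fin_cases i
      · change mh0 x (c • y) = c * mh0 x y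
        simp only [mh0, w, PiLp.smul_apply, smul_eq_mul]
        ring
      · change mh1 x (c • y) = c * mh1 x y
        simp only [mh1, w, PiLp.smul_apply, smul_eq_mul]
        ring
      · change mh2 x (c • y) = c * mh2 x y
        simp only [mh2, w, PiLp.smul_apply, smul_eq_mul]
        ring))
  act := toCB (LinearMap.mk₂ ℝ actF
    (by
      intro A A' x
      ext i
      fin_cases i
      · change (0 : ℝ) = 0 + 0
        ring
      · change (0 : ℝ) = 0 + 0
        ring
      · change (0 : ℝ) = 0 + 0
        ring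
      · change ac3 (A + A') x = ac3 A x + ac3 A' x
        simp only [ac3, w, PiLp.add_apply]
        ring
      · change ac4 (A + A') x = ac4 A x + ac4 A' x
        simp only [ac4, w, PiLp.add_apply]
        ring
      · change ac5 (A + A') x = ac5 A x + ac5 A' x
        simp only [ac5, w, PiLp.add_apply]
        ring
      · change ac6 (A + A') x = ac6 A x + ac6 A' x
        simp only [ac6, w, PiLp.add_apply]
        ring
      · change ac7 (A + A') x = ac7 A x + ac7 A' x
        simp only [ac7, w, PiLp.add_apply]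
        ring
      · change ac8 (A + A') x = ac8 A x + ac8 A' x
        simp only [ac8, w, PiLp.add_apply]
        ring
      · change ac9 (A + A') x = ac9 A x + ac9 A' x
        simp only [ac9, w, PiLp.add_apply]
        ring
      · change ac10 (A + A') x = ac10 A x + ac10 A' x
        simp only [ac10, w, PiLp.add_apply]
        ring)
    (by
      intro c A x
      ext i
      fin_cases i
      · change (0 : ℝ) = c * 0
        ring
      · change (0 : ℝ) = c * 0
        ring
      · change (0 : ℝ) = c * 0
        ring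
      · change ac3 (c • A) x = c * ac3 A x
        simp only [ac3, w, PiLp.smul_apply, smul_eq_mul]
        ring
      · change ac4 (c • A) x = c * ac4 A x
        simp only [ac4, w, PiLp.smul_apply, smul_eq_mul]
        ring
      · change ac5 (c • A) x = c * ac5 A x
        simp only [ac5, w, PiLp.smul_apply, smul_eq_mul]
        ring
      · change ac6 (c • A) x = c * ac6 A x
        simp only [ac6, w, PiLp.smul_apply, smul_eq_mul]
        ring
      · change ac7 (c • A) x = c * ac7 A x
        simp only [ac7, w, PiLp.smul_apply, smul_eq_mul]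
        ring
      · change ac8 (c • A) x = c * ac8 A x
        simp only [ac8, w, PiLp.smul_apply, smul_eq_mul]
        ring
      · change ac9 (c • A) x = c * ac9 A x
        simp only [ac9, w, PiLp.smul_apply, smul_eq_mul]
        ring
      · change ac10 (c • A) x = c * ac10 A x
        simp only [ac10, w, PiLp.smul_apply, smul_eq_mul]
        ring)
    (by
      intro A x x'
      ext i
      fin_cases i
      · change (0 : ℝ) = 0 + 0
        ring
      · change (0 : ℝ) = 0 + 0
        ring
      · change (0 : ℝ) = 0 + 0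
        ring
      · change ac3 A (x + x') = ac3 A x + ac3 A x'
        simp only [ac3, w, PiLp.add_apply]
        ring
      · change ac4 A (x + x') = ac4 A x + ac4 A x'
        simp only [ac4, w, PiLp.add_apply]
        ring
      · change ac5 A (x + x') = ac5 A x + ac5 A x'
        simp only [ac5, w, PiLp.add_apply]
        ring
      · change ac6 A (x + x') = ac6 A x + ac6 A x'
        simp only [ac6, w, PiLp.add_apply]
        ring
      · change ac7 A (x + x') = ac7 A x + ac7 A x'
        simp only [ac7, w, PiLp.add_apply]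
        ring
      · change ac8 A (x + x') = ac8 A x + ac8 A x'
        simp only [ac8, w, PiLp.add_apply]
        ring
      · change ac9 A (x + x') = ac9 A x + ac9 A x'
        simp only [ac9, w, PiLp.add_apply]
        ring
      · change ac10 A (x + x') = ac10 A x + ac10 A x'
        simp only [ac10, w, PiLp.add_apply]
        ring)
    (by
      intro c A x
      ext i
      fin_cases i
      · change (0 : ℝ) = c * 0
        ring
      · change (0 : ℝ) = c * 0
        ring
      · change (0 : ℝ) = c * 0
        ring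
      · change ac3 A (c • x) = c * ac3 A x
        simp only [ac3, w, PiLp.smul_apply, smul_eq_mul]
        ring
      · change ac4 A (c • x) = c * ac4 A x
        simp only [ac4, w, PiLp.smul_apply, smul_eq_mul]
        ring
      · change ac5 A (c • x) = c * ac5 A x
        simp only [ac5, w, PiLp.smul_apply, smul_eq_mul]
        ring
      · change ac6 A (c • x) = c * ac6 A x
        simp only [ac6, w, PiLp.smul_apply, smul_eq_mul]
        ring
      · change ac7 A (c • x) = c * ac7 A x
        simp only [ac7, w, PiLp.smul_apply, smul_eq_mul]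
        ring
      · change ac8 A (c • x) = c * ac8 A x
        simp only [ac8, w, PiLp.smul_apply, smul_eq_mul]
        ring
      · change ac9 A (c • x) = c * ac9 A x
        simp only [ac9, w, PiLp.smul_apply, smul_eq_mul]
        ring
      · change ac10 A (c • x) = c * ac10 A x
        simp only [ac10, w, PiLp.smul_apply, smul_eq_mul]
        ring))
  mm_self := by
    intro x
    change mmF x x = 0
    ext i
    fin_cases i
    · change mm0 x x = 0
      simp only [mm0, w]
      ring
    · change mm1 x x = 0
      simp only [mm1, w]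
      ring
    · change mm2 x x = 0
      simp only [mm2, w]
      ring
    · change mm3 x x = 0
      simp only [mm3, w]
      ring
    · change mm4 x x = 0
      simp only [mm4, w]
      ring
    · change mm5 x x = 0
      simp only [mm5, w]
      ring
    · change mm6 x x = 0
      simp only [mm6, w]
      ring
    · change mm7 x x = 0
      simp only [mm7, w]
      ring
    · change mm8 x x = 0
      simp only [mm8, w]
      ring
    · change mm9 x x = 0
      simp only [mm9, w]
      ring
    · change mm10 x x = 0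
      simp only [mm10, w]
      ring
  mh_self := by
    intro x
    change mhF x x = 0
    ext i
    fin_cases i
    · change mh0 x x = 0
      simp only [mh0, w]
      ring
    · change mh1 x x = 0
      simp only [mh1, w]
      ring
    · change mh2 x x = 0
      simp only [mh2, w]
      ring

lemma g2_mm (x y : V11) : g2.mm x y = mmF x y := rfl
lemma g2_mh (x y : V11) : g2.mh x y = mhF x y := rfl
lemma g2_act (A : E3) (x : V11) : g2.act A x = actF A x := rfl

lemma inner11 (x y : V11) : ⟪x, y⟫ = x 0 * y 0 + x 1 * y 1 + x 2 * y 2 + x 3 * y 3 + x 4 * y 4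
    + x 5 * y 5 + x 6 * y 6 + x 7 * y 7 + x 8 * y 8 + x 9 * y 9 + x 10 * y 10 := by
  rw [PiLp.inner_apply]
  simp only [Fin.sum_univ_succ, Fin.sum_univ_zero]
  change y 0 * x 0 + (y 1 * x 1 + (y 2 * x 2 + (y 3 * x 3 + (y 4 * x 4 + (y 5 * x 5 + (y 6 * x 6 +
    (y 7 * x 7 + (y 8 * x 8 + (y 9 * x 9 + (y 10 * x 10 + 0)))))))))) = _
  ring

lemma inner3 (x y : E3) : ⟪x, y⟫ = x 0 * y 0 + x 1 * y 1 + x 2 * y 2 := by
  rw [PiLp.inner_apply]
  simp only [Fin.sum_univ_succ, Fin.sum_univ_zero]
  change y 0 * x 0 + (y 1 * x 1 + (y 2 * x 2 + 0)) = _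
  ring

end G2F
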