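import Pool.Agent.G2F.Defs

/-!
# `G₂/SU(2)`: matrices and the perturbation

`iota x`, `hat A` are the `7 × 7` skew matrices of the derivations of the octonions, `Lm x` is the lower
left `4 × 3` block of `iota x` (its columns are `X₁, X₂, X₃`), `Tm x y = LᵀM + MᵀL` for `L = Lm x`,
`M = Lm y` (so `Tm x x = 2 LᵀL`).
-/

namespace G2F

open HFinG
open scoped RealInnerProductSpace Matrix

/-- the derivation of the octonions given by `x ∈ 𝔪` -/
noncomputable def iota (x : V11) : Matrix (Fin 7) (Fin 7) ℝ :=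
  !![0, -(2 * k * x 2), 2 * k * x 1, 2 * k * x 9, 2 * k * x 10, -(2 * k * x 7), -(2 * k * x 8);
    2 * k * x 2, 0, -(2 * k * x 0), -x 3 + k * x 8, -x 4 - k * x 7, -x 5 - k * x 10, -x 6 + k * x 9;
    -(2 * k * x 1), 2 * k * x 0, 0, x 4 - k * x 7, -x 3 - k * x 8, -x 6 - k * x 9, x 5 - k * x 10;
    -(2 * k * x 9), x 3 - k * x 8, -x 4 + k * x 7, 0, k * x 0, k * x 1, k * x 2;
    -(2 * k * x 10), x 4 + k * x 7, x 3 + k * x 8, -(k * x 0), 0, -(k * x 2), k * x 1;
    2 * k * x 7, x 5 + k * x 10, x 6 + k * x 9, -(k * x 1), k * x 2, 0, -(k * x 0);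
    2 * k * x 8, x 6 - k * x 9, -x 5 + k * x 10, -(k * x 2), -(k * x 1), k * x 0, 0]

/-- the derivation of the octonions given by `A ∈ 𝔥` -/
noncomputable def hat (A : E3) : Matrix (Fin 7) (Fin 7) ℝ :=
  !![0, 0, 0, 0, 0, 0, 0;
    0, 0, 0, 0, 0, 0, 0;
    0, 0, 0, 0, 0, 0, 0;
    0, 0, 0, 0, -A 0, -A 1, -A 2;
    0, 0, 0, A 0, 0, -A 2, A 1;
    0, 0, 0, A 1, A 2, 0, -A 0;
    0, 0, 0, A 2, -A 1, A 0, 0]

/-- the lower left block of `iota x` -/
noncomputable def Lm (x : V11) : Matrix (Fin 4) (Fin 3) ℝ :=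
  !![-(2 * k * x 9), x 3 - k * x 8, -x 4 + k * x 7;
    -(2 * k * x 10), x 4 + k * x 7, x 3 + k * x 8;
    2 * k * x 7, x 5 + k * x 10, x 6 + k * x 9;
    2 * k * x 8, x 6 - k * x 9, -x 5 + k * x 10]

/-- `LᵀM + MᵀL`, `L = Lm x`, `M = Lm y` -/
noncomputable def Tm (x y : V11) : Matrix (Fin 3) (Fin 3) ℝ := (Lm x)ᵀ * Lm y + (Lm y)ᵀ * Lm x

lemma mul7 (A B : Matrix (Fin 7) (Fin 7) ℝ) (i j : Fin 7) : (A * B) i j =
    A i 0 * B 0 j + A i 1 * B 1 j + A i 2 * B 2 j + A i 3 * B 3 j + A i 4 * B 4 j + A i 5 * B 5 j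
      + A i 6 * B 6 j := by
  rw [Matrix.mul_apply, Fin.sum_univ_seven]

lemma mul3 (A B : Matrix (Fin 3) (Fin 3) ℝ) (i j : Fin 3) : (A * B) i j =
    A i 0 * B 0 j + A i 1 * B 1 j + A i 2 * B 2 j := by
  rw [Matrix.mul_apply, Fin.sum_univ_three]

lemma mulT4 (A B : Matrix (Fin 4) (Fin 3) ℝ) (i j : Fin 3) : (Aᵀ * B) i j =
    A 0 i * B 0 j + A 1 i * B 1 j + A 2 i * B 2 j + A 3 i * B 3 j := by
  rw [Matrix.mul_apply, Fin.sum_univ_four]
  rfl

/-- the projection to the first three coordinates -/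
noncomputable def P0 : V11 →L[ℝ] V11 := LinearMap.toContinuousLinearMap
  { toFun := fun x => !₂[x 0, x 1, x 2, 0, 0, 0, 0, 0, 0, 0, 0]
    map_add' := by
      intro x y
      ext i
      fin_cases i
      · change (x + y) 0 = (x 0) + (y 0)
        simp only [PiLp.add_apply]
        try ring
      · change (x + y) 1 = (x 1) + (y 1)
        simp only [PiLp.add_apply]
        try ring
      · change (x + y) 2 = (x 2) + (y 2)
        simp only [PiLp.add_apply]
        try ring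
      · change (0 : ℝ) = 0 + 0
        ring
      · change (0 : ℝ) = 0 + 0
        ring
      · change (0 : ℝ) = 0 + 0
        ring
      · change (0 : ℝ) = 0 + 0
        ring
      · change (0 : ℝ) = 0 + 0
        ring
      · change (0 : ℝ) = 0 + 0
        ring
      · change (0 : ℝ) = 0 + 0
        ring
      · change (0 : ℝ) = 0 + 0
        ring
    map_smul' := by
      intro c x
      ext i
      fin_cases i
      · change (c • x) 0 = c * (x 0)
        simp only [PiLp.smul_apply, smul_eq_mul]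
        try ring
      · change (c • x) 1 = c * (x 1)
        simp only [PiLp.smul_apply, smul_eq_mul]
        try ring
      · change (c • x) 2 = c * (x 2)
        simp only [PiLp.smul_apply, smul_eq_mul]
        try ring
      · change (0 : ℝ) = c * 0
        ring
      · change (0 : ℝ) = c * 0
        ring
      · change (0 : ℝ) = c * 0
        ring
      · change (0 : ℝ) = c * 0
        ring
      · change (0 : ℝ) = c * 0
        ring
      · change (0 : ℝ) = c * 0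
        ring
      · change (0 : ℝ) = c * 0
        ring
      · change (0 : ℝ) = c * 0
        ring }

lemma P0_0 (x : V11) : P0 x 0 = x 0 := rfl
lemma P0_1 (x : V11) : P0 x 1 = x 1 := rfl
lemma P0_2 (x : V11) : P0 x 2 = x 2 := rfl
lemma P0_3 (x : V11) : P0 x 3 = 0 := rfl
lemma P0_4 (x : V11) : P0 x 4 = 0 := rfl
lemma P0_5 (x : V11) : P0 x 5 = 0 := rfl
lemma P0_6 (x : V11) : P0 x 6 = 0 := rfl
lemma P0_7 (x : V11) : P0 x 7 = 0 := rfl
lemma P0_8 (x : V11) : P0 x 8 = 0 := rfl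
lemma P0_9 (x : V11) : P0 x 9 = 0 := rfl
lemma P0_10 (x : V11) : P0 x 10 = 0 := rfl

/-- `⟪M1 x, x⟫ = 2 (T₁₁ - T₃₃)`, `T = LᵀL`, `L = Lm x` -/
noncomputable def M1 : V11 →L[ℝ] V11 := LinearMap.toContinuousLinearMap
  { toFun := fun x => !₂[0, 0, 0, -(2 * x 3) - 2 * k * x 8, -(2 * x 4) + 2 * k * x 7, -(2 * x 5) + 2 * k * x 10, -(2 * x 6) - 2 * k * x 9, 2 * x 7 + 2 * k * x 4, 2 * x 8 - 2 * k * x 3, 2 * x 9 - 2 * k * x 6, 2 * x 10 + 2 * k * x 5]
    map_add' := by
      intro x y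
      ext i
      fin_cases i
      · change (0 : ℝ) = 0 + 0
        ring
      · change (0 : ℝ) = 0 + 0
        ring
      · change (0 : ℝ) = 0 + 0
        ring
      · change -(2 * (x + y) 3) - 2 * k * (x + y) 8 = (-(2 * x 3) - 2 * k * x 8) + (-(2 * y 3) - 2 * k * y 8)
        simp only [PiLp.add_apply]
        try ring
      · change -(2 * (x + y) 4) + 2 * k * (x + y) 7 = (-(2 * x 4) + 2 * k * x 7) + (-(2 * y 4) + 2 * k * y 7)
        simp only [PiLp.add_apply]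
        try ring
      · change -(2 * (x + y) 5) + 2 * k * (x + y) 10 = (-(2 * x 5) + 2 * k * x 10) + (-(2 * y 5) + 2 * k * y 10)
        simp only [PiLp.add_apply]
        try ring
      · change -(2 * (x + y) 6) - 2 * k * (x + y) 9 = (-(2 * x 6) - 2 * k * x 9) + (-(2 * y 6) - 2 * k * y 9)
        simp only [PiLp.add_apply]
        try ring
      · change 2 * (x + y) 7 + 2 * k * (x + y) 4 = (2 * x 7 + 2 * k * x 4) + (2 * y 7 + 2 * k * y 4)
        simp only [PiLp.add_apply]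
        try ring
      · change 2 * (x + y) 8 - 2 * k * (x + y) 3 = (2 * x 8 - 2 * k * x 3) + (2 * y 8 - 2 * k * y 3)
        simp only [PiLp.add_apply]
        try ring
      · change 2 * (x + y) 9 - 2 * k * (x + y) 6 = (2 * x 9 - 2 * k * x 6) + (2 * y 9 - 2 * k * y 6)
        simp only [PiLp.add_apply]
        try ring
      · change 2 * (x + y) 10 + 2 * k * (x + y) 5 = (2 * x 10 + 2 * k * x 5) + (2 * y 10 + 2 * k * y 5)
        simp only [PiLp.add_apply]
        try ring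
    map_smul' := by
      intro c x
      ext i
      fin_cases i
      · change (0 : ℝ) = c * 0
        ring
      · change (0 : ℝ) = c * 0
        ring
      · change (0 : ℝ) = c * 0
        ring
      · change -(2 * (c • x) 3) - 2 * k * (c • x) 8 = c * (-(2 * x 3) - 2 * k * x 8)
        simp only [PiLp.smul_apply, smul_eq_mul]
        try ring
      · change -(2 * (c • x) 4) + 2 * k * (c • x) 7 = c * (-(2 * x 4) + 2 * k * x 7)
        simp only [PiLp.smul_apply, smul_eq_mul]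
        try ring
      · change -(2 * (c • x) 5) + 2 * k * (c • x) 10 = c * (-(2 * x 5) + 2 * k * x 10)
        simp only [PiLp.smul_apply, smul_eq_mul]
        try ring
      · change -(2 * (c • x) 6) - 2 * k * (c • x) 9 = c * (-(2 * x 6) - 2 * k * x 9)
        simp only [PiLp.smul_apply, smul_eq_mul]
        try ring
      · change 2 * (c • x) 7 + 2 * k * (c • x) 4 = c * (2 * x 7 + 2 * k * x 4)
        simp only [PiLp.smul_apply, smul_eq_mul]
        try ring
      · change 2 * (c • x) 8 - 2 * k * (c • x) 3 = c * (2 * x 8 - 2 * k * x 3)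
        simp only [PiLp.smul_apply, smul_eq_mul]
        try ring
      · change 2 * (c • x) 9 - 2 * k * (c • x) 6 = c * (2 * x 9 - 2 * k * x 6)
        simp only [PiLp.smul_apply, smul_eq_mul]
        try ring
      · change 2 * (c • x) 10 + 2 * k * (c • x) 5 = c * (2 * x 10 + 2 * k * x 5)
        simp only [PiLp.smul_apply, smul_eq_mul]
        try ring }

lemma M1_0 (x : V11) : M1 x 0 = 0 := rfl
lemma M1_1 (x : V11) : M1 x 1 = 0 := rfl
lemma M1_2 (x : V11) : M1 x 2 = 0 := rfl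
lemma M1_3 (x : V11) : M1 x 3 = -(2 * x 3) - 2 * k * x 8 := rfl
lemma M1_4 (x : V11) : M1 x 4 = -(2 * x 4) + 2 * k * x 7 := rfl
lemma M1_5 (x : V11) : M1 x 5 = -(2 * x 5) + 2 * k * x 10 := rfl
lemma M1_6 (x : V11) : M1 x 6 = -(2 * x 6) - 2 * k * x 9 := rfl
lemma M1_7 (x : V11) : M1 x 7 = 2 * x 7 + 2 * k * x 4 := rfl
lemma M1_8 (x : V11) : M1 x 8 = 2 * x 8 - 2 * k * x 3 := rfl
lemma M1_9 (x : V11) : M1 x 9 = 2 * x 9 - 2 * k * x 6 := rfl
lemma M1_10 (x : V11) : M1 x 10 = 2 * x 10 + 2 * k * x 5 := rfl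

/-- `⟪W1 x, x⟫ = (T v)₁`, `v = (1, 1, 1)` -/
noncomputable def W1 : V11 →L[ℝ] V11 := LinearMap.toContinuousLinearMap
  { toFun := fun x => !₂[0, 0, 0, k * (-x 9 - x 10), k * (x 9 - x 10), k * (x 7 - x 8), k * (x 7 + x 8), 4 / 3 * x 7 + k * (x 5 + x 6), 4 / 3 * x 8 - k * (x 5 - x 6), 4 / 3 * x 9 - k * (x 3 - x 4), 4 / 3 * x 10 - k * (x 3 + x 4)]
    map_add' := by
      intro x y
      ext i
      fin_cases i
      · change (0 : ℝ) = 0 + 0
        ring
      · change (0 : ℝ) = 0 + 0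
        ring
      · change (0 : ℝ) = 0 + 0
        ring
      · change k * (-(x + y) 9 - (x + y) 10) = (k * (-x 9 - x 10)) + (k * (-y 9 - y 10))
        simp only [PiLp.add_apply]
        try ring
      · change k * ((x + y) 9 - (x + y) 10) = (k * (x 9 - x 10)) + (k * (y 9 - y 10))
        simp only [PiLp.add_apply]
        try ring
      · change k * ((x + y) 7 - (x + y) 8) = (k * (x 7 - x 8)) + (k * (y 7 - y 8))
        simp only [PiLp.add_apply]
        try ring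
      · change k * ((x + y) 7 + (x + y) 8) = (k * (x 7 + x 8)) + (k * (y 7 + y 8))
        simp only [PiLp.add_apply]
        try ring
      · change 4 / 3 * (x + y) 7 + k * ((x + y) 5 + (x + y) 6) = (4 / 3 * x 7 + k * (x 5 + x 6)) + (4 / 3 * y 7 + k * (y 5 + y 6))
        simp only [PiLp.add_apply]
        try ring
      · change 4 / 3 * (x + y) 8 - k * ((x + y) 5 - (x + y) 6) = (4 / 3 * x 8 - k * (x 5 - x 6)) + (4 / 3 * y 8 - k * (y 5 - y 6))
        simp only [PiLp.add_apply]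
        try ring
      · change 4 / 3 * (x + y) 9 - k * ((x + y) 3 - (x + y) 4) = (4 / 3 * x 9 - k * (x 3 - x 4)) + (4 / 3 * y 9 - k * (y 3 - y 4))
        simp only [PiLp.add_apply]
        try ring
      · change 4 / 3 * (x + y) 10 - k * ((x + y) 3 + (x + y) 4) = (4 / 3 * x 10 - k * (x 3 + x 4)) + (4 / 3 * y 10 - k * (y 3 + y 4))
        simp only [PiLp.add_apply]
        try ring
    map_smul' := by
      intro c x
      ext i
      fin_cases i
      · change (0 : ℝ) = c * 0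
        ring
      · change (0 : ℝ) = c * 0
        ring
      · change (0 : ℝ) = c * 0
        ring
      · change k * (-(c • x) 9 - (c • x) 10) = c * (k * (-x 9 - x 10))
        simp only [PiLp.smul_apply, smul_eq_mul]
        try ring
      · change k * ((c • x) 9 - (c • x) 10) = c * (k * (x 9 - x 10))
        simp only [PiLp.smul_apply, smul_eq_mul]
        try ring
      · change k * ((c • x) 7 - (c • x) 8) = c * (k * (x 7 - x 8))
        simp only [PiLp.smul_apply, smul_eq_mul]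
        try ring
      · change k * ((c • x) 7 + (c • x) 8) = c * (k * (x 7 + x 8))
        simp only [PiLp.smul_apply, smul_eq_mul]
        try ring
      · change 4 / 3 * (c • x) 7 + k * ((c • x) 5 + (c • x) 6) = c * (4 / 3 * x 7 + k * (x 5 + x 6))
        simp only [PiLp.smul_apply, smul_eq_mul]
        try ring
      · change 4 / 3 * (c • x) 8 - k * ((c • x) 5 - (c • x) 6) = c * (4 / 3 * x 8 - k * (x 5 - x 6))
        simp only [PiLp.smul_apply, smul_eq_mul]
        try ring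
      · change 4 / 3 * (c • x) 9 - k * ((c • x) 3 - (c • x) 4) = c * (4 / 3 * x 9 - k * (x 3 - x 4))
        simp only [PiLp.smul_apply, smul_eq_mul]
        try ring
      · change 4 / 3 * (c • x) 10 - k * ((c • x) 3 + (c • x) 4) = c * (4 / 3 * x 10 - k * (x 3 + x 4))
        simp only [PiLp.smul_apply, smul_eq_mul]
        try ring }

lemma W1_0 (x : V11) : W1 x 0 = 0 := rfl
lemma W1_1 (x : V11) : W1 x 1 = 0 := rfl
lemma W1_2 (x : V11) : W1 x 2 = 0 := rfl
lemma W1_3 (x : V11) : W1 x 3 = k * (-x 9 - x 10) := rfl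
lemma W1_4 (x : V11) : W1 x 4 = k * (x 9 - x 10) := rfl
lemma W1_5 (x : V11) : W1 x 5 = k * (x 7 - x 8) := rfl
lemma W1_6 (x : V11) : W1 x 6 = k * (x 7 + x 8) := rfl
lemma W1_7 (x : V11) : W1 x 7 = 4 / 3 * x 7 + k * (x 5 + x 6) := rfl
lemma W1_8 (x : V11) : W1 x 8 = 4 / 3 * x 8 - k * (x 5 - x 6) := rfl
lemma W1_9 (x : V11) : W1 x 9 = 4 / 3 * x 9 - k * (x 3 - x 4) := rfl
lemma W1_10 (x : V11) : W1 x 10 = 4 / 3 * x 10 - k * (x 3 + x 4) := rfl

/-- `⟪W2 x, x⟫ = (T v)₂` -/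
noncomputable def W2 : V11 →L[ℝ] V11 := LinearMap.toContinuousLinearMap
  { toFun := fun x => !₂[0, 0, 0, x 3 + k * (x 7 - x 8 - x 9), x 4 + k * (x 7 + x 8 - x 10), x 5 + k * (x 7 + x 9 + x 10), x 6 + k * (x 8 - x 9 + x 10), x 7 / 3 + k * (x 3 + x 4 + x 5), x 8 / 3 + k * (-x 3 + x 4 + x 6), x 9 / 3 + k * (-x 3 + x 5 - x 6), x 10 / 3 + k * (-x 4 + x 5 + x 6)]
    map_add' := by
      intro x y
      ext i
      fin_cases i
      · change (0 : ℝ) = 0 + 0
        ring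
      · change (0 : ℝ) = 0 + 0
        ring
      · change (0 : ℝ) = 0 + 0
        ring
      · change (x + y) 3 + k * ((x + y) 7 - (x + y) 8 - (x + y) 9) = (x 3 + k * (x 7 - x 8 - x 9)) + (y 3 + k * (y 7 - y 8 - y 9))
        simp only [PiLp.add_apply]
        try ring
      · change (x + y) 4 + k * ((x + y) 7 + (x + y) 8 - (x + y) 10) = (x 4 + k * (x 7 + x 8 - x 10)) + (y 4 + k * (y 7 + y 8 - y 10))
        simp only [PiLp.add_apply]
        try ring
      · change (x + y) 5 + k * ((x + y) 7 + (x + y) 9 + (x + y) 10) = (x 5 + k * (x 7 + x 9 + x 10)) + (y 5 + k * (y 7 + y 9 + y 10))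
        simp only [PiLp.add_apply]
        try ring
      · change (x + y) 6 + k * ((x + y) 8 - (x + y) 9 + (x + y) 10) = (x 6 + k * (x 8 - x 9 + x 10)) + (y 6 + k * (y 8 - y 9 + y 10))
        simp only [PiLp.add_apply]
        try ring
      · change (x + y) 7 / 3 + k * ((x + y) 3 + (x + y) 4 + (x + y) 5) = (x 7 / 3 + k * (x 3 + x 4 + x 5)) + (y 7 / 3 + k * (y 3 + y 4 + y 5))
        simp only [PiLp.add_apply]
        try ring
      · change (x + y) 8 / 3 + k * (-(x + y) 3 + (x + y) 4 + (x + y) 6) = (x 8 / 3 + k * (-x 3 + x 4 + x 6)) + (y 8 / 3 + k * (-y 3 + y 4 + y 6))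
        simp only [PiLp.add_apply]
        try ring
      · change (x + y) 9 / 3 + k * (-(x + y) 3 + (x + y) 5 - (x + y) 6) = (x 9 / 3 + k * (-x 3 + x 5 - x 6)) + (y 9 / 3 + k * (-y 3 + y 5 - y 6))
        simp only [PiLp.add_apply]
        try ring
      · change (x + y) 10 / 3 + k * (-(x + y) 4 + (x + y) 5 + (x + y) 6) = (x 10 / 3 + k * (-x 4 + x 5 + x 6)) + (y 10 / 3 + k * (-y 4 + y 5 + y 6))
        simp only [PiLp.add_apply]
        try ring
    map_smul' := by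
      intro c x
      ext i
      fin_cases i
      · change (0 : ℝ) = c * 0
        ring
      · change (0 : ℝ) = c * 0
        ring
      · change (0 : ℝ) = c * 0
        ring
      · change (c • x) 3 + k * ((c • x) 7 - (c • x) 8 - (c • x) 9) = c * (x 3 + k * (x 7 - x 8 - x 9))
        simp only [PiLp.smul_apply, smul_eq_mul]
        try ring
      · change (c • x) 4 + k * ((c • x) 7 + (c • x) 8 - (c • x) 10) = c * (x 4 + k * (x 7 + x 8 - x 10))
        simp only [PiLp.smul_apply, smul_eq_mul]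
        try ring
      · change (c • x) 5 + k * ((c • x) 7 + (c • x) 9 + (c • x) 10) = c * (x 5 + k * (x 7 + x 9 + x 10))
        simp only [PiLp.smul_apply, smul_eq_mul]
        try ring
      · change (c • x) 6 + k * ((c • x) 8 - (c • x) 9 + (c • x) 10) = c * (x 6 + k * (x 8 - x 9 + x 10))
        simp only [PiLp.smul_apply, smul_eq_mul]
        try ring
      · change (c • x) 7 / 3 + k * ((c • x) 3 + (c • x) 4 + (c • x) 5) = c * (x 7 / 3 + k * (x 3 + x 4 + x 5))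
        simp only [PiLp.smul_apply, smul_eq_mul]
        try ring
      · change (c • x) 8 / 3 + k * (-(c • x) 3 + (c • x) 4 + (c • x) 6) = c * (x 8 / 3 + k * (-x 3 + x 4 + x 6))
        simp only [PiLp.smul_apply, smul_eq_mul]
        try ring
      · change (c • x) 9 / 3 + k * (-(c • x) 3 + (c • x) 5 - (c • x) 6) = c * (x 9 / 3 + k * (-x 3 + x 5 - x 6))
        simp only [PiLp.smul_apply, smul_eq_mul]
        try ring
      · change (c • x) 10 / 3 + k * (-(c • x) 4 + (c • x) 5 + (c • x) 6) = c * (x 10 / 3 + k * (-x 4 + x 5 + x 6))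
        simp only [PiLp.smul_apply, smul_eq_mul]
        try ring }

lemma W2_0 (x : V11) : W2 x 0 = 0 := rfl
lemma W2_1 (x : V11) : W2 x 1 = 0 := rfl
lemma W2_2 (x : V11) : W2 x 2 = 0 := rfl
lemma W2_3 (x : V11) : W2 x 3 = x 3 + k * (x 7 - x 8 - x 9) := rfl
lemma W2_4 (x : V11) : W2 x 4 = x 4 + k * (x 7 + x 8 - x 10) := rfl
lemma W2_5 (x : V11) : W2 x 5 = x 5 + k * (x 7 + x 9 + x 10) := rfl
lemma W2_6 (x : V11) : W2 x 6 = x 6 + k * (x 8 - x 9 + x 10) := rfl
lemma W2_7 (x : V11) : W2 x 7 = x 7 / 3 + k * (x 3 + x 4 + x 5) := rfl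
lemma W2_8 (x : V11) : W2 x 8 = x 8 / 3 + k * (-x 3 + x 4 + x 6) := rfl
lemma W2_9 (x : V11) : W2 x 9 = x 9 / 3 + k * (-x 3 + x 5 - x 6) := rfl
lemma W2_10 (x : V11) : W2 x 10 = x 10 / 3 + k * (-x 4 + x 5 + x 6) := rfl

/-- `⟪W3 x, x⟫ = (T v)₃` -/
noncomputable def W3 : V11 →L[ℝ] V11 := LinearMap.toContinuousLinearMap
  { toFun := fun x => !₂[0, 0, 0, x 3 + k * (x 7 + x 8 - x 10), x 4 + k * (-x 7 + x 8 + x 9), x 5 + k * (-x 8 + x 9 - x 10), x 6 + k * (x 7 + x 9 + x 10), x 7 / 3 + k * (x 3 - x 4 + x 6), x 8 / 3 + k * (x 3 + x 4 - x 5), x 9 / 3 + k * (x 4 + x 5 + x 6), x 10 / 3 + k * (-x 3 - x 5 + x 6)]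
    map_add' := by
      intro x y
      ext i
      fin_cases i
      · change (0 : ℝ) = 0 + 0
        ring
      · change (0 : ℝ) = 0 + 0
        ring
      · change (0 : ℝ) = 0 + 0
        ring
      · change (x + y) 3 + k * ((x + y) 7 + (x + y) 8 - (x + y) 10) = (x 3 + k * (x 7 + x 8 - x 10)) + (y 3 + k * (y 7 + y 8 - y 10))
        simp only [PiLp.add_apply]
        try ring
      · change (x + y) 4 + k * (-(x + y) 7 + (x + y) 8 + (x + y) 9) = (x 4 + k * (-x 7 + x 8 + x 9)) + (y 4 + k * (-y 7 + y 8 + y 9))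
        simp only [PiLp.add_apply]
        try ring
      · change (x + y) 5 + k * (-(x + y) 8 + (x + y) 9 - (x + y) 10) = (x 5 + k * (-x 8 + x 9 - x 10)) + (y 5 + k * (-y 8 + y 9 - y 10))
        simp only [PiLp.add_apply]
        try ring
      · change (x + y) 6 + k * ((x + y) 7 + (x + y) 9 + (x + y) 10) = (x 6 + k * (x 7 + x 9 + x 10)) + (y 6 + k * (y 7 + y 9 + y 10))
        simp only [PiLp.add_apply]
        try ring
      · change (x + y) 7 / 3 + k * ((x + y) 3 - (x + y) 4 + (x + y) 6) = (x 7 / 3 + k * (x 3 - x 4 + x 6)) + (y 7 / 3 + k * (y 3 - y 4 + y 6))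
        simp only [PiLp.add_apply]
        try ring
      · change (x + y) 8 / 3 + k * ((x + y) 3 + (x + y) 4 - (x + y) 5) = (x 8 / 3 + k * (x 3 + x 4 - x 5)) + (y 8 / 3 + k * (y 3 + y 4 - y 5))
        simp only [PiLp.add_apply]
        try ring
      · change (x + y) 9 / 3 + k * ((x + y) 4 + (x + y) 5 + (x + y) 6) = (x 9 / 3 + k * (x 4 + x 5 + x 6)) + (y 9 / 3 + k * (y 4 + y 5 + y 6))
        simp only [PiLp.add_apply]
        try ring
      · change (x + y) 10 / 3 + k * (-(x + y) 3 - (x + y) 5 + (x + y) 6) = (x 10 / 3 + k * (-x 3 - x 5 + x 6)) + (y 10 / 3 + k * (-y 3 - y 5 + y 6))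
        simp only [PiLp.add_apply]
        try ring
    map_smul' := by
      intro c x
      ext i
      fin_cases i
      · change (0 : ℝ) = c * 0
        ring
      · change (0 : ℝ) = c * 0
        ring
      · change (0 : ℝ) = c * 0
        ring
      · change (c • x) 3 + k * ((c • x) 7 + (c • x) 8 - (c • x) 10) = c * (x 3 + k * (x 7 + x 8 - x 10))
        simp only [PiLp.smul_apply, smul_eq_mul]
        try ring
      · change (c • x) 4 + k * (-(c • x) 7 + (c • x) 8 + (c • x) 9) = c * (x 4 + k * (-x 7 + x 8 + x 9))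
        simp only [PiLp.smul_apply, smul_eq_mul]
        try ring
      · change (c • x) 5 + k * (-(c • x) 8 + (c • x) 9 - (c • x) 10) = c * (x 5 + k * (-x 8 + x 9 - x 10))
        simp only [PiLp.smul_apply, smul_eq_mul]
        try ring
      · change (c • x) 6 + k * ((c • x) 7 + (c • x) 9 + (c • x) 10) = c * (x 6 + k * (x 7 + x 9 + x 10))
        simp only [PiLp.smul_apply, smul_eq_mul]
        try ring
      · change (c • x) 7 / 3 + k * ((c • x) 3 - (c • x) 4 + (c • x) 6) = c * (x 7 / 3 + k * (x 3 - x 4 + x 6))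
        simp only [PiLp.smul_apply, smul_eq_mul]
        try ring
      · change (c • x) 8 / 3 + k * ((c • x) 3 + (c • x) 4 - (c • x) 5) = c * (x 8 / 3 + k * (x 3 + x 4 - x 5))
        simp only [PiLp.smul_apply, smul_eq_mul]
        try ring
      · change (c • x) 9 / 3 + k * ((c • x) 4 + (c • x) 5 + (c • x) 6) = c * (x 9 / 3 + k * (x 4 + x 5 + x 6))
        simp only [PiLp.smul_apply, smul_eq_mul]
        try ring
      · change (c • x) 10 / 3 + k * (-(c • x) 3 - (c • x) 5 + (c • x) 6) = c * (x 10 / 3 + k * (-x 3 - x 5 + x 6))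
        simp only [PiLp.smul_apply, smul_eq_mul]
        try ring }

lemma W3_0 (x : V11) : W3 x 0 = 0 := rfl
lemma W3_1 (x : V11) : W3 x 1 = 0 := rfl
lemma W3_2 (x : V11) : W3 x 2 = 0 := rfl
lemma W3_3 (x : V11) : W3 x 3 = x 3 + k * (x 7 + x 8 - x 10) := rfl
lemma W3_4 (x : V11) : W3 x 4 = x 4 + k * (-x 7 + x 8 + x 9) := rfl
lemma W3_5 (x : V11) : W3 x 5 = x 5 + k * (-x 8 + x 9 - x 10) := rfl
lemma W3_6 (x : V11) : W3 x 6 = x 6 + k * (x 7 + x 9 + x 10) := rfl
lemma W3_7 (x : V11) : W3 x 7 = x 7 / 3 + k * (x 3 - x 4 + x 6) := rfl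
lemma W3_8 (x : V11) : W3 x 8 = x 8 / 3 + k * (x 3 + x 4 - x 5) := rfl
lemma W3_9 (x : V11) : W3 x 9 = x 9 / 3 + k * (x 4 + x 5 + x 6) := rfl
lemma W3_10 (x : V11) : W3 x 10 = x 10 / 3 + k * (-x 3 - x 5 + x 6) := rfl

/-- `W1, W2, W3` -/
noncomputable def Wm : Fin 3 → V11 →L[ℝ] V11 := ![W1, W2, W3]

section
variable {V : Type*} [NormedAddCommGroup V] [InnerProductSpace ℝ V]

/-- The gradient of `⟪M x, x⟫ / 2 + ∑ a, ⟪W a x, x⟫² / ‖x‖²` (`M`, `W a` symmetric). -/
noncomputable def pert (M : V →L[ℝ] V) (W : Fin 3 → V →L[ℝ] V) (x : V) : V :=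
  M x + ∑ a, (4 * ⟪W a x, x⟫ / ‖x‖ ^ 2) • W a x - (2 * (∑ a, ⟪W a x, x⟫ ^ 2) / ‖x‖ ^ 4) • x

/-- The derivative of `pert M W` at `x ≠ 0` in the direction `u`. -/
noncomputable def dpert (M : V →L[ℝ] V) (W : Fin 3 → V →L[ℝ] V) (x u : V) : V :=
  M u + ∑ a, ((8 * ⟪W a x, u⟫ / ‖x‖ ^ 2 - 8 * ⟪W a x, x⟫ * ⟪x, u⟫ / ‖x‖ ^ 4) • W a x
      + (4 * ⟪W a x, x⟫ / ‖x‖ ^ 2) • W a u)
    - (∑ a, (8 * ⟪W a x, x⟫ * ⟪W a x, u⟫ / ‖x‖ ^ 4
      - 8 * ⟪W a x, x⟫ ^ 2 * ⟪x, u⟫ / ‖x‖ ^ 6)) • x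
    - (2 * (∑ a, ⟪W a x, x⟫ ^ 2) / ‖x‖ ^ 4) • u

end

/-- The perturbation. -/
noncomputable def pg (c : ℝ) : V11 → V11 := pert (c • P0 + M1) Wm

/-- `(p; s; t) ↦ (p; q s; q t)`, `q` a quaternion -/
noncomputable def rotF (q : EuclideanSpace ℝ (Fin 4)) (x : V11) : V11 :=
  !₂[x 0, x 1, x 2,
    q 0 * x 3 - q 1 * x 4 - q 2 * x 5 - q 3 * x 6,
    q 0 * x 4 + q 1 * x 3 + q 2 * x 6 - q 3 * x 5,
    q 0 * x 5 - q 1 * x 6 + q 2 * x 3 + q 3 * x 4,
    q 0 * x 6 + q 1 * x 5 - q 2 * x 4 + q 3 * x 3,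
    q 0 * x 7 - q 1 * x 8 - q 2 * x 9 - q 3 * x 10,
    q 0 * x 8 + q 1 * x 7 + q 2 * x 10 - q 3 * x 9,
    q 0 * x 9 - q 1 * x 10 + q 2 * x 7 + q 3 * x 8,
    q 0 * x 10 + q 1 * x 9 - q 2 * x 8 + q 3 * x 7]

lemma rotF_0 (q : EuclideanSpace ℝ (Fin 4)) (x : V11) : rotF q x 0 = x 0 := rfl
lemma rotF_1 (q : EuclideanSpace ℝ (Fin 4)) (x : V11) : rotF q x 1 = x 1 := rfl
lemma rotF_2 (q : EuclideanSpace ℝ (Fin 4)) (x : V11) : rotF q x 2 = x 2 := rfl
lemma rotF_3 (q : EuclideanSpace ℝ (Fin 4)) (x : V11) : rotF q x 3 =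
    q 0 * x 3 - q 1 * x 4 - q 2 * x 5 - q 3 * x 6 := rfl
lemma rotF_4 (q : EuclideanSpace ℝ (Fin 4)) (x : V11) : rotF q x 4 =
    q 0 * x 4 + q 1 * x 3 + q 2 * x 6 - q 3 * x 5 := rfl
lemma rotF_5 (q : EuclideanSpace ℝ (Fin 4)) (x : V11) : rotF q x 5 =
    q 0 * x 5 - q 1 * x 6 + q 2 * x 3 + q 3 * x 4 := rfl
lemma rotF_6 (q : EuclideanSpace ℝ (Fin 4)) (x : V11) : rotF q x 6 =
    q 0 * x 6 + q 1 * x 5 - q 2 * x 4 + q 3 * x 3 := rfl
lemma rotF_7 (q : EuclideanSpace ℝ (Fin 4)) (x : V11) : rotF q x 7 =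
    q 0 * x 7 - q 1 * x 8 - q 2 * x 9 - q 3 * x 10 := rfl
lemma rotF_8 (q : EuclideanSpace ℝ (Fin 4)) (x : V11) : rotF q x 8 =
    q 0 * x 8 + q 1 * x 7 + q 2 * x 10 - q 3 * x 9 := rfl
lemma rotF_9 (q : EuclideanSpace ℝ (Fin 4)) (x : V11) : rotF q x 9 =
    q 0 * x 9 - q 1 * x 10 + q 2 * x 7 + q 3 * x 8 := rfl
lemma rotF_10 (q : EuclideanSpace ℝ (Fin 4)) (x : V11) : rotF q x 10 =
    q 0 * x 10 + q 1 * x 9 - q 2 * x 8 + q 3 * x 7 := rfl

end G2F
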