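import Pool.Agent.G2F.Ker

/-! MODULE OEq (diff 2): the equality case.

Let `O = -(A² + B²)`, `E = 1 - n nᵀ` (`n` from `common_kernel`).  `O n = 0`, so `tr (O E) = tr O`,
`tr E = 6`, `E² = E`.  `X = O - (4/3) E` is symmetric and
`tr X² = tr O² - (8/3) tr (O E) + (16/9) tr E = 32/3 - 64/3 + 32/3 = 0`, so `X = 0`
(`tr X² = tr (Xᵀ X) = ∑ X i j ²`; `Matrix.trace_conjTranspose_mul_self_eq_zero_iff` or by hand).
-/

namespace G2F

open scoped Matrix

theorem OEq_zero {X : Matrix (Fin 7) (Fin 7) ℝ} (hX : Xᵀ = X) (h : (X * X).trace = 0) : X = 0 := by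
  have h1 : (Xᵀ * X).trace = ∑ j, ∑ i, X i j * X i j := by
    simp only [Matrix.trace, Matrix.diag, Matrix.mul_apply, Matrix.transpose_apply]
  rw [hX, h] at h1
  have h2 := (Finset.sum_eq_zero_iff_of_nonneg
    (fun j _ => Finset.sum_nonneg (fun i _ => mul_self_nonneg (X i j)))).1 h1.symm
  ext i j
  have h3 := (Finset.sum_eq_zero_iff_of_nonneg
    (fun i _ => mul_self_nonneg (X i j))).1 (h2 j (Finset.mem_univ j)) i (Finset.mem_univ i)
  exact mul_self_eq_zero.1 h3

theorem O_eq {A B : Matrix (Fin 7) (Fin 7) ℝ} (hA : Aᵀ = -A) (hB : Bᵀ = -B) (hAB : A * B = B * A)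
    (h1 : (A * A + B * B).trace = -8)
    (h2 : ((A * A + B * B) * (A * A + B * B)).trace = 32 / 3) :
    ∃ n : Fin 7 → ℝ, n ⬝ᵥ n = 1 ∧
      A * A + B * B = -((4 / 3 : ℝ) • (1 - Matrix.vecMulVec n n)) := by
  obtain ⟨n, hn, hAn, hBn⟩ := common_kernel hA hB hAB
  refine ⟨n, hn, ?_⟩
  set S : Matrix (Fin 7) (Fin 7) ℝ := A * A + B * B with hS
  set P : Matrix (Fin 7) (Fin 7) ℝ := Matrix.vecMulVec n n with hP
  have hSt : Sᵀ = S := by
    rw [hS, Matrix.transpose_add, Matrix.transpose_mul, Matrix.transpose_mul, hA, hB]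
    simp
  have hPt : Pᵀ = P := by
    rw [hP]
    ext i j
    simp only [Matrix.transpose_apply, Matrix.vecMulVec_apply]
    ring
  have hSn : S *ᵥ n = 0 := by
    rw [hS, Matrix.add_mulVec, ← Matrix.mulVec_mulVec, ← Matrix.mulVec_mulVec, hAn, hBn,
      Matrix.mulVec_zero, Matrix.mulVec_zero, add_zero]
  have hSP : S * P = 0 := by
    ext i j
    have : (S * P) i j = (S *ᵥ n) i * n j := by
      simp only [Matrix.mul_apply, Matrix.mulVec, dotProduct, hP, Matrix.vecMulVec_apply,
        Finset.sum_mul]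
      exact Finset.sum_congr rfl fun k _ => by ring
    rw [this, hSn]
    simp
  have hPS : P * S = 0 := by
    have := congrArg Matrix.transpose hSP
    rwa [Matrix.transpose_mul, hSt, hPt, Matrix.transpose_zero] at this
  have hPP : P * P = P := by
    ext i j
    have : (P * P) i j = (n ⬝ᵥ n) * (n i * n j) := by
      simp only [Matrix.mul_apply, dotProduct, hP, Matrix.vecMulVec_apply, Finset.sum_mul]
      exact Finset.sum_congr rfl fun k _ => by ring
    rw [this, hn, one_mul, hP, Matrix.vecMulVec_apply]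
  have htP : P.trace = 1 := by
    rw [← hn]
    simp only [Matrix.trace, Matrix.diag, dotProduct, hP, Matrix.vecMulVec_apply]
  have ht1 : (1 : Matrix (Fin 7) (Fin 7) ℝ).trace = 7 := by
    rw [Matrix.trace_one, Fintype.card_fin]; norm_num
  have hX : S + (4 / 3 : ℝ) • (1 - P) = 0 := by
    clear_value S P
    apply OEq_zero
    · rw [Matrix.transpose_add, Matrix.transpose_smul, Matrix.transpose_sub, hSt, hPt,
        Matrix.transpose_one]
    · have e : (S + (4 / 3 : ℝ) • (1 - P)) * (S + (4 / 3 : ℝ) • (1 - P)) =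
          S * S + (8 / 3 : ℝ) • S + (16 / 9 : ℝ) • (1 - P) := by
        have e1 : (1 - P) * (1 - P) = 1 - P := by
          rw [mul_sub, mul_one, sub_mul, one_mul, hPP, sub_self, sub_zero]
        have e2 : S * (1 - P) = S := by rw [mul_sub, mul_one, hSP, sub_zero]
        have e3 : (1 - P) * S = S := by rw [sub_mul, one_mul, hPS, sub_zero]
        rw [add_mul, mul_add, mul_add, Matrix.mul_smul, Matrix.smul_mul, Matrix.smul_mul,
          Matrix.mul_smul, e1, e2, e3, smul_smul]
        have e4 : (8 / 3 : ℝ) • S = (4 / 3 : ℝ) • S + (4 / 3 : ℝ) • S := by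
          rw [← add_smul]; norm_num
        rw [e4]
        norm_num
        abel
      rw [e, Matrix.trace_add, Matrix.trace_add, Matrix.trace_smul, Matrix.trace_smul,
        Matrix.trace_sub, h1, h2, htP, ht1]
      norm_num
  rw [eq_neg_iff_add_eq_zero]
  exact hX

end G2F
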