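import Pool.Agent.G2F.Quart

/-! MODULE Quart4 (diff 2): `tr (iota x)⁴ = 4 ‖x‖⁴` (checked numerically).

Compute the 28 entries `S i j` (`i ≤ j`) of `S = iota x * iota x` (symmetric) and use
`tr S² = ∑ S i i ² + 2 ∑_{i<j} S i j ²`.  In blocks, with `P = 2k [p]_×` (`3 × 3`), `R = -` right
multiplication by `k p` (`4 × 4`, `R² = -k²|p|²`), `iota x = [[P, -Lᵀ], [L, R]]`.
A way to keep `ring` cheap: state the identity for 11 real variables `X0 X1 X2 s3 s4 s5 s6 X7 X8 X9 X10`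
(no `k`), `‖x‖² = 3(X0² + X1² + X2²) + s3² + .. + s6² + 3(X7² + .. + X10²)`, with `X i = k * x i`.
-/

namespace G2F

open HFinG
open scoped RealInnerProductSpace Matrix

/-- the polynomial identity -/
theorem quart_aux (X0 X1 X2 s3 s4 s5 s6 X7 X8 X9 X10 : ℝ) :
    ((-(2*X2))*(2*X2) + (2*X1)*(-(2*X1)) + (2*X9)*(-(2*X9)) + (2*X10)*(-(2*X10)) + (-(2*X7))*(2*X7) + (-(2*X8))*(2*X8)) ^ 2
    + ((2*X2)*(-(2*X2)) + (-(2*X0))*(2*X0) + (-s3+X8)*(s3-X8) + (-s4-X7)*(s4+X7) + (-s5-X10)*(s5+X10) + (-s6+X9)*(s6-X9)) ^ 2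
    + ((-(2*X1))*(2*X1) + (2*X0)*(-(2*X0)) + (s4-X7)*(-s4+X7) + (-s3-X8)*(s3+X8) + (-s6-X9)*(s6+X9) + (s5-X10)*(-s5+X10)) ^ 2
    + ((-(2*X9))*(2*X9) + (s3-X8)*(-s3+X8) + (-s4+X7)*(s4-X7) + (X0)*(-X0) + (X1)*(-X1) + (X2)*(-X2)) ^ 2
    + ((-(2*X10))*(2*X10) + (s4+X7)*(-s4-X7) + (s3+X8)*(-s3-X8) + (-X0)*(X0) + (-X2)*(X2) + (X1)*(-X1)) ^ 2
    + ((2*X7)*(-(2*X7)) + (s5+X10)*(-s5-X10) + (s6+X9)*(-s6-X9) + (-X1)*(X1) + (X2)*(-X2) + (-X0)*(X0)) ^ 2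
    + ((2*X8)*(-(2*X8)) + (s6-X9)*(-s6+X9) + (-s5+X10)*(s5-X10) + (-X2)*(X2) + (-X1)*(X1) + (X0)*(-X0)) ^ 2
    + 2 * ((2*X1)*(2*X0) + (2*X9)*(s3-X8) + (2*X10)*(s4+X7) + (-(2*X7))*(s5+X10) + (-(2*X8))*(s6-X9)) ^ 2
    + 2 * ((-(2*X2))*(-(2*X0)) + (2*X9)*(-s4+X7) + (2*X10)*(s3+X8) + (-(2*X7))*(s6+X9) + (-(2*X8))*(-s5+X10)) ^ 2
    + 2 * ((-(2*X2))*(-s3+X8) + (2*X1)*(s4-X7) + (2*X10)*(-X0) + (-(2*X7))*(-X1) + (-(2*X8))*(-X2)) ^ 2
    + 2 * ((-(2*X2))*(-s4-X7) + (2*X1)*(-s3-X8) + (2*X9)*(X0) + (-(2*X7))*(X2) + (-(2*X8))*(-X1)) ^ 2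
    + 2 * ((-(2*X2))*(-s5-X10) + (2*X1)*(-s6-X9) + (2*X9)*(X1) + (2*X10)*(-X2) + (-(2*X8))*(X0)) ^ 2
    + 2 * ((-(2*X2))*(-s6+X9) + (2*X1)*(s5-X10) + (2*X9)*(X2) + (2*X10)*(X1) + (-(2*X7))*(-X0)) ^ 2
    + 2 * ((2*X2)*(2*X1) + (-s3+X8)*(-s4+X7) + (-s4-X7)*(s3+X8) + (-s5-X10)*(s6+X9) + (-s6+X9)*(-s5+X10)) ^ 2
    + 2 * ((2*X2)*(2*X9) + (-(2*X0))*(s4-X7) + (-s4-X7)*(-X0) + (-s5-X10)*(-X1) + (-s6+X9)*(-X2)) ^ 2
    + 2 * ((2*X2)*(2*X10) + (-(2*X0))*(-s3-X8) + (-s3+X8)*(X0) + (-s5-X10)*(X2) + (-s6+X9)*(-X1)) ^ 2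
    + 2 * ((2*X2)*(-(2*X7)) + (-(2*X0))*(-s6-X9) + (-s3+X8)*(X1) + (-s4-X7)*(-X2) + (-s6+X9)*(X0)) ^ 2
    + 2 * ((2*X2)*(-(2*X8)) + (-(2*X0))*(s5-X10) + (-s3+X8)*(X2) + (-s4-X7)*(X1) + (-s5-X10)*(-X0)) ^ 2
    + 2 * ((-(2*X1))*(2*X9) + (2*X0)*(-s3+X8) + (-s3-X8)*(-X0) + (-s6-X9)*(-X1) + (s5-X10)*(-X2)) ^ 2
    + 2 * ((-(2*X1))*(2*X10) + (2*X0)*(-s4-X7) + (s4-X7)*(X0) + (-s6-X9)*(X2) + (s5-X10)*(-X1)) ^ 2
    + 2 * ((-(2*X1))*(-(2*X7)) + (2*X0)*(-s5-X10) + (s4-X7)*(X1) + (-s3-X8)*(-X2) + (s5-X10)*(X0)) ^ 2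
    + 2 * ((-(2*X1))*(-(2*X8)) + (2*X0)*(-s6+X9) + (s4-X7)*(X2) + (-s3-X8)*(X1) + (-s6-X9)*(-X0)) ^ 2
    + 2 * ((-(2*X9))*(2*X10) + (s3-X8)*(-s4-X7) + (-s4+X7)*(-s3-X8) + (X1)*(X2) + (X2)*(-X1)) ^ 2
    + 2 * ((-(2*X9))*(-(2*X7)) + (s3-X8)*(-s5-X10) + (-s4+X7)*(-s6-X9) + (X0)*(-X2) + (X2)*(X0)) ^ 2
    + 2 * ((-(2*X9))*(-(2*X8)) + (s3-X8)*(-s6+X9) + (-s4+X7)*(s5-X10) + (X0)*(X1) + (X1)*(-X0)) ^ 2
    + 2 * ((-(2*X10))*(-(2*X7)) + (s4+X7)*(-s5-X10) + (s3+X8)*(-s6-X9) + (-X0)*(X1) + (X1)*(X0)) ^ 2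
    + 2 * ((-(2*X10))*(-(2*X8)) + (s4+X7)*(-s6+X9) + (s3+X8)*(s5-X10) + (-X0)*(X2) + (-X2)*(-X0)) ^ 2
    + 2 * ((2*X7)*(-(2*X8)) + (s5+X10)*(-s6+X9) + (s6+X9)*(s5-X10) + (-X1)*(X2) + (X2)*(X1)) ^ 2
    = 4 * (3 * (X0 ^ 2 + X1 ^ 2 + X2 ^ 2 + X7 ^ 2 + X8 ^ 2 + X9 ^ 2 + X10 ^ 2) + s3 ^ 2 + s4 ^ 2 + s5 ^ 2 + s6 ^ 2) ^ 2 := by
  ring

theorem tr_quart (x : V11) : ((iota x * iota x) * (iota x * iota x)).trace = 4 * ‖x‖ ^ 4 := by
  have h00 : iota x 0 0 = 0 := by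
    change (0 : ℝ) = _
    ring
  have h01 : iota x 0 1 = -(2*(k * x 2)) := by
    change -(2 * k * x 2) = _
    ring
  have h02 : iota x 0 2 = 2*(k * x 1) := by
    change 2 * k * x 1 = _
    ring
  have h03 : iota x 0 3 = 2*(k * x 9) := by
    change 2 * k * x 9 = _
    ring
  have h04 : iota x 0 4 = 2*(k * x 10) := by
    change 2 * k * x 10 = _
    ring
  have h05 : iota x 0 5 = -(2*(k * x 7)) := by
    change -(2 * k * x 7) = _
    ring
  have h06 : iota x 0 6 = -(2*(k * x 8)) := by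
    change -(2 * k * x 8) = _
    ring
  have h10 : iota x 1 0 = 2*(k * x 2) := by
    change 2 * k * x 2 = _
    ring
  have h11 : iota x 1 1 = 0 := by
    change (0 : ℝ) = _
    ring
  have h12 : iota x 1 2 = -(2*(k * x 0)) := by
    change -(2 * k * x 0) = _
    ring
  have h13 : iota x 1 3 = -x 3+(k * x 8) := by
    change -x 3 + k * x 8 = _
    ring
  have h14 : iota x 1 4 = -x 4-(k * x 7) := by
    change -x 4 - k * x 7 = _
    ring
  have h15 : iota x 1 5 = -x 5-(k * x 10) := by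
    change -x 5 - k * x 10 = _
    ring
  have h16 : iota x 1 6 = -x 6+(k * x 9) := by
    change -x 6 + k * x 9 = _
    ring
  have h20 : iota x 2 0 = -(2*(k * x 1)) := by
    change -(2 * k * x 1) = _
    ring
  have h21 : iota x 2 1 = 2*(k * x 0) := by
    change 2 * k * x 0 = _
    ring
  have h22 : iota x 2 2 = 0 := by
    change (0 : ℝ) = _
    ring
  have h23 : iota x 2 3 = x 4-(k * x 7) := by
    change x 4 - k * x 7 = _
    ring
  have h24 : iota x 2 4 = -x 3-(k * x 8) := by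
    change -x 3 - k * x 8 = _
    ring
  have h25 : iota x 2 5 = -x 6-(k * x 9) := by
    change -x 6 - k * x 9 = _
    ring
  have h26 : iota x 2 6 = x 5-(k * x 10) := by
    change x 5 - k * x 10 = _
    ring
  have h30 : iota x 3 0 = -(2*(k * x 9)) := by
    change -(2 * k * x 9) = _
    ring
  have h31 : iota x 3 1 = x 3-(k * x 8) := by
    change x 3 - k * x 8 = _
    ring
  have h32 : iota x 3 2 = -x 4+(k * x 7) := by
    change -x 4 + k * x 7 = _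
    ring
  have h33 : iota x 3 3 = 0 := by
    change (0 : ℝ) = _
    ring
  have h34 : iota x 3 4 = (k * x 0) := by
    change k * x 0 = _
    ring
  have h35 : iota x 3 5 = (k * x 1) := by
    change k * x 1 = _
    ring
  have h36 : iota x 3 6 = (k * x 2) := by
    change k * x 2 = _
    ring
  have h40 : iota x 4 0 = -(2*(k * x 10)) := by
    change -(2 * k * x 10) = _
    ring
  have h41 : iota x 4 1 = x 4+(k * x 7) := by
    change x 4 + k * x 7 = _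
    ring
  have h42 : iota x 4 2 = x 3+(k * x 8) := by
    change x 3 + k * x 8 = _
    ring
  have h43 : iota x 4 3 = -(k * x 0) := by
    change -(k * x 0) = _
    ring
  have h44 : iota x 4 4 = 0 := by
    change (0 : ℝ) = _
    ring
  have h45 : iota x 4 5 = -(k * x 2) := by
    change -(k * x 2) = _
    ring
  have h46 : iota x 4 6 = (k * x 1) := by
    change k * x 1 = _
    ring
  have h50 : iota x 5 0 = 2*(k * x 7) := by
    change 2 * k * x 7 = _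
    ring
  have h51 : iota x 5 1 = x 5+(k * x 10) := by
    change x 5 + k * x 10 = _
    ring
  have h52 : iota x 5 2 = x 6+(k * x 9) := by
    change x 6 + k * x 9 = _
    ring
  have h53 : iota x 5 3 = -(k * x 1) := by
    change -(k * x 1) = _
    ring
  have h54 : iota x 5 4 = (k * x 2) := by
    change k * x 2 = _
    ring
  have h55 : iota x 5 5 = 0 := by
    change (0 : ℝ) = _
    ring
  have h56 : iota x 5 6 = -(k * x 0) := by
    change -(k * x 0) = _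
    ring
  have h60 : iota x 6 0 = 2*(k * x 8) := by
    change 2 * k * x 8 = _
    ring
  have h61 : iota x 6 1 = x 6-(k * x 9) := by
    change x 6 - k * x 9 = _
    ring
  have h62 : iota x 6 2 = -x 5+(k * x 10) := by
    change -x 5 + k * x 10 = _
    ring
  have h63 : iota x 6 3 = -(k * x 2) := by
    change -(k * x 2) = _
    ring
  have h64 : iota x 6 4 = -(k * x 1) := by
    change -(k * x 1) = _
    ring
  have h65 : iota x 6 5 = (k * x 0) := by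
    change k * x 0 = _
    ring
  have h66 : iota x 6 6 = 0 := by
    change (0 : ℝ) = _
    ring
  have s00 : (iota x * iota x) 0 0 = (-(2*(k * x 2)))*(2*(k * x 2)) + (2*(k * x 1))*(-(2*(k * x 1))) + (2*(k * x 9))*(-(2*(k * x 9))) + (2*(k * x 10))*(-(2*(k * x 10))) + (-(2*(k * x 7)))*(2*(k * x 7)) + (-(2*(k * x 8)))*(2*(k * x 8)) := by
    rw [mul7]; simp only [h00, h01, h02, h03, h04, h05, h06, h10, h20, h30, h40, h50, h60]
    ring
  have s01 : (iota x * iota x) 0 1 = (2*(k * x 1))*(2*(k * x 0)) + (2*(k * x 9))*(x 3-(k * x 8)) + (2*(k * x 10))*(x 4+(k * x 7)) + (-(2*(k * x 7)))*(x 5+(k * x 10)) + (-(2*(k * x 8)))*(x 6-(k * x 9)) := by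
    rw [mul7]; simp only [h00, h01, h02, h03, h04, h05, h06, h11, h21, h31, h41, h51, h61]
    ring
  have s02 : (iota x * iota x) 0 2 = (-(2*(k * x 2)))*(-(2*(k * x 0))) + (2*(k * x 9))*(-x 4+(k * x 7)) + (2*(k * x 10))*(x 3+(k * x 8)) + (-(2*(k * x 7)))*(x 6+(k * x 9)) + (-(2*(k * x 8)))*(-x 5+(k * x 10)) := by
    rw [mul7]; simp only [h00, h01, h02, h03, h04, h05, h06, h12, h22, h32, h42, h52, h62]
    ring
  have s03 : (iota x * iota x) 0 3 = (-(2*(k * x 2)))*(-x 3+(k * x 8)) + (2*(k * x 1))*(x 4-(k * x 7)) + (2*(k * x 10))*(-(k * x 0)) + (-(2*(k * x 7)))*(-(k * x 1)) + (-(2*(k * x 8)))*(-(k * x 2)) := by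
    rw [mul7]; simp only [h00, h01, h02, h03, h04, h05, h06, h13, h23, h33, h43, h53, h63]
    ring
  have s04 : (iota x * iota x) 0 4 = (-(2*(k * x 2)))*(-x 4-(k * x 7)) + (2*(k * x 1))*(-x 3-(k * x 8)) + (2*(k * x 9))*((k * x 0)) + (-(2*(k * x 7)))*((k * x 2)) + (-(2*(k * x 8)))*(-(k * x 1)) := by
    rw [mul7]; simp only [h00, h01, h02, h03, h04, h05, h06, h14, h24, h34, h44, h54, h64]
    ring
  have s05 : (iota x * iota x) 0 5 = (-(2*(k * x 2)))*(-x 5-(k * x 10)) + (2*(k * x 1))*(-x 6-(k * x 9)) + (2*(k * x 9))*((k * x 1)) + (2*(k * x 10))*(-(k * x 2)) + (-(2*(k * x 8)))*((k * x 0)) := by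
    rw [mul7]; simp only [h00, h01, h02, h03, h04, h05, h06, h15, h25, h35, h45, h55, h65]
    ring
  have s06 : (iota x * iota x) 0 6 = (-(2*(k * x 2)))*(-x 6+(k * x 9)) + (2*(k * x 1))*(x 5-(k * x 10)) + (2*(k * x 9))*((k * x 2)) + (2*(k * x 10))*((k * x 1)) + (-(2*(k * x 7)))*(-(k * x 0)) := by
    rw [mul7]; simp only [h00, h01, h02, h03, h04, h05, h06, h16, h26, h36, h46, h56, h66]
    ring
  have s10 : (iota x * iota x) 1 0 = (2*(k * x 1))*(2*(k * x 0)) + (2*(k * x 9))*(x 3-(k * x 8)) + (2*(k * x 10))*(x 4+(k * x 7)) + (-(2*(k * x 7)))*(x 5+(k * x 10)) + (-(2*(k * x 8)))*(x 6-(k * x 9)) := by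
    rw [mul7]; simp only [h00, h10, h11, h12, h13, h14, h15, h16, h20, h30, h40, h50, h60]
    ring
  have s11 : (iota x * iota x) 1 1 = (2*(k * x 2))*(-(2*(k * x 2))) + (-(2*(k * x 0)))*(2*(k * x 0)) + (-x 3+(k * x 8))*(x 3-(k * x 8)) + (-x 4-(k * x 7))*(x 4+(k * x 7)) + (-x 5-(k * x 10))*(x 5+(k * x 10)) + (-x 6+(k * x 9))*(x 6-(k * x 9)) := by
    rw [mul7]; simp only [h01, h10, h11, h12, h13, h14, h15, h16, h21, h31, h41, h51, h61]
    ring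
  have s12 : (iota x * iota x) 1 2 = (2*(k * x 2))*(2*(k * x 1)) + (-x 3+(k * x 8))*(-x 4+(k * x 7)) + (-x 4-(k * x 7))*(x 3+(k * x 8)) + (-x 5-(k * x 10))*(x 6+(k * x 9)) + (-x 6+(k * x 9))*(-x 5+(k * x 10)) := by
    rw [mul7]; simp only [h02, h10, h11, h12, h13, h14, h15, h16, h22, h32, h42, h52, h62]
    ring
  have s13 : (iota x * iota x) 1 3 = (2*(k * x 2))*(2*(k * x 9)) + (-(2*(k * x 0)))*(x 4-(k * x 7)) + (-x 4-(k * x 7))*(-(k * x 0)) + (-x 5-(k * x 10))*(-(k * x 1)) + (-x 6+(k * x 9))*(-(k * x 2)) := by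
    rw [mul7]; simp only [h03, h10, h11, h12, h13, h14, h15, h16, h23, h33, h43, h53, h63]
    ring
  have s14 : (iota x * iota x) 1 4 = (2*(k * x 2))*(2*(k * x 10)) + (-(2*(k * x 0)))*(-x 3-(k * x 8)) + (-x 3+(k * x 8))*((k * x 0)) + (-x 5-(k * x 10))*((k * x 2)) + (-x 6+(k * x 9))*(-(k * x 1)) := by
    rw [mul7]; simp only [h04, h10, h11, h12, h13, h14, h15, h16, h24, h34, h44, h54, h64]
    ring
  have s15 : (iota x * iota x) 1 5 = (2*(k * x 2))*(-(2*(k * x 7))) + (-(2*(k * x 0)))*(-x 6-(k * x 9)) + (-x 3+(k * x 8))*((k * x 1)) + (-x 4-(k * x 7))*(-(k * x 2)) + (-x 6+(k * x 9))*((k * x 0)) := by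
    rw [mul7]; simp only [h05, h10, h11, h12, h13, h14, h15, h16, h25, h35, h45, h55, h65]
    ring
  have s16 : (iota x * iota x) 1 6 = (2*(k * x 2))*(-(2*(k * x 8))) + (-(2*(k * x 0)))*(x 5-(k * x 10)) + (-x 3+(k * x 8))*((k * x 2)) + (-x 4-(k * x 7))*((k * x 1)) + (-x 5-(k * x 10))*(-(k * x 0)) := by
    rw [mul7]; simp only [h06, h10, h11, h12, h13, h14, h15, h16, h26, h36, h46, h56, h66]
    ring
  have s20 : (iota x * iota x) 2 0 = (-(2*(k * x 2)))*(-(2*(k * x 0))) + (2*(k * x 9))*(-x 4+(k * x 7)) + (2*(k * x 10))*(x 3+(k * x 8)) + (-(2*(k * x 7)))*(x 6+(k * x 9)) + (-(2*(k * x 8)))*(-x 5+(k * x 10)) := by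
    rw [mul7]; simp only [h00, h10, h20, h21, h22, h23, h24, h25, h26, h30, h40, h50, h60]
    ring
  have s21 : (iota x * iota x) 2 1 = (2*(k * x 2))*(2*(k * x 1)) + (-x 3+(k * x 8))*(-x 4+(k * x 7)) + (-x 4-(k * x 7))*(x 3+(k * x 8)) + (-x 5-(k * x 10))*(x 6+(k * x 9)) + (-x 6+(k * x 9))*(-x 5+(k * x 10)) := by
    rw [mul7]; simp only [h01, h11, h20, h21, h22, h23, h24, h25, h26, h31, h41, h51, h61]
    ring
  have s22 : (iota x * iota x) 2 2 = (-(2*(k * x 1)))*(2*(k * x 1)) + (2*(k * x 0))*(-(2*(k * x 0))) + (x 4-(k * x 7))*(-x 4+(k * x 7)) + (-x 3-(k * x 8))*(x 3+(k * x 8)) + (-x 6-(k * x 9))*(x 6+(k * x 9)) + (x 5-(k * x 10))*(-x 5+(k * x 10)) := by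
    rw [mul7]; simp only [h02, h12, h20, h21, h22, h23, h24, h25, h26, h32, h42, h52, h62]
    ring
  have s23 : (iota x * iota x) 2 3 = (-(2*(k * x 1)))*(2*(k * x 9)) + (2*(k * x 0))*(-x 3+(k * x 8)) + (-x 3-(k * x 8))*(-(k * x 0)) + (-x 6-(k * x 9))*(-(k * x 1)) + (x 5-(k * x 10))*(-(k * x 2)) := by
    rw [mul7]; simp only [h03, h13, h20, h21, h22, h23, h24, h25, h26, h33, h43, h53, h63]
    ring
  have s24 : (iota x * iota x) 2 4 = (-(2*(k * x 1)))*(2*(k * x 10)) + (2*(k * x 0))*(-x 4-(k * x 7)) + (x 4-(k * x 7))*((k * x 0)) + (-x 6-(k * x 9))*((k * x 2)) + (x 5-(k * x 10))*(-(k * x 1)) := by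
    rw [mul7]; simp only [h04, h14, h20, h21, h22, h23, h24, h25, h26, h34, h44, h54, h64]
    ring
  have s25 : (iota x * iota x) 2 5 = (-(2*(k * x 1)))*(-(2*(k * x 7))) + (2*(k * x 0))*(-x 5-(k * x 10)) + (x 4-(k * x 7))*((k * x 1)) + (-x 3-(k * x 8))*(-(k * x 2)) + (x 5-(k * x 10))*((k * x 0)) := by
    rw [mul7]; simp only [h05, h15, h20, h21, h22, h23, h24, h25, h26, h35, h45, h55, h65]
    ring
  have s26 : (iota x * iota x) 2 6 = (-(2*(k * x 1)))*(-(2*(k * x 8))) + (2*(k * x 0))*(-x 6+(k * x 9)) + (x 4-(k * x 7))*((k * x 2)) + (-x 3-(k * x 8))*((k * x 1)) + (-x 6-(k * x 9))*(-(k * x 0)) := by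
    rw [mul7]; simp only [h06, h16, h20, h21, h22, h23, h24, h25, h26, h36, h46, h56, h66]
    ring
  have s30 : (iota x * iota x) 3 0 = (-(2*(k * x 2)))*(-x 3+(k * x 8)) + (2*(k * x 1))*(x 4-(k * x 7)) + (2*(k * x 10))*(-(k * x 0)) + (-(2*(k * x 7)))*(-(k * x 1)) + (-(2*(k * x 8)))*(-(k * x 2)) := by
    rw [mul7]; simp only [h00, h10, h20, h30, h31, h32, h33, h34, h35, h36, h40, h50, h60]
    ring
  have s31 : (iota x * iota x) 3 1 = (2*(k * x 2))*(2*(k * x 9)) + (-(2*(k * x 0)))*(x 4-(k * x 7)) + (-x 4-(k * x 7))*(-(k * x 0)) + (-x 5-(k * x 10))*(-(k * x 1)) + (-x 6+(k * x 9))*(-(k * x 2)) := by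
    rw [mul7]; simp only [h01, h11, h21, h30, h31, h32, h33, h34, h35, h36, h41, h51, h61]
    ring
  have s32 : (iota x * iota x) 3 2 = (-(2*(k * x 1)))*(2*(k * x 9)) + (2*(k * x 0))*(-x 3+(k * x 8)) + (-x 3-(k * x 8))*(-(k * x 0)) + (-x 6-(k * x 9))*(-(k * x 1)) + (x 5-(k * x 10))*(-(k * x 2)) := by
    rw [mul7]; simp only [h02, h12, h22, h30, h31, h32, h33, h34, h35, h36, h42, h52, h62]
    ring
  have s33 : (iota x * iota x) 3 3 = (-(2*(k * x 9)))*(2*(k * x 9)) + (x 3-(k * x 8))*(-x 3+(k * x 8)) + (-x 4+(k * x 7))*(x 4-(k * x 7)) + ((k * x 0))*(-(k * x 0)) + ((k * x 1))*(-(k * x 1)) + ((k * x 2))*(-(k * x 2)) := by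
    rw [mul7]; simp only [h03, h13, h23, h30, h31, h32, h33, h34, h35, h36, h43, h53, h63]
    ring
  have s34 : (iota x * iota x) 3 4 = (-(2*(k * x 9)))*(2*(k * x 10)) + (x 3-(k * x 8))*(-x 4-(k * x 7)) + (-x 4+(k * x 7))*(-x 3-(k * x 8)) + ((k * x 1))*((k * x 2)) + ((k * x 2))*(-(k * x 1)) := by
    rw [mul7]; simp only [h04, h14, h24, h30, h31, h32, h33, h34, h35, h36, h44, h54, h64]
    ring
  have s35 : (iota x * iota x) 3 5 = (-(2*(k * x 9)))*(-(2*(k * x 7))) + (x 3-(k * x 8))*(-x 5-(k * x 10)) + (-x 4+(k * x 7))*(-x 6-(k * x 9)) + ((k * x 0))*(-(k * x 2)) + ((k * x 2))*((k * x 0)) := by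
    rw [mul7]; simp only [h05, h15, h25, h30, h31, h32, h33, h34, h35, h36, h45, h55, h65]
    ring
  have s36 : (iota x * iota x) 3 6 = (-(2*(k * x 9)))*(-(2*(k * x 8))) + (x 3-(k * x 8))*(-x 6+(k * x 9)) + (-x 4+(k * x 7))*(x 5-(k * x 10)) + ((k * x 0))*((k * x 1)) + ((k * x 1))*(-(k * x 0)) := by
    rw [mul7]; simp only [h06, h16, h26, h30, h31, h32, h33, h34, h35, h36, h46, h56, h66]
    ring
  have s40 : (iota x * iota x) 4 0 = (-(2*(k * x 2)))*(-x 4-(k * x 7)) + (2*(k * x 1))*(-x 3-(k * x 8)) + (2*(k * x 9))*((k * x 0)) + (-(2*(k * x 7)))*((k * x 2)) + (-(2*(k * x 8)))*(-(k * x 1)) := by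
    rw [mul7]; simp only [h00, h10, h20, h30, h40, h41, h42, h43, h44, h45, h46, h50, h60]
    ring
  have s41 : (iota x * iota x) 4 1 = (2*(k * x 2))*(2*(k * x 10)) + (-(2*(k * x 0)))*(-x 3-(k * x 8)) + (-x 3+(k * x 8))*((k * x 0)) + (-x 5-(k * x 10))*((k * x 2)) + (-x 6+(k * x 9))*(-(k * x 1)) := by
    rw [mul7]; simp only [h01, h11, h21, h31, h40, h41, h42, h43, h44, h45, h46, h51, h61]
    ring
  have s42 : (iota x * iota x) 4 2 = (-(2*(k * x 1)))*(2*(k * x 10)) + (2*(k * x 0))*(-x 4-(k * x 7)) + (x 4-(k * x 7))*((k * x 0)) + (-x 6-(k * x 9))*((k * x 2)) + (x 5-(k * x 10))*(-(k * x 1)) := by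
    rw [mul7]; simp only [h02, h12, h22, h32, h40, h41, h42, h43, h44, h45, h46, h52, h62]
    ring
  have s43 : (iota x * iota x) 4 3 = (-(2*(k * x 9)))*(2*(k * x 10)) + (x 3-(k * x 8))*(-x 4-(k * x 7)) + (-x 4+(k * x 7))*(-x 3-(k * x 8)) + ((k * x 1))*((k * x 2)) + ((k * x 2))*(-(k * x 1)) := by
    rw [mul7]; simp only [h03, h13, h23, h33, h40, h41, h42, h43, h44, h45, h46, h53, h63]
    ring
  have s44 : (iota x * iota x) 4 4 = (-(2*(k * x 10)))*(2*(k * x 10)) + (x 4+(k * x 7))*(-x 4-(k * x 7)) + (x 3+(k * x 8))*(-x 3-(k * x 8)) + (-(k * x 0))*((k * x 0)) + (-(k * x 2))*((k * x 2)) + ((k * x 1))*(-(k * x 1)) := by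
    rw [mul7]; simp only [h04, h14, h24, h34, h40, h41, h42, h43, h44, h45, h46, h54, h64]
    ring
  have s45 : (iota x * iota x) 4 5 = (-(2*(k * x 10)))*(-(2*(k * x 7))) + (x 4+(k * x 7))*(-x 5-(k * x 10)) + (x 3+(k * x 8))*(-x 6-(k * x 9)) + (-(k * x 0))*((k * x 1)) + ((k * x 1))*((k * x 0)) := by
    rw [mul7]; simp only [h05, h15, h25, h35, h40, h41, h42, h43, h44, h45, h46, h55, h65]
    ring
  have s46 : (iota x * iota x) 4 6 = (-(2*(k * x 10)))*(-(2*(k * x 8))) + (x 4+(k * x 7))*(-x 6+(k * x 9)) + (x 3+(k * x 8))*(x 5-(k * x 10)) + (-(k * x 0))*((k * x 2)) + (-(k * x 2))*(-(k * x 0)) := by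
    rw [mul7]; simp only [h06, h16, h26, h36, h40, h41, h42, h43, h44, h45, h46, h56, h66]
    ring
  have s50 : (iota x * iota x) 5 0 = (-(2*(k * x 2)))*(-x 5-(k * x 10)) + (2*(k * x 1))*(-x 6-(k * x 9)) + (2*(k * x 9))*((k * x 1)) + (2*(k * x 10))*(-(k * x 2)) + (-(2*(k * x 8)))*((k * x 0)) := by
    rw [mul7]; simp only [h00, h10, h20, h30, h40, h50, h51, h52, h53, h54, h55, h56, h60]
    ring
  have s51 : (iota x * iota x) 5 1 = (2*(k * x 2))*(-(2*(k * x 7))) + (-(2*(k * x 0)))*(-x 6-(k * x 9)) + (-x 3+(k * x 8))*((k * x 1)) + (-x 4-(k * x 7))*(-(k * x 2)) + (-x 6+(k * x 9))*((k * x 0)) := by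
    rw [mul7]; simp only [h01, h11, h21, h31, h41, h50, h51, h52, h53, h54, h55, h56, h61]
    ring
  have s52 : (iota x * iota x) 5 2 = (-(2*(k * x 1)))*(-(2*(k * x 7))) + (2*(k * x 0))*(-x 5-(k * x 10)) + (x 4-(k * x 7))*((k * x 1)) + (-x 3-(k * x 8))*(-(k * x 2)) + (x 5-(k * x 10))*((k * x 0)) := by
    rw [mul7]; simp only [h02, h12, h22, h32, h42, h50, h51, h52, h53, h54, h55, h56, h62]
    ring
  have s53 : (iota x * iota x) 5 3 = (-(2*(k * x 9)))*(-(2*(k * x 7))) + (x 3-(k * x 8))*(-x 5-(k * x 10)) + (-x 4+(k * x 7))*(-x 6-(k * x 9)) + ((k * x 0))*(-(k * x 2)) + ((k * x 2))*((k * x 0)) := by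
    rw [mul7]; simp only [h03, h13, h23, h33, h43, h50, h51, h52, h53, h54, h55, h56, h63]
    ring
  have s54 : (iota x * iota x) 5 4 = (-(2*(k * x 10)))*(-(2*(k * x 7))) + (x 4+(k * x 7))*(-x 5-(k * x 10)) + (x 3+(k * x 8))*(-x 6-(k * x 9)) + (-(k * x 0))*((k * x 1)) + ((k * x 1))*((k * x 0)) := by
    rw [mul7]; simp only [h04, h14, h24, h34, h44, h50, h51, h52, h53, h54, h55, h56, h64]
    ring
  have s55 : (iota x * iota x) 5 5 = (2*(k * x 7))*(-(2*(k * x 7))) + (x 5+(k * x 10))*(-x 5-(k * x 10)) + (x 6+(k * x 9))*(-x 6-(k * x 9)) + (-(k * x 1))*((k * x 1)) + ((k * x 2))*(-(k * x 2)) + (-(k * x 0))*((k * x 0)) := by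
    rw [mul7]; simp only [h05, h15, h25, h35, h45, h50, h51, h52, h53, h54, h55, h56, h65]
    ring
  have s56 : (iota x * iota x) 5 6 = (2*(k * x 7))*(-(2*(k * x 8))) + (x 5+(k * x 10))*(-x 6+(k * x 9)) + (x 6+(k * x 9))*(x 5-(k * x 10)) + (-(k * x 1))*((k * x 2)) + ((k * x 2))*((k * x 1)) := by
    rw [mul7]; simp only [h06, h16, h26, h36, h46, h50, h51, h52, h53, h54, h55, h56, h66]
    ring
  have s60 : (iota x * iota x) 6 0 = (-(2*(k * x 2)))*(-x 6+(k * x 9)) + (2*(k * x 1))*(x 5-(k * x 10)) + (2*(k * x 9))*((k * x 2)) + (2*(k * x 10))*((k * x 1)) + (-(2*(k * x 7)))*(-(k * x 0)) := by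
    rw [mul7]; simp only [h00, h10, h20, h30, h40, h50, h60, h61, h62, h63, h64, h65, h66]
    ring
  have s61 : (iota x * iota x) 6 1 = (2*(k * x 2))*(-(2*(k * x 8))) + (-(2*(k * x 0)))*(x 5-(k * x 10)) + (-x 3+(k * x 8))*((k * x 2)) + (-x 4-(k * x 7))*((k * x 1)) + (-x 5-(k * x 10))*(-(k * x 0)) := by
    rw [mul7]; simp only [h01, h11, h21, h31, h41, h51, h60, h61, h62, h63, h64, h65, h66]
    ring
  have s62 : (iota x * iota x) 6 2 = (-(2*(k * x 1)))*(-(2*(k * x 8))) + (2*(k * x 0))*(-x 6+(k * x 9)) + (x 4-(k * x 7))*((k * x 2)) + (-x 3-(k * x 8))*((k * x 1)) + (-x 6-(k * x 9))*(-(k * x 0)) := by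
    rw [mul7]; simp only [h02, h12, h22, h32, h42, h52, h60, h61, h62, h63, h64, h65, h66]
    ring
  have s63 : (iota x * iota x) 6 3 = (-(2*(k * x 9)))*(-(2*(k * x 8))) + (x 3-(k * x 8))*(-x 6+(k * x 9)) + (-x 4+(k * x 7))*(x 5-(k * x 10)) + ((k * x 0))*((k * x 1)) + ((k * x 1))*(-(k * x 0)) := by
    rw [mul7]; simp only [h03, h13, h23, h33, h43, h53, h60, h61, h62, h63, h64, h65, h66]
    ring
  have s64 : (iota x * iota x) 6 4 = (-(2*(k * x 10)))*(-(2*(k * x 8))) + (x 4+(k * x 7))*(-x 6+(k * x 9)) + (x 3+(k * x 8))*(x 5-(k * x 10)) + (-(k * x 0))*((k * x 2)) + (-(k * x 2))*(-(k * x 0)) := by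
    rw [mul7]; simp only [h04, h14, h24, h34, h44, h54, h60, h61, h62, h63, h64, h65, h66]
    ring
  have s65 : (iota x * iota x) 6 5 = (2*(k * x 7))*(-(2*(k * x 8))) + (x 5+(k * x 10))*(-x 6+(k * x 9)) + (x 6+(k * x 9))*(x 5-(k * x 10)) + (-(k * x 1))*((k * x 2)) + ((k * x 2))*((k * x 1)) := by
    rw [mul7]; simp only [h05, h15, h25, h35, h45, h55, h60, h61, h62, h63, h64, h65, h66]
    ring
  have s66 : (iota x * iota x) 6 6 = (2*(k * x 8))*(-(2*(k * x 8))) + (x 6-(k * x 9))*(-x 6+(k * x 9)) + (-x 5+(k * x 10))*(x 5-(k * x 10)) + (-(k * x 2))*((k * x 2)) + (-(k * x 1))*((k * x 1)) + ((k * x 0))*(-(k * x 0)) := by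
    rw [mul7]; simp only [h06, h16, h26, h36, h46, h56, h60, h61, h62, h63, h64, h65, h66]
    ring
  have ht : ((iota x * iota x) * (iota x * iota x)).trace =
      (iota x * iota x) 0 0 * (iota x * iota x) 0 0
      + (iota x * iota x) 0 1 * (iota x * iota x) 1 0
      + (iota x * iota x) 0 2 * (iota x * iota x) 2 0
      + (iota x * iota x) 0 3 * (iota x * iota x) 3 0
      + (iota x * iota x) 0 4 * (iota x * iota x) 4 0
      + (iota x * iota x) 0 5 * (iota x * iota x) 5 0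
      + (iota x * iota x) 0 6 * (iota x * iota x) 6 0
      + (iota x * iota x) 1 0 * (iota x * iota x) 0 1
      + (iota x * iota x) 1 1 * (iota x * iota x) 1 1
      + (iota x * iota x) 1 2 * (iota x * iota x) 2 1
      + (iota x * iota x) 1 3 * (iota x * iota x) 3 1
      + (iota x * iota x) 1 4 * (iota x * iota x) 4 1
      + (iota x * iota x) 1 5 * (iota x * iota x) 5 1
      + (iota x * iota x) 1 6 * (iota x * iota x) 6 1
      + (iota x * iota x) 2 0 * (iota x * iota x) 0 2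
      + (iota x * iota x) 2 1 * (iota x * iota x) 1 2
      + (iota x * iota x) 2 2 * (iota x * iota x) 2 2
      + (iota x * iota x) 2 3 * (iota x * iota x) 3 2
      + (iota x * iota x) 2 4 * (iota x * iota x) 4 2
      + (iota x * iota x) 2 5 * (iota x * iota x) 5 2
      + (iota x * iota x) 2 6 * (iota x * iota x) 6 2
      + (iota x * iota x) 3 0 * (iota x * iota x) 0 3
      + (iota x * iota x) 3 1 * (iota x * iota x) 1 3
      + (iota x * iota x) 3 2 * (iota x * iota x) 2 3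
      + (iota x * iota x) 3 3 * (iota x * iota x) 3 3
      + (iota x * iota x) 3 4 * (iota x * iota x) 4 3
      + (iota x * iota x) 3 5 * (iota x * iota x) 5 3
      + (iota x * iota x) 3 6 * (iota x * iota x) 6 3
      + (iota x * iota x) 4 0 * (iota x * iota x) 0 4
      + (iota x * iota x) 4 1 * (iota x * iota x) 1 4
      + (iota x * iota x) 4 2 * (iota x * iota x) 2 4
      + (iota x * iota x) 4 3 * (iota x * iota x) 3 4
      + (iota x * iota x) 4 4 * (iota x * iota x) 4 4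
      + (iota x * iota x) 4 5 * (iota x * iota x) 5 4
      + (iota x * iota x) 4 6 * (iota x * iota x) 6 4
      + (iota x * iota x) 5 0 * (iota x * iota x) 0 5
      + (iota x * iota x) 5 1 * (iota x * iota x) 1 5
      + (iota x * iota x) 5 2 * (iota x * iota x) 2 5
      + (iota x * iota x) 5 3 * (iota x * iota x) 3 5
      + (iota x * iota x) 5 4 * (iota x * iota x) 4 5
      + (iota x * iota x) 5 5 * (iota x * iota x) 5 5
      + (iota x * iota x) 5 6 * (iota x * iota x) 6 5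
      + (iota x * iota x) 6 0 * (iota x * iota x) 0 6
      + (iota x * iota x) 6 1 * (iota x * iota x) 1 6
      + (iota x * iota x) 6 2 * (iota x * iota x) 2 6
      + (iota x * iota x) 6 3 * (iota x * iota x) 3 6
      + (iota x * iota x) 6 4 * (iota x * iota x) 4 6
      + (iota x * iota x) 6 5 * (iota x * iota x) 5 6
      + (iota x * iota x) 6 6 * (iota x * iota x) 6 6 := by
    rw [Matrix.trace, Fin.sum_univ_seven]
    simp only [Matrix.diag_apply]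
    rw [mul7 (iota x * iota x) (iota x * iota x) 0 0, mul7 (iota x * iota x) (iota x * iota x) 1 1,
      mul7 (iota x * iota x) (iota x * iota x) 2 2, mul7 (iota x * iota x) (iota x * iota x) 3 3,
      mul7 (iota x * iota x) (iota x * iota x) 4 4, mul7 (iota x * iota x) (iota x * iota x) 5 5,
      mul7 (iota x * iota x) (iota x * iota x) 6 6]
    ring
  have hq := quart_aux (k * x 0) (k * x 1) (k * x 2) (x 3) (x 4) (x 5) (x 6) (k * x 7) (k * x 8) (k * x 9) (k * x 10)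
  have hn : ‖x‖ ^ 4 = (3 * ((k * x 0) ^ 2 + (k * x 1) ^ 2 + (k * x 2) ^ 2 + (k * x 7) ^ 2 + (k * x 8) ^ 2 + (k * x 9) ^ 2 + (k * x 10) ^ 2) + x 3 ^ 2 + x 4 ^ 2 + x 5 ^ 2 + x 6 ^ 2) ^ 2 := by
    have h2 : ‖x‖ ^ 2 = 3 * ((k * x 0) ^ 2 + (k * x 1) ^ 2 + (k * x 2) ^ 2 + (k * x 7) ^ 2 + (k * x 8) ^ 2 + (k * x 9) ^ 2 + (k * x 10) ^ 2) + x 3 ^ 2 + x 4 ^ 2 + x 5 ^ 2 + x 6 ^ 2 := by
      rw [normSq11]
      linear_combination (-3 * (x 0 ^ 2 + x 1 ^ 2 + x 2 ^ 2 + x 7 ^ 2 + x 8 ^ 2 + x 9 ^ 2 + x 10 ^ 2)) * k_sq'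
    rw [← h2]; ring
  rw [ht, hn, ← hq]
  simp only [s00, s01, s02, s03, s04, s05, s06]
  simp only [s10, s11, s12, s13, s14, s15, s16]
  simp only [s20, s21, s22, s23, s24, s25, s26]
  simp only [s30, s31, s32, s33, s34, s35, s36]
  simp only [s40, s41, s42, s43, s44, s45, s46]
  simp only [s50, s51, s52, s53, s54, s55, s56]
  simp only [s60, s61, s62, s63, s64, s65, s66]
  ring

end G2F
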