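import Pool.Agent.G2F.Norm
import Pool.Agent.G2F.OEq
import Pool.Agent.G2F.Quart4
import Pool.Agent.G2F.Cross
import Pool.Agent.G2F.Defs3

/-! MODULE FlatP (diff 2): flats lie in `𝔭 = {x₀ = x₁ = x₂ = 0}`.

`A = iota ξ`, `B = iota σ`, `AB = BA` (`iota_comm`, `g2_mm`, `g2_mh`).  `iota (s ξ + t σ) = s A + t B`
(`iota_add`, `iota_smul` of `Cross`), `‖s ξ + t σ‖² = s² + t²`.
* `tr A² = tr B² = -4` (`tr_sq`), so `tr (A² + B²) = -8`.
* `tr_quart` at `ξ`, `σ`, `ξ + σ`, `ξ - σ`: `tr A⁴ = tr B⁴ = 4`; as `A, B` commute,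
  `tr (A+B)⁴ + tr (A-B)⁴ = 2 tr A⁴ + 12 tr A²B² + 2 tr B⁴ = 2 · 16`, so `tr A²B² = 4/3` and
  `tr (A² + B²)² = 4 + 8/3 + 4 = 32/3`.
* `O_eq`: `A² + B² = -(4/3)(1 - n nᵀ)`; the sum of the last four diagonal entries is
  `-(4/3)(4 - (n₃² + .. + n₆²)) ≤ -4`; by `tr_low` it is `-4 + (2/3)(|p_ξ|² + |p_σ|²)`.  So all `p`
  coordinates vanish.
-/

namespace G2F

open HFinG
open scoped RealInnerProductSpace Matrix


lemma iota_zero' : iota 0 = 0 := by
  have h := iota_smul 0 (0 : V11)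
  rwa [zero_smul, zero_smul] at h

lemma hat_zero' : hat 0 = 0 := by
  have h := hat_smul 0 (0 : E3)
  rwa [zero_smul, zero_smul] at h

lemma iota_sub' (x y : V11) : iota (x - y) = iota x - iota y := by
  rw [sub_eq_add_neg, ← neg_one_smul ℝ y, iota_add, iota_smul, neg_one_smul, sub_eq_add_neg]

lemma quart_alg {R : Type*} [Ring R] {A B : R} (h : A * B = B * A) :
    ((A + B) * (A + B)) * ((A + B) * (A + B)) + ((A - B) * (A - B)) * ((A - B) * (A - B)) =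
      2 * ((A * A) * (A * A)) + 12 * ((A * A) * (B * B)) + 2 * ((B * B) * (B * B)) := by
  have hc : Commute A B := h
  have e1 : (A + B) * (A + B) = (A * A + B * B) + 2 * (A * B) := by
    rw [mul_add, add_mul, add_mul, ← h]
    noncomm_ring
  have e2 : (A - B) * (A - B) = (A * A + B * B) - 2 * (A * B) := by
    rw [mul_sub, sub_mul, sub_mul, ← h]
    noncomm_ring
  have e3 : (A * B) * (A * B) = (A * A) * (B * B) := by
    rw [mul_assoc, ← mul_assoc B A B, ← h]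
    noncomm_ring
  have e4 : (B * B) * (A * A) = (A * A) * (B * B) := by
    have : Commute (A * A) (B * B) := (hc.mul_left hc).mul_right (hc.mul_left hc)
    exact this.eq.symm
  rw [e1, e2]
  have e5 : (A * A + B * B + 2 * (A * B)) * (A * A + B * B + 2 * (A * B)) +
      (A * A + B * B - 2 * (A * B)) * (A * A + B * B - 2 * (A * B)) =
      2 * ((A * A) * (A * A)) + 2 * ((A * A) * (B * B)) + 2 * ((B * B) * (A * A)) +
        2 * ((B * B) * (B * B)) + 8 * ((A * B) * (A * B)) := by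
    noncomm_ring
  rw [e5, e3, e4]
  noncomm_ring

theorem flat_p {ξ σ : V11} (hξ : ‖ξ‖ = 1) (hσ : ‖σ‖ = 1) (ho : ⟪ξ, σ⟫ = 0) (hm : g2.mm ξ σ = 0)
    (hh : g2.mh ξ σ = 0) : InP ξ ∧ InP σ := by
  have hAB : iota ξ * iota σ = iota σ * iota ξ := by
    have h := iota_comm ξ σ
    rw [← g2_mm, ← g2_mh, hm, hh, iota_zero', hat_zero', add_zero] at h
    exact sub_eq_zero.1 h
  have n1 : ‖ξ + σ‖ ^ 2 = 2 := by
    rw [norm_add_sq_real, hξ, hσ, ho]
    norm_num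
  have n2 : ‖ξ - σ‖ ^ 2 = 2 := by
    rw [norm_sub_sq_real, hξ, hσ, ho]
    norm_num
  have t1 : (iota ξ * iota ξ).trace = -4 := by
    rw [tr_sq, hξ]
    norm_num
  have t2 : (iota σ * iota σ).trace = -4 := by
    rw [tr_sq, hσ]
    norm_num
  have q1 : ((iota ξ * iota ξ) * (iota ξ * iota ξ)).trace = 4 := by
    rw [tr_quart, hξ]
    norm_num
  have q2 : ((iota σ * iota σ) * (iota σ * iota σ)).trace = 4 := by
    rw [tr_quart, hσ]
    norm_num
  have q3 : (((iota ξ + iota σ) * (iota ξ + iota σ)) *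
      ((iota ξ + iota σ) * (iota ξ + iota σ))).trace = 16 := by
    rw [← iota_add, tr_quart]
    have : ‖ξ + σ‖ ^ 4 = (‖ξ + σ‖ ^ 2) ^ 2 := by ring
    rw [this, n1]
    norm_num
  have q4 : (((iota ξ - iota σ) * (iota ξ - iota σ)) *
      ((iota ξ - iota σ) * (iota ξ - iota σ))).trace = 16 := by
    rw [← iota_sub', tr_quart]
    have : ‖ξ - σ‖ ^ 4 = (‖ξ - σ‖ ^ 2) ^ 2 := by ring
    rw [this, n2]
    norm_num
  have hq := congrArg Matrix.trace (quart_alg hAB)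
  have tw : ∀ M : Matrix (Fin 7) (Fin 7) ℝ, (2 * M).trace = 2 * M.trace := fun M => by
    rw [two_mul, Matrix.trace_add, two_mul]
  have tt : ∀ M : Matrix (Fin 7) (Fin 7) ℝ, (12 * M).trace = 12 * M.trace := fun M => by
    have : (12 : Matrix (Fin 7) (Fin 7) ℝ) * M = (12 : ℝ) • M := by
      ext i j
      have h12 : (12 : Matrix (Fin 7) (Fin 7) ℝ) = ((12 : ℕ) : Matrix (Fin 7) (Fin 7) ℝ) := by
        norm_num
      rw [h12, ← nsmul_eq_mul, Matrix.smul_apply, Matrix.smul_apply, nsmul_eq_mul, smul_eq_mul]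
      norm_num
    rw [this, Matrix.trace_smul, smul_eq_mul]
  rw [Matrix.trace_add, q3, q4, Matrix.trace_add, Matrix.trace_add, tw, tw, tt, q1, q2] at hq
  have hST : ((iota ξ * iota ξ) * (iota σ * iota σ)).trace = 4 / 3 := by linarith
  have h1 : (iota ξ * iota ξ + iota σ * iota σ).trace = -8 := by
    rw [Matrix.trace_add, t1, t2]
    norm_num
  have h2 : ((iota ξ * iota ξ + iota σ * iota σ) *
      (iota ξ * iota ξ + iota σ * iota σ)).trace = 32 / 3 := by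
    rw [mul_add, add_mul, add_mul, Matrix.trace_add, Matrix.trace_add, Matrix.trace_add, q1, q2,
      Matrix.trace_mul_comm (iota σ * iota σ) (iota ξ * iota ξ), hST]
    norm_num
  obtain ⟨n, hn, hO⟩ := O_eq (iota_transpose ξ) (iota_transpose σ) hAB h1 h2
  have hd : ∀ i, (iota ξ * iota ξ) i i + (iota σ * iota σ) i i = -(4 / 3 * (1 - n i * n i)) := by
    intro i
    have := congrFun (congrFun hO i) i
    rw [Matrix.add_apply, Matrix.neg_apply, Matrix.smul_apply, Matrix.sub_apply,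
      Matrix.one_apply_eq, Matrix.vecMulVec_apply, smul_eq_mul] at this
    exact this
  have hl1 := tr_low ξ
  have hl2 := tr_low σ
  rw [hξ] at hl1
  rw [hσ] at hl2
  have d3 := hd 3
  have d4 := hd 4
  have d5 := hd 5
  have d6 := hd 6
  have hn' : n 0 * n 0 + n 1 * n 1 + n 2 * n 2 + n 3 * n 3 + n 4 * n 4 + n 5 * n 5 + n 6 * n 6
      = 1 := by
    rw [← hn, dotProduct, Fin.sum_univ_seven]
  have hsum : ξ 0 ^ 2 + ξ 1 ^ 2 + ξ 2 ^ 2 + (σ 0 ^ 2 + σ 1 ^ 2 + σ 2 ^ 2) ≤ 0 := by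
    nlinarith [mul_self_nonneg (n 0), mul_self_nonneg (n 1), mul_self_nonneg (n 2)]
  have z : ∀ a b c d e f : ℝ, a ^ 2 + b ^ 2 + c ^ 2 + (d ^ 2 + e ^ 2 + f ^ 2) ≤ 0 →
      a = 0 ∧ b = 0 ∧ c = 0 ∧ d = 0 ∧ e = 0 ∧ f = 0 := by
    intro a b c d e f h
    have ha := sq_nonneg a
    have hb := sq_nonneg b
    have hc := sq_nonneg c
    have hd := sq_nonneg d
    have he := sq_nonneg e
    have hf := sq_nonneg f
    refine ⟨?_, ?_, ?_, ?_, ?_, ?_⟩ <;> exact pow_eq_zero_iff (two_ne_zero) |>.1 (by linarith)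
  obtain ⟨x0, x1, x2, y0, y1, y2⟩ := z _ _ _ _ _ _ hsum
  exact ⟨⟨x0, x1, x2⟩, ⟨y0, y1, y2⟩⟩

end G2F
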