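import Mathlib

/-! MODULE Ker (diff 2): commuting skew `7 × 7` matrices have a common kernel vector.

Over `ℂ`: `C = A + iB` satisfies `Cᵀ = -C`, so `det C = det Cᵀ = (-1)⁷ det C`, `det C = 0`.  As `AB = BA`,
`(A + iB)(A - iB) = A² + B²`, so `det (A² + B²) = 0` (over `ℂ`, hence over `ℝ`: `RingHom.map_det`,
`Complex.ofReal_injective`).  So there is `n ≠ 0` with `(A² + B²) n = 0`
(`Matrix.exists_mulVec_eq_zero_iff`), and
`0 = -n·(A² + B²) n = (A n)·(A n) + (B n)·(B n)` (`Aᵀ = -A`), so `A n = B n = 0`.  Normalise `n`.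
-/

namespace G2F

open scoped Matrix

theorem Ker_det {A B : Matrix (Fin 7) (Fin 7) ℝ} (hA : Aᵀ = -A) (hB : Bᵀ = -B)
    (hAB : A * B = B * A) : (A * A + B * B).det = 0 := by
  set f : ℝ →+* ℂ := Complex.ofRealHom with hf
  set A' : Matrix (Fin 7) (Fin 7) ℂ := f.mapMatrix A with hA'
  set B' : Matrix (Fin 7) (Fin 7) ℂ := f.mapMatrix B with hB'
  have tA : A'ᵀ = -A' := by
    rw [hA', ← map_neg, ← hA]
    rfl
  have tB : B'ᵀ = -B' := by
    rw [hB', ← map_neg, ← hB]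
    rfl
  have cAB : A' * B' = B' * A' := by
    rw [hA', hB', ← map_mul, ← map_mul, hAB]
  set C : Matrix (Fin 7) (Fin 7) ℂ := A' + Complex.I • B' with hC
  have tC : Cᵀ = -C := by
    rw [hC, Matrix.transpose_add, Matrix.transpose_smul, tA, tB, smul_neg, neg_add]
  have dC : C.det = 0 := by
    have h1 : Cᵀ.det = C.det := Matrix.det_transpose C
    rw [tC, Matrix.det_neg, Fintype.card_fin] at h1
    have h2 : (2 : ℂ) * C.det = 0 := by linear_combination -h1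
    exact (mul_eq_zero.1 h2).resolve_left two_ne_zero
  have hprod : C * (A' - Complex.I • B') = f.mapMatrix (A * A + B * B) := by
    rw [map_add, map_mul, map_mul, ← hA', ← hB', hC, add_mul, mul_sub, mul_sub, Matrix.mul_smul,
      Matrix.smul_mul, Matrix.smul_mul, Matrix.mul_smul, cAB, smul_smul, Complex.I_mul_I, neg_smul,
      one_smul]
    abel
  have h3 : f (A * A + B * B).det = 0 := by
    rw [RingHom.map_det, ← hprod, Matrix.det_mul, dC, zero_mul]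
  exact (map_eq_zero f).1 h3

theorem Ker_skew {A : Matrix (Fin 7) (Fin 7) ℝ} (hA : Aᵀ = -A) (v : Fin 7 → ℝ) :
    v ⬝ᵥ ((A * A) *ᵥ v) = -((A *ᵥ v) ⬝ᵥ (A *ᵥ v)) := by
  rw [← Matrix.mulVec_mulVec, Matrix.dotProduct_mulVec, ← Matrix.mulVec_transpose, hA,
    Matrix.neg_mulVec, neg_dotProduct]

theorem Ker_nonneg (v : Fin 7 → ℝ) : 0 ≤ v ⬝ᵥ v :=
  Finset.sum_nonneg fun i _ => mul_self_nonneg (v i)

theorem common_kernel {A B : Matrix (Fin 7) (Fin 7) ℝ} (hA : Aᵀ = -A) (hB : Bᵀ = -B)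
    (hAB : A * B = B * A) : ∃ n : Fin 7 → ℝ, n ⬝ᵥ n = 1 ∧ A *ᵥ n = 0 ∧ B *ᵥ n = 0 := by
  obtain ⟨v, hv, h⟩ := Matrix.exists_mulVec_eq_zero_iff.2 (Ker_det hA hB hAB)
  have h1 : v ⬝ᵥ ((A * A + B * B) *ᵥ v) = 0 := by rw [h, dotProduct_zero]
  rw [Matrix.add_mulVec, dotProduct_add, Ker_skew hA, Ker_skew hB] at h1
  have h2 : 0 ≤ (A *ᵥ v) ⬝ᵥ (A *ᵥ v) := (Ker_nonneg _)
  have h3 : 0 ≤ (B *ᵥ v) ⬝ᵥ (B *ᵥ v) := (Ker_nonneg _)
  have h4 : A *ᵥ v = 0 := dotProduct_self_eq_zero.1 (by linarith)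
  have h5 : B *ᵥ v = 0 := dotProduct_self_eq_zero.1 (by linarith)
  have h6 : 0 < v ⬝ᵥ v := lt_of_le_of_ne (Ker_nonneg _)
    (fun h => hv (dotProduct_self_eq_zero.1 h.symm))
  refine ⟨(Real.sqrt (v ⬝ᵥ v))⁻¹ • v, ?_, ?_, ?_⟩
  · rw [smul_dotProduct, dotProduct_smul, smul_eq_mul, smul_eq_mul, ← mul_assoc, ← mul_inv,
      Real.mul_self_sqrt h6.le, inv_mul_cancel₀ h6.ne']
  · rw [Matrix.mulVec_smul, h4, smul_zero]
  · rw [Matrix.mulVec_smul, h5, smul_zero]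

end G2F
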