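import Pool.Agent.G2F.Defs3

/-! MODULE LAdiag (diff 2): the diagonal case of the linear algebra lemma.

`T = diag t`.  Entries: `hTU`: `(tᵢ - tⱼ) Uᵢⱼ = 0`.  `hC1`: `(tᵢ - tⱼ)(Dᵢⱼ + (tᵢ + tⱼ) Bᵢⱼ) = 0`.
Traces: `∑ tᵢ = 2`, `∑ tᵢ² = 2`, `∑ Uᵢᵢ = 0`, `∑ tᵢUᵢᵢ = 0`, `∑ Uᵢⱼ² = 2/3`.
Case A, `t` injective: `U` is diagonal, `uᵢ = Uᵢᵢ`; `hC2`: `(uᵢ - uⱼ) Dᵢⱼ + 2 (tᵢuᵢ - tⱼuⱼ) Bᵢⱼ = 0`; with
  `Dᵢⱼ = -(tᵢ + tⱼ) Bᵢⱼ` this is `(tᵢ - tⱼ)(uᵢ + uⱼ) Bᵢⱼ = 0`
  (`2(tᵢuᵢ - tⱼuⱼ) - (uᵢ - uⱼ)(tᵢ + tⱼ) = (tᵢ - tⱼ)(uᵢ + uⱼ)`).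
  `u` is orthogonal to `(1,1,1)` and `t`, so `u = s (t₁ - t₂, t₂ - t₀, t₀ - t₁)`, `s ≠ 0`, all `uᵢ ≠ 0`, and
  `uᵢ + uⱼ = -u_l ≠ 0`: all `Bᵢⱼ = 0`, `Dᵢⱼ = 0` (`i ≠ j`).  Any `l` works.
Case B, `tᵢ = tⱼ = t`, `{i,j,l} = {0,1,2}`: then `2t + t_l = 2`, `2t² + t_l² = 2`, so `t = 1, t_l = 0` or
  `t = 1/3, t_l = 4/3`; in particular `t_l ≠ t`.  `U i l = U j l = 0`.  `∑tU = t(Uᵢᵢ + Uⱼⱼ) + t_l U_ll =
  (t_l - t) U_ll = 0`, so `U_ll = 0`, `Uⱼⱼ = -Uᵢᵢ`, `Uᵢᵢ² + Uᵢⱼ² = 1/3`.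
  `hC1`: `D_il = -(t + t_l) B_il`, `D_jl = -(t + t_l) B_jl`.  `hC2` at `(i,l)`, `(j,l)`:
  `Uᵢᵢ x + Uᵢⱼ y = 0`, `Uᵢⱼ x - Uᵢᵢ y = 0` where `x = D_il + 2t B_il = (t - t_l) B_il`,
  `y = D_jl + 2t B_jl = (t - t_l) B_jl`.  So `(Uᵢᵢ² + Uᵢⱼ²) x = 0`, `x = y = 0`, `B_il = B_jl = 0`,
  `D_il = D_jl = 0`: this `l` works.  (One lemma with `i j l` distinct, used three times; or first
  reduce to `t 0 = t 1` by a permutation of the indices.)
-/

namespace G2F

open scoped Matrix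

/-- Case B with indices `i j l`. -/
theorem LAdiag_B {ti tj tl uii ujj ull uij uil ujl dii djj dll dij dil djl bii bjj bll bij bil bjl : ℝ}
    (hij : ti = tj) (s1 : ti + tj + tl = 2) (s2 : ti * ti + tj * tj + tl * tl = 2)
    (s3 : uii + ujj + ull = 0) (s4 : ti * uii + tj * ujj + tl * ull = 0)
    (s5 : uii * uii + ujj * ujj + ull * ull + 2 * (uij * uij + uil * uil + ujl * ujl) = 2 / 3)
    (e1 : (ti - tl) * uil = 0) (e2 : (tj - tl) * ujl = 0)
    (c1 : (ti - tl) * (dil + (ti + tl) * bil) = 0)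
    (c2 : (tj - tl) * (djl + (tj + tl) * bjl) = 0)
    (f1 : (uii * dil - dii * uil + 2 * (ti * uii * bil - bii * (ti * uil))) +
      (uij * djl - dij * ujl + 2 * (ti * uij * bjl - bij * (tj * ujl))) +
      (uil * dll - dil * ull + 2 * (ti * uil * bll - bil * (tl * ull))) = 0)
    (f2 : (uij * dil - dij * uil + 2 * (tj * uij * bil - bij * (ti * uil))) +
      (ujj * djl - djj * ujl + 2 * (tj * ujj * bjl - bjj * (tj * ujl))) +
      (ujl * dll - djl * ull + 2 * (tj * ujl * bll - bjl * (tl * ull))) = 0) :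
    dil = 0 ∧ bil = 0 ∧ djl = 0 ∧ bjl = 0 := by
  subst hij
  have hne : ti - tl ≠ 0 := by
    intro h
    have h1 : tl = ti := by linarith
    subst h1
    have h2 : tl = 2 / 3 := by linarith
    rw [h2] at s2
    norm_num at s2
  have h1 : uil = 0 := (mul_eq_zero.1 e1).resolve_left hne
  have h2 : ujl = 0 := (mul_eq_zero.1 e2).resolve_left hne
  have h3 : (ti - tl) * ull = 0 := by linear_combination ti * s3 - s4
  have h4 : ull = 0 := (mul_eq_zero.1 h3).resolve_left hne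
  have h5 : dil + (ti + tl) * bil = 0 := (mul_eq_zero.1 c1).resolve_left hne
  have h6 : djl + (ti + tl) * bjl = 0 := (mul_eq_zero.1 c2).resolve_left hne
  subst h1 h2 h4
  have h7 : ujj = -uii := by linarith
  subst h7
  have h8 : dil = -(ti + tl) * bil := by linarith
  have h9 : djl = -(ti + tl) * bjl := by linarith
  subst h8 h9
  have k1 : (ti - tl) * (uii * bil + uij * bjl) = 0 := by linear_combination f1
  have k2 : (ti - tl) * (uij * bil - uii * bjl) = 0 := by linear_combination f2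
  have k3 := (mul_eq_zero.1 k1).resolve_left hne
  have k4 := (mul_eq_zero.1 k2).resolve_left hne
  have k5 : uii * uii + uij * uij = 1 / 3 := by linarith
  have k6 : bil = 0 := by
    have : (uii * uii + uij * uij) * bil = 0 := by linear_combination uii * k3 + uij * k4
    rw [k5] at this
    linarith
  have k7 : bjl = 0 := by
    have : (uii * uii + uij * uij) * bjl = 0 := by linear_combination uij * k3 - uii * k4
    rw [k5] at this
    linarith
  subst k6 k7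
  refine ⟨by ring, rfl, by ring, rfl⟩

/-- Case A for a pair of indices. -/
theorem LAdiag_A {ti tj tl ui uj ul dij bij : ℝ} (hij : ti - tj ≠ 0) (_hil : ti - tl ≠ 0)
    (s3 : ui + uj + ul = 0) (s4 : ti * ui + tj * uj + tl * ul = 0)
    (s5 : ui * ui + uj * uj + ul * ul = 2 / 3)
    (c : (ti - tj) * (dij + (ti + tj) * bij) = 0)
    (f : (ui - uj) * dij + 2 * (ti * ui - tj * uj) * bij = 0) : dij = 0 ∧ bij = 0 := by
  have h1 : dij + (ti + tj) * bij = 0 := (mul_eq_zero.1 c).resolve_left hij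
  have h2 : dij = -(ti + tj) * bij := by linarith
  subst h2
  have h3 : (ti - tj) * ((ui + uj) * bij) = 0 := by linear_combination f
  have h4 := (mul_eq_zero.1 h3).resolve_left hij
  have h5 : ui + uj ≠ 0 := by
    intro h
    have h6 : ul = 0 := by linarith
    subst h6
    have h7 : uj = -ui := by linarith
    subst h7
    have h8 : (ti - tj) * ui = 0 := by linear_combination s4
    have h9 := (mul_eq_zero.1 h8).resolve_left hij
    subst h9
    norm_num at s5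
  have h6 := (mul_eq_zero.1 h4).resolve_left h5
  subst h6
  exact ⟨by ring, rfl⟩

theorem la_diag {t : Fin 3 → ℝ} {U D B : Matrix (Fin 3) (Fin 3) ℝ} (hU : Uᵀ = U) (hD : Dᵀ = D)
    (hB : Bᵀ = B) (hTU : Matrix.diagonal t * U = U * Matrix.diagonal t)
    (h1 : (Matrix.diagonal t).trace = 2) (h2 : (Matrix.diagonal t * Matrix.diagonal t).trace = 2)
    (h3 : U.trace = 0) (h4 : (Matrix.diagonal t * U).trace = 0) (h5 : (U * U).trace = 2 / 3)
    (hC1 : cm (Matrix.diagonal t) D + cm (Matrix.diagonal t * Matrix.diagonal t) B = 0)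
    (hC2 : cm U D + (2 : ℝ) • cm (Matrix.diagonal t * U) B = 0) :
    ∃ l : Fin 3, ∀ j, j ≠ l → D j l = 0 ∧ B j l = 0 := by
  have symU : ∀ i j, U i j = U j i := fun i j => congrFun (congrFun hU j) i
  have symD : ∀ i j, D i j = D j i := fun i j => congrFun (congrFun hD j) i
  have symB : ∀ i j, B i j = B j i := fun i j => congrFun (congrFun hB j) i
  have tu : ∀ i j, (t i - t j) * U i j = 0 := by
    intro i j
    have h := congrFun (congrFun hTU i) j
    rw [Matrix.diagonal_mul, Matrix.mul_diagonal] at h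
    linear_combination h
  have s1 : t 0 + t 1 + t 2 = 2 := by
    rw [Matrix.trace_diagonal, Fin.sum_univ_three] at h1
    exact h1
  have s2 : t 0 * t 0 + t 1 * t 1 + t 2 * t 2 = 2 := by
    rw [Matrix.diagonal_mul_diagonal, Matrix.trace_diagonal, Fin.sum_univ_three] at h2
    exact h2
  have s3 : U 0 0 + U 1 1 + U 2 2 = 0 := by
    rw [Matrix.trace, Fin.sum_univ_three] at h3
    exact h3
  have s4 : t 0 * U 0 0 + t 1 * U 1 1 + t 2 * U 2 2 = 0 := by
    rw [Matrix.trace, Fin.sum_univ_three] at h4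
    simpa [Matrix.diag, Matrix.diagonal_mul] using h4
  have s5 : U 0 0 * U 0 0 + U 1 1 * U 1 1 + U 2 2 * U 2 2 +
      2 * (U 0 1 * U 0 1 + U 0 2 * U 0 2 + U 1 2 * U 1 2) = 2 / 3 := by
    rw [Matrix.trace, Fin.sum_univ_three] at h5
    simp only [Matrix.diag, mul3] at h5
    rw [symU 1 0, symU 2 0, symU 2 1] at h5
    linarith
  have c1 : ∀ i j, (t i - t j) * (D i j + (t i + t j) * B i j) = 0 := by
    intro i j
    have h := congrFun (congrFun hC1 i) j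
    simp only [cm, Matrix.add_apply, Matrix.sub_apply, Matrix.diagonal_mul, Matrix.mul_diagonal,
      Matrix.diagonal_mul_diagonal, Matrix.zero_apply] at h
    linear_combination h
  have c2 : ∀ i j, (U i 0 * D 0 j - D i 0 * U 0 j + 2 * (t i * U i 0 * B 0 j - B i 0 * (t 0 * U 0 j))) +
      (U i 1 * D 1 j - D i 1 * U 1 j + 2 * (t i * U i 1 * B 1 j - B i 1 * (t 1 * U 1 j))) +
      (U i 2 * D 2 j - D i 2 * U 2 j + 2 * (t i * U i 2 * B 2 j - B i 2 * (t 2 * U 2 j))) = 0 := by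
    intro i j
    have h := congrFun (congrFun hC2 i) j
    simp only [cm, Matrix.add_apply, Matrix.sub_apply, Matrix.smul_apply, mul3 U D, mul3 D U,
      mul3 (Matrix.diagonal t * U) B, mul3 B (Matrix.diagonal t * U), Matrix.diagonal_mul,
      Matrix.zero_apply, smul_eq_mul] at h
    linear_combination h
  by_cases h01 : t 0 = t 1
  · -- l = 2
    have f1 := c2 0 2
    have f2 := c2 1 2
    rw [symD 1 0, symU 1 0, symB 1 0] at f2
    obtain ⟨a1, a2, a3, a4⟩ := LAdiag_B h01 s1 s2 s3 s4 s5 (tu 0 2) (tu 1 2) (c1 0 2) (c1 1 2) f1 f2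
    refine ⟨2, fun j hj => ?_⟩
    fin_cases j
    · exact ⟨a1, a2⟩
    · exact ⟨a3, a4⟩
    · exact absurd rfl hj
  by_cases h02 : t 0 = t 2
  · -- l = 1, i = 0, j = 2
    have f1 := c2 0 1
    have f2 := c2 2 1
    rw [symD 2 0, symU 2 0, symB 2 0] at f2
    obtain ⟨a1, a2, a3, a4⟩ := LAdiag_B (ti := t 0) (tj := t 2) (tl := t 1) (uii := U 0 0)
      (ujj := U 2 2) (ull := U 1 1) (uij := U 0 2) (uil := U 0 1) (ujl := U 2 1)
      (dii := D 0 0) (djj := D 2 2) (dll := D 1 1) (dij := D 0 2) (dil := D 0 1) (djl := D 2 1)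
      (bii := B 0 0) (bjj := B 2 2) (bll := B 1 1) (bij := B 0 2) (bil := B 0 1) (bjl := B 2 1)
      h02 (by linarith) (by linarith) (by linarith) (by linarith)
      (by rw [symU 2 1]; linarith) (tu 0 1) (tu 2 1) (c1 0 1) (c1 2 1)
      (by linarith) (by linarith)
    refine ⟨1, fun j hj => ?_⟩
    fin_cases j
    · exact ⟨a1, a2⟩
    · exact absurd rfl hj
    · exact ⟨a3, a4⟩
  by_cases h12 : t 1 = t 2
  · -- l = 0, i = 1, j = 2
    have f1 := c2 1 0
    have f2 := c2 2 0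
    rw [symD 2 1, symU 2 1, symB 2 1] at f2
    obtain ⟨a1, a2, a3, a4⟩ := LAdiag_B (ti := t 1) (tj := t 2) (tl := t 0) (uii := U 1 1)
      (ujj := U 2 2) (ull := U 0 0) (uij := U 1 2) (uil := U 1 0) (ujl := U 2 0)
      (dii := D 1 1) (djj := D 2 2) (dll := D 0 0) (dij := D 1 2) (dil := D 1 0) (djl := D 2 0)
      (bii := B 1 1) (bjj := B 2 2) (bll := B 0 0) (bij := B 1 2) (bil := B 1 0) (bjl := B 2 0)
      h12 (by linarith) (by linarith) (by linarith) (by linarith)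
      (by rw [symU 1 0, symU 2 0]; linarith) (tu 1 0) (tu 2 0) (c1 1 0) (c1 2 0)
      (by linarith) (by linarith)
    refine ⟨0, fun j hj => ?_⟩
    fin_cases j
    · exact absurd rfl hj
    · exact ⟨a1, a2⟩
    · exact ⟨a3, a4⟩
  -- all distinct
  have n10 : t 1 - t 0 ≠ 0 := fun h => h01 (by linarith)
  have n20 : t 2 - t 0 ≠ 0 := fun h => h02 (by linarith)
  have n12 : t 1 - t 2 ≠ 0 := fun h => h12 (by linarith)
  have n21 : t 2 - t 1 ≠ 0 := fun h => h12 (by linarith)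
  have z10 : U 1 0 = 0 := (mul_eq_zero.1 (tu 1 0)).resolve_left n10
  have z20 : U 2 0 = 0 := (mul_eq_zero.1 (tu 2 0)).resolve_left n20
  have z12 : U 1 2 = 0 := (mul_eq_zero.1 (tu 1 2)).resolve_left n12
  have z01 : U 0 1 = 0 := by rw [symU 0 1, z10]
  have z02 : U 0 2 = 0 := by rw [symU 0 2, z20]
  have z21 : U 2 1 = 0 := by rw [symU 2 1, z12]
  have s5' : U 0 0 * U 0 0 + U 1 1 * U 1 1 + U 2 2 * U 2 2 = 2 / 3 := by
    rw [z01, z02, z12] at s5
    linarith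
  have f10 := c2 1 0
  have f20 := c2 2 0
  rw [z10, z20, z12] at f10
  rw [z10, z20, z21] at f20
  obtain ⟨a1, a2⟩ := LAdiag_A (ti := t 1) (tj := t 0) (tl := t 2) (ui := U 1 1) (uj := U 0 0)
    (ul := U 2 2) (dij := D 1 0) (bij := B 1 0) n10 n12 (by linarith) (by linarith) (by linarith)
    (c1 1 0) (by linarith)
  obtain ⟨a3, a4⟩ := LAdiag_A (ti := t 2) (tj := t 0) (tl := t 1) (ui := U 2 2) (uj := U 0 0)
    (ul := U 1 1) (dij := D 2 0) (bij := B 2 0) n20 n21 (by linarith) (by linarith) (by linarith)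
    (c1 2 0) (by linarith)
  refine ⟨0, fun j hj => ?_⟩
  fin_cases j
  · exact absurd rfl hj
  · exact ⟨a1, a2⟩
  · exact ⟨a3, a4⟩

end G2F
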