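import Pool.Agent.G2F.LAdiag

/-! MODULE LAgen (diff 2): the general case.

Spectral theorem: `T` is symmetric, so there are an orthogonal `P` (`Pᵀ P = 1 = P Pᵀ`) and `t` with
`T = P diag(t) Pᵀ` (`Matrix.IsHermitian.spectral_theorem` over `ℝ`).  Put `U' = Pᵀ U P`, `D' = Pᵀ D P`,
`B' = Pᵀ B P`; all hypotheses carry over (`cm (Pᵀ X P) (Pᵀ Y P) = Pᵀ (cm X Y) P`, traces are invariant);
`la_diag` gives `l`; `f = P e_l` (the `l`-th column of `P`, nonzero) satisfies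
`D f = P D' e_l = D' l l • f`, `B f = B' l l • f`.
-/

namespace G2F

open scoped Matrix

/-- orthogonal diagonalization of a real symmetric matrix -/
theorem LAgen.exists_diag {T : Matrix (Fin 3) (Fin 3) ℝ} (hT : Tᵀ = T) :
    ∃ (P : Matrix (Fin 3) (Fin 3) ℝ) (t : Fin 3 → ℝ), Pᵀ * P = 1 ∧ P * Pᵀ = 1 ∧
      Pᵀ * T * P = Matrix.diagonal t := by
  have hH : T.IsHermitian := by
    rw [Matrix.IsHermitian, Matrix.conjTranspose_eq_transpose_of_trivial, hT]
  set Q : Matrix (Fin 3) (Fin 3) ℝ := (hH.eigenvectorUnitary : Matrix (Fin 3) (Fin 3) ℝ) with hQ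
  have hs : star Q = Qᵀ := by
    rw [Matrix.star_eq_conjTranspose, Matrix.conjTranspose_eq_transpose_of_trivial]
  have h1 : Qᵀ * Q = 1 := by
    rw [← hs, hQ]
    exact Unitary.coe_star_mul_self hH.eigenvectorUnitary
  have h2 : Q * Qᵀ = 1 := by
    rw [← hs, hQ]
    exact Unitary.coe_mul_star_self hH.eigenvectorUnitary
  refine ⟨Q, hH.eigenvalues, h1, h2, ?_⟩
  have h3 := hH.spectral_theorem
  rw [Unitary.conjStarAlgAut_apply] at h3
  have h4 : T = Q * Matrix.diagonal hH.eigenvalues * Qᵀ := by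
    rw [← hs]
    exact h3
  calc Qᵀ * T * Q = Qᵀ * (Q * Matrix.diagonal hH.eigenvalues * Qᵀ) * Q := by rw [← h4]
    _ = (Qᵀ * Q) * Matrix.diagonal hH.eigenvalues * (Qᵀ * Q) := by noncomm_ring
    _ = Matrix.diagonal hH.eigenvalues := by rw [h1, one_mul, mul_one]

theorem LAgen.conj_mul {P : Matrix (Fin 3) (Fin 3) ℝ} (h : P * Pᵀ = 1)
    (X Y : Matrix (Fin 3) (Fin 3) ℝ) : Pᵀ * X * P * (Pᵀ * Y * P) = Pᵀ * (X * Y) * P := by
  calc Pᵀ * X * P * (Pᵀ * Y * P) = Pᵀ * X * (P * Pᵀ) * Y * P := by noncomm_ring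
    _ = Pᵀ * (X * Y) * P := by rw [h, mul_one]; noncomm_ring

theorem LAgen.conj_trace {P : Matrix (Fin 3) (Fin 3) ℝ} (h : P * Pᵀ = 1)
    (X : Matrix (Fin 3) (Fin 3) ℝ) : (Pᵀ * X * P).trace = X.trace := by
  rw [Matrix.mul_assoc, Matrix.trace_mul_comm, Matrix.mul_assoc, h, mul_one]

theorem LAgen.conj_tr {P : Matrix (Fin 3) (Fin 3) ℝ}
    {X : Matrix (Fin 3) (Fin 3) ℝ} (hX : Xᵀ = X) : (Pᵀ * X * P)ᵀ = Pᵀ * X * P := by
  rw [Matrix.transpose_mul, Matrix.transpose_mul, Matrix.transpose_transpose, hX, Matrix.mul_assoc]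

theorem la_gen {T U D B : Matrix (Fin 3) (Fin 3) ℝ} (hT : Tᵀ = T) (hU : Uᵀ = U) (hD : Dᵀ = D)
    (hB : Bᵀ = B) (hTU : T * U = U * T) (h1 : T.trace = 2) (h2 : (T * T).trace = 2)
    (h3 : U.trace = 0) (h4 : (T * U).trace = 0) (h5 : (U * U).trace = 2 / 3)
    (hC1 : cm T D + cm (T * T) B = 0) (hC2 : cm U D + (2 : ℝ) • cm (T * U) B = 0) :
    ∃ f : Fin 3 → ℝ, f ≠ 0 ∧ (∃ a : ℝ, D *ᵥ f = a • f) ∧ ∃ b : ℝ, B *ᵥ f = b • f := by
  obtain ⟨P, t, hP1, hP2, hd⟩ := LAgen.exists_diag hT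
  have hm : ∀ X Y : Matrix (Fin 3) (Fin 3) ℝ, Pᵀ * X * P * (Pᵀ * Y * P) = Pᵀ * (X * Y) * P :=
    LAgen.conj_mul hP2
  have htr : ∀ X : Matrix (Fin 3) (Fin 3) ℝ, (Pᵀ * X * P).trace = X.trace := LAgen.conj_trace hP2
  have hcm : ∀ X Y : Matrix (Fin 3) (Fin 3) ℝ,
      cm (Pᵀ * X * P) (Pᵀ * Y * P) = Pᵀ * (cm X Y) * P := by
    intro X Y
    unfold cm
    rw [hm, hm]
    noncomm_ring
  obtain ⟨l, hl⟩ := la_diag (t := t) (U := Pᵀ * U * P) (D := Pᵀ * D * P) (B := Pᵀ * B * P)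
    (LAgen.conj_tr hU) (LAgen.conj_tr hD) (LAgen.conj_tr hB)
    (by rw [← hd, hm, hm, hTU]) (by rw [← hd, htr, h1]) (by rw [← hd, hm, htr, h2])
    (by rw [htr, h3]) (by rw [← hd, hm, htr, h4]) (by rw [hm, htr, h5])
    (by
      rw [← hd, hm, hcm, hcm, ← Matrix.add_mul, ← Matrix.mul_add, hC1, Matrix.mul_zero,
        Matrix.zero_mul])
    (by
      rw [← hd, hm, hcm, hcm]
      have : Pᵀ * cm U D * P + (2 : ℝ) • (Pᵀ * cm (T * U) B * P)
          = Pᵀ * (cm U D + (2 : ℝ) • cm (T * U) B) * P := by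
        rw [Matrix.mul_add, Matrix.add_mul, Matrix.mul_smul, Matrix.smul_mul]
      rw [this, hC2, Matrix.mul_zero, Matrix.zero_mul])
  have key : ∀ X : Matrix (Fin 3) (Fin 3) ℝ, (∀ j, j ≠ l → (Pᵀ * X * P) j l = 0) →
      X *ᵥ (P *ᵥ Pi.single l 1) = ((Pᵀ * X * P) l l) • (P *ᵥ Pi.single l 1) := by
    intro X hX
    have e1 : (Pᵀ * X * P) *ᵥ Pi.single l (1 : ℝ) = ((Pᵀ * X * P) l l) • Pi.single l (1 : ℝ) := by
      rw [Matrix.mulVec_single_one]
      funext j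
      by_cases hj : j = l
      · subst hj
        simp [Matrix.col]
      · simp [Matrix.col, hX j hj, hj]
    calc X *ᵥ (P *ᵥ Pi.single l 1) = (P * Pᵀ) *ᵥ (X *ᵥ (P *ᵥ Pi.single l 1)) := by
          rw [hP2, Matrix.one_mulVec]
      _ = P *ᵥ ((Pᵀ * X * P) *ᵥ Pi.single l (1 : ℝ)) := by
          simp only [Matrix.mulVec_mulVec, Matrix.mul_assoc]
      _ = P *ᵥ (((Pᵀ * X * P) l l) • Pi.single l (1 : ℝ)) := by rw [e1]
      _ = ((Pᵀ * X * P) l l) • (P *ᵥ Pi.single l 1) := by rw [Matrix.mulVec_smul]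
  refine ⟨P *ᵥ Pi.single l 1, ?_, ⟨_, key D fun j hj => (hl j hj).1⟩,
    ⟨_, key B fun j hj => (hl j hj).2⟩⟩
  intro h0
  have h6 : Pᵀ *ᵥ (P *ᵥ Pi.single l (1 : ℝ)) = 0 := by rw [h0, Matrix.mulVec_zero]
  rw [Matrix.mulVec_mulVec, hP1, Matrix.one_mulVec] at h6
  have h7 := congrFun h6 l
  simp at h7

/-- `Dm` and `Bm` have no common eigenvector: `Dm f = a f` and `f ≠ 0` force `f` to be a multiple of a
basis vector `e_m`, and `Bm e_m = (1,1,1)`. -/
theorem la_no {f : Fin 3 → ℝ} (hf : f ≠ 0) {a b : ℝ} (h1 : Dm *ᵥ f = a • f)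
    (h2 : Bm *ᵥ f = b • f) : False := by
  have e0 : f 0 = a * f 0 := by
    have := congrFun h1 0
    simp only [Dm, Matrix.mulVec, dotProduct, Fin.sum_univ_three, Pi.smul_apply, smul_eq_mul] at this
    simpa using this
  have e1 : 0 = a * f 1 := by
    have := congrFun h1 1
    simp only [Dm, Matrix.mulVec, dotProduct, Fin.sum_univ_three, Pi.smul_apply, smul_eq_mul] at this
    have h : (0 : ℝ) * f 0 + 0 * f 1 + 0 * f 2 = a * f 1 := this
    linarith
  have e2 : -f 2 = a * f 2 := by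
    have := congrFun h1 2
    simp only [Dm, Matrix.mulVec, dotProduct, Fin.sum_univ_three, Pi.smul_apply, smul_eq_mul] at this
    have h : (0 : ℝ) * f 0 + 0 * f 1 + (-1) * f 2 = a * f 2 := this
    linarith
  have g : ∀ i, f 0 + f 1 + f 2 = b * f i := by
    intro i
    have := congrFun h2 i
    simp only [Matrix.mulVec, dotProduct, Fin.sum_univ_three, Pi.smul_apply, smul_eq_mul] at this
    have hB : ∀ i j, Bm i j = 1 := by
      intro i j
      fin_cases i <;> fin_cases j <;> rfl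
    rw [hB, hB, hB] at this
    linarith
  have g0 := g 0
  have g1 := g 1
  have g2' := g 2
  apply hf
  have hs : f 0 = 0 ∧ f 1 = 0 ∧ f 2 = 0 := by
    by_cases z0 : f 0 = 0
    · by_cases z1 : f 1 = 0
      · refine ⟨z0, z1, ?_⟩
        rw [z0, mul_zero, z1] at g0
        linarith
      · have s0 : f 0 + f 1 + f 2 = 0 := by rw [g0, z0, mul_zero]
        have a0 : a = 0 := by
          rcases mul_eq_zero.1 e1.symm with h | h
          · exact h
          · exact absurd h z1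
        rw [a0, zero_mul] at e2
        exfalso
        apply z1
        linarith
    · have a1 : a = 1 := by
        have : (a - 1) * f 0 = 0 := by linarith
        rcases mul_eq_zero.1 this with h | h
        · linarith
        · exact absurd h z0
      rw [a1, one_mul] at e1 e2
      have z2 : f 2 = 0 := by linarith
      rw [z2, mul_zero] at g2'
      exact ⟨by linarith, by linarith, z2⟩
  funext i
  fin_cases i
  · exact hs.1
  · exact hs.2.1
  · exact hs.2.2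

end G2F
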