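import Pool.Agent.G2F.Norm
import Pool.Agent.G2F.Defs3

/-! MODULE Span (diff 2): the quaternionic line argument.

`act_m := g2.act (e_m)` (`m = 0,1,2`, `e_m` the basis of `E3`).  On `𝔭` (`InP`): `⟪act_m x, act_n y⟫` is
`⟪x, y⟫` for `m = n` and `± ⟪act_l x, y⟫` for `{l,m,n} = {0,1,2}` (polynomial identities);
`⟪act_m x, y⟫ = (mh x y)_m` (`g2_mh_eq`).
So, for orthonormal `ξ, σ ∈ 𝔭` with `mh ξ σ = 0`, the eight vectors `ξ, act_m ξ, σ, act_m σ` are orthonormal,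
lie in `𝔭`, and together with `em 0, em 1, em 2` they are an orthonormal basis of `V11`
(11 = finrank; e.g. `basisOfOrthonormalOfCardEqFinrank`, `Orthonormal` of a family indexed by `Fin 11`;
or: the vector `W' = W - ⟪ξ,W⟫ξ - ⟪σ,W⟫σ` is orthogonal to all of them; if `W' ≠ 0` there would be 12
orthogonal nonzero vectors).  `⟪act_m ξ, W⟫ = (mh ξ W)_m = 0`, `⟪act_m σ, W⟫ = 0`, `⟪em m, W⟫ = 0`.
-/

namespace G2F

open HFinG
open scoped RealInnerProductSpace Matrix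

/-- the quaternionic structure -/
noncomputable def Span_J : Fin 4 → V11 → V11 := fun a x =>
  ![x, !₂[0, 0, 0, -x 4, x 3, -x 6, x 5, -x 8, x 7, -x 10, x 9],
    !₂[0, 0, 0, -x 5, x 6, x 3, -x 4, -x 9, x 10, x 7, -x 8],
    !₂[0, 0, 0, -x 6, -x 5, x 4, x 3, -x 10, -x 9, x 8, x 7]] a

/-- the table of the inner products -/
noncomputable def Span_T (x y : V11) : Fin 4 → Fin 4 → ℝ := fun a b =>
  ![![⟪x, y⟫, -mh0 x y, -mh1 x y, -mh2 x y], ![mh0 x y, ⟪x, y⟫, mh2 x y, -mh1 x y],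
    ![mh1 x y, -mh2 x y, ⟪x, y⟫, mh0 x y], ![mh2 x y, mh1 x y, -mh0 x y, ⟪x, y⟫]] a b

theorem Span_tab {x : V11} (px : InP x) (y : V11) (a b : Fin 4) :
    ⟪Span_J a x, Span_J b y⟫ = Span_T x y a b := by
  obtain ⟨p0, p1, p2⟩ := px
  fin_cases a <;> fin_cases b
  · rfl
  · change ⟪x, (!₂[0, 0, 0, -y 4, y 3, -y 6, y 5, -y 8, y 7, -y 10, y 9] : V11)⟫ = -mh0 x y
    rw [inner11]
    change x 0 * 0 + x 1 * 0 + x 2 * 0 + x 3 * (-y 4) + x 4 * y 3 + x 5 * (-y 6) + x 6 * y 5 +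
      x 7 * (-y 8) + x 8 * y 7 + x 9 * (-y 10) + x 10 * y 9 = _
    simp only [mh0, w]
    ring
  · change ⟪x, (!₂[0, 0, 0, -y 5, y 6, y 3, -y 4, -y 9, y 10, y 7, -y 8] : V11)⟫ = -mh1 x y
    rw [inner11]
    change x 0 * 0 + x 1 * 0 + x 2 * 0 + x 3 * (-y 5) + x 4 * y 6 + x 5 * y 3 + x 6 * (-y 4) +
      x 7 * (-y 9) + x 8 * y 10 + x 9 * y 7 + x 10 * (-y 8) = _
    simp only [mh1, w]
    ring
  · change ⟪x, (!₂[0, 0, 0, -y 6, -y 5, y 4, y 3, -y 10, -y 9, y 8, y 7] : V11)⟫ = -mh2 x y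
    rw [inner11]
    change x 0 * 0 + x 1 * 0 + x 2 * 0 + x 3 * (-y 6) + x 4 * (-y 5) + x 5 * y 4 + x 6 * y 3 +
      x 7 * (-y 10) + x 8 * (-y 9) + x 9 * y 8 + x 10 * y 7 = _
    simp only [mh2, w]
    ring
  · change ⟪(!₂[0, 0, 0, -x 4, x 3, -x 6, x 5, -x 8, x 7, -x 10, x 9] : V11), y⟫ = mh0 x y
    rw [inner11]
    change 0 * y 0 + 0 * y 1 + 0 * y 2 + (-x 4) * y 3 + x 3 * y 4 + (-x 6) * y 5 + x 5 * y 6 +
      (-x 8) * y 7 + x 7 * y 8 + (-x 10) * y 9 + x 9 * y 10 = _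
    simp only [mh0, w]
    ring
  · change ⟪(!₂[0, 0, 0, -x 4, x 3, -x 6, x 5, -x 8, x 7, -x 10, x 9] : V11),
      (!₂[0, 0, 0, -y 4, y 3, -y 6, y 5, -y 8, y 7, -y 10, y 9] : V11)⟫ = ⟪x, y⟫
    rw [inner11, inner11, p0, p1, p2]
    change 0 * 0 + 0 * 0 + 0 * 0 + (-x 4) * (-y 4) + x 3 * y 3 + (-x 6) * (-y 6) + x 5 * y 5 +
      (-x 8) * (-y 8) + x 7 * y 7 + (-x 10) * (-y 10) + x 9 * y 9 = _
    ring
  · change ⟪(!₂[0, 0, 0, -x 4, x 3, -x 6, x 5, -x 8, x 7, -x 10, x 9] : V11),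
      (!₂[0, 0, 0, -y 5, y 6, y 3, -y 4, -y 9, y 10, y 7, -y 8] : V11)⟫ = mh2 x y
    rw [inner11]
    change 0 * 0 + 0 * 0 + 0 * 0 + (-x 4) * (-y 5) + x 3 * y 6 + (-x 6) * y 3 + x 5 * (-y 4) +
      (-x 8) * (-y 9) + x 7 * y 10 + (-x 10) * y 7 + x 9 * (-y 8) = _
    simp only [mh2, w]
    ring
  · change ⟪(!₂[0, 0, 0, -x 4, x 3, -x 6, x 5, -x 8, x 7, -x 10, x 9] : V11),
      (!₂[0, 0, 0, -y 6, -y 5, y 4, y 3, -y 10, -y 9, y 8, y 7] : V11)⟫ = -mh1 x y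
    rw [inner11]
    change 0 * 0 + 0 * 0 + 0 * 0 + (-x 4) * (-y 6) + x 3 * (-y 5) + (-x 6) * y 4 + x 5 * y 3 +
      (-x 8) * (-y 10) + x 7 * (-y 9) + (-x 10) * y 8 + x 9 * y 7 = _
    simp only [mh1, w]
    ring
  · change ⟪(!₂[0, 0, 0, -x 5, x 6, x 3, -x 4, -x 9, x 10, x 7, -x 8] : V11), y⟫ = mh1 x y
    rw [inner11]
    change 0 * y 0 + 0 * y 1 + 0 * y 2 + (-x 5) * y 3 + x 6 * y 4 + x 3 * y 5 + (-x 4) * y 6 +
      (-x 9) * y 7 + x 10 * y 8 + x 7 * y 9 + (-x 8) * y 10 = _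
    simp only [mh1, w]
    ring
  · change ⟪(!₂[0, 0, 0, -x 5, x 6, x 3, -x 4, -x 9, x 10, x 7, -x 8] : V11),
      (!₂[0, 0, 0, -y 4, y 3, -y 6, y 5, -y 8, y 7, -y 10, y 9] : V11)⟫ = -mh2 x y
    rw [inner11]
    change 0 * 0 + 0 * 0 + 0 * 0 + (-x 5) * (-y 4) + x 6 * y 3 + x 3 * (-y 6) + (-x 4) * y 5 +
      (-x 9) * (-y 8) + x 10 * y 7 + x 7 * (-y 10) + (-x 8) * y 9 = _
    simp only [mh2, w]
    ring
  · change ⟪(!₂[0, 0, 0, -x 5, x 6, x 3, -x 4, -x 9, x 10, x 7, -x 8] : V11),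
      (!₂[0, 0, 0, -y 5, y 6, y 3, -y 4, -y 9, y 10, y 7, -y 8] : V11)⟫ = ⟪x, y⟫
    rw [inner11, inner11, p0, p1, p2]
    change 0 * 0 + 0 * 0 + 0 * 0 + (-x 5) * (-y 5) + x 6 * y 6 + x 3 * y 3 + (-x 4) * (-y 4) +
      (-x 9) * (-y 9) + x 10 * y 10 + x 7 * y 7 + (-x 8) * (-y 8) = _
    ring
  · change ⟪(!₂[0, 0, 0, -x 5, x 6, x 3, -x 4, -x 9, x 10, x 7, -x 8] : V11),
      (!₂[0, 0, 0, -y 6, -y 5, y 4, y 3, -y 10, -y 9, y 8, y 7] : V11)⟫ = mh0 x y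
    rw [inner11]
    change 0 * 0 + 0 * 0 + 0 * 0 + (-x 5) * (-y 6) + x 6 * (-y 5) + x 3 * y 4 + (-x 4) * y 3 +
      (-x 9) * (-y 10) + x 10 * (-y 9) + x 7 * y 8 + (-x 8) * y 7 = _
    simp only [mh0, w]
    ring
  · change ⟪(!₂[0, 0, 0, -x 6, -x 5, x 4, x 3, -x 10, -x 9, x 8, x 7] : V11), y⟫ = mh2 x y
    rw [inner11]
    change 0 * y 0 + 0 * y 1 + 0 * y 2 + (-x 6) * y 3 + (-x 5) * y 4 + x 4 * y 5 + x 3 * y 6 +
      (-x 10) * y 7 + (-x 9) * y 8 + x 8 * y 9 + x 7 * y 10 = _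
    simp only [mh2, w]
    ring
  · change ⟪(!₂[0, 0, 0, -x 6, -x 5, x 4, x 3, -x 10, -x 9, x 8, x 7] : V11),
      (!₂[0, 0, 0, -y 4, y 3, -y 6, y 5, -y 8, y 7, -y 10, y 9] : V11)⟫ = mh1 x y
    rw [inner11]
    change 0 * 0 + 0 * 0 + 0 * 0 + (-x 6) * (-y 4) + (-x 5) * y 3 + x 4 * (-y 6) + x 3 * y 5 +
      (-x 10) * (-y 8) + (-x 9) * y 7 + x 8 * (-y 10) + x 7 * y 9 = _
    simp only [mh1, w]
    ring
  · change ⟪(!₂[0, 0, 0, -x 6, -x 5, x 4, x 3, -x 10, -x 9, x 8, x 7] : V11),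
      (!₂[0, 0, 0, -y 5, y 6, y 3, -y 4, -y 9, y 10, y 7, -y 8] : V11)⟫ = -mh0 x y
    rw [inner11]
    change 0 * 0 + 0 * 0 + 0 * 0 + (-x 6) * (-y 5) + (-x 5) * y 6 + x 4 * y 3 + x 3 * (-y 4) +
      (-x 10) * (-y 9) + (-x 9) * y 10 + x 8 * y 7 + x 7 * (-y 8) = _
    simp only [mh0, w]
    ring
  · change ⟪(!₂[0, 0, 0, -x 6, -x 5, x 4, x 3, -x 10, -x 9, x 8, x 7] : V11),
      (!₂[0, 0, 0, -y 6, -y 5, y 4, y 3, -y 10, -y 9, y 8, y 7] : V11)⟫ = ⟪x, y⟫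
    rw [inner11, inner11, p0, p1, p2]
    change 0 * 0 + 0 * 0 + 0 * 0 + (-x 6) * (-y 6) + (-x 5) * (-y 5) + x 4 * y 4 + x 3 * y 3 +
      (-x 10) * (-y 10) + (-x 9) * (-y 9) + x 8 * y 8 + x 7 * y 7 = _
    ring

theorem Span_InP {x : V11} (px : InP x) (a : Fin 4) : InP (Span_J a x) := by
  fin_cases a
  · exact px
  · exact ⟨rfl, rfl, rfl⟩
  · exact ⟨rfl, rfl, rfl⟩
  · exact ⟨rfl, rfl, rfl⟩

theorem Span_em {x : V11} (px : InP x) (m : Fin 3) : ⟪x, em m⟫ = 0 := by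
  obtain ⟨p0, p1, p2⟩ := px
  fin_cases m
  · change ⟪x, (EuclideanSpace.single 0 1 : V11)⟫ = 0
    rw [EuclideanSpace.inner_single_right]
    simpa using p0
  · change ⟪x, (EuclideanSpace.single 1 1 : V11)⟫ = 0
    rw [EuclideanSpace.inner_single_right]
    simpa using p1
  · change ⟪x, (EuclideanSpace.single 2 1 : V11)⟫ = 0
    rw [EuclideanSpace.inner_single_right]
    simpa using p2

theorem Span_emem (m n : Fin 3) : ⟪em m, em n⟫ = if m = n then (1 : ℝ) else 0 := by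
  have h : ∀ m : Fin 3, em m = EuclideanSpace.single (Fin.castLE (by norm_num : 3 ≤ 11) m) 1 := by
    intro m
    fin_cases m <;> rfl
  rw [h m, h n, EuclideanSpace.inner_single_left, PiLp.single_apply]
  fin_cases m <;> fin_cases n <;> simp

theorem Span_self (x : V11) : mh0 x x = 0 ∧ mh1 x x = 0 ∧ mh2 x x = 0 := by
  simp only [mh0, mh1, mh2, w]
  refine ⟨by ring, by ring, by ring⟩

theorem Span_anti (x y : V11) : mh0 x y = -mh0 y x ∧ mh1 x y = -mh1 y x ∧ mh2 x y = -mh2 y x := by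
  simp only [mh0, mh1, mh2, w]
  refine ⟨by ring, by ring, by ring⟩

theorem Span_mh {x y : V11} (h : g2.mh x y = 0) : mh0 x y = 0 ∧ mh1 x y = 0 ∧ mh2 x y = 0 := by
  rw [g2_mh] at h
  refine ⟨?_, ?_, ?_⟩
  · rw [← mhF_0, h]; rfl
  · rw [← mhF_1, h]; rfl
  · rw [← mhF_2, h]; rfl

theorem Span_diag {x : V11} (px : InP x) (hx : ‖x‖ = 1) (a b : Fin 4) :
    ⟪Span_J a x, Span_J b x⟫ = if a = b then (1 : ℝ) else 0 := by
  rw [Span_tab px]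
  obtain ⟨h0, h1, h2⟩ := Span_self x
  have h3 : ⟪x, x⟫ = (1 : ℝ) := by rw [real_inner_self_eq_norm_sq, hx]; norm_num
  unfold Span_T
  rw [h0, h1, h2, h3]
  fin_cases a <;> fin_cases b <;> simp

theorem Span_off {x y : V11} (px : InP x) (ho : ⟪x, y⟫ = 0) (hh : g2.mh x y = 0) (a b : Fin 4) :
    ⟪Span_J a x, Span_J b y⟫ = 0 := by
  rw [Span_tab px]
  obtain ⟨h0, h1, h2⟩ := Span_mh hh
  unfold Span_T
  rw [h0, h1, h2, ho]
  fin_cases a <;> fin_cases b <;> simp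

theorem span_of {ξ σ W : V11} (hξ : ‖ξ‖ = 1) (hσ : ‖σ‖ = 1) (ho : ⟪ξ, σ⟫ = 0)
    (pξ : InP ξ) (pσ : InP σ) (pW : InP W) (hh : g2.mh ξ σ = 0)
    (h1 : g2.mh W ξ = 0) (h2 : g2.mh W σ = 0) : W = ⟪ξ, W⟫ • ξ + ⟪σ, W⟫ • σ := by
  set v : Fin 4 ⊕ Fin 4 ⊕ Fin 3 → V11 :=
    Sum.elim (fun a => Span_J a ξ) (Sum.elim (fun a => Span_J a σ) em) with hv
  have hon : Orthonormal ℝ v := by
    rw [orthonormal_iff_ite]
    rintro (a | a | a) (b | b | b)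
    · change ⟪Span_J a ξ, Span_J b ξ⟫ = _
      rw [Span_diag pξ hξ]
      simp
    · change ⟪Span_J a ξ, Span_J b σ⟫ = _
      rw [Span_off pξ ho hh]
      simp
    · change ⟪Span_J a ξ, em b⟫ = _
      rw [Span_em (Span_InP pξ a)]
      simp
    · change ⟪Span_J a σ, Span_J b ξ⟫ = _
      rw [real_inner_comm, Span_off pξ ho hh]
      simp
    · change ⟪Span_J a σ, Span_J b σ⟫ = _
      rw [Span_diag pσ hσ]
      simp
    · change ⟪Span_J a σ, em b⟫ = _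
      rw [Span_em (Span_InP pσ a)]
      simp
    · change ⟪em a, Span_J b ξ⟫ = _
      rw [real_inner_comm, Span_em (Span_InP pξ b)]
      simp
    · change ⟪em a, Span_J b σ⟫ = _
      rw [real_inner_comm, Span_em (Span_InP pσ b)]
      simp
    · change ⟪em a, em b⟫ = _
      rw [Span_emem]
      simp
  have hcard : Fintype.card (Fin 4 ⊕ Fin 4 ⊕ Fin 3) = Module.finrank ℝ V11 := by simp
  set b := (basisOfOrthonormalOfCardEqFinrank hon hcard).toOrthonormalBasis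
    (by rw [coe_basisOfOrthonormalOfCardEqFinrank]; exact hon) with hb
  have hbv : ∀ i, b i = v i := by
    intro i
    rw [hb, Module.Basis.coe_toOrthonormalBasis, coe_basisOfOrthonormalOfCardEqFinrank]
  have hsum := b.sum_repr' W
  simp only [hbv] at hsum
  rw [Fintype.sum_sum_type, Fintype.sum_sum_type] at hsum
  have hJ : ∀ {x : V11}, InP x → g2.mh W x = 0 →
      ∑ a : Fin 4, ⟪Span_J a x, W⟫ • Span_J a x = ⟪x, W⟫ • x := by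
    intro x px hx
    obtain ⟨e0, e1, e2⟩ := Span_mh hx
    obtain ⟨a0, a1, a2⟩ := Span_anti x W
    rw [e0, neg_zero] at a0
    rw [e1, neg_zero] at a1
    rw [e2, neg_zero] at a2
    have t : ∀ a, ⟪Span_J a x, W⟫ = Span_T x W a 0 := fun a => Span_tab px W a 0
    simp only [t]
    rw [Fin.sum_univ_four]
    change ⟪x, W⟫ • x + mh0 x W • _ + mh1 x W • _ + mh2 x W • _ = _
    rw [a0, a1, a2, zero_smul, zero_smul, zero_smul, add_zero, add_zero, add_zero]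
  have hE : ∑ m : Fin 3, ⟪em m, W⟫ • em m = 0 := by
    refine Finset.sum_eq_zero fun m _ => ?_
    rw [real_inner_comm, Span_em pW, zero_smul]
  have hS : (∑ a : Fin 4, ⟪v (Sum.inl a), W⟫ • v (Sum.inl a)) = ⟪ξ, W⟫ • ξ := hJ pξ h1
  have hS2 : (∑ a : Fin 4, ⟪v (Sum.inr (Sum.inl a)), W⟫ • v (Sum.inr (Sum.inl a))) = ⟪σ, W⟫ • σ :=
    hJ pσ h2
  have hS3 : (∑ a : Fin 3, ⟪v (Sum.inr (Sum.inr a)), W⟫ • v (Sum.inr (Sum.inr a))) = 0 := hE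
  rw [hS, hS2, hS3, add_zero] at hsum
  exact hsum.symm

end G2F
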