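import Pool.Agent.G2F.Defs3

/-! MODULE Quart: polynomial identities (generated). -/

namespace G2F

open HFinG
open scoped RealInnerProductSpace Matrix

set_option linter.unusedSimpArgs false

theorem normSq11 (x : V11) : ‖x‖ ^ 2 = x 0 ^ 2 + x 1 ^ 2 + x 2 ^ 2 + x 3 ^ 2 + x 4 ^ 2 + x 5 ^ 2
    + x 6 ^ 2 + x 7 ^ 2 + x 8 ^ 2 + x 9 ^ 2 + x 10 ^ 2 := by
  rw [← real_inner_self_eq_norm_sq, inner11]
  ring

theorem trace7 (M : Matrix (Fin 7) (Fin 7) ℝ) : M.trace = M 0 0 + M 1 1 + M 2 2 + M 3 3 + M 4 4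
    + M 5 5 + M 6 6 := by
  rw [Matrix.trace, Fin.sum_univ_seven]
  rfl

theorem trace3 (M : Matrix (Fin 3) (Fin 3) ℝ) : M.trace = M 0 0 + M 1 1 + M 2 2 := by
  rw [Matrix.trace, Fin.sum_univ_three]
  rfl

theorem sq_00 (x : V11) : (iota x * iota x) 0 0 =
    -(4 / 3) * x 1 * x 1 - (4 / 3) * x 10 * x 10 - (4 / 3) * x 2 * x 2 - (4 / 3) * x 7 * x 7 - (4 / 3) * x 8 * x 8 - (4 / 3) * x 9 * x 9 := by
  rw [mul7]
  change 0 * 0 + (-(2 * k * x 2)) * (2 * k * x 2) + (2 * k * x 1) * (-(2 * k * x 1)) + (2 * k * x 9) * (-(2 * k * x 9)) + (2 * k * x 10) * (-(2 * k * x 10)) + (-(2 * k * x 7)) * (2 * k * x 7) + (-(2 * k * x 8)) * (2 * k * x 8) = _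
  linear_combination (-4 * x 1 * x 1 - 4 * x 10 * x 10 - 4 * x 2 * x 2 - 4 * x 7 * x 7 - 4 * x 8 * x 8 - 4 * x 9 * x 9) * k_sq'

theorem sq_01 (x : V11) : (iota x * iota x) 0 1 =
    2 * k * x 10 * x 4 + 2 * k * x 3 * x 9 - 2 * k * x 5 * x 7 - 2 * k * x 6 * x 8 + (4 / 3) * x 0 * x 1 := by
  rw [mul7]
  change 0 * (-(2 * k * x 2)) + (-(2 * k * x 2)) * 0 + (2 * k * x 1) * (2 * k * x 0) + (2 * k * x 9) * (x 3 - k * x 8) + (2 * k * x 10) * (x 4 + k * x 7) + (-(2 * k * x 7)) * (x 5 + k * x 10) + (-(2 * k * x 8)) * (x 6 - k * x 9) = _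
  linear_combination (4 * x 0 * x 1) * k_sq'

theorem sq_02 (x : V11) : (iota x * iota x) 0 2 =
    2 * k * x 10 * x 3 - 2 * k * x 4 * x 9 + 2 * k * x 5 * x 8 - 2 * k * x 6 * x 7 + (4 / 3) * x 0 * x 2 := by
  rw [mul7]
  change 0 * (2 * k * x 1) + (-(2 * k * x 2)) * (-(2 * k * x 0)) + (2 * k * x 1) * 0 + (2 * k * x 9) * (-x 4 + k * x 7) + (2 * k * x 10) * (x 3 + k * x 8) + (-(2 * k * x 7)) * (x 6 + k * x 9) + (-(2 * k * x 8)) * (-x 5 + k * x 10) = _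
  linear_combination (4 * x 0 * x 2) * k_sq'

theorem sq_03 (x : V11) : (iota x * iota x) 0 3 =
    2 * k * x 1 * x 4 + 2 * k * x 2 * x 3 - (2 / 3) * x 0 * x 10 := by
  rw [mul7]
  change 0 * (2 * k * x 9) + (-(2 * k * x 2)) * (-x 3 + k * x 8) + (2 * k * x 1) * (x 4 - k * x 7) + (2 * k * x 9) * 0 + (2 * k * x 10) * (-(k * x 0)) + (-(2 * k * x 7)) * (-(k * x 1)) + (-(2 * k * x 8)) * (-(k * x 2)) = _
  linear_combination (-2 * x 0 * x 10) * k_sq'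

theorem sq_04 (x : V11) : (iota x * iota x) 0 4 =
    -2 * k * x 1 * x 3 + 2 * k * x 2 * x 4 + (2 / 3) * x 0 * x 9 := by
  rw [mul7]
  change 0 * (2 * k * x 10) + (-(2 * k * x 2)) * (-x 4 - k * x 7) + (2 * k * x 1) * (-x 3 - k * x 8) + (2 * k * x 9) * (k * x 0) + (2 * k * x 10) * 0 + (-(2 * k * x 7)) * (k * x 2) + (-(2 * k * x 8)) * (-(k * x 1)) = _
  linear_combination (2 * x 0 * x 9) * k_sq'

theorem sq_05 (x : V11) : (iota x * iota x) 0 5 =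
    -2 * k * x 1 * x 6 + 2 * k * x 2 * x 5 - (2 / 3) * x 0 * x 8 := by
  rw [mul7]
  change 0 * (-(2 * k * x 7)) + (-(2 * k * x 2)) * (-x 5 - k * x 10) + (2 * k * x 1) * (-x 6 - k * x 9) + (2 * k * x 9) * (k * x 1) + (2 * k * x 10) * (-(k * x 2)) + (-(2 * k * x 7)) * 0 + (-(2 * k * x 8)) * (k * x 0) = _
  linear_combination (-2 * x 0 * x 8) * k_sq'

theorem sq_06 (x : V11) : (iota x * iota x) 0 6 =
    2 * k * x 1 * x 5 + 2 * k * x 2 * x 6 + (2 / 3) * x 0 * x 7 := by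
  rw [mul7]
  change 0 * (-(2 * k * x 8)) + (-(2 * k * x 2)) * (-x 6 + k * x 9) + (2 * k * x 1) * (x 5 - k * x 10) + (2 * k * x 9) * (k * x 2) + (2 * k * x 10) * (k * x 1) + (-(2 * k * x 7)) * (-(k * x 0)) + (-(2 * k * x 8)) * 0 = _
  linear_combination (2 * x 0 * x 7) * k_sq'

theorem sq_10 (x : V11) : (iota x * iota x) 1 0 =
    2 * k * x 10 * x 4 + 2 * k * x 3 * x 9 - 2 * k * x 5 * x 7 - 2 * k * x 6 * x 8 + (4 / 3) * x 0 * x 1 := by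
  rw [mul7]
  change (2 * k * x 2) * 0 + 0 * (2 * k * x 2) + (-(2 * k * x 0)) * (-(2 * k * x 1)) + (-x 3 + k * x 8) * (-(2 * k * x 9)) + (-x 4 - k * x 7) * (-(2 * k * x 10)) + (-x 5 - k * x 10) * (2 * k * x 7) + (-x 6 + k * x 9) * (2 * k * x 8) = _
  linear_combination (4 * x 0 * x 1) * k_sq'

theorem sq_11 (x : V11) : (iota x * iota x) 1 1 =
    -2 * k * x 10 * x 5 + 2 * k * x 3 * x 8 - 2 * k * x 4 * x 7 + 2 * k * x 6 * x 9 - (4 / 3) * x 0 * x 0 - (1 / 3) * x 10 * x 10 - (4 / 3) * x 2 * x 2 - x 3 * x 3 - x 4 * x 4 - x 5 * x 5 - x 6 * x 6 - (1 / 3) * x 7 * x 7 - (1 / 3) * x 8 * x 8 - (1 / 3) * x 9 * x 9 := by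
  rw [mul7]
  change (2 * k * x 2) * (-(2 * k * x 2)) + 0 * 0 + (-(2 * k * x 0)) * (2 * k * x 0) + (-x 3 + k * x 8) * (x 3 - k * x 8) + (-x 4 - k * x 7) * (x 4 + k * x 7) + (-x 5 - k * x 10) * (x 5 + k * x 10) + (-x 6 + k * x 9) * (x 6 - k * x 9) = _
  linear_combination (-4 * x 0 * x 0 - x 10 * x 10 - 4 * x 2 * x 2 - x 7 * x 7 - x 8 * x 8 - x 9 * x 9) * k_sq'

theorem sq_12 (x : V11) : (iota x * iota x) 1 2 =
    -2 * k * x 10 * x 6 - 2 * k * x 3 * x 7 - 2 * k * x 4 * x 8 - 2 * k * x 5 * x 9 + (4 / 3) * x 1 * x 2 := by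
  rw [mul7]
  change (2 * k * x 2) * (2 * k * x 1) + 0 * (-(2 * k * x 0)) + (-(2 * k * x 0)) * 0 + (-x 3 + k * x 8) * (-x 4 + k * x 7) + (-x 4 - k * x 7) * (x 3 + k * x 8) + (-x 5 - k * x 10) * (x 6 + k * x 9) + (-x 6 + k * x 9) * (-x 5 + k * x 10) = _
  linear_combination (4 * x 1 * x 2) * k_sq'

theorem sq_13 (x : V11) : (iota x * iota x) 1 3 =
    -k * x 0 * x 4 + k * x 1 * x 5 + k * x 2 * x 6 + x 0 * x 7 + (1 / 3) * x 1 * x 10 + x 2 * x 9 := by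
  rw [mul7]
  change (2 * k * x 2) * (2 * k * x 9) + 0 * (-x 3 + k * x 8) + (-(2 * k * x 0)) * (x 4 - k * x 7) + (-x 3 + k * x 8) * 0 + (-x 4 - k * x 7) * (-(k * x 0)) + (-x 5 - k * x 10) * (-(k * x 1)) + (-x 6 + k * x 9) * (-(k * x 2)) = _
  linear_combination (3 * x 0 * x 7 + x 1 * x 10 + 3 * x 2 * x 9) * k_sq'

theorem sq_14 (x : V11) : (iota x * iota x) 1 4 =
    k * x 0 * x 3 + k * x 1 * x 6 - k * x 2 * x 5 + x 0 * x 8 - (1 / 3) * x 1 * x 9 + x 10 * x 2 := by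
  rw [mul7]
  change (2 * k * x 2) * (2 * k * x 10) + 0 * (-x 4 - k * x 7) + (-(2 * k * x 0)) * (-x 3 - k * x 8) + (-x 3 + k * x 8) * (k * x 0) + (-x 4 - k * x 7) * 0 + (-x 5 - k * x 10) * (k * x 2) + (-x 6 + k * x 9) * (-(k * x 1)) = _
  linear_combination (3 * x 0 * x 8 - x 1 * x 9 + 3 * x 10 * x 2) * k_sq'

theorem sq_15 (x : V11) : (iota x * iota x) 1 5 =
    k * x 0 * x 6 - k * x 1 * x 3 + k * x 2 * x 4 + x 0 * x 9 + (1 / 3) * x 1 * x 8 - x 2 * x 7 := by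
  rw [mul7]
  change (2 * k * x 2) * (-(2 * k * x 7)) + 0 * (-x 5 - k * x 10) + (-(2 * k * x 0)) * (-x 6 - k * x 9) + (-x 3 + k * x 8) * (k * x 1) + (-x 4 - k * x 7) * (-(k * x 2)) + (-x 5 - k * x 10) * 0 + (-x 6 + k * x 9) * (k * x 0) = _
  linear_combination (3 * x 0 * x 9 + x 1 * x 8 - 3 * x 2 * x 7) * k_sq'

theorem sq_16 (x : V11) : (iota x * iota x) 1 6 =
    -k * x 0 * x 5 - k * x 1 * x 4 - k * x 2 * x 3 + x 0 * x 10 - (1 / 3) * x 1 * x 7 - x 2 * x 8 := by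
  rw [mul7]
  change (2 * k * x 2) * (-(2 * k * x 8)) + 0 * (-x 6 + k * x 9) + (-(2 * k * x 0)) * (x 5 - k * x 10) + (-x 3 + k * x 8) * (k * x 2) + (-x 4 - k * x 7) * (k * x 1) + (-x 5 - k * x 10) * (-(k * x 0)) + (-x 6 + k * x 9) * 0 = _
  linear_combination (3 * x 0 * x 10 - x 1 * x 7 - 3 * x 2 * x 8) * k_sq'

theorem sq_20 (x : V11) : (iota x * iota x) 2 0 =
    2 * k * x 10 * x 3 - 2 * k * x 4 * x 9 + 2 * k * x 5 * x 8 - 2 * k * x 6 * x 7 + (4 / 3) * x 0 * x 2 := by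
  rw [mul7]
  change (-(2 * k * x 1)) * 0 + (2 * k * x 0) * (2 * k * x 2) + 0 * (-(2 * k * x 1)) + (x 4 - k * x 7) * (-(2 * k * x 9)) + (-x 3 - k * x 8) * (-(2 * k * x 10)) + (-x 6 - k * x 9) * (2 * k * x 7) + (x 5 - k * x 10) * (2 * k * x 8) = _
  linear_combination (4 * x 0 * x 2) * k_sq'

theorem sq_21 (x : V11) : (iota x * iota x) 2 1 =
    -2 * k * x 10 * x 6 - 2 * k * x 3 * x 7 - 2 * k * x 4 * x 8 - 2 * k * x 5 * x 9 + (4 / 3) * x 1 * x 2 := by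
  rw [mul7]
  change (-(2 * k * x 1)) * (-(2 * k * x 2)) + (2 * k * x 0) * 0 + 0 * (2 * k * x 0) + (x 4 - k * x 7) * (x 3 - k * x 8) + (-x 3 - k * x 8) * (x 4 + k * x 7) + (-x 6 - k * x 9) * (x 5 + k * x 10) + (x 5 - k * x 10) * (x 6 - k * x 9) = _
  linear_combination (4 * x 1 * x 2) * k_sq'

theorem sq_22 (x : V11) : (iota x * iota x) 2 2 =
    2 * k * x 10 * x 5 - 2 * k * x 3 * x 8 + 2 * k * x 4 * x 7 - 2 * k * x 6 * x 9 - (4 / 3) * x 0 * x 0 - (4 / 3) * x 1 * x 1 - (1 / 3) * x 10 * x 10 - x 3 * x 3 - x 4 * x 4 - x 5 * x 5 - x 6 * x 6 - (1 / 3) * x 7 * x 7 - (1 / 3) * x 8 * x 8 - (1 / 3) * x 9 * x 9 := by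
  rw [mul7]
  change (-(2 * k * x 1)) * (2 * k * x 1) + (2 * k * x 0) * (-(2 * k * x 0)) + 0 * 0 + (x 4 - k * x 7) * (-x 4 + k * x 7) + (-x 3 - k * x 8) * (x 3 + k * x 8) + (-x 6 - k * x 9) * (x 6 + k * x 9) + (x 5 - k * x 10) * (-x 5 + k * x 10) = _
  linear_combination (-4 * x 0 * x 0 - 4 * x 1 * x 1 - x 10 * x 10 - x 7 * x 7 - x 8 * x 8 - x 9 * x 9) * k_sq'

theorem sq_23 (x : V11) : (iota x * iota x) 2 3 =
    -k * x 0 * x 3 + k * x 1 * x 6 - k * x 2 * x 5 + x 0 * x 8 - x 1 * x 9 + (1 / 3) * x 10 * x 2 := by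
  rw [mul7]
  change (-(2 * k * x 1)) * (2 * k * x 9) + (2 * k * x 0) * (-x 3 + k * x 8) + 0 * (x 4 - k * x 7) + (x 4 - k * x 7) * 0 + (-x 3 - k * x 8) * (-(k * x 0)) + (-x 6 - k * x 9) * (-(k * x 1)) + (x 5 - k * x 10) * (-(k * x 2)) = _
  linear_combination (3 * x 0 * x 8 - 3 * x 1 * x 9 + x 10 * x 2) * k_sq'

theorem sq_24 (x : V11) : (iota x * iota x) 2 4 =
    -k * x 0 * x 4 - k * x 1 * x 5 - k * x 2 * x 6 - x 0 * x 7 - x 1 * x 10 - (1 / 3) * x 2 * x 9 := by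
  rw [mul7]
  change (-(2 * k * x 1)) * (2 * k * x 10) + (2 * k * x 0) * (-x 4 - k * x 7) + 0 * (-x 3 - k * x 8) + (x 4 - k * x 7) * (k * x 0) + (-x 3 - k * x 8) * 0 + (-x 6 - k * x 9) * (k * x 2) + (x 5 - k * x 10) * (-(k * x 1)) = _
  linear_combination (-3 * x 0 * x 7 - 3 * x 1 * x 10 - x 2 * x 9) * k_sq'

theorem sq_25 (x : V11) : (iota x * iota x) 2 5 =
    -k * x 0 * x 5 + k * x 1 * x 4 + k * x 2 * x 3 - x 0 * x 10 + x 1 * x 7 + (1 / 3) * x 2 * x 8 := by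
  rw [mul7]
  change (-(2 * k * x 1)) * (-(2 * k * x 7)) + (2 * k * x 0) * (-x 5 - k * x 10) + 0 * (-x 6 - k * x 9) + (x 4 - k * x 7) * (k * x 1) + (-x 3 - k * x 8) * (-(k * x 2)) + (-x 6 - k * x 9) * 0 + (x 5 - k * x 10) * (k * x 0) = _
  linear_combination (-3 * x 0 * x 10 + 3 * x 1 * x 7 + x 2 * x 8) * k_sq'

theorem sq_26 (x : V11) : (iota x * iota x) 2 6 =
    -k * x 0 * x 6 - k * x 1 * x 3 + k * x 2 * x 4 + x 0 * x 9 + x 1 * x 8 - (1 / 3) * x 2 * x 7 := by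
  rw [mul7]
  change (-(2 * k * x 1)) * (-(2 * k * x 8)) + (2 * k * x 0) * (-x 6 + k * x 9) + 0 * (x 5 - k * x 10) + (x 4 - k * x 7) * (k * x 2) + (-x 3 - k * x 8) * (k * x 1) + (-x 6 - k * x 9) * (-(k * x 0)) + (x 5 - k * x 10) * 0 = _
  linear_combination (3 * x 0 * x 9 + 3 * x 1 * x 8 - x 2 * x 7) * k_sq'

theorem sq_30 (x : V11) : (iota x * iota x) 3 0 =
    2 * k * x 1 * x 4 + 2 * k * x 2 * x 3 - (2 / 3) * x 0 * x 10 := by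
  rw [mul7]
  change (-(2 * k * x 9)) * 0 + (x 3 - k * x 8) * (2 * k * x 2) + (-x 4 + k * x 7) * (-(2 * k * x 1)) + 0 * (-(2 * k * x 9)) + (k * x 0) * (-(2 * k * x 10)) + (k * x 1) * (2 * k * x 7) + (k * x 2) * (2 * k * x 8) = _
  linear_combination (-2 * x 0 * x 10) * k_sq'

theorem sq_31 (x : V11) : (iota x * iota x) 3 1 =
    -k * x 0 * x 4 + k * x 1 * x 5 + k * x 2 * x 6 + x 0 * x 7 + (1 / 3) * x 1 * x 10 + x 2 * x 9 := by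
  rw [mul7]
  change (-(2 * k * x 9)) * (-(2 * k * x 2)) + (x 3 - k * x 8) * 0 + (-x 4 + k * x 7) * (2 * k * x 0) + 0 * (x 3 - k * x 8) + (k * x 0) * (x 4 + k * x 7) + (k * x 1) * (x 5 + k * x 10) + (k * x 2) * (x 6 - k * x 9) = _
  linear_combination (3 * x 0 * x 7 + x 1 * x 10 + 3 * x 2 * x 9) * k_sq'

theorem sq_32 (x : V11) : (iota x * iota x) 3 2 =
    -k * x 0 * x 3 + k * x 1 * x 6 - k * x 2 * x 5 + x 0 * x 8 - x 1 * x 9 + (1 / 3) * x 10 * x 2 := by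
  rw [mul7]
  change (-(2 * k * x 9)) * (2 * k * x 1) + (x 3 - k * x 8) * (-(2 * k * x 0)) + (-x 4 + k * x 7) * 0 + 0 * (-x 4 + k * x 7) + (k * x 0) * (x 3 + k * x 8) + (k * x 1) * (x 6 + k * x 9) + (k * x 2) * (-x 5 + k * x 10) = _
  linear_combination (3 * x 0 * x 8 - 3 * x 1 * x 9 + x 10 * x 2) * k_sq'

theorem sq_33 (x : V11) : (iota x * iota x) 3 3 =
    2 * k * x 3 * x 8 + 2 * k * x 4 * x 7 - (1 / 3) * x 0 * x 0 - (1 / 3) * x 1 * x 1 - (1 / 3) * x 2 * x 2 - x 3 * x 3 - x 4 * x 4 - (1 / 3) * x 7 * x 7 - (1 / 3) * x 8 * x 8 - (4 / 3) * x 9 * x 9 := by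
  rw [mul7]
  change (-(2 * k * x 9)) * (2 * k * x 9) + (x 3 - k * x 8) * (-x 3 + k * x 8) + (-x 4 + k * x 7) * (x 4 - k * x 7) + 0 * 0 + (k * x 0) * (-(k * x 0)) + (k * x 1) * (-(k * x 1)) + (k * x 2) * (-(k * x 2)) = _
  linear_combination (-x 0 * x 0 - x 1 * x 1 - x 2 * x 2 - x 7 * x 7 - x 8 * x 8 - 4 * x 9 * x 9) * k_sq'

theorem sq_34 (x : V11) : (iota x * iota x) 3 4 =
    -2 * k * x 3 * x 7 + 2 * k * x 4 * x 8 - (4 / 3) * x 10 * x 9 := by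
  rw [mul7]
  change (-(2 * k * x 9)) * (2 * k * x 10) + (x 3 - k * x 8) * (-x 4 - k * x 7) + (-x 4 + k * x 7) * (-x 3 - k * x 8) + 0 * (k * x 0) + (k * x 0) * 0 + (k * x 1) * (k * x 2) + (k * x 2) * (-(k * x 1)) = _
  linear_combination (-4 * x 10 * x 9) * k_sq'

theorem sq_35 (x : V11) : (iota x * iota x) 3 5 =
    -k * x 10 * x 3 + k * x 4 * x 9 + k * x 5 * x 8 - k * x 6 * x 7 + (1 / 3) * x 10 * x 8 - x 3 * x 5 + x 4 * x 6 + x 7 * x 9 := by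
  rw [mul7]
  change (-(2 * k * x 9)) * (-(2 * k * x 7)) + (x 3 - k * x 8) * (-x 5 - k * x 10) + (-x 4 + k * x 7) * (-x 6 - k * x 9) + 0 * (k * x 1) + (k * x 0) * (-(k * x 2)) + (k * x 1) * 0 + (k * x 2) * (k * x 0) = _
  linear_combination (x 10 * x 8 + 3 * x 7 * x 9) * k_sq'

theorem sq_36 (x : V11) : (iota x * iota x) 3 6 =
    k * x 10 * x 4 + k * x 3 * x 9 + k * x 5 * x 7 + k * x 6 * x 8 - (1 / 3) * x 10 * x 7 - x 3 * x 6 - x 4 * x 5 + x 8 * x 9 := by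
  rw [mul7]
  change (-(2 * k * x 9)) * (-(2 * k * x 8)) + (x 3 - k * x 8) * (-x 6 + k * x 9) + (-x 4 + k * x 7) * (x 5 - k * x 10) + 0 * (k * x 2) + (k * x 0) * (k * x 1) + (k * x 1) * (-(k * x 0)) + (k * x 2) * 0 = _
  linear_combination (-x 10 * x 7 + 3 * x 8 * x 9) * k_sq'

theorem sq_40 (x : V11) : (iota x * iota x) 4 0 =
    -2 * k * x 1 * x 3 + 2 * k * x 2 * x 4 + (2 / 3) * x 0 * x 9 := by
  rw [mul7]
  change (-(2 * k * x 10)) * 0 + (x 4 + k * x 7) * (2 * k * x 2) + (x 3 + k * x 8) * (-(2 * k * x 1)) + (-(k * x 0)) * (-(2 * k * x 9)) + 0 * (-(2 * k * x 10)) + (-(k * x 2)) * (2 * k * x 7) + (k * x 1) * (2 * k * x 8) = _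
  linear_combination (2 * x 0 * x 9) * k_sq'

theorem sq_41 (x : V11) : (iota x * iota x) 4 1 =
    k * x 0 * x 3 + k * x 1 * x 6 - k * x 2 * x 5 + x 0 * x 8 - (1 / 3) * x 1 * x 9 + x 10 * x 2 := by
  rw [mul7]
  change (-(2 * k * x 10)) * (-(2 * k * x 2)) + (x 4 + k * x 7) * 0 + (x 3 + k * x 8) * (2 * k * x 0) + (-(k * x 0)) * (x 3 - k * x 8) + 0 * (x 4 + k * x 7) + (-(k * x 2)) * (x 5 + k * x 10) + (k * x 1) * (x 6 - k * x 9) = _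
  linear_combination (3 * x 0 * x 8 - x 1 * x 9 + 3 * x 10 * x 2) * k_sq'

theorem sq_42 (x : V11) : (iota x * iota x) 4 2 =
    -k * x 0 * x 4 - k * x 1 * x 5 - k * x 2 * x 6 - x 0 * x 7 - x 1 * x 10 - (1 / 3) * x 2 * x 9 := by
  rw [mul7]
  change (-(2 * k * x 10)) * (2 * k * x 1) + (x 4 + k * x 7) * (-(2 * k * x 0)) + (x 3 + k * x 8) * 0 + (-(k * x 0)) * (-x 4 + k * x 7) + 0 * (x 3 + k * x 8) + (-(k * x 2)) * (x 6 + k * x 9) + (k * x 1) * (-x 5 + k * x 10) = _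
  linear_combination (-3 * x 0 * x 7 - 3 * x 1 * x 10 - x 2 * x 9) * k_sq'

theorem sq_43 (x : V11) : (iota x * iota x) 4 3 =
    -2 * k * x 3 * x 7 + 2 * k * x 4 * x 8 - (4 / 3) * x 10 * x 9 := by
  rw [mul7]
  change (-(2 * k * x 10)) * (2 * k * x 9) + (x 4 + k * x 7) * (-x 3 + k * x 8) + (x 3 + k * x 8) * (x 4 - k * x 7) + (-(k * x 0)) * 0 + 0 * (-(k * x 0)) + (-(k * x 2)) * (-(k * x 1)) + (k * x 1) * (-(k * x 2)) = _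
  linear_combination (-4 * x 10 * x 9) * k_sq'

theorem sq_44 (x : V11) : (iota x * iota x) 4 4 =
    -2 * k * x 3 * x 8 - 2 * k * x 4 * x 7 - (1 / 3) * x 0 * x 0 - (1 / 3) * x 1 * x 1 - (4 / 3) * x 10 * x 10 - (1 / 3) * x 2 * x 2 - x 3 * x 3 - x 4 * x 4 - (1 / 3) * x 7 * x 7 - (1 / 3) * x 8 * x 8 := by
  rw [mul7]
  change (-(2 * k * x 10)) * (2 * k * x 10) + (x 4 + k * x 7) * (-x 4 - k * x 7) + (x 3 + k * x 8) * (-x 3 - k * x 8) + (-(k * x 0)) * (k * x 0) + 0 * 0 + (-(k * x 2)) * (k * x 2) + (k * x 1) * (-(k * x 1)) = _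
  linear_combination (-x 0 * x 0 - x 1 * x 1 - 4 * x 10 * x 10 - x 2 * x 2 - x 7 * x 7 - x 8 * x 8) * k_sq'

theorem sq_45 (x : V11) : (iota x * iota x) 4 5 =
    -k * x 10 * x 4 - k * x 3 * x 9 - k * x 5 * x 7 - k * x 6 * x 8 + x 10 * x 7 - x 3 * x 6 - x 4 * x 5 - (1 / 3) * x 8 * x 9 := by
  rw [mul7]
  change (-(2 * k * x 10)) * (-(2 * k * x 7)) + (x 4 + k * x 7) * (-x 5 - k * x 10) + (x 3 + k * x 8) * (-x 6 - k * x 9) + (-(k * x 0)) * (k * x 1) + 0 * (-(k * x 2)) + (-(k * x 2)) * 0 + (k * x 1) * (k * x 0) = _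
  linear_combination (3 * x 10 * x 7 - x 8 * x 9) * k_sq'

theorem sq_46 (x : V11) : (iota x * iota x) 4 6 =
    -k * x 10 * x 3 + k * x 4 * x 9 + k * x 5 * x 8 - k * x 6 * x 7 + x 10 * x 8 + x 3 * x 5 - x 4 * x 6 + (1 / 3) * x 7 * x 9 := by
  rw [mul7]
  change (-(2 * k * x 10)) * (-(2 * k * x 8)) + (x 4 + k * x 7) * (-x 6 + k * x 9) + (x 3 + k * x 8) * (x 5 - k * x 10) + (-(k * x 0)) * (k * x 2) + 0 * (k * x 1) + (-(k * x 2)) * (-(k * x 0)) + (k * x 1) * 0 = _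
  linear_combination (3 * x 10 * x 8 + x 7 * x 9) * k_sq'

theorem sq_50 (x : V11) : (iota x * iota x) 5 0 =
    -2 * k * x 1 * x 6 + 2 * k * x 2 * x 5 - (2 / 3) * x 0 * x 8 := by
  rw [mul7]
  change (2 * k * x 7) * 0 + (x 5 + k * x 10) * (2 * k * x 2) + (x 6 + k * x 9) * (-(2 * k * x 1)) + (-(k * x 1)) * (-(2 * k * x 9)) + (k * x 2) * (-(2 * k * x 10)) + 0 * (2 * k * x 7) + (-(k * x 0)) * (2 * k * x 8) = _
  linear_combination (-2 * x 0 * x 8) * k_sq'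

theorem sq_51 (x : V11) : (iota x * iota x) 5 1 =
    k * x 0 * x 6 - k * x 1 * x 3 + k * x 2 * x 4 + x 0 * x 9 + (1 / 3) * x 1 * x 8 - x 2 * x 7 := by
  rw [mul7]
  change (2 * k * x 7) * (-(2 * k * x 2)) + (x 5 + k * x 10) * 0 + (x 6 + k * x 9) * (2 * k * x 0) + (-(k * x 1)) * (x 3 - k * x 8) + (k * x 2) * (x 4 + k * x 7) + 0 * (x 5 + k * x 10) + (-(k * x 0)) * (x 6 - k * x 9) = _
  linear_combination (3 * x 0 * x 9 + x 1 * x 8 - 3 * x 2 * x 7) * k_sq'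

theorem sq_52 (x : V11) : (iota x * iota x) 5 2 =
    -k * x 0 * x 5 + k * x 1 * x 4 + k * x 2 * x 3 - x 0 * x 10 + x 1 * x 7 + (1 / 3) * x 2 * x 8 := by
  rw [mul7]
  change (2 * k * x 7) * (2 * k * x 1) + (x 5 + k * x 10) * (-(2 * k * x 0)) + (x 6 + k * x 9) * 0 + (-(k * x 1)) * (-x 4 + k * x 7) + (k * x 2) * (x 3 + k * x 8) + 0 * (x 6 + k * x 9) + (-(k * x 0)) * (-x 5 + k * x 10) = _
  linear_combination (-3 * x 0 * x 10 + 3 * x 1 * x 7 + x 2 * x 8) * k_sq'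

theorem sq_53 (x : V11) : (iota x * iota x) 5 3 =
    -k * x 10 * x 3 + k * x 4 * x 9 + k * x 5 * x 8 - k * x 6 * x 7 + (1 / 3) * x 10 * x 8 - x 3 * x 5 + x 4 * x 6 + x 7 * x 9 := by
  rw [mul7]
  change (2 * k * x 7) * (2 * k * x 9) + (x 5 + k * x 10) * (-x 3 + k * x 8) + (x 6 + k * x 9) * (x 4 - k * x 7) + (-(k * x 1)) * 0 + (k * x 2) * (-(k * x 0)) + 0 * (-(k * x 1)) + (-(k * x 0)) * (-(k * x 2)) = _
  linear_combination (x 10 * x 8 + 3 * x 7 * x 9) * k_sq'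

theorem sq_54 (x : V11) : (iota x * iota x) 5 4 =
    -k * x 10 * x 4 - k * x 3 * x 9 - k * x 5 * x 7 - k * x 6 * x 8 + x 10 * x 7 - x 3 * x 6 - x 4 * x 5 - (1 / 3) * x 8 * x 9 := by
  rw [mul7]
  change (2 * k * x 7) * (2 * k * x 10) + (x 5 + k * x 10) * (-x 4 - k * x 7) + (x 6 + k * x 9) * (-x 3 - k * x 8) + (-(k * x 1)) * (k * x 0) + (k * x 2) * 0 + 0 * (k * x 2) + (-(k * x 0)) * (-(k * x 1)) = _
  linear_combination (3 * x 10 * x 7 - x 8 * x 9) * k_sq'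

theorem sq_55 (x : V11) : (iota x * iota x) 5 5 =
    -2 * k * x 10 * x 5 - 2 * k * x 6 * x 9 - (1 / 3) * x 0 * x 0 - (1 / 3) * x 1 * x 1 - (1 / 3) * x 10 * x 10 - (1 / 3) * x 2 * x 2 - x 5 * x 5 - x 6 * x 6 - (4 / 3) * x 7 * x 7 - (1 / 3) * x 9 * x 9 := by
  rw [mul7]
  change (2 * k * x 7) * (-(2 * k * x 7)) + (x 5 + k * x 10) * (-x 5 - k * x 10) + (x 6 + k * x 9) * (-x 6 - k * x 9) + (-(k * x 1)) * (k * x 1) + (k * x 2) * (-(k * x 2)) + 0 * 0 + (-(k * x 0)) * (k * x 0) = _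
  linear_combination (-x 0 * x 0 - x 1 * x 1 - x 10 * x 10 - x 2 * x 2 - 4 * x 7 * x 7 - x 9 * x 9) * k_sq'

theorem sq_56 (x : V11) : (iota x * iota x) 5 6 =
    -2 * k * x 10 * x 6 + 2 * k * x 5 * x 9 - (4 / 3) * x 7 * x 8 := by
  rw [mul7]
  change (2 * k * x 7) * (-(2 * k * x 8)) + (x 5 + k * x 10) * (-x 6 + k * x 9) + (x 6 + k * x 9) * (x 5 - k * x 10) + (-(k * x 1)) * (k * x 2) + (k * x 2) * (k * x 1) + 0 * (-(k * x 0)) + (-(k * x 0)) * 0 = _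
  linear_combination (-4 * x 7 * x 8) * k_sq'

theorem sq_60 (x : V11) : (iota x * iota x) 6 0 =
    2 * k * x 1 * x 5 + 2 * k * x 2 * x 6 + (2 / 3) * x 0 * x 7 := by
  rw [mul7]
  change (2 * k * x 8) * 0 + (x 6 - k * x 9) * (2 * k * x 2) + (-x 5 + k * x 10) * (-(2 * k * x 1)) + (-(k * x 2)) * (-(2 * k * x 9)) + (-(k * x 1)) * (-(2 * k * x 10)) + (k * x 0) * (2 * k * x 7) + 0 * (2 * k * x 8) = _
  linear_combination (2 * x 0 * x 7) * k_sq'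

theorem sq_61 (x : V11) : (iota x * iota x) 6 1 =
    -k * x 0 * x 5 - k * x 1 * x 4 - k * x 2 * x 3 + x 0 * x 10 - (1 / 3) * x 1 * x 7 - x 2 * x 8 := by
  rw [mul7]
  change (2 * k * x 8) * (-(2 * k * x 2)) + (x 6 - k * x 9) * 0 + (-x 5 + k * x 10) * (2 * k * x 0) + (-(k * x 2)) * (x 3 - k * x 8) + (-(k * x 1)) * (x 4 + k * x 7) + (k * x 0) * (x 5 + k * x 10) + 0 * (x 6 - k * x 9) = _
  linear_combination (3 * x 0 * x 10 - x 1 * x 7 - 3 * x 2 * x 8) * k_sq'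

theorem sq_62 (x : V11) : (iota x * iota x) 6 2 =
    -k * x 0 * x 6 - k * x 1 * x 3 + k * x 2 * x 4 + x 0 * x 9 + x 1 * x 8 - (1 / 3) * x 2 * x 7 := by
  rw [mul7]
  change (2 * k * x 8) * (2 * k * x 1) + (x 6 - k * x 9) * (-(2 * k * x 0)) + (-x 5 + k * x 10) * 0 + (-(k * x 2)) * (-x 4 + k * x 7) + (-(k * x 1)) * (x 3 + k * x 8) + (k * x 0) * (x 6 + k * x 9) + 0 * (-x 5 + k * x 10) = _
  linear_combination (3 * x 0 * x 9 + 3 * x 1 * x 8 - x 2 * x 7) * k_sq'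

theorem sq_63 (x : V11) : (iota x * iota x) 6 3 =
    k * x 10 * x 4 + k * x 3 * x 9 + k * x 5 * x 7 + k * x 6 * x 8 - (1 / 3) * x 10 * x 7 - x 3 * x 6 - x 4 * x 5 + x 8 * x 9 := by
  rw [mul7]
  change (2 * k * x 8) * (2 * k * x 9) + (x 6 - k * x 9) * (-x 3 + k * x 8) + (-x 5 + k * x 10) * (x 4 - k * x 7) + (-(k * x 2)) * 0 + (-(k * x 1)) * (-(k * x 0)) + (k * x 0) * (-(k * x 1)) + 0 * (-(k * x 2)) = _
  linear_combination (-x 10 * x 7 + 3 * x 8 * x 9) * k_sq'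

theorem sq_64 (x : V11) : (iota x * iota x) 6 4 =
    -k * x 10 * x 3 + k * x 4 * x 9 + k * x 5 * x 8 - k * x 6 * x 7 + x 10 * x 8 + x 3 * x 5 - x 4 * x 6 + (1 / 3) * x 7 * x 9 := by
  rw [mul7]
  change (2 * k * x 8) * (2 * k * x 10) + (x 6 - k * x 9) * (-x 4 - k * x 7) + (-x 5 + k * x 10) * (-x 3 - k * x 8) + (-(k * x 2)) * (k * x 0) + (-(k * x 1)) * 0 + (k * x 0) * (k * x 2) + 0 * (-(k * x 1)) = _
  linear_combination (3 * x 10 * x 8 + x 7 * x 9) * k_sq'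

theorem sq_65 (x : V11) : (iota x * iota x) 6 5 =
    -2 * k * x 10 * x 6 + 2 * k * x 5 * x 9 - (4 / 3) * x 7 * x 8 := by
  rw [mul7]
  change (2 * k * x 8) * (-(2 * k * x 7)) + (x 6 - k * x 9) * (-x 5 - k * x 10) + (-x 5 + k * x 10) * (-x 6 - k * x 9) + (-(k * x 2)) * (k * x 1) + (-(k * x 1)) * (-(k * x 2)) + (k * x 0) * 0 + 0 * (k * x 0) = _
  linear_combination (-4 * x 7 * x 8) * k_sq'

theorem sq_66 (x : V11) : (iota x * iota x) 6 6 =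
    2 * k * x 10 * x 5 + 2 * k * x 6 * x 9 - (1 / 3) * x 0 * x 0 - (1 / 3) * x 1 * x 1 - (1 / 3) * x 10 * x 10 - (1 / 3) * x 2 * x 2 - x 5 * x 5 - x 6 * x 6 - (4 / 3) * x 8 * x 8 - (1 / 3) * x 9 * x 9 := by
  rw [mul7]
  change (2 * k * x 8) * (-(2 * k * x 8)) + (x 6 - k * x 9) * (-x 6 + k * x 9) + (-x 5 + k * x 10) * (x 5 - k * x 10) + (-(k * x 2)) * (k * x 2) + (-(k * x 1)) * (k * x 1) + (k * x 0) * (-(k * x 0)) + 0 * 0 = _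
  linear_combination (-x 0 * x 0 - x 1 * x 1 - x 10 * x 10 - x 2 * x 2 - 4 * x 8 * x 8 - x 9 * x 9) * k_sq'

theorem tr_sq (x : V11) : (iota x * iota x).trace = -4 * ‖x‖ ^ 2 := by
  rw [trace7, normSq11, sq_00, sq_11, sq_22, sq_33, sq_44, sq_55, sq_66]
  ring

/-- the trace over the last four coordinates -/
theorem tr_low (x : V11) : (iota x * iota x) 3 3 + (iota x * iota x) 4 4 + (iota x * iota x) 5 5
    + (iota x * iota x) 6 6 = -2 * ‖x‖ ^ 2 + 2 / 3 * (x 0 ^ 2 + x 1 ^ 2 + x 2 ^ 2) := by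
  rw [normSq11, sq_33, sq_44, sq_55, sq_66]
  ring

theorem tt_00 (x : V11) : ((Lm x)ᵀ * Lm x) 0 0 =
    (4 / 3) * x 10 * x 10 + (4 / 3) * x 7 * x 7 + (4 / 3) * x 8 * x 8 + (4 / 3) * x 9 * x 9 := by
  rw [mulT4]
  change (-(2 * k * x 9)) * (-(2 * k * x 9)) + (-(2 * k * x 10)) * (-(2 * k * x 10)) + (2 * k * x 7) * (2 * k * x 7) + (2 * k * x 8) * (2 * k * x 8) = _
  linear_combination (4 * x 10 * x 10 + 4 * x 7 * x 7 + 4 * x 8 * x 8 + 4 * x 9 * x 9) * k_sq'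

theorem tt_01 (x : V11) : ((Lm x)ᵀ * Lm x) 0 1 =
    -2 * k * x 10 * x 4 - 2 * k * x 3 * x 9 + 2 * k * x 5 * x 7 + 2 * k * x 6 * x 8 := by
  rw [mulT4]
  change (-(2 * k * x 9)) * (x 3 - k * x 8) + (-(2 * k * x 10)) * (x 4 + k * x 7) + (2 * k * x 7) * (x 5 + k * x 10) + (2 * k * x 8) * (x 6 - k * x 9) = _
  linear_combination (0) * k_sq'

theorem tt_02 (x : V11) : ((Lm x)ᵀ * Lm x) 0 2 =
    -2 * k * x 10 * x 3 + 2 * k * x 4 * x 9 - 2 * k * x 5 * x 8 + 2 * k * x 6 * x 7 := by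
  rw [mulT4]
  change (-(2 * k * x 9)) * (-x 4 + k * x 7) + (-(2 * k * x 10)) * (x 3 + k * x 8) + (2 * k * x 7) * (x 6 + k * x 9) + (2 * k * x 8) * (-x 5 + k * x 10) = _
  linear_combination (0) * k_sq'

theorem tt_10 (x : V11) : ((Lm x)ᵀ * Lm x) 1 0 =
    -2 * k * x 10 * x 4 - 2 * k * x 3 * x 9 + 2 * k * x 5 * x 7 + 2 * k * x 6 * x 8 := by
  rw [mulT4]
  change (x 3 - k * x 8) * (-(2 * k * x 9)) + (x 4 + k * x 7) * (-(2 * k * x 10)) + (x 5 + k * x 10) * (2 * k * x 7) + (x 6 - k * x 9) * (2 * k * x 8) = _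
  linear_combination (0) * k_sq'

theorem tt_11 (x : V11) : ((Lm x)ᵀ * Lm x) 1 1 =
    2 * k * x 10 * x 5 - 2 * k * x 3 * x 8 + 2 * k * x 4 * x 7 - 2 * k * x 6 * x 9 + (1 / 3) * x 10 * x 10 + x 3 * x 3 + x 4 * x 4 + x 5 * x 5 + x 6 * x 6 + (1 / 3) * x 7 * x 7 + (1 / 3) * x 8 * x 8 + (1 / 3) * x 9 * x 9 := by
  rw [mulT4]
  change (x 3 - k * x 8) * (x 3 - k * x 8) + (x 4 + k * x 7) * (x 4 + k * x 7) + (x 5 + k * x 10) * (x 5 + k * x 10) + (x 6 - k * x 9) * (x 6 - k * x 9) = _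
  linear_combination (x 10 * x 10 + x 7 * x 7 + x 8 * x 8 + x 9 * x 9) * k_sq'

theorem tt_12 (x : V11) : ((Lm x)ᵀ * Lm x) 1 2 =
    2 * k * x 10 * x 6 + 2 * k * x 3 * x 7 + 2 * k * x 4 * x 8 + 2 * k * x 5 * x 9 := by
  rw [mulT4]
  change (x 3 - k * x 8) * (-x 4 + k * x 7) + (x 4 + k * x 7) * (x 3 + k * x 8) + (x 5 + k * x 10) * (x 6 + k * x 9) + (x 6 - k * x 9) * (-x 5 + k * x 10) = _
  linear_combination (0) * k_sq'

theorem tt_20 (x : V11) : ((Lm x)ᵀ * Lm x) 2 0 =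
    -2 * k * x 10 * x 3 + 2 * k * x 4 * x 9 - 2 * k * x 5 * x 8 + 2 * k * x 6 * x 7 := by
  rw [mulT4]
  change (-x 4 + k * x 7) * (-(2 * k * x 9)) + (x 3 + k * x 8) * (-(2 * k * x 10)) + (x 6 + k * x 9) * (2 * k * x 7) + (-x 5 + k * x 10) * (2 * k * x 8) = _
  linear_combination (0) * k_sq'

theorem tt_21 (x : V11) : ((Lm x)ᵀ * Lm x) 2 1 =
    2 * k * x 10 * x 6 + 2 * k * x 3 * x 7 + 2 * k * x 4 * x 8 + 2 * k * x 5 * x 9 := by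
  rw [mulT4]
  change (-x 4 + k * x 7) * (x 3 - k * x 8) + (x 3 + k * x 8) * (x 4 + k * x 7) + (x 6 + k * x 9) * (x 5 + k * x 10) + (-x 5 + k * x 10) * (x 6 - k * x 9) = _
  linear_combination (0) * k_sq'

theorem tt_22 (x : V11) : ((Lm x)ᵀ * Lm x) 2 2 =
    -2 * k * x 10 * x 5 + 2 * k * x 3 * x 8 - 2 * k * x 4 * x 7 + 2 * k * x 6 * x 9 + (1 / 3) * x 10 * x 10 + x 3 * x 3 + x 4 * x 4 + x 5 * x 5 + x 6 * x 6 + (1 / 3) * x 7 * x 7 + (1 / 3) * x 8 * x 8 + (1 / 3) * x 9 * x 9 := by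
  rw [mulT4]
  change (-x 4 + k * x 7) * (-x 4 + k * x 7) + (x 3 + k * x 8) * (x 3 + k * x 8) + (x 6 + k * x 9) * (x 6 + k * x 9) + (-x 5 + k * x 10) * (-x 5 + k * x 10) = _
  linear_combination (x 10 * x 10 + x 7 * x 7 + x 8 * x 8 + x 9 * x 9) * k_sq'

theorem trT (x : V11) : ((Lm x)ᵀ * Lm x).trace =
    2 * (‖x‖ ^ 2 - x 0 ^ 2 - x 1 ^ 2 - x 2 ^ 2) := by
  rw [trace3, normSq11, tt_00, tt_11, tt_22]
  ring

theorem trT2 (x : V11) : (((Lm x)ᵀ * Lm x) * ((Lm x)ᵀ * Lm x)).trace =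
    (((Lm x)ᵀ * Lm x).trace) ^ 2 / 2 := by
  rw [trace3, trace3, mul3, mul3, mul3, tt_00, tt_01, tt_02, tt_10, tt_11, tt_12, tt_20, tt_21, tt_22]
  linear_combination (8 * x 10 * x 10 * x 3 * x 3 + 8 * x 10 * x 10 * x 4 * x 4 + 8 * x 10 * x 10 * x 5 * x 5 + 8 * x 10 * x 10 * x 6 * x 6 + 8 * x 3 * x 3 * x 7 * x 7 + 8 * x 3 * x 3 * x 8 * x 8 + 8 * x 3 * x 3 * x 9 * x 9 + 8 * x 4 * x 4 * x 7 * x 7 + 8 * x 4 * x 4 * x 8 * x 8 + 8 * x 4 * x 4 * x 9 * x 9 + 8 * x 5 * x 5 * x 7 * x 7 + 8 * x 5 * x 5 * x 8 * x 8 + 8 * x 5 * x 5 * x 9 * x 9 + 8 * x 6 * x 6 * x 7 * x 7 + 8 * x 6 * x 6 * x 8 * x 8 + 8 * x 6 * x 6 * x 9 * x 9) * k_sq'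

end G2F
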