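import Pool.Agent.G2F.Norm
import Pool.Agent.G2F.Quart
import Pool.Agent.G2F.Defs3
import Pool.Agent.G2F.Cross

/-! MODULE Rel (diff 2): relations on flats in `𝔭`.

`L = Lm ξ`, `M = Lm σ`, `T = LᵀL`, `U = LᵀM`.
* For `x ∈ 𝔭`: `iota x = [[0, -Lᵀ], [L, 0]]` (entries: `iota x (3+i) j = L i j`, `iota x j (3+i) = -L i j`,
  the other entries vanish).  `iota ξ iota σ = iota σ iota ξ` (`iota_comm`) gives, block by block,
  `LᵀM = MᵀL` and `L Mᵀ = M Lᵀ`.
* `T U = LᵀL LᵀM = LᵀL MᵀL = Lᵀ (L Mᵀ) L = Lᵀ M LᵀL = U T`;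
  `T S = LᵀL MᵀM = Lᵀ M LᵀM = U²` (`S = MᵀM`).
* `Lm (s ξ + t σ) = s L + t M` (linear, entries), `trT`: `tr (s L + t M)ᵀ(s L + t M) = 2(s² + t²)` for `‖ξ‖ =
  ‖σ‖ = 1`, `⟪ξ,σ⟫ = 0`, `InP`: `tr T = tr S = 2`, `tr U = 0`.
  `trT2`: `tr (s²T + 2st U + t²S)² = (2(s²+t²))²/2 = 2(s² + t²)²`; `(s,t) = (1,0), (0,1), (1,1), (1,-1)` and
  `(1,2)`, or polynomial comparison:
  `tr T² = 2`, `tr S² = 2`, `tr T U = 0` (coefficient of `s³t`, use also `tr S U = 0`), `4 tr U² + 2 tr TS = 4`.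
  So `6 tr U² = 4`.
-/

namespace G2F

open HFinG
open scoped RealInnerProductSpace Matrix

theorem Rel.comm {ξ σ : V11} (hm : g2.mm ξ σ = 0) (hh : g2.mh ξ σ = 0) :
    iota ξ * iota σ = iota σ * iota ξ := by
  have h := iota_comm ξ σ
  rw [g2_mm] at hm
  rw [g2_mh] at hh
  rw [hm, hh] at h
  have h1 : iota 0 = 0 := by
    have := iota_smul 0 (0 : V11)
    rw [zero_smul, zero_smul] at this
    exact this
  have h2 : hat 0 = 0 := by
    have := hat_smul 0 (0 : E3)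
    rw [zero_smul, zero_smul] at this
    exact this
  rw [h1, h2, add_zero] at h
  exact sub_eq_zero.1 h

theorem Rel.block {x : V11} (px : InP x) :
    (iota x).submatrix (finSumFinEquiv (m := 3) (n := 4)) (finSumFinEquiv (m := 3) (n := 4))
      = Matrix.fromBlocks 0 (-(Lm x)ᵀ) (Lm x) 0 := by
  obtain ⟨h0, h1, h2⟩ := px
  ext i j
  rcases i with i | i <;> rcases j with j | j
  · simp only [Matrix.submatrix_apply, Matrix.fromBlocks_apply₁₁, Matrix.zero_apply]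
    fin_cases i <;> fin_cases j
    · rfl
    · change -(2 * k * x 2) = 0
      rw [h2]; ring
    · change 2 * k * x 1 = 0
      rw [h1]; ring
    · change 2 * k * x 2 = 0
      rw [h2]; ring
    · rfl
    · change -(2 * k * x 0) = 0
      rw [h0]; ring
    · change -(2 * k * x 1) = 0
      rw [h1]; ring
    · change 2 * k * x 0 = 0
      rw [h0]; ring
    · rfl
  · simp only [Matrix.submatrix_apply, Matrix.fromBlocks_apply₁₂, Matrix.neg_apply,
      Matrix.transpose_apply]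
    fin_cases i <;> fin_cases j
    · change 2 * k * x 9 = -(-(2 * k * x 9))
      ring
    · change 2 * k * x 10 = -(-(2 * k * x 10))
      ring
    · change -(2 * k * x 7) = -(2 * k * x 7)
      ring
    · change -(2 * k * x 8) = -(2 * k * x 8)
      ring
    · change -x 3 + k * x 8 = -(x 3 - k * x 8)
      ring
    · change -x 4 - k * x 7 = -(x 4 + k * x 7)
      ring
    · change -x 5 - k * x 10 = -(x 5 + k * x 10)
      ring
    · change -x 6 + k * x 9 = -(x 6 - k * x 9)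
      ring
    · change x 4 - k * x 7 = -(-x 4 + k * x 7)
      ring
    · change -x 3 - k * x 8 = -(x 3 + k * x 8)
      ring
    · change -x 6 - k * x 9 = -(x 6 + k * x 9)
      ring
    · change x 5 - k * x 10 = -(-x 5 + k * x 10)
      ring
  · simp only [Matrix.submatrix_apply, Matrix.fromBlocks_apply₂₁]
    fin_cases i <;> fin_cases j <;> rfl
  · simp only [Matrix.submatrix_apply, Matrix.fromBlocks_apply₂₂, Matrix.zero_apply]
    fin_cases i <;> fin_cases j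
    · rfl
    · change k * x 0 = 0
      rw [h0]; ring
    · change k * x 1 = 0
      rw [h1]; ring
    · change k * x 2 = 0
      rw [h2]; ring
    · change -(k * x 0) = 0
      rw [h0]; ring
    · rfl
    · change -(k * x 2) = 0
      rw [h2]; ring
    · change k * x 1 = 0
      rw [h1]; ring
    · change -(k * x 1) = 0
      rw [h1]; ring
    · change k * x 2 = 0
      rw [h2]; ring
    · rfl
    · change -(k * x 0) = 0
      rw [h0]; ring
    · change -(k * x 2) = 0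
      rw [h2]; ring
    · change -(k * x 1) = 0
      rw [h1]; ring
    · change k * x 0 = 0
      rw [h0]; ring
    · rfl

theorem Rel.blocks {ξ σ : V11} (pξ : InP ξ) (pσ : InP σ) (hm : g2.mm ξ σ = 0)
    (hh : g2.mh ξ σ = 0) :
    (Lm ξ)ᵀ * Lm σ = (Lm σ)ᵀ * Lm ξ ∧ Lm ξ * (Lm σ)ᵀ = Lm σ * (Lm ξ)ᵀ := by
  have h := congrArg (fun A => A.submatrix (finSumFinEquiv (m := 3) (n := 4))
    (finSumFinEquiv (m := 3) (n := 4))) (Rel.comm hm hh)
  simp only [← Matrix.submatrix_mul_equiv _ _ _ (finSumFinEquiv (m := 3) (n := 4))] at h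
  rw [Rel.block pξ, Rel.block pσ, Matrix.fromBlocks_multiply, Matrix.fromBlocks_multiply] at h
  simp only [Matrix.zero_mul, Matrix.mul_zero, zero_add, add_zero, Matrix.neg_mul,
    Matrix.mul_neg] at h
  obtain ⟨h1, -, -, h4⟩ := Matrix.fromBlocks_inj.1 h
  exact ⟨neg_injective h1, neg_injective h4⟩

theorem blk1 {ξ σ : V11} (pξ : InP ξ) (pσ : InP σ) (hm : g2.mm ξ σ = 0) (hh : g2.mh ξ σ = 0) :
    (Lm ξ)ᵀ * Lm σ = (Lm σ)ᵀ * Lm ξ := (Rel.blocks pξ pσ hm hh).1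

theorem blk2 {ξ σ : V11} (pξ : InP ξ) (pσ : InP σ) (hm : g2.mm ξ σ = 0) (hh : g2.mh ξ σ = 0) :
    Lm ξ * (Lm σ)ᵀ = Lm σ * (Lm ξ)ᵀ := (Rel.blocks pξ pσ hm hh).2

theorem Rel.Lm_comb (s t : ℝ) (x y : V11) : Lm (s • x + t • y) = s • Lm x + t • Lm y := by
  have hc : ∀ i, (s • x + t • y) i = s * x i + t * y i := fun i => rfl
  ext i j
  rw [Matrix.add_apply, Matrix.smul_apply, Matrix.smul_apply, smul_eq_mul, smul_eq_mul]
  fin_cases i <;> fin_cases j
  · change -(2 * k * (s • x + t • y) 9) = s * -(2 * k * x 9) + t * -(2 * k * y 9)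
    rw [hc]; ring
  · change (s • x + t • y) 3 - k * (s • x + t • y) 8 = s * (x 3 - k * x 8) + t * (y 3 - k * y 8)
    rw [hc, hc]; ring
  · change -(s • x + t • y) 4 + k * (s • x + t • y) 7 = s * (-x 4 + k * x 7) + t * (-y 4 + k * y 7)
    rw [hc, hc]; ring
  · change -(2 * k * (s • x + t • y) 10) = s * -(2 * k * x 10) + t * -(2 * k * y 10)
    rw [hc]; ring
  · change (s • x + t • y) 4 + k * (s • x + t • y) 7 = s * (x 4 + k * x 7) + t * (y 4 + k * y 7)
    rw [hc, hc]; ring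
  · change (s • x + t • y) 3 + k * (s • x + t • y) 8 = s * (x 3 + k * x 8) + t * (y 3 + k * y 8)
    rw [hc, hc]; ring
  · change 2 * k * (s • x + t • y) 7 = s * (2 * k * x 7) + t * (2 * k * y 7)
    rw [hc]; ring
  · change (s • x + t • y) 5 + k * (s • x + t • y) 10 = s * (x 5 + k * x 10) + t * (y 5 + k * y 10)
    rw [hc, hc]; ring
  · change (s • x + t • y) 6 + k * (s • x + t • y) 9 = s * (x 6 + k * x 9) + t * (y 6 + k * y 9)
    rw [hc, hc]; ring
  · change 2 * k * (s • x + t • y) 8 = s * (2 * k * x 8) + t * (2 * k * y 8)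
    rw [hc]; ring
  · change (s • x + t • y) 6 - k * (s • x + t • y) 9 = s * (x 6 - k * x 9) + t * (y 6 - k * y 9)
    rw [hc, hc]; ring
  · change -(s • x + t • y) 5 + k * (s • x + t • y) 10
      = s * (-x 5 + k * x 10) + t * (-y 5 + k * y 10)
    rw [hc, hc]; ring

theorem rel {ξ σ : V11} (hξ : ‖ξ‖ = 1) (hσ : ‖σ‖ = 1) (ho : ⟪ξ, σ⟫ = 0) (pξ : InP ξ)
    (pσ : InP σ) (hm : g2.mm ξ σ = 0) (hh : g2.mh ξ σ = 0) :
    ∃ T U : Matrix (Fin 3) (Fin 3) ℝ, T = (Lm ξ)ᵀ * Lm ξ ∧ Tm ξ σ = (2 : ℝ) • U ∧ Tᵀ = T ∧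
      Uᵀ = U ∧ T * U = U * T ∧ T.trace = 2 ∧ (T * T).trace = 2 ∧ U.trace = 0 ∧
      (T * U).trace = 0 ∧ (U * U).trace = 2 / 3 := by
  have b1 := blk1 pξ pσ hm hh
  have b2 := blk2 pξ pσ hm hh
  set L := Lm ξ with hL
  set M := Lm σ with hM
  have hTT : (Lᵀ * L)ᵀ = Lᵀ * L := by rw [Matrix.transpose_mul, Matrix.transpose_transpose]
  have hUT : (Lᵀ * M)ᵀ = Lᵀ * M := by
    rw [Matrix.transpose_mul, Matrix.transpose_transpose, b1]
  have hcomm : (Lᵀ * L) * (Lᵀ * M) = (Lᵀ * M) * (Lᵀ * L) := by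
    calc (Lᵀ * L) * (Lᵀ * M) = (Lᵀ * L) * (Mᵀ * L) := by rw [b1]
      _ = Lᵀ * (L * Mᵀ) * L := by simp only [Matrix.mul_assoc]
      _ = Lᵀ * (M * Lᵀ) * L := by rw [b2]
      _ = (Lᵀ * M) * (Lᵀ * L) := by simp only [Matrix.mul_assoc]
  have hTS : (Lᵀ * L) * (Mᵀ * M) = (Lᵀ * M) * (Lᵀ * M) := by
    calc (Lᵀ * L) * (Mᵀ * M) = Lᵀ * (L * Mᵀ) * M := by simp only [Matrix.mul_assoc]
      _ = Lᵀ * (M * Lᵀ) * M := by rw [b2]
      _ = (Lᵀ * M) * (Lᵀ * M) := by simp only [Matrix.mul_assoc]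
  set T := Lᵀ * L with hTd
  set U := Lᵀ * M with hUd
  set S := Mᵀ * M with hSd
  have hexp : ∀ s t : ℝ, (Lm (s • ξ + t • σ))ᵀ * Lm (s • ξ + t • σ)
      = (s ^ 2) • T + (2 * s * t) • U + (t ^ 2) • S := by
    intro s t
    rw [Rel.Lm_comb, ← hL, ← hM, Matrix.transpose_add, Matrix.transpose_smul,
      Matrix.transpose_smul, Matrix.add_mul, Matrix.mul_add, Matrix.mul_add]
    simp only [Matrix.smul_mul, Matrix.mul_smul, smul_smul]
    rw [← b1, ← hTd, ← hUd, ← hSd]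
    module
  have hn : ∀ s t : ℝ, ‖s • ξ + t • σ‖ ^ 2 = s ^ 2 + t ^ 2 := by
    intro s t
    rw [norm_add_sq_real, norm_smul, norm_smul, real_inner_smul_left, real_inner_smul_right, ho,
      hξ, hσ]
    simp
  have hP : ∀ s t : ℝ, InP (s • ξ + t • σ) := by
    intro s t
    have hc : ∀ i, (s • ξ + t • σ) i = s * ξ i + t * σ i := fun i => rfl
    refine ⟨?_, ?_, ?_⟩
    · rw [hc, pξ.1, pσ.1]; ring
    · rw [hc, pξ.2.1, pσ.2.1]; ring
    · rw [hc, pξ.2.2, pσ.2.2]; ring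
  have htr : ∀ s t : ℝ, s ^ 2 * T.trace + 2 * s * t * U.trace + t ^ 2 * S.trace
      = 2 * (s ^ 2 + t ^ 2) := by
    intro s t
    have h := trT (s • ξ + t • σ)
    rw [hexp, hn, (hP s t).1, (hP s t).2.1, (hP s t).2.2, Matrix.trace_add, Matrix.trace_add,
      Matrix.trace_smul, Matrix.trace_smul, Matrix.trace_smul, smul_eq_mul, smul_eq_mul,
      smul_eq_mul] at h
    linarith
  have htr2 : ∀ s t : ℝ, s ^ 4 * (T * T).trace + 4 * s ^ 3 * t * (T * U).trace
      + s ^ 2 * t ^ 2 * (6 * (U * U).trace) + 4 * s * t ^ 3 * (U * S).trace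
      + t ^ 4 * (S * S).trace = 2 * (s ^ 2 + t ^ 2) ^ 2 := by
    intro s t
    have h := trT2 (s • ξ + t • σ)
    have h' : ((Lm (s • ξ + t • σ))ᵀ * Lm (s • ξ + t • σ)).trace = 2 * (s ^ 2 + t ^ 2) := by
      rw [trT, hn, (hP s t).1, (hP s t).2.1, (hP s t).2.2]; ring
    rw [h', hexp] at h
    have e1 : (U * T).trace = (T * U).trace := by rw [hcomm]
    have e2 : (S * U).trace = (U * S).trace := Matrix.trace_mul_comm _ _
    have e3 : (S * T).trace = (U * U).trace := by rw [Matrix.trace_mul_comm, hTS]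
    have e4 : (T * S).trace = (U * U).trace := by rw [hTS]
    simp only [Matrix.add_mul, Matrix.mul_add, Matrix.smul_mul, Matrix.mul_smul,
      Matrix.trace_add, Matrix.trace_smul, smul_eq_mul, e1, e2, e3, e4] at h
    linarith
  have t1 := htr 1 0
  have t2 := htr 0 1
  have t3 := htr 1 1
  have q1 := htr2 1 0
  have q2 := htr2 0 1
  have q3 := htr2 1 1
  have q4 := htr2 1 (-1)
  have q5 := htr2 2 1
  refine ⟨T, U, rfl, ?_, hTT, hUT, hcomm, by linarith, by linarith, by linarith, by linarith,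
    by linarith⟩
  unfold Tm
  rw [← hL, ← hM, ← b1, two_smul]

end G2F
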