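import Pool.Agent.G2F.CC
import Pool.Agent.G2F.Rel
import Pool.Agent.G2F.LAgen

/-! MODULE Zne (diff 1): nondegeneracy.

Suppose `mm ξ (b0 ξ σ) = 0`.  `C_one`, `C_two`, `rel`: with `Tm ξ σ = 2U`, `TU = UT`:
`cm (2U) D + cm (2UT + 2TU) B = 2 (cm U D + 2 cm (TU) B)`.  `la_gen` and `la_no` give `False`.
-/

namespace G2F

open HFinG
open scoped RealInnerProductSpace Matrix

theorem Z_ne {ξ σ : V11} (hξ : ‖ξ‖ = 1) (hσ : ‖σ‖ = 1) (ho : ⟪ξ, σ⟫ = 0) (pξ : InP ξ)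
    (pσ : InP σ) (hm : g2.mm ξ σ = 0) (hh : g2.mh ξ σ = 0) {a b : ℝ}
    (hp : p0 ξ = a • ξ + b • σ) : g2.mm ξ (b0 ξ σ) ≠ 0 := by
  intro hZ
  obtain ⟨T, U, hT, hTm, hTt, hUt, hTU, h1, h2, h3, h4, h5⟩ := rel hξ hσ ho pξ pσ hm hh
  have c1 := C_one hξ hp hm
  have c2 := C_two hξ ho hp hm hZ
  rw [← hT] at c1 c2
  rw [hTm] at c2
  have hD : Dmᵀ = Dm := by
    ext i j; fin_cases i <;> fin_cases j <;> rfl
  have hB : Bmᵀ = Bm := by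
    ext i j; fin_cases i <;> fin_cases j <;> rfl
  have c3 : cm U Dm + (2 : ℝ) • cm (T * U) Bm = 0 := by
    have e : cm ((2 : ℝ) • U) Dm + cm ((2 : ℝ) • U * T + T * (2 : ℝ) • U) Bm
        = (2 : ℝ) • (cm U Dm + (2 : ℝ) • cm (T * U) Bm) := by
      unfold cm
      rw [Matrix.smul_mul, Matrix.mul_smul, Matrix.smul_mul, Matrix.mul_smul, ← hTU]
      simp only [Matrix.add_mul, Matrix.mul_add, Matrix.smul_mul, Matrix.mul_smul]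
      module
    rw [e] at c2
    exact (smul_eq_zero.mp c2).resolve_left (by norm_num)
  obtain ⟨f, hf, ⟨a', ha'⟩, ⟨b', hb'⟩⟩ := la_gen hTt hUt hD hB hTU h1 h2 h3 h4 h5 c1 c3
  exact la_no hf ha' hb'

end G2F
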