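import Pool.Agent.G2F.Pos2
import Pool.Agent.G2F.Zne
import Pool.Agent.G2F.Span
import Pool.Agent.G2F.FlatP
import Pool.Agent.HFinG.I

/-! MODULE Main (diff 2): `G₂/SU(2)` has a reversible homogeneous Finsler metric of positive flag
curvature (algebraic form).

* `p0_span`: `ξ, σ` orthonormal in `𝔭`, flat, `mh (p0 ξ) σ = 0`.  `mh (p0 ξ) ξ = 0`: `⟪A, mh ξ (p0 ξ)⟫ =
  ⟪act A ξ, p0 ξ⟫ = 0` (`g2_mh_eq`, `IsPert.inv` for `p0 = pert M1 Wm`; `mh` is skew by `mh_self`), and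
  `p0_inP`, so `span_of` applies with `W = p0 ξ`.
* `hZ` of `exists_c` from `Z_ne` and `p0_span`.  Take `c`.
* `exists_pos g2_normal (pert_isPert ..)` with `p = pg c`; hypothesis `h3`: `flat_p`, `pg_p0`, `p0_span`,
  `P3_val`.
* Symmetries: `R = rotV q hq` (`pert_equi`, `P0_rot, M1_rot, Wm_rot`) and `R = LinearIsometryEquiv.neg ℝ`.
-/

namespace G2F

open HFinG
open scoped ContDiff RealInnerProductSpace Matrix

theorem Main_p0 : IsPert g2 p0 := pert_isPert g2_normal M1_symm Wm_symm M1_act Wm_act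

theorem p0_span {ξ σ : V11} (hξ : ‖ξ‖ = 1) (hσ : ‖σ‖ = 1) (ho : ⟪ξ, σ⟫ = 0) (pξ : InP ξ)
    (pσ : InP σ) (hh : g2.mh ξ σ = 0) (hp : g2.mh (p0 ξ) σ = 0) :
    ∃ a b : ℝ, p0 ξ = a • ξ + b • σ := by
  have h1 : g2.mh (p0 ξ) ξ = 0 := by
    have h2 : ∀ A : E3, ⟪A, g2.mh (p0 ξ) ξ⟫ = 0 := by
      intro A
      rw [g2_normal.mh_eq, g2_normal.act_skew, Main_p0.inv, neg_zero]
    exact inner_self_eq_zero.1 (h2 _)
  exact ⟨_, _, span_of hξ hσ ho pξ pσ (p0_inP pξ) hh h1 hp⟩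

theorem Main_app (c : ℝ) (x : V11) : (c • P0 + M1) x = c • P0 x + M1 x := rfl

theorem Main_pg (c : ℝ) : IsPert g2 (pg c) := by
  refine pert_isPert g2_normal ?_ Wm_symm ?_ Wm_act
  · intro x y
    rw [Main_app, Main_app, inner_add_left, inner_add_right, real_inner_smul_left,
      real_inner_smul_right, P0_symm, M1_symm]
  · intro A x
    rw [Main_app, Main_app, P0_act, M1_act, map_add, map_smul]

theorem Main_neg (c : ℝ) (x : V11) :
    pg c (LinearIsometryEquiv.neg ℝ x) = LinearIsometryEquiv.neg ℝ (pg c x) := by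
  refine pert_equi (LinearIsometryEquiv.neg ℝ) ?_ ?_ x
  · intro x
    exact map_neg _ _
  · intro a x
    exact map_neg _ _

theorem Main_rot (c : ℝ) (q : EuclideanSpace ℝ (Fin 4)) (hq : ‖q‖ = 1) (x : V11) :
    pg c (rotV q hq x) = rotV q hq (pg c x) := by
  refine pert_equi (rotV q hq) ?_ ?_ x
  · intro x
    rw [Main_app, Main_app, map_add, map_smul, rotV_apply, rotV_apply, rotV_apply, P0_rot, M1_rot]
  · intro a x
    rw [rotV_apply, rotV_apply, Wm_rot]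

theorem g2_exists : ∃ F : V11 → ℝ, IsMinkowski F ∧ (∀ x, F (-x) = F x) ∧ PosFlag g2 F ∧
    (∀ A x, x ≠ 0 → fderiv ℝ (fun z => F z ^ 2 / 2) x (g2.act A x) = 0) ∧
    ∀ (q : EuclideanSpace ℝ (Fin 4)) (hq : ‖q‖ = 1) (x : V11), F (rotV q hq x) = F x := by
  obtain ⟨c, hc⟩ := exists_c (fun ξ σ hξ hσ ho pξ pσ hm hh hp => by
    obtain ⟨a, b, hab⟩ := p0_span hξ hσ ho pξ pσ hh hp
    exact Z_ne hξ hσ ho pξ pσ hm hh hab)
  obtain ⟨F, h1, h2, h3, h4⟩ := exists_pos g2_normal (Main_pg c) (by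
    intro ξ σ hξ hσ ho hm hh hp
    obtain ⟨pξ, pσ⟩ := flat_p hξ hσ ho hm hh
    rw [pg_p0 c pξ] at hp
    obtain ⟨a, b, hab⟩ := p0_span hξ hσ ho pξ pσ hh hp
    rw [P3_val c hξ pξ pσ hm hh hab]
    exact hc ξ σ hξ hσ ho pξ pσ hm hh hp)
  refine ⟨F, h1, ?_, h2, h3, ?_⟩
  · intro x
    exact h4 (LinearIsometryEquiv.neg ℝ) (Main_neg c) x
  · intro q hq x
    exact h4 (rotV q hq) (Main_rot c q hq) x

end G2F
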