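import Pool.Agent.G2F.Rep
import Pool.Agent.G2F.Cross

/-! MODULE Norm (diff 2): `g2` is normal.

* `skew`, `act_skew`, `mh_eq`: `rw [inner11, ...]` (or `inner3`), then components
  (`g2_mm`, `mmF_0`, ..., `mm0`, ..., `w`) and `ring` (no relation for `k` is needed).
* `jacobi` from the matrices: the commutators `[P,Q] = PQ - QP` satisfy the Jacobi identity.  By
  `iota_comm`, `hat_iota` (write `m = mmF`, `h = mhF`):
  `[iota x, [iota y, iota z]] = [iota x, iota (m y z)] + [iota x, hat (h y z)]
   = iota (m x (m y z)) + hat (h x (m y z)) - iota (actF (h y z) x)`.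
  The cyclic sum is `0`; `iota`, `hat` are linear (`map_add` style lemmas follow from the entries; they are
  proved in `Pool/Agent/G2F/Cross.lean`: `iota_add, iota_smul, hat_add, hat_smul`; import it) and
  `iota_hat_zero` gives `x = 0` for `iota x + hat A = 0`.
-/

namespace G2F

open HFinG
open scoped RealInnerProductSpace Matrix

theorem g2_skew (x y z : V11) : ⟪g2.mm x y, z⟫ = -⟪y, g2.mm x z⟫ := by
  rw [inner11, inner11]
  simp only [g2_mm, mmF_0, mmF_1, mmF_2, mmF_3, mmF_4, mmF_5, mmF_6, mmF_7, mmF_8, mmF_9, mmF_10,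
    mm0, mm1, mm2, mm3, mm4, mm5, mm6, mm7, mm8, mm9, mm10, w]
  ring

theorem g2_act_skew (A : E3) (x y : V11) : ⟪g2.act A x, y⟫ = -⟪x, g2.act A y⟫ := by
  rw [inner11, inner11]
  simp only [g2_act, actF_0, actF_1, actF_2, actF_3, actF_4, actF_5, actF_6, actF_7, actF_8,
    actF_9, actF_10, ac3, ac4, ac5, ac6, ac7, ac8, ac9, ac10]
  ring

theorem g2_mh_eq (A : E3) (x y : V11) : ⟪A, g2.mh x y⟫ = ⟪g2.act A x, y⟫ := by
  rw [inner11, inner3]
  simp only [g2_act, g2_mh, actF_0, actF_1, actF_2, actF_3, actF_4, actF_5, actF_6, actF_7, actF_8,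
    actF_9, actF_10, ac3, ac4, ac5, ac6, ac7, ac8, ac9, ac10, mhF_0, mhF_1, mhF_2, mh0, mh1, mh2, w]
  ring

/-- the double commutator -/
theorem Norm_dc (x y z : V11) :
    iota x * (iota y * iota z - iota z * iota y) - (iota y * iota z - iota z * iota y) * iota x =
      iota (mmF x (mmF y z)) + hat (mhF x (mmF y z)) - iota (actF (mhF y z) x) := by
  rw [iota_comm y z, mul_add, add_mul, ← iota_comm x (mmF y z), ← hat_iota]
  abel

theorem g2_jacobi (x y z : V11) :
    g2.mm x (g2.mm y z) + g2.mm y (g2.mm z x) + g2.mm z (g2.mm x y) =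
      g2.act (g2.mh y z) x + g2.act (g2.mh z x) y + g2.act (g2.mh x y) z := by
  simp only [g2_mm, g2_mh, g2_act]
  have h1 := Norm_dc x y z
  have h2 := Norm_dc y z x
  have h3 := Norm_dc z x y
  have h4 : (iota x * (iota y * iota z - iota z * iota y) -
      (iota y * iota z - iota z * iota y) * iota x) +
      (iota y * (iota z * iota x - iota x * iota z) -
      (iota z * iota x - iota x * iota z) * iota y) +
      (iota z * (iota x * iota y - iota y * iota x) -
      (iota x * iota y - iota y * iota x) * iota z) = 0 := by noncomm_ring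
  rw [h1, h2, h3] at h4
  have hneg : ∀ v : V11, iota (-v) = -iota v := by
    intro v
    have := iota_smul (-1) v
    simpa using this
  have h5 : iota ((mmF x (mmF y z) + mmF y (mmF z x) + mmF z (mmF x y)) +
      -(actF (mhF y z) x + actF (mhF z x) y + actF (mhF x y) z)) +
      hat (mhF x (mmF y z) + mhF y (mmF z x) + mhF z (mmF x y)) = 0 := by
    rw [iota_add, hneg, iota_add, iota_add, iota_add, iota_add, hat_add, hat_add, ← h4]
    abel
  have h6 := (iota_hat_zero h5).1
  rw [← sub_eq_add_neg, sub_eq_zero] at h6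
  exact h6

theorem g2_normal : IsNormal g2 := ⟨g2_skew, g2_act_skew, g2_mh_eq, g2_jacobi⟩

end G2F
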