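import Pool.Agent.G2F.Defs2

/-! MODULE PertD (diff 2): smoothness and the derivative of `pert M W` at `x ≠ 0`.

`W a` symmetric, so `D(⟪W a x, x⟫)[u] = ⟪W a u, x⟫ + ⟪W a x, u⟫ = 2 ⟪W a x, u⟫`, `D(‖x‖²)[u] = 2 ⟪x, u⟫`.
`D(4 g / r²)[u] = 8 ⟪W x, u⟫/r² - 8 g ⟪x,u⟫/r⁴`, `D(2 g²/r⁴)[u] = 8 g ⟪W x,u⟫/r⁴ - 8 g² ⟪x,u⟫/r⁶`
(`g = ⟪W x, x⟫`, `r = ‖x‖`).  It may help to rewrite `‖x‖ ^ 2 = ⟪x, x⟫`, `‖x‖ ^ 4 = ⟪x, x⟫ ^ 2`,
`‖x‖ ^ 6 = ⟪x, x⟫ ^ 3` first.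
-/

namespace G2F

open HFinG
open scoped ContDiff RealInnerProductSpace

variable {V : Type*} [NormedAddCommGroup V] [InnerProductSpace ℝ V]

theorem PertD_at (M : V →L[ℝ] V) (W : Fin 3 → V →L[ℝ] V) {x : V} (hx : x ≠ 0) :
    ContDiffAt ℝ ∞ (pert M W) x := by
  have hn : ContDiffAt ℝ ∞ (fun x : V => ‖x‖) x := contDiffAt_norm ℝ hx
  have hx' : ‖x‖ ≠ 0 := norm_ne_zero_iff.2 hx
  have hW : ∀ a, ContDiffAt ℝ ∞ (fun x => W a x) x := fun a => (W a).contDiff.contDiffAt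
  have hg : ∀ a, ContDiffAt ℝ ∞ (fun x => ⟪W a x, x⟫) x := fun a =>
    (hW a).inner ℝ contDiffAt_id
  have h1 : ∀ a, ContDiffAt ℝ ∞ (fun x => (4 * ⟪W a x, x⟫ / ‖x‖ ^ 2) • W a x) x := fun a =>
    ((contDiffAt_const.mul (hg a)).div (hn.pow 2) (pow_ne_zero 2 hx')).smul (hW a)
  have h2 : ContDiffAt ℝ ∞ (fun x => (2 * (∑ a, ⟪W a x, x⟫ ^ 2) / ‖x‖ ^ 4) • x) x :=
    ((contDiffAt_const.mul (ContDiffAt.sum fun a _ => (hg a).pow 2)).div (hn.pow 4)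
      (pow_ne_zero 4 hx')).smul contDiffAt_id
  exact (M.contDiff.contDiffAt.add (ContDiffAt.sum fun a _ => h1 a)).sub h2

theorem pert_smooth (M : V →L[ℝ] V) (W : Fin 3 → V →L[ℝ] V) :
    ContDiffOn ℝ ∞ (pert M W) {x | x ≠ 0} :=
  fun _ hx => (PertD_at M W hx).contDiffWithinAt

theorem pert_hasFDerivAt (M : V →L[ℝ] V) {W : Fin 3 → V →L[ℝ] V}
    (hW : ∀ a x y, ⟪W a x, y⟫ = ⟪x, W a y⟫) {x : V} (hx : x ≠ 0) (u : V) :
    fderiv ℝ (pert M W) x u = dpert M W x u := by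
  have hd : DifferentiableAt ℝ (pert M W) x := (PertD_at M W hx).differentiableAt (by simp)
  have hx' : ‖x‖ ≠ 0 := norm_ne_zero_iff.2 hx
  set y : ℝ → V := fun t => x + t • u with hy
  have hy0 : y 0 = x := by simp [hy]
  have hy' : HasDerivAt y u 0 := by
    have := ((hasDerivAt_id (0 : ℝ)).smul_const u).const_add x
    rw [one_smul] at this
    exact this
  have hWy : ∀ a, HasDerivAt (fun t => W a (y t)) (W a u) 0 := fun a =>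
    (W a).hasFDerivAt.comp_hasDerivAt 0 hy'
  have hMy : HasDerivAt (fun t => M (y t)) (M u) 0 := M.hasFDerivAt.comp_hasDerivAt 0 hy'
  have hg : ∀ a, HasDerivAt (fun t => ⟪W a (y t), y t⟫) (2 * ⟪W a x, u⟫) 0 := by
    intro a
    have h := (hWy a).inner ℝ hy'
    rw [hy0] at h
    have h2 : ⟪W a x, u⟫ + ⟪W a u, x⟫ = 2 * ⟪W a x, u⟫ := by
      rw [hW a u x, real_inner_comm]
      ring
    rw [h2] at h
    exact h
  have hn : HasDerivAt (fun t => ‖y t‖ ^ 2) (2 * ⟪x, u⟫) 0 := by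
    have h := hy'.norm_sq
    rw [hy0] at h
    exact h
  have h1 : ∀ a, HasDerivAt (fun t => (4 * ⟪W a (y t), y t⟫ / ‖y t‖ ^ 2) • W a (y t))
      ((8 * ⟪W a x, u⟫ / ‖x‖ ^ 2 - 8 * ⟪W a x, x⟫ * ⟪x, u⟫ / ‖x‖ ^ 4) • W a x
      + (4 * ⟪W a x, x⟫ / ‖x‖ ^ 2) • W a u) 0 := by
    intro a
    have h := (((hg a).const_mul 4).fun_div hn (by rw [hy0]; exact pow_ne_zero 2 hx')).fun_smul
      (hWy a)
    refine h.congr_deriv ?_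
    rw [hy0, add_comm]
    congr 2
    field_simp
    ring
  have h2 : HasDerivAt (fun t => 2 * (∑ a, ⟪W a (y t), y t⟫ ^ 2) / ‖y t‖ ^ 4)
      (∑ a, (8 * ⟪W a x, x⟫ * ⟪W a x, u⟫ / ‖x‖ ^ 4
      - 8 * ⟪W a x, x⟫ ^ 2 * ⟪x, u⟫ / ‖x‖ ^ 6)) 0 := by
    have e : (fun t => 2 * (∑ a, ⟪W a (y t), y t⟫ ^ 2) / ‖y t‖ ^ 4) =
        fun t => ∑ a, 2 * ⟪W a (y t), y t⟫ ^ 2 / (‖y t‖ ^ 2) ^ 2 := by
      funext t
      rw [Finset.mul_sum, Finset.sum_div]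
      refine Finset.sum_congr rfl fun a _ => ?_
      rw [← pow_mul]
    rw [e]
    refine HasDerivAt.fun_sum fun a _ => ?_
    have h := (((hg a).fun_pow 2).const_mul 2).fun_div (hn.fun_pow 2)
      (by rw [hy0]; exact pow_ne_zero 2 (pow_ne_zero 2 hx'))
    refine h.congr_deriv ?_
    rw [hy0]
    field_simp
    ring
  have h3 : HasDerivAt (fun t => (2 * (∑ a, ⟪W a (y t), y t⟫ ^ 2) / ‖y t‖ ^ 4) • y t)
      ((∑ a, (8 * ⟪W a x, x⟫ * ⟪W a x, u⟫ / ‖x‖ ^ 4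
      - 8 * ⟪W a x, x⟫ ^ 2 * ⟪x, u⟫ / ‖x‖ ^ 6)) • x +
      (2 * (∑ a, ⟪W a x, x⟫ ^ 2) / ‖x‖ ^ 4) • u) 0 := by
    have h := h2.fun_smul hy'
    refine h.congr_deriv ?_
    rw [hy0, add_comm]
  have h4 : HasDerivAt (fun t => pert M W (y t)) (dpert M W x u) 0 := by
    have h := (hMy.fun_add (HasDerivAt.fun_sum fun a (_ : a ∈ Finset.univ) => h1 a)).fun_sub h3
    refine h.congr_deriv ?_
    unfold dpert
    rw [sub_sub]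
  have h5 : HasDerivAt (fun t => pert M W (y t)) (fderiv ℝ (pert M W) x u) 0 := by
    have hd' : HasFDerivAt (pert M W) (fderiv ℝ (pert M W) x) (y 0) := by
      rw [hy0]
      exact hd.hasFDerivAt
    exact hd'.comp_hasDerivAt 0 hy'
  exact h5.unique h4

end G2F
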