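import Pool.Agent.G2F.PertD

/-! MODULE PertP (diff 1-2): `pert M W` is a perturbation (`IsPert`), symmetry under isometries.

* `zero`: `x = 0`: all terms vanish (`map_zero`).  `smul` (`c > 0`): `⟪W (c x), c x⟫ = c² g`,
  `‖c x‖² = c² ‖x‖²` (for `x = 0` both sides are `0`).
* `symm`: from `pert_hasFDerivAt` and the explicit formula `dpert` (`M`, `W a` symmetric):
  `⟪dpert x u, v⟫` is symmetric in `u, v`: the terms are `⟪M u, v⟫`, `8⟪W x,u⟫⟪W x,v⟫/r²`,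
  `-8g (⟪x,u⟫⟪W x,v⟫ + ⟪W x,u⟫⟪x,v⟫)/r⁴`, `4g⟪W u,v⟫/r²`, `8g²⟪x,u⟫⟪x,v⟫/r⁶`, `-2g²⟪u,v⟫/r⁴`.
* `inv`: if `S` is symmetric and commutes with the skew operator `act A`, then
  `⟪S x, act A x⟫ = -⟪act A (S x), x⟫ = -⟪S (act A x), x⟫ = -⟪act A x, S x⟫`, so it is `0`; apply to
  `S = M, W a, id`.
* `equi`: `pert_hasFDerivAt` with `u = act A x`: `⟪W a x, act A x⟫ = 0`, `⟪x, act A x⟫ = 0`, so
  `dpert x (act A x) = M (act A x) + ∑ (4g/r²) W a (act A x) - (2∑g²/r⁴) act A x = act A (pert x)`.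
-/

namespace G2F

open HFinG
open scoped ContDiff RealInnerProductSpace

variable {V H : Type*} [NormedAddCommGroup V] [InnerProductSpace ℝ V]
  [NormedAddCommGroup H] [InnerProductSpace ℝ H]

theorem PertP_inner (M : V →L[ℝ] V) (W : Fin 3 → V →L[ℝ] V) (x v : V) :
    ⟪pert M W x, v⟫ = ⟪M x, v⟫ + ∑ a, (4 * ⟪W a x, x⟫ / ‖x‖ ^ 2) * ⟪W a x, v⟫
      - (2 * (∑ a, ⟪W a x, x⟫ ^ 2) / ‖x‖ ^ 4) * ⟪x, v⟫ := by
  unfold pert
  rw [inner_sub_left, inner_add_left, sum_inner, real_inner_smul_left]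
  simp only [real_inner_smul_left]

theorem PertP_dinner (M : V →L[ℝ] V) (W : Fin 3 → V →L[ℝ] V) (x u v : V) :
    ⟪dpert M W x u, v⟫ = ⟪M u, v⟫ +
      ∑ a, ((8 * ⟪W a x, u⟫ / ‖x‖ ^ 2 - 8 * ⟪W a x, x⟫ * ⟪x, u⟫ / ‖x‖ ^ 4) * ⟪W a x, v⟫
        + (4 * ⟪W a x, x⟫ / ‖x‖ ^ 2) * ⟪W a u, v⟫)
      - (∑ a, (8 * ⟪W a x, x⟫ * ⟪W a x, u⟫ / ‖x‖ ^ 4
        - 8 * ⟪W a x, x⟫ ^ 2 * ⟪x, u⟫ / ‖x‖ ^ 6)) * ⟪x, v⟫
      - (2 * (∑ a, ⟪W a x, x⟫ ^ 2) / ‖x‖ ^ 4) * ⟪u, v⟫ := by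
  unfold dpert
  rw [inner_sub_left, inner_sub_left, inner_add_left, sum_inner, real_inner_smul_left,
    real_inner_smul_left]
  simp only [inner_add_left, real_inner_smul_left]

theorem PertP_symm {M : V →L[ℝ] V} {W : Fin 3 → V →L[ℝ] V}
    (hM : ∀ x y, ⟪M x, y⟫ = ⟪x, M y⟫) (hW : ∀ a x y, ⟪W a x, y⟫ = ⟪x, W a y⟫) (x u v : V) :
    ⟪dpert M W x u, v⟫ = ⟪u, dpert M W x v⟫ := by
  rw [real_inner_comm (dpert M W x v) u, PertP_dinner, PertP_dinner]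
  have h1 : ⟪M u, v⟫ = ⟪M v, u⟫ := by rw [hM, real_inner_comm]
  have h2 : ∀ a, ⟪W a u, v⟫ = ⟪W a v, u⟫ := fun a => by rw [hW, real_inner_comm]
  simp only [Fin.sum_univ_three]
  rw [h1, h2, h2, h2, real_inner_comm u v]
  ring

theorem PertP_skew {D : RedData V H} (hD : IsNormal D) {S : V →L[ℝ] V}
    (hS : ∀ x y, ⟪S x, y⟫ = ⟪x, S y⟫) (hSa : ∀ A x, S (D.act A x) = D.act A (S x))
    (A : H) (x : V) : ⟪S x, D.act A x⟫ = 0 := by
  have h1 : ⟪S x, D.act A x⟫ = -⟪S x, D.act A x⟫ := by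
    calc ⟪S x, D.act A x⟫ = ⟪x, S (D.act A x)⟫ := hS _ _
      _ = ⟪x, D.act A (S x)⟫ := by rw [hSa]
      _ = -⟪D.act A x, S x⟫ := by
        have h := hD.act_skew A x (S x)
        linarith
      _ = -⟪S x, D.act A x⟫ := by rw [real_inner_comm]
  linarith

theorem PertP_skew0 {D : RedData V H} (hD : IsNormal D) (A : H) (x : V) :
    ⟪x, D.act A x⟫ = 0 :=
  PertP_skew hD (S := ContinuousLinearMap.id ℝ V) (fun _ _ => rfl) (fun _ _ => rfl) A x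

theorem PertP_zero (M : V →L[ℝ] V) (W : Fin 3 → V →L[ℝ] V) : pert M W 0 = 0 := by
  unfold pert
  simp

theorem PertP_smul (M : V →L[ℝ] V) (W : Fin 3 → V →L[ℝ] V) {c : ℝ} (hc : 0 < c) (x : V) :
    pert M W (c • x) = c • pert M W x := by
  by_cases hx : x = 0
  · rw [hx, smul_zero, PertP_zero, smul_zero]
  have hr : 0 < ‖x‖ := norm_pos_iff.2 hx
  have hn : ‖c • x‖ = c * ‖x‖ := by rw [norm_smul, Real.norm_of_nonneg hc.le]
  have hg : ∀ a, ⟪W a (c • x), c • x⟫ = c ^ 2 * ⟪W a x, x⟫ := fun a => by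
    rw [map_smul, real_inner_smul_left, real_inner_smul_right]; ring
  have e1 : ∀ a, (4 * ⟪W a (c • x), c • x⟫ / ‖c • x‖ ^ 2) • W a (c • x) =
      c • ((4 * ⟪W a x, x⟫ / ‖x‖ ^ 2) • W a x) := fun a => by
    rw [hg, hn, map_smul, smul_smul, smul_smul]
    congr 1
    field_simp
  have e2 : (2 * (∑ a, ⟪W a (c • x), c • x⟫ ^ 2) / ‖c • x‖ ^ 4) =
      2 * (∑ a, ⟪W a x, x⟫ ^ 2) / ‖x‖ ^ 4 := by
    simp only [Fin.sum_univ_three, hg, hn]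
    field_simp
  unfold pert
  rw [e2, Finset.sum_congr rfl fun a _ => e1 a, ← Finset.smul_sum, map_smul, smul_sub, smul_add]
  congr 1
  rw [smul_smul, smul_smul, mul_comm]

theorem pert_isPert {D : RedData V H} (hD : IsNormal D) {M : V →L[ℝ] V} {W : Fin 3 → V →L[ℝ] V}
    (hM : ∀ x y, ⟪M x, y⟫ = ⟪x, M y⟫) (hW : ∀ a x y, ⟪W a x, y⟫ = ⟪x, W a y⟫)
    (hMa : ∀ A x, M (D.act A x) = D.act A (M x))
    (hWa : ∀ a A x, W a (D.act A x) = D.act A (W a x)) : IsPert D (pert M W) where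
  zero := PertP_zero M W
  smul c ξ hc := PertP_smul M W hc ξ
  smooth := pert_smooth M W
  symm ξ hξ u v := by
    rw [pert_hasFDerivAt M hW hξ, pert_hasFDerivAt M hW hξ]
    exact PertP_symm hM hW ξ u v
  inv A ξ := by
    rw [PertP_inner, PertP_skew hD hM hMa, PertP_skew0 hD]
    simp only [PertP_skew hD (hW _) (hWa _)]
    simp
  equi A ξ hξ := by
    rw [pert_hasFDerivAt M hW hξ]
    unfold dpert pert
    have h1 : ∀ a, ⟪W a ξ, D.act A ξ⟫ = 0 := fun a => PertP_skew hD (hW a) (hWa a) A ξ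
    rw [PertP_skew0 hD]
    simp only [h1, mul_zero, zero_div, sub_zero, zero_smul, zero_add, Finset.sum_const_zero, hMa,
      hWa, map_sub, map_add, map_sum, map_smul]

theorem pert_equi {M : V →L[ℝ] V} {W : Fin 3 → V →L[ℝ] V} (R : V ≃ₗᵢ[ℝ] V)
    (hM : ∀ x, M (R x) = R (M x)) (hW : ∀ a x, W a (R x) = R (W a x)) (x : V) :
    pert M W (R x) = R (pert M W x) := by
  unfold pert
  simp only [hM, hW, LinearIsometryEquiv.inner_map_map, LinearIsometryEquiv.norm_map, map_sub,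
    map_add, map_sum, map_smul]

theorem PertP_app (c : ℝ) (P M : V →L[ℝ] V) (x : V) : (c • P + M) x = c • P x + M x := rfl

theorem pert_add (c : ℝ) (P M : V →L[ℝ] V) (W : Fin 3 → V →L[ℝ] V) (x : V) :
    pert (c • P + M) W x = c • P x + pert M W x := by
  unfold pert
  rw [PertP_app]
  abel

theorem dpert_add (c : ℝ) (P M : V →L[ℝ] V) (W : Fin 3 → V →L[ℝ] V) (x u : V) :
    dpert (c • P + M) W x u = c • P u + dpert M W x u := by
  unfold dpert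
  rw [PertP_app]
  abel

end G2F
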