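import Pool.Agent.G2F.Ops
import Pool.Agent.G2F.PertP
import Pool.Agent.G2F.Crit

/-! MODULE Pos1 (diff 1-2): the structure of the third order term.

* `InP` is preserved by `M1`, `W a` (first three components are `0`) and by linear combinations, so
  `p0 ξ, b0 ξ σ ∈ 𝔭` for `ξ, σ ∈ 𝔭`; `P0` vanishes on `𝔭`.
* `mm_pp`: `mmF_3 ..`: every term of `mm3, .., mm10` contains a coordinate `0, 1, 2`.
* `b_m0`: for `z ∈ 𝔪₀`, `ξ ∈ 𝔭`, `‖ξ‖ = 1`: `M1 z = 0`, `W a z = 0`, `P0 z = z`, `⟪ξ,z⟫ = 0`, `⟪W a ξ,z⟫ = 0`,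
  so `dpert (c • P0 + M1) Wm ξ z = c • z - 2(∑ g²) • z`.
* `P3_val`: `P3_span` with `p = pg c`; `pg c ξ = c • P0 ξ + p0 ξ = p0 ξ` (`pert_add`), and by
  `pert_hasFDerivAt` (`ξ ≠ 0`) `fderiv (pg c) ξ σ = c • P0 σ + b0 ξ σ = b0 ξ σ` (`dpert_add`).
-/

namespace G2F

set_option linter.unusedSimpArgs false

open HFinG
open scoped RealInnerProductSpace Matrix

lemma inP_add {x y : V11} (hx : InP x) (hy : InP y) : InP (x + y) := by
  obtain ⟨a0, a1, a2⟩ := hx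
  obtain ⟨b0, b1, b2⟩ := hy
  refine ⟨?_, ?_, ?_⟩
  · rw [PiLp.add_apply, a0, b0, add_zero]
  · rw [PiLp.add_apply, a1, b1, add_zero]
  · rw [PiLp.add_apply, a2, b2, add_zero]

lemma inP_smul (c : ℝ) {x : V11} (hx : InP x) : InP (c • x) := by
  obtain ⟨a0, a1, a2⟩ := hx
  refine ⟨?_, ?_, ?_⟩
  · rw [PiLp.smul_apply, a0, smul_zero]
  · rw [PiLp.smul_apply, a1, smul_zero]
  · rw [PiLp.smul_apply, a2, smul_zero]

lemma inP_sub {x y : V11} (hx : InP x) (hy : InP y) : InP (x - y) := by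
  rw [sub_eq_add_neg, ← neg_one_smul ℝ y]
  exact inP_add hx (inP_smul _ hy)

lemma inP_M1 (x : V11) : InP (M1 x) := ⟨M1_0 x, M1_1 x, M1_2 x⟩

lemma inP_Wm (a : Fin 3) (x : V11) : InP (Wm a x) := by
  fin_cases a
  · exact ⟨W1_0 x, W1_1 x, W1_2 x⟩
  · exact ⟨W2_0 x, W2_1 x, W2_2 x⟩
  · exact ⟨W3_0 x, W3_1 x, W3_2 x⟩

lemma inP_sum {f : Fin 3 → V11} (h : ∀ a, InP (f a)) : InP (∑ a, f a) := by
  rw [Fin.sum_univ_three]
  exact inP_add (inP_add (h 0) (h 1)) (h 2)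

theorem p0_inP {ξ : V11} (pξ : InP ξ) : InP (p0 ξ) := by
  unfold p0 pert
  exact inP_sub (inP_add (inP_M1 ξ) (inP_sum fun a => inP_smul _ (inP_Wm a ξ))) (inP_smul _ pξ)

theorem b0_inP {ξ σ : V11} (pξ : InP ξ) (pσ : InP σ) : InP (b0 ξ σ) := by
  unfold b0 dpert
  exact inP_sub (inP_sub (inP_add (inP_M1 σ) (inP_sum fun a =>
    inP_add (inP_smul _ (inP_Wm a ξ)) (inP_smul _ (inP_Wm a σ)))) (inP_smul _ pξ)) (inP_smul _ pσ)

theorem mm_pp {x y : V11} (px : InP x) (py : InP y) : InM (g2.mm x y) := by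
  obtain ⟨a0, a1, a2⟩ := px
  obtain ⟨b0, b1, b2⟩ := py
  rw [g2_mm]
  refine ⟨?_, ?_, ?_, ?_, ?_, ?_, ?_, ?_⟩
  · rw [mmF_3]
    simp only [mm3, w, a0, a1, a2, b0, b1, b2]
    ring
  · rw [mmF_4]
    simp only [mm4, w, a0, a1, a2, b0, b1, b2]
    ring
  · rw [mmF_5]
    simp only [mm5, w, a0, a1, a2, b0, b1, b2]
    ring
  · rw [mmF_6]
    simp only [mm6, w, a0, a1, a2, b0, b1, b2]
    ring
  · rw [mmF_7]
    simp only [mm7, w, a0, a1, a2, b0, b1, b2]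
    ring
  · rw [mmF_8]
    simp only [mm8, w, a0, a1, a2, b0, b1, b2]
    ring
  · rw [mmF_9]
    simp only [mm9, w, a0, a1, a2, b0, b1, b2]
    ring
  · rw [mmF_10]
    simp only [mm10, w, a0, a1, a2, b0, b1, b2]
    ring

lemma P0_inP {x : V11} (px : InP x) : P0 x = 0 := by
  obtain ⟨a0, a1, a2⟩ := px
  ext i
  fin_cases i
  · exact a0
  · exact a1
  · exact a2
  · exact P0_3 x
  · exact P0_4 x
  · exact P0_5 x
  · exact P0_6 x
  · exact P0_7 x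
  · exact P0_8 x
  · exact P0_9 x
  · exact P0_10 x

lemma P0_inM {z : V11} (hz : InM z) : P0 z = z := by
  obtain ⟨h3, h4, h5, h6, h7, h8, h9, h10⟩ := hz
  ext i
  fin_cases i
  · exact P0_0 z
  · exact P0_1 z
  · exact P0_2 z
  · exact (P0_3 z).trans h3.symm
  · exact (P0_4 z).trans h4.symm
  · exact (P0_5 z).trans h5.symm
  · exact (P0_6 z).trans h6.symm
  · exact (P0_7 z).trans h7.symm
  · exact (P0_8 z).trans h8.symm
  · exact (P0_9 z).trans h9.symm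
  · exact (P0_10 z).trans h10.symm

lemma M1_inM {z : V11} (hz : InM z) : M1 z = 0 := by
  obtain ⟨h3, h4, h5, h6, h7, h8, h9, h10⟩ := hz
  ext i
  fin_cases i
  · exact M1_0 z
  · exact M1_1 z
  · exact M1_2 z
  · refine (M1_3 z).trans ?_
    rw [h3, h8]; simp
  · refine (M1_4 z).trans ?_
    rw [h4, h7]; simp
  · refine (M1_5 z).trans ?_
    rw [h5, h10]; simp
  · refine (M1_6 z).trans ?_
    rw [h6, h9]; simp
  · refine (M1_7 z).trans ?_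
    rw [h7, h4]; simp
  · refine (M1_8 z).trans ?_
    rw [h8, h3]; simp
  · refine (M1_9 z).trans ?_
    rw [h9, h6]; simp
  · refine (M1_10 z).trans ?_
    rw [h10, h5]; simp

lemma W1_inM {z : V11} (hz : InM z) : W1 z = 0 := by
  obtain ⟨h3, h4, h5, h6, h7, h8, h9, h10⟩ := hz
  ext i
  fin_cases i
  · exact W1_0 z
  · exact W1_1 z
  · exact W1_2 z
  · refine (W1_3 z).trans ?_
    simp [h3, h4, h5, h6, h7, h8, h9, h10]
  · refine (W1_4 z).trans ?_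
    simp [h3, h4, h5, h6, h7, h8, h9, h10]
  · refine (W1_5 z).trans ?_
    simp [h3, h4, h5, h6, h7, h8, h9, h10]
  · refine (W1_6 z).trans ?_
    simp [h3, h4, h5, h6, h7, h8, h9, h10]
  · refine (W1_7 z).trans ?_
    simp [h3, h4, h5, h6, h7, h8, h9, h10]
  · refine (W1_8 z).trans ?_
    simp [h3, h4, h5, h6, h7, h8, h9, h10]
  · refine (W1_9 z).trans ?_
    simp [h3, h4, h5, h6, h7, h8, h9, h10]
  · refine (W1_10 z).trans ?_
    simp [h3, h4, h5, h6, h7, h8, h9, h10]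

lemma W2_inM {z : V11} (hz : InM z) : W2 z = 0 := by
  obtain ⟨h3, h4, h5, h6, h7, h8, h9, h10⟩ := hz
  ext i
  fin_cases i
  · exact W2_0 z
  · exact W2_1 z
  · exact W2_2 z
  · refine (W2_3 z).trans ?_
    simp [h3, h4, h5, h6, h7, h8, h9, h10]
  · refine (W2_4 z).trans ?_
    simp [h3, h4, h5, h6, h7, h8, h9, h10]
  · refine (W2_5 z).trans ?_
    simp [h3, h4, h5, h6, h7, h8, h9, h10]
  · refine (W2_6 z).trans ?_
    simp [h3, h4, h5, h6, h7, h8, h9, h10]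
  · refine (W2_7 z).trans ?_
    simp [h3, h4, h5, h6, h7, h8, h9, h10]
  · refine (W2_8 z).trans ?_
    simp [h3, h4, h5, h6, h7, h8, h9, h10]
  · refine (W2_9 z).trans ?_
    simp [h3, h4, h5, h6, h7, h8, h9, h10]
  · refine (W2_10 z).trans ?_
    simp [h3, h4, h5, h6, h7, h8, h9, h10]

lemma W3_inM {z : V11} (hz : InM z) : W3 z = 0 := by
  obtain ⟨h3, h4, h5, h6, h7, h8, h9, h10⟩ := hz
  ext i
  fin_cases i
  · exact W3_0 z
  · exact W3_1 z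
  · exact W3_2 z
  · refine (W3_3 z).trans ?_
    simp [h3, h4, h5, h6, h7, h8, h9, h10]
  · refine (W3_4 z).trans ?_
    simp [h3, h4, h5, h6, h7, h8, h9, h10]
  · refine (W3_5 z).trans ?_
    simp [h3, h4, h5, h6, h7, h8, h9, h10]
  · refine (W3_6 z).trans ?_
    simp [h3, h4, h5, h6, h7, h8, h9, h10]
  · refine (W3_7 z).trans ?_
    simp [h3, h4, h5, h6, h7, h8, h9, h10]
  · refine (W3_8 z).trans ?_
    simp [h3, h4, h5, h6, h7, h8, h9, h10]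
  · refine (W3_9 z).trans ?_
    simp [h3, h4, h5, h6, h7, h8, h9, h10]
  · refine (W3_10 z).trans ?_
    simp [h3, h4, h5, h6, h7, h8, h9, h10]

lemma Wm_inM (a : Fin 3) {z : V11} (hz : InM z) : Wm a z = 0 := by
  fin_cases a
  · exact W1_inM hz
  · exact W2_inM hz
  · exact W3_inM hz

lemma inner_PM {x z : V11} (hx : InP x) (hz : InM z) : ⟪x, z⟫ = 0 := by
  obtain ⟨a0, a1, a2⟩ := hx
  obtain ⟨h3, h4, h5, h6, h7, h8, h9, h10⟩ := hz
  rw [inner11, a0, a1, a2, h3, h4, h5, h6, h7, h8, h9, h10]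
  ring

theorem pg_p0 (c : ℝ) {ξ : V11} (pξ : InP ξ) : pg c ξ = p0 ξ := by
  unfold pg p0
  rw [pert_add, P0_inP pξ, smul_zero, zero_add]

theorem b_m0 (c : ℝ) {ξ z : V11} (hξ : ‖ξ‖ = 1) (pξ : InP ξ) (hz : InM z) :
    dpert (c • P0 + M1) Wm ξ z = (c - 2 * ∑ a, ⟪Wm a ξ, ξ⟫ ^ 2) • z := by
  rw [dpert_add, P0_inM hz]
  unfold dpert
  rw [M1_inM hz, inner_PM pξ hz, hξ]
  simp only [Wm_inM _ hz, inner_PM (inP_Wm _ ξ) hz, mul_zero, zero_div, sub_zero, zero_smul,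
    smul_zero, add_zero, Finset.sum_const_zero, zero_add, one_pow, div_one, zero_sub]
  rw [sub_smul, sub_eq_add_neg]

theorem P3_val (c : ℝ) {ξ σ : V11} (hξ : ‖ξ‖ = 1) (pξ : InP ξ) (pσ : InP σ)
    (hm : g2.mm ξ σ = 0) (hh : g2.mh ξ σ = 0) {a b : ℝ} (hp : p0 ξ = a • ξ + b • σ) :
    P3 g2 (pg c) ξ σ = (c - 2 * ∑ a, ⟪Wm a ξ, ξ⟫ ^ 2) * ‖g2.mm ξ (b0 ξ σ)‖ ^ 2
      - ⟪g2.mm (p0 ξ) (b0 ξ σ), g2.mm ξ (b0 ξ σ)⟫ := by
  have hne : ξ ≠ 0 := by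
    intro h
    rw [h, norm_zero] at hξ
    exact zero_ne_one hξ
  have hd : ∀ u, fderiv ℝ (pg c) ξ u = dpert (c • P0 + M1) Wm ξ u := fun u =>
    pert_hasFDerivAt (c • P0 + M1) Wm_symm hne u
  have hb : fderiv ℝ (pg c) ξ σ = b0 ξ σ := by
    rw [hd, dpert_add, P0_inP pσ, smul_zero, zero_add]
    rfl
  have hp' : pg c ξ = a • ξ + b • σ := by rw [pg_p0 c pξ, hp]
  rw [P3_span hp' hm hh, hb, hd, b_m0 c hξ pξ (mm_pp pξ (b0_inP pξ pσ)), pg_p0 c pξ,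
    inner_sub_left, real_inner_smul_left, real_inner_self_eq_norm_sq]

end G2F
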