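import Pool.Agent.G2F.Pos1

/-! MODULE Pos2 (diff 2): compactness; the choice of `c`.

`S = {(ξ,σ)}` as in the hypothesis is compact: closed and bounded in `V11 × V11` (`p0` is continuous on
`{x ≠ 0}`: `pert_smooth`; the condition `mh (p0 ξ) σ = 0` is closed relative to the compact set `‖ξ‖ = 1`).
`b0` is continuous in `(ξ,σ)`, `ξ ≠ 0` (explicit formula).  The functions `φ = ‖mm ξ (b0 ξ σ)‖²`,
`ψ = |⟪mm (p0 ξ)(b0 ξ σ), mm ξ (b0 ξ σ)⟫|`, `G = ∑ ⟪W a ξ, ξ⟫²` are continuous on `S`; `φ > 0` on `S` by `hZ`,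
so `φ ≥ δ > 0`; `ψ ≤ Ψ`, `G ≤ G₀`.  Take `c = 2 G₀ + (Ψ + 1)/δ`: then
`(c - 2G) φ - ψ ≥ (Ψ + 1)/δ · δ - Ψ = 1 > 0`.
-/

namespace G2F

open HFinG
open scoped RealInnerProductSpace Matrix

theorem Pos2.pert_cont {V : Type*} [NormedAddCommGroup V] [InnerProductSpace ℝ V]
    (M : V →L[ℝ] V) (W : Fin 3 → V →L[ℝ] V) :
    ContinuousOn (pert M W) {x | x ≠ 0} := by
  unfold pert
  have h2 : ∀ x ∈ {x : V | x ≠ 0}, ‖x‖ ^ 2 ≠ 0 := fun x hx => pow_ne_zero _ (norm_ne_zero_iff.2 hx)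
  have h4 : ∀ x ∈ {x : V | x ≠ 0}, ‖x‖ ^ 4 ≠ 0 := fun x hx => pow_ne_zero _ (norm_ne_zero_iff.2 hx)
  have hg : ∀ a, Continuous fun x : V => ⟪W a x, x⟫ := fun a =>
    Continuous.inner (W a).continuous continuous_id
  refine ContinuousOn.sub (ContinuousOn.add M.continuous.continuousOn ?_) ?_
  · refine continuousOn_finsetSum _ fun a _ => ContinuousOn.smul ?_ (W a).continuous.continuousOn
    exact ContinuousOn.div (continuous_const.mul (hg a)).continuousOn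
      (continuous_norm.pow 2).continuousOn h2
  · refine ContinuousOn.smul ?_ continuousOn_id
    exact ContinuousOn.div (continuous_const.mul
      (continuous_finsetSum _ fun a _ => (hg a).pow 2)).continuousOn
      (continuous_norm.pow 4).continuousOn h4

theorem Pos2.dpert_cont {V : Type*} [NormedAddCommGroup V] [InnerProductSpace ℝ V]
    (M : V →L[ℝ] V) (W : Fin 3 → V →L[ℝ] V) :
    ContinuousOn (fun p : V × V => dpert M W p.1 p.2) {p | p.1 ≠ 0} := by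
  unfold dpert
  have h2 : ∀ p ∈ {p : V × V | p.1 ≠ 0}, ‖p.1‖ ^ 2 ≠ 0 :=
    fun x hx => pow_ne_zero _ (norm_ne_zero_iff.2 hx)
  have h4 : ∀ p ∈ {p : V × V | p.1 ≠ 0}, ‖p.1‖ ^ 4 ≠ 0 :=
    fun x hx => pow_ne_zero _ (norm_ne_zero_iff.2 hx)
  have h6 : ∀ p ∈ {p : V × V | p.1 ≠ 0}, ‖p.1‖ ^ 6 ≠ 0 :=
    fun x hx => pow_ne_zero _ (norm_ne_zero_iff.2 hx)
  have c2 : ContinuousOn (fun p : V × V => ‖p.1‖ ^ 2) {p | p.1 ≠ 0} :=
    ((continuous_norm.comp continuous_fst).pow 2).continuousOn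
  have c4 : ContinuousOn (fun p : V × V => ‖p.1‖ ^ 4) {p | p.1 ≠ 0} :=
    ((continuous_norm.comp continuous_fst).pow 4).continuousOn
  have c6 : ContinuousOn (fun p : V × V => ‖p.1‖ ^ 6) {p | p.1 ≠ 0} :=
    ((continuous_norm.comp continuous_fst).pow 6).continuousOn
  have hg : ∀ a, Continuous fun p : V × V => ⟪W a p.1, p.1⟫ := fun a =>
    Continuous.inner ((W a).continuous.comp continuous_fst) continuous_fst
  have hk : ∀ a, Continuous fun p : V × V => ⟪W a p.1, p.2⟫ := fun a =>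
    Continuous.inner ((W a).continuous.comp continuous_fst) continuous_snd
  have hx : Continuous fun p : V × V => ⟪p.1, p.2⟫ := Continuous.inner continuous_fst continuous_snd
  have w1 : ∀ a, Continuous fun p : V × V => W a p.1 := fun a =>
    (W a).continuous.comp continuous_fst
  have w2 : ∀ a, Continuous fun p : V × V => W a p.2 := fun a =>
    (W a).continuous.comp continuous_snd
  refine ContinuousOn.sub (ContinuousOn.sub (ContinuousOn.add
    (M.continuous.comp continuous_snd).continuousOn ?_) ?_) ?_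
  · refine continuousOn_finsetSum _ fun a _ => ContinuousOn.add
      (ContinuousOn.smul (ContinuousOn.sub ?_ ?_) (w1 a).continuousOn)
      (ContinuousOn.smul ?_ (w2 a).continuousOn)
    · exact ContinuousOn.div (continuous_const.mul (hk a)).continuousOn c2 h2
    · exact ContinuousOn.div ((continuous_const.mul (hg a)).mul hx).continuousOn c4 h4
    · exact ContinuousOn.div (continuous_const.mul (hg a)).continuousOn c2 h2
  · refine ContinuousOn.smul (continuousOn_finsetSum _ fun a _ => ContinuousOn.sub ?_ ?_)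
      continuous_fst.continuousOn
    · exact ContinuousOn.div ((continuous_const.mul (hg a)).mul (hk a)).continuousOn c4 h4
    · exact ContinuousOn.div ((continuous_const.mul ((hg a).pow 2)).mul hx).continuousOn c6 h6
  · refine ContinuousOn.smul ?_ continuous_snd.continuousOn
    exact ContinuousOn.div (continuous_const.mul
      (continuous_finsetSum _ fun a _ => (hg a).pow 2)).continuousOn c4 h4

theorem exists_c
    (hZ : ∀ ξ σ : V11, ‖ξ‖ = 1 → ‖σ‖ = 1 → ⟪ξ, σ⟫ = 0 → InP ξ → InP σ → g2.mm ξ σ = 0 →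
      g2.mh ξ σ = 0 → g2.mh (p0 ξ) σ = 0 → g2.mm ξ (b0 ξ σ) ≠ 0) :
    ∃ c : ℝ, ∀ ξ σ : V11, ‖ξ‖ = 1 → ‖σ‖ = 1 → ⟪ξ, σ⟫ = 0 → InP ξ → InP σ → g2.mm ξ σ = 0 →
      g2.mh ξ σ = 0 → g2.mh (p0 ξ) σ = 0 →
      0 < (c - 2 * ∑ a, ⟪Wm a ξ, ξ⟫ ^ 2) * ‖g2.mm ξ (b0 ξ σ)‖ ^ 2
        - ⟪g2.mm (p0 ξ) (b0 ξ σ), g2.mm ξ (b0 ξ σ)⟫ := by
  set C : Set (V11 × V11) := Metric.sphere 0 1 ×ˢ Metric.sphere 0 1 with hC
  have hCc : IsCompact C := (isCompact_sphere 0 1).prod (isCompact_sphere 0 1)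
  have hC0 : C ⊆ {p | p.1 ≠ 0} := by
    rintro ⟨x, y⟩ ⟨hx, -⟩ h0
    simp only at h0 hx
    rw [h0, mem_sphere_zero_iff_norm, norm_zero] at hx
    exact zero_ne_one hx
  have hp : ContinuousOn (fun p : V11 × V11 => p0 p.1) C := by
    refine (Pos2.pert_cont M1 Wm).comp continuous_fst.continuousOn ?_
    intro p hp
    exact hC0 hp
  have hb : ContinuousOn (fun p : V11 × V11 => b0 p.1 p.2) C :=
    (Pos2.dpert_cont M1 Wm).mono hC0
  have mmc : ∀ f g : V11 × V11 → V11, ∀ s : Set (V11 × V11), ContinuousOn f s → ContinuousOn g s →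
      ContinuousOn (fun p => g2.mm (f p) (g p)) s := by
    intro f g s hf hg
    exact (g2.mm.continuous.comp_continuousOn hf).clm_apply hg
  have mhc : ∀ f g : V11 × V11 → V11, ∀ s : Set (V11 × V11), ContinuousOn f s → ContinuousOn g s →
      ContinuousOn (fun p => g2.mh (f p) (g p)) s := by
    intro f g s hf hg
    exact (g2.mh.continuous.comp_continuousOn hf).clm_apply hg
  have hcoord : ∀ i, Continuous fun x : V11 => x i := fun i =>
    (EuclideanSpace.proj (𝕜 := ℝ) i).continuous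
  set K : Set (V11 × V11) := {p | ⟪p.1, p.2⟫ = 0} ∩ {p | InP p.1} ∩ {p | InP p.2} ∩
    {p | g2.mm p.1 p.2 = 0} ∩ {p | g2.mh p.1 p.2 = 0} ∩ (C ∩ {p | g2.mh (p0 p.1) p.2 = 0})
    with hK
  have cInP : IsClosed {x : V11 | InP x} :=
    (isClosed_eq (hcoord 0) continuous_const).inter
      ((isClosed_eq (hcoord 1) continuous_const).inter (isClosed_eq (hcoord 2) continuous_const))
  have hKc : IsClosed K := by
    refine IsClosed.inter (IsClosed.inter (IsClosed.inter (IsClosed.inter (IsClosed.inter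
      ?_ ?_) ?_) ?_) ?_) ?_
    · exact isClosed_eq (Continuous.inner continuous_fst continuous_snd) continuous_const
    · exact cInP.preimage continuous_fst
    · exact cInP.preimage continuous_snd
    · refine isClosed_eq ?_ continuous_const
      rw [← continuousOn_univ]
      exact mmc _ _ _ continuous_fst.continuousOn continuous_snd.continuousOn
    · refine isClosed_eq ?_ continuous_const
      rw [← continuousOn_univ]
      exact mhc _ _ _ continuous_fst.continuousOn continuous_snd.continuousOn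
    · exact (mhc _ _ _ hp continuous_snd.continuousOn).preimage_isClosed_of_isClosed
        hCc.isClosed (isClosed_singleton (x := (0 : E3)))
  have hKC : K ⊆ C := fun p hp => hp.2.1
  have hKcomp : IsCompact K := hCc.of_isClosed_subset hKc hKC
  have hφ0 : ∀ p ∈ K, ‖g2.mm p.1 (b0 p.1 p.2)‖ ^ 2 ≠ 0 := by
    rintro ⟨x, y⟩ hp
    obtain ⟨⟨⟨⟨⟨k1, k2⟩, k3⟩, k4⟩, k5⟩, k6, k7⟩ := hp
    have k8 : ‖x‖ = 1 := mem_sphere_zero_iff_norm.1 k6.1
    have k9 : ‖y‖ = 1 := mem_sphere_zero_iff_norm.1 k6.2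
    exact pow_ne_zero _ (norm_ne_zero_iff.2 (hZ x y k8 k9 k1 k2 k3 k4 k5 k7))
  have hZc : ContinuousOn (fun p : V11 × V11 => g2.mm p.1 (b0 p.1 p.2)) K :=
    mmc _ _ _ continuous_fst.continuousOn (hb.mono hKC)
  have hφ : ContinuousOn (fun p : V11 × V11 => ‖g2.mm p.1 (b0 p.1 p.2)‖ ^ 2) K := hZc.norm.pow 2
  have hψ : ContinuousOn (fun p : V11 × V11 =>
      ⟪g2.mm (p0 p.1) (b0 p.1 p.2), g2.mm p.1 (b0 p.1 p.2)⟫) K :=
    ContinuousOn.inner (𝕜 := ℝ) (mmc _ _ _ (hp.mono hKC) (hb.mono hKC)) hZc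
  have hG : ContinuousOn (fun p : V11 × V11 => 2 * ∑ a, ⟪Wm a p.1, p.1⟫ ^ 2) K := by
    refine Continuous.continuousOn (continuous_const.mul (continuous_finsetSum _ fun a _ => ?_))
    exact (Continuous.inner ((Wm a).continuous.comp continuous_fst) continuous_fst).pow 2
  have hF : ContinuousOn (fun p : V11 × V11 => (2 * ∑ a, ⟪Wm a p.1, p.1⟫ ^ 2) +
      ⟪g2.mm (p0 p.1) (b0 p.1 p.2), g2.mm p.1 (b0 p.1 p.2)⟫ /
        ‖g2.mm p.1 (b0 p.1 p.2)‖ ^ 2) K := hG.add (hψ.div hφ hφ0)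
  obtain ⟨B, hB⟩ := hKcomp.exists_bound_of_continuousOn hF
  refine ⟨B + 1, ?_⟩
  intro ξ σ h1 h2 h3 h4 h5 h6 h7 h8
  have hmem : (ξ, σ) ∈ K := by
    refine ⟨⟨⟨⟨⟨h3, h4⟩, h5⟩, h6⟩, h7⟩, ⟨?_, ?_⟩, h8⟩
    · exact mem_sphere_zero_iff_norm.2 h1
    · exact mem_sphere_zero_iff_norm.2 h2
  have hb1 := le_trans (le_abs_self _) (hB _ hmem)
  have hne := hφ0 _ hmem
  simp only at hb1 hne
  have hpos : 0 < ‖g2.mm ξ (b0 ξ σ)‖ ^ 2 := lt_of_le_of_ne (by positivity) (Ne.symm hne)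
  have e : (B + 1 - 2 * ∑ a, ⟪Wm a ξ, ξ⟫ ^ 2) * ‖g2.mm ξ (b0 ξ σ)‖ ^ 2
        - ⟪g2.mm (p0 ξ) (b0 ξ σ), g2.mm ξ (b0 ξ σ)⟫ =
      (B + 1 - ((2 * ∑ a, ⟪Wm a ξ, ξ⟫ ^ 2) +
      ⟪g2.mm (p0 ξ) (b0 ξ σ), g2.mm ξ (b0 ξ σ)⟫ / ‖g2.mm ξ (b0 ξ σ)‖ ^ 2))
        * ‖g2.mm ξ (b0 ξ σ)‖ ^ 2 := by
    have e2 : ⟪g2.mm (p0 ξ) (b0 ξ σ), g2.mm ξ (b0 ξ σ)⟫ / ‖g2.mm ξ (b0 ξ σ)‖ ^ 2
        * ‖g2.mm ξ (b0 ξ σ)‖ ^ 2 = ⟪g2.mm (p0 ξ) (b0 ξ σ), g2.mm ξ (b0 ξ σ)⟫ :=
      div_mul_cancel₀ _ hne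
    linear_combination e2
  rw [e]
  exact mul_pos (by linarith) hpos

end G2F
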