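import Pool.Agent.G2F.Defs2

/-! MODULE Rep: the matrices `iota x`, `hat A` represent the bracket data (generated). -/

namespace G2F

open HFinG
open scoped RealInnerProductSpace Matrix

set_option linter.unusedSimpArgs false

theorem iota_comm (x y : V11) : iota x * iota y - iota y * iota x =
    iota (mmF x y) + hat (mhF x y) := by
  ext i j
  rw [Matrix.sub_apply, Matrix.add_apply, mul7, mul7]
  fin_cases i <;> fin_cases j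
  · change (0 * 0 + (-(2 * k * x 2)) * (2 * k * y 2) + (2 * k * x 1) * (-(2 * k * y 1)) + (2 * k * x 9) * (-(2 * k * y 9)) + (2 * k * x 10) * (-(2 * k * y 10)) + (-(2 * k * x 7)) * (2 * k * y 7) + (-(2 * k * x 8)) * (2 * k * y 8)) - (0 * 0 + (-(2 * k * y 2)) * (2 * k * x 2) + (2 * k * y 1) * (-(2 * k * x 1)) + (2 * k * y 9) * (-(2 * k * x 9)) + (2 * k * y 10) * (-(2 * k * x 10)) + (-(2 * k * y 7)) * (2 * k * x 7) + (-(2 * k * y 8)) * (2 * k * x 8)) = (0) + (0)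
    simp only [mm0, mm1, mm2, mm3, mm4, mm5, mm6, mm7, mm8, mm9, mm10, mh0, mh1, mh2, w]
    ring
  · change (0 * (-(2 * k * y 2)) + (-(2 * k * x 2)) * 0 + (2 * k * x 1) * (2 * k * y 0) + (2 * k * x 9) * (y 3 - k * y 8) + (2 * k * x 10) * (y 4 + k * y 7) + (-(2 * k * x 7)) * (y 5 + k * y 10) + (-(2 * k * x 8)) * (y 6 - k * y 9)) - (0 * (-(2 * k * x 2)) + (-(2 * k * y 2)) * 0 + (2 * k * y 1) * (2 * k * x 0) + (2 * k * y 9) * (x 3 - k * x 8) + (2 * k * y 10) * (x 4 + k * x 7) + (-(2 * k * y 7)) * (x 5 + k * x 10) + (-(2 * k * y 8)) * (x 6 - k * x 9)) = (-(2 * k * mm2 x y)) + (0)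
    simp only [mm0, mm1, mm2, mm3, mm4, mm5, mm6, mm7, mm8, mm9, mm10, mh0, mh1, mh2, w]
    ring
  · change (0 * (2 * k * y 1) + (-(2 * k * x 2)) * (-(2 * k * y 0)) + (2 * k * x 1) * 0 + (2 * k * x 9) * (-y 4 + k * y 7) + (2 * k * x 10) * (y 3 + k * y 8) + (-(2 * k * x 7)) * (y 6 + k * y 9) + (-(2 * k * x 8)) * (-y 5 + k * y 10)) - (0 * (2 * k * x 1) + (-(2 * k * y 2)) * (-(2 * k * x 0)) + (2 * k * y 1) * 0 + (2 * k * y 9) * (-x 4 + k * x 7) + (2 * k * y 10) * (x 3 + k * x 8) + (-(2 * k * y 7)) * (x 6 + k * x 9) + (-(2 * k * y 8)) * (-x 5 + k * x 10)) = (2 * k * mm1 x y) + (0)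
    simp only [mm0, mm1, mm2, mm3, mm4, mm5, mm6, mm7, mm8, mm9, mm10, mh0, mh1, mh2, w]
    ring
  · change (0 * (2 * k * y 9) + (-(2 * k * x 2)) * (-y 3 + k * y 8) + (2 * k * x 1) * (y 4 - k * y 7) + (2 * k * x 9) * 0 + (2 * k * x 10) * (-(k * y 0)) + (-(2 * k * x 7)) * (-(k * y 1)) + (-(2 * k * x 8)) * (-(k * y 2))) - (0 * (2 * k * x 9) + (-(2 * k * y 2)) * (-x 3 + k * x 8) + (2 * k * y 1) * (x 4 - k * x 7) + (2 * k * y 9) * 0 + (2 * k * y 10) * (-(k * x 0)) + (-(2 * k * y 7)) * (-(k * x 1)) + (-(2 * k * y 8)) * (-(k * x 2))) = (2 * k * mm9 x y) + (0)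
    simp only [mm0, mm1, mm2, mm3, mm4, mm5, mm6, mm7, mm8, mm9, mm10, mh0, mh1, mh2, w]
    ring
  · change (0 * (2 * k * y 10) + (-(2 * k * x 2)) * (-y 4 - k * y 7) + (2 * k * x 1) * (-y 3 - k * y 8) + (2 * k * x 9) * (k * y 0) + (2 * k * x 10) * 0 + (-(2 * k * x 7)) * (k * y 2) + (-(2 * k * x 8)) * (-(k * y 1))) - (0 * (2 * k * x 10) + (-(2 * k * y 2)) * (-x 4 - k * x 7) + (2 * k * y 1) * (-x 3 - k * x 8) + (2 * k * y 9) * (k * x 0) + (2 * k * y 10) * 0 + (-(2 * k * y 7)) * (k * x 2) + (-(2 * k * y 8)) * (-(k * x 1))) = (2 * k * mm10 x y) + (0)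
    simp only [mm0, mm1, mm2, mm3, mm4, mm5, mm6, mm7, mm8, mm9, mm10, mh0, mh1, mh2, w]
    ring
  · change (0 * (-(2 * k * y 7)) + (-(2 * k * x 2)) * (-y 5 - k * y 10) + (2 * k * x 1) * (-y 6 - k * y 9) + (2 * k * x 9) * (k * y 1) + (2 * k * x 10) * (-(k * y 2)) + (-(2 * k * x 7)) * 0 + (-(2 * k * x 8)) * (k * y 0)) - (0 * (-(2 * k * x 7)) + (-(2 * k * y 2)) * (-x 5 - k * x 10) + (2 * k * y 1) * (-x 6 - k * x 9) + (2 * k * y 9) * (k * x 1) + (2 * k * y 10) * (-(k * x 2)) + (-(2 * k * y 7)) * 0 + (-(2 * k * y 8)) * (k * x 0)) = (-(2 * k * mm7 x y)) + (0)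
    simp only [mm0, mm1, mm2, mm3, mm4, mm5, mm6, mm7, mm8, mm9, mm10, mh0, mh1, mh2, w]
    ring
  · change (0 * (-(2 * k * y 8)) + (-(2 * k * x 2)) * (-y 6 + k * y 9) + (2 * k * x 1) * (y 5 - k * y 10) + (2 * k * x 9) * (k * y 2) + (2 * k * x 10) * (k * y 1) + (-(2 * k * x 7)) * (-(k * y 0)) + (-(2 * k * x 8)) * 0) - (0 * (-(2 * k * x 8)) + (-(2 * k * y 2)) * (-x 6 + k * x 9) + (2 * k * y 1) * (x 5 - k * x 10) + (2 * k * y 9) * (k * x 2) + (2 * k * y 10) * (k * x 1) + (-(2 * k * y 7)) * (-(k * x 0)) + (-(2 * k * y 8)) * 0) = (-(2 * k * mm8 x y)) + (0)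
    simp only [mm0, mm1, mm2, mm3, mm4, mm5, mm6, mm7, mm8, mm9, mm10, mh0, mh1, mh2, w]
    ring
  · change ((2 * k * x 2) * 0 + 0 * (2 * k * y 2) + (-(2 * k * x 0)) * (-(2 * k * y 1)) + (-x 3 + k * x 8) * (-(2 * k * y 9)) + (-x 4 - k * x 7) * (-(2 * k * y 10)) + (-x 5 - k * x 10) * (2 * k * y 7) + (-x 6 + k * x 9) * (2 * k * y 8)) - ((2 * k * y 2) * 0 + 0 * (2 * k * x 2) + (-(2 * k * y 0)) * (-(2 * k * x 1)) + (-y 3 + k * y 8) * (-(2 * k * x 9)) + (-y 4 - k * y 7) * (-(2 * k * x 10)) + (-y 5 - k * y 10) * (2 * k * x 7) + (-y 6 + k * y 9) * (2 * k * x 8)) = (2 * k * mm2 x y) + (0)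
    simp only [mm0, mm1, mm2, mm3, mm4, mm5, mm6, mm7, mm8, mm9, mm10, mh0, mh1, mh2, w]
    ring
  · change ((2 * k * x 2) * (-(2 * k * y 2)) + 0 * 0 + (-(2 * k * x 0)) * (2 * k * y 0) + (-x 3 + k * x 8) * (y 3 - k * y 8) + (-x 4 - k * x 7) * (y 4 + k * y 7) + (-x 5 - k * x 10) * (y 5 + k * y 10) + (-x 6 + k * x 9) * (y 6 - k * y 9)) - ((2 * k * y 2) * (-(2 * k * x 2)) + 0 * 0 + (-(2 * k * y 0)) * (2 * k * x 0) + (-y 3 + k * y 8) * (x 3 - k * x 8) + (-y 4 - k * y 7) * (x 4 + k * x 7) + (-y 5 - k * y 10) * (x 5 + k * x 10) + (-y 6 + k * y 9) * (x 6 - k * x 9)) = (0) + (0)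
    simp only [mm0, mm1, mm2, mm3, mm4, mm5, mm6, mm7, mm8, mm9, mm10, mh0, mh1, mh2, w]
    ring
  · change ((2 * k * x 2) * (2 * k * y 1) + 0 * (-(2 * k * y 0)) + (-(2 * k * x 0)) * 0 + (-x 3 + k * x 8) * (-y 4 + k * y 7) + (-x 4 - k * x 7) * (y 3 + k * y 8) + (-x 5 - k * x 10) * (y 6 + k * y 9) + (-x 6 + k * x 9) * (-y 5 + k * y 10)) - ((2 * k * y 2) * (2 * k * x 1) + 0 * (-(2 * k * x 0)) + (-(2 * k * y 0)) * 0 + (-y 3 + k * y 8) * (-x 4 + k * x 7) + (-y 4 - k * y 7) * (x 3 + k * x 8) + (-y 5 - k * y 10) * (x 6 + k * x 9) + (-y 6 + k * y 9) * (-x 5 + k * x 10)) = (-(2 * k * mm0 x y)) + (0)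
    simp only [mm0, mm1, mm2, mm3, mm4, mm5, mm6, mm7, mm8, mm9, mm10, mh0, mh1, mh2, w]
    linear_combination (-6 * x 3 * y 4 + 6 * x 4 * y 3 + 6 * x 5 * y 6 - 6 * x 6 * y 5) * k_sq'
  · change ((2 * k * x 2) * (2 * k * y 9) + 0 * (-y 3 + k * y 8) + (-(2 * k * x 0)) * (y 4 - k * y 7) + (-x 3 + k * x 8) * 0 + (-x 4 - k * x 7) * (-(k * y 0)) + (-x 5 - k * x 10) * (-(k * y 1)) + (-x 6 + k * x 9) * (-(k * y 2))) - ((2 * k * y 2) * (2 * k * x 9) + 0 * (-x 3 + k * x 8) + (-(2 * k * y 0)) * (x 4 - k * x 7) + (-y 3 + k * y 8) * 0 + (-y 4 - k * y 7) * (-(k * x 0)) + (-y 5 - k * y 10) * (-(k * x 1)) + (-y 6 + k * y 9) * (-(k * x 2))) = (-mm3 x y + k * mm8 x y) + (0)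
    simp only [mm0, mm1, mm2, mm3, mm4, mm5, mm6, mm7, mm8, mm9, mm10, mh0, mh1, mh2, w]
    linear_combination (-3 * x 1 * y 10 + 3 * x 10 * y 1 + 3 * x 2 * y 9 - 3 * x 9 * y 2) * k_sq'
  · change ((2 * k * x 2) * (2 * k * y 10) + 0 * (-y 4 - k * y 7) + (-(2 * k * x 0)) * (-y 3 - k * y 8) + (-x 3 + k * x 8) * (k * y 0) + (-x 4 - k * x 7) * 0 + (-x 5 - k * x 10) * (k * y 2) + (-x 6 + k * x 9) * (-(k * y 1))) - ((2 * k * y 2) * (2 * k * x 10) + 0 * (-x 4 - k * x 7) + (-(2 * k * y 0)) * (-x 3 - k * x 8) + (-y 3 + k * y 8) * (k * x 0) + (-y 4 - k * y 7) * 0 + (-y 5 - k * y 10) * (k * x 2) + (-y 6 + k * y 9) * (-(k * x 1))) = (-mm4 x y - k * mm7 x y) + (0)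
    simp only [mm0, mm1, mm2, mm3, mm4, mm5, mm6, mm7, mm8, mm9, mm10, mh0, mh1, mh2, w]
    linear_combination (3 * x 1 * y 9 - 3 * x 10 * y 2 + 3 * x 2 * y 10 - 3 * x 9 * y 1) * k_sq'
  · change ((2 * k * x 2) * (-(2 * k * y 7)) + 0 * (-y 5 - k * y 10) + (-(2 * k * x 0)) * (-y 6 - k * y 9) + (-x 3 + k * x 8) * (k * y 1) + (-x 4 - k * x 7) * (-(k * y 2)) + (-x 5 - k * x 10) * 0 + (-x 6 + k * x 9) * (k * y 0)) - ((2 * k * y 2) * (-(2 * k * x 7)) + 0 * (-x 5 - k * x 10) + (-(2 * k * y 0)) * (-x 6 - k * x 9) + (-y 3 + k * y 8) * (k * x 1) + (-y 4 - k * y 7) * (-(k * x 2)) + (-y 5 - k * y 10) * 0 + (-y 6 + k * y 9) * (k * x 0)) = (-mm5 x y - k * mm10 x y) + (0)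
    simp only [mm0, mm1, mm2, mm3, mm4, mm5, mm6, mm7, mm8, mm9, mm10, mh0, mh1, mh2, w]
    linear_combination (-3 * x 1 * y 8 - 3 * x 2 * y 7 + 3 * x 7 * y 2 + 3 * x 8 * y 1) * k_sq'
  · change ((2 * k * x 2) * (-(2 * k * y 8)) + 0 * (-y 6 + k * y 9) + (-(2 * k * x 0)) * (y 5 - k * y 10) + (-x 3 + k * x 8) * (k * y 2) + (-x 4 - k * x 7) * (k * y 1) + (-x 5 - k * x 10) * (-(k * y 0)) + (-x 6 + k * x 9) * 0) - ((2 * k * y 2) * (-(2 * k * x 8)) + 0 * (-x 6 + k * x 9) + (-(2 * k * y 0)) * (x 5 - k * x 10) + (-y 3 + k * y 8) * (k * x 2) + (-y 4 - k * y 7) * (k * x 1) + (-y 5 - k * y 10) * (-(k * x 0)) + (-y 6 + k * y 9) * 0) = (-mm6 x y + k * mm9 x y) + (0)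
    simp only [mm0, mm1, mm2, mm3, mm4, mm5, mm6, mm7, mm8, mm9, mm10, mh0, mh1, mh2, w]
    linear_combination (3 * x 1 * y 7 - 3 * x 2 * y 8 - 3 * x 7 * y 1 + 3 * x 8 * y 2) * k_sq'
  · change ((-(2 * k * x 1)) * 0 + (2 * k * x 0) * (2 * k * y 2) + 0 * (-(2 * k * y 1)) + (x 4 - k * x 7) * (-(2 * k * y 9)) + (-x 3 - k * x 8) * (-(2 * k * y 10)) + (-x 6 - k * x 9) * (2 * k * y 7) + (x 5 - k * x 10) * (2 * k * y 8)) - ((-(2 * k * y 1)) * 0 + (2 * k * y 0) * (2 * k * x 2) + 0 * (-(2 * k * x 1)) + (y 4 - k * y 7) * (-(2 * k * x 9)) + (-y 3 - k * y 8) * (-(2 * k * x 10)) + (-y 6 - k * y 9) * (2 * k * x 7) + (y 5 - k * y 10) * (2 * k * x 8)) = (-(2 * k * mm1 x y)) + (0)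
    simp only [mm0, mm1, mm2, mm3, mm4, mm5, mm6, mm7, mm8, mm9, mm10, mh0, mh1, mh2, w]
    ring
  · change ((-(2 * k * x 1)) * (-(2 * k * y 2)) + (2 * k * x 0) * 0 + 0 * (2 * k * y 0) + (x 4 - k * x 7) * (y 3 - k * y 8) + (-x 3 - k * x 8) * (y 4 + k * y 7) + (-x 6 - k * x 9) * (y 5 + k * y 10) + (x 5 - k * x 10) * (y 6 - k * y 9)) - ((-(2 * k * y 1)) * (-(2 * k * x 2)) + (2 * k * y 0) * 0 + 0 * (2 * k * x 0) + (y 4 - k * y 7) * (x 3 - k * x 8) + (-y 3 - k * y 8) * (x 4 + k * x 7) + (-y 6 - k * y 9) * (x 5 + k * x 10) + (y 5 - k * y 10) * (x 6 - k * x 9)) = (2 * k * mm0 x y) + (0)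
    simp only [mm0, mm1, mm2, mm3, mm4, mm5, mm6, mm7, mm8, mm9, mm10, mh0, mh1, mh2, w]
    linear_combination (6 * x 3 * y 4 - 6 * x 4 * y 3 - 6 * x 5 * y 6 + 6 * x 6 * y 5) * k_sq'
  · change ((-(2 * k * x 1)) * (2 * k * y 1) + (2 * k * x 0) * (-(2 * k * y 0)) + 0 * 0 + (x 4 - k * x 7) * (-y 4 + k * y 7) + (-x 3 - k * x 8) * (y 3 + k * y 8) + (-x 6 - k * x 9) * (y 6 + k * y 9) + (x 5 - k * x 10) * (-y 5 + k * y 10)) - ((-(2 * k * y 1)) * (2 * k * x 1) + (2 * k * y 0) * (-(2 * k * x 0)) + 0 * 0 + (y 4 - k * y 7) * (-x 4 + k * x 7) + (-y 3 - k * y 8) * (x 3 + k * x 8) + (-y 6 - k * y 9) * (x 6 + k * x 9) + (y 5 - k * y 10) * (-x 5 + k * x 10)) = (0) + (0)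
    simp only [mm0, mm1, mm2, mm3, mm4, mm5, mm6, mm7, mm8, mm9, mm10, mh0, mh1, mh2, w]
    ring
  · change ((-(2 * k * x 1)) * (2 * k * y 9) + (2 * k * x 0) * (-y 3 + k * y 8) + 0 * (y 4 - k * y 7) + (x 4 - k * x 7) * 0 + (-x 3 - k * x 8) * (-(k * y 0)) + (-x 6 - k * x 9) * (-(k * y 1)) + (x 5 - k * x 10) * (-(k * y 2))) - ((-(2 * k * y 1)) * (2 * k * x 9) + (2 * k * y 0) * (-x 3 + k * x 8) + 0 * (x 4 - k * x 7) + (y 4 - k * y 7) * 0 + (-y 3 - k * y 8) * (-(k * x 0)) + (-y 6 - k * y 9) * (-(k * x 1)) + (y 5 - k * y 10) * (-(k * x 2))) = (mm4 x y - k * mm7 x y) + (0)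
    simp only [mm0, mm1, mm2, mm3, mm4, mm5, mm6, mm7, mm8, mm9, mm10, mh0, mh1, mh2, w]
    linear_combination (-3 * x 1 * y 9 + 3 * x 10 * y 2 - 3 * x 2 * y 10 + 3 * x 9 * y 1) * k_sq'
  · change ((-(2 * k * x 1)) * (2 * k * y 10) + (2 * k * x 0) * (-y 4 - k * y 7) + 0 * (-y 3 - k * y 8) + (x 4 - k * x 7) * (k * y 0) + (-x 3 - k * x 8) * 0 + (-x 6 - k * x 9) * (k * y 2) + (x 5 - k * x 10) * (-(k * y 1))) - ((-(2 * k * y 1)) * (2 * k * x 10) + (2 * k * y 0) * (-x 4 - k * x 7) + 0 * (-x 3 - k * x 8) + (y 4 - k * y 7) * (k * x 0) + (-y 3 - k * y 8) * 0 + (-y 6 - k * y 9) * (k * x 2) + (y 5 - k * y 10) * (-(k * x 1))) = (-mm3 x y - k * mm8 x y) + (0)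
    simp only [mm0, mm1, mm2, mm3, mm4, mm5, mm6, mm7, mm8, mm9, mm10, mh0, mh1, mh2, w]
    linear_combination (-3 * x 1 * y 10 + 3 * x 10 * y 1 + 3 * x 2 * y 9 - 3 * x 9 * y 2) * k_sq'
  · change ((-(2 * k * x 1)) * (-(2 * k * y 7)) + (2 * k * x 0) * (-y 5 - k * y 10) + 0 * (-y 6 - k * y 9) + (x 4 - k * x 7) * (k * y 1) + (-x 3 - k * x 8) * (-(k * y 2)) + (-x 6 - k * x 9) * 0 + (x 5 - k * x 10) * (k * y 0)) - ((-(2 * k * y 1)) * (-(2 * k * x 7)) + (2 * k * y 0) * (-x 5 - k * x 10) + 0 * (-x 6 - k * x 9) + (y 4 - k * y 7) * (k * x 1) + (-y 3 - k * y 8) * (-(k * x 2)) + (-y 6 - k * y 9) * 0 + (y 5 - k * y 10) * (k * x 0)) = (-mm6 x y - k * mm9 x y) + (0)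
    simp only [mm0, mm1, mm2, mm3, mm4, mm5, mm6, mm7, mm8, mm9, mm10, mh0, mh1, mh2, w]
    linear_combination (3 * x 1 * y 7 - 3 * x 2 * y 8 - 3 * x 7 * y 1 + 3 * x 8 * y 2) * k_sq'
  · change ((-(2 * k * x 1)) * (-(2 * k * y 8)) + (2 * k * x 0) * (-y 6 + k * y 9) + 0 * (y 5 - k * y 10) + (x 4 - k * x 7) * (k * y 2) + (-x 3 - k * x 8) * (k * y 1) + (-x 6 - k * x 9) * (-(k * y 0)) + (x 5 - k * x 10) * 0) - ((-(2 * k * y 1)) * (-(2 * k * x 8)) + (2 * k * y 0) * (-x 6 + k * x 9) + 0 * (x 5 - k * x 10) + (y 4 - k * y 7) * (k * x 2) + (-y 3 - k * y 8) * (k * x 1) + (-y 6 - k * y 9) * (-(k * x 0)) + (y 5 - k * y 10) * 0) = (mm5 x y - k * mm10 x y) + (0)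
    simp only [mm0, mm1, mm2, mm3, mm4, mm5, mm6, mm7, mm8, mm9, mm10, mh0, mh1, mh2, w]
    linear_combination (3 * x 1 * y 8 + 3 * x 2 * y 7 - 3 * x 7 * y 2 - 3 * x 8 * y 1) * k_sq'
  · change ((-(2 * k * x 9)) * 0 + (x 3 - k * x 8) * (2 * k * y 2) + (-x 4 + k * x 7) * (-(2 * k * y 1)) + 0 * (-(2 * k * y 9)) + (k * x 0) * (-(2 * k * y 10)) + (k * x 1) * (2 * k * y 7) + (k * x 2) * (2 * k * y 8)) - ((-(2 * k * y 9)) * 0 + (y 3 - k * y 8) * (2 * k * x 2) + (-y 4 + k * y 7) * (-(2 * k * x 1)) + 0 * (-(2 * k * x 9)) + (k * y 0) * (-(2 * k * x 10)) + (k * y 1) * (2 * k * x 7) + (k * y 2) * (2 * k * x 8)) = (-(2 * k * mm9 x y)) + (0)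
    simp only [mm0, mm1, mm2, mm3, mm4, mm5, mm6, mm7, mm8, mm9, mm10, mh0, mh1, mh2, w]
    ring
  · change ((-(2 * k * x 9)) * (-(2 * k * y 2)) + (x 3 - k * x 8) * 0 + (-x 4 + k * x 7) * (2 * k * y 0) + 0 * (y 3 - k * y 8) + (k * x 0) * (y 4 + k * y 7) + (k * x 1) * (y 5 + k * y 10) + (k * x 2) * (y 6 - k * y 9)) - ((-(2 * k * y 9)) * (-(2 * k * x 2)) + (y 3 - k * y 8) * 0 + (-y 4 + k * y 7) * (2 * k * x 0) + 0 * (x 3 - k * x 8) + (k * y 0) * (x 4 + k * x 7) + (k * y 1) * (x 5 + k * x 10) + (k * y 2) * (x 6 - k * x 9)) = (mm3 x y - k * mm8 x y) + (0)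
    simp only [mm0, mm1, mm2, mm3, mm4, mm5, mm6, mm7, mm8, mm9, mm10, mh0, mh1, mh2, w]
    linear_combination (3 * x 1 * y 10 - 3 * x 10 * y 1 - 3 * x 2 * y 9 + 3 * x 9 * y 2) * k_sq'
  · change ((-(2 * k * x 9)) * (2 * k * y 1) + (x 3 - k * x 8) * (-(2 * k * y 0)) + (-x 4 + k * x 7) * 0 + 0 * (-y 4 + k * y 7) + (k * x 0) * (y 3 + k * y 8) + (k * x 1) * (y 6 + k * y 9) + (k * x 2) * (-y 5 + k * y 10)) - ((-(2 * k * y 9)) * (2 * k * x 1) + (y 3 - k * y 8) * (-(2 * k * x 0)) + (-y 4 + k * y 7) * 0 + 0 * (-x 4 + k * x 7) + (k * y 0) * (x 3 + k * x 8) + (k * y 1) * (x 6 + k * x 9) + (k * y 2) * (-x 5 + k * x 10)) = (-mm4 x y + k * mm7 x y) + (0)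
    simp only [mm0, mm1, mm2, mm3, mm4, mm5, mm6, mm7, mm8, mm9, mm10, mh0, mh1, mh2, w]
    linear_combination (3 * x 1 * y 9 - 3 * x 10 * y 2 + 3 * x 2 * y 10 - 3 * x 9 * y 1) * k_sq'
  · change ((-(2 * k * x 9)) * (2 * k * y 9) + (x 3 - k * x 8) * (-y 3 + k * y 8) + (-x 4 + k * x 7) * (y 4 - k * y 7) + 0 * 0 + (k * x 0) * (-(k * y 0)) + (k * x 1) * (-(k * y 1)) + (k * x 2) * (-(k * y 2))) - ((-(2 * k * y 9)) * (2 * k * x 9) + (y 3 - k * y 8) * (-x 3 + k * x 8) + (-y 4 + k * y 7) * (x 4 - k * x 7) + 0 * 0 + (k * y 0) * (-(k * x 0)) + (k * y 1) * (-(k * x 1)) + (k * y 2) * (-(k * x 2))) = (0) + (0)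
    simp only [mm0, mm1, mm2, mm3, mm4, mm5, mm6, mm7, mm8, mm9, mm10, mh0, mh1, mh2, w]
    ring
  · change ((-(2 * k * x 9)) * (2 * k * y 10) + (x 3 - k * x 8) * (-y 4 - k * y 7) + (-x 4 + k * x 7) * (-y 3 - k * y 8) + 0 * (k * y 0) + (k * x 0) * 0 + (k * x 1) * (k * y 2) + (k * x 2) * (-(k * y 1))) - ((-(2 * k * y 9)) * (2 * k * x 10) + (y 3 - k * y 8) * (-x 4 - k * x 7) + (-y 4 + k * y 7) * (-x 3 - k * x 8) + 0 * (k * x 0) + (k * y 0) * 0 + (k * y 1) * (k * x 2) + (k * y 2) * (-(k * x 1))) = (k * mm0 x y) + (-mh0 x y)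
    simp only [mm0, mm1, mm2, mm3, mm4, mm5, mm6, mm7, mm8, mm9, mm10, mh0, mh1, mh2, w]
    linear_combination (3 * x 10 * y 9 + 3 * x 3 * y 4 - 3 * x 4 * y 3 - 3 * x 5 * y 6 + 3 * x 6 * y 5 - 3 * x 7 * y 8 + 3 * x 8 * y 7 - 3 * x 9 * y 10) * k_sq'
  · change ((-(2 * k * x 9)) * (-(2 * k * y 7)) + (x 3 - k * x 8) * (-y 5 - k * y 10) + (-x 4 + k * x 7) * (-y 6 - k * y 9) + 0 * (k * y 1) + (k * x 0) * (-(k * y 2)) + (k * x 1) * 0 + (k * x 2) * (k * y 0)) - ((-(2 * k * y 9)) * (-(2 * k * x 7)) + (y 3 - k * y 8) * (-x 5 - k * x 10) + (-y 4 + k * y 7) * (-x 6 - k * x 9) + 0 * (k * x 1) + (k * y 0) * (-(k * x 2)) + (k * y 1) * 0 + (k * y 2) * (k * x 0)) = (k * mm1 x y) + (-mh1 x y)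
    simp only [mm0, mm1, mm2, mm3, mm4, mm5, mm6, mm7, mm8, mm9, mm10, mh0, mh1, mh2, w]
    linear_combination (-3 * x 10 * y 8 - 3 * x 7 * y 9 + 3 * x 8 * y 10 + 3 * x 9 * y 7) * k_sq'
  · change ((-(2 * k * x 9)) * (-(2 * k * y 8)) + (x 3 - k * x 8) * (-y 6 + k * y 9) + (-x 4 + k * x 7) * (y 5 - k * y 10) + 0 * (k * y 2) + (k * x 0) * (k * y 1) + (k * x 1) * (-(k * y 0)) + (k * x 2) * 0) - ((-(2 * k * y 9)) * (-(2 * k * x 8)) + (y 3 - k * y 8) * (-x 6 + k * x 9) + (-y 4 + k * y 7) * (x 5 - k * x 10) + 0 * (k * x 2) + (k * y 0) * (k * x 1) + (k * y 1) * (-(k * x 0)) + (k * y 2) * 0) = (k * mm2 x y) + (-mh2 x y)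
    simp only [mm0, mm1, mm2, mm3, mm4, mm5, mm6, mm7, mm8, mm9, mm10, mh0, mh1, mh2, w]
    linear_combination (3 * x 10 * y 7 - 3 * x 7 * y 10 - 3 * x 8 * y 9 + 3 * x 9 * y 8) * k_sq'
  · change ((-(2 * k * x 10)) * 0 + (x 4 + k * x 7) * (2 * k * y 2) + (x 3 + k * x 8) * (-(2 * k * y 1)) + (-(k * x 0)) * (-(2 * k * y 9)) + 0 * (-(2 * k * y 10)) + (-(k * x 2)) * (2 * k * y 7) + (k * x 1) * (2 * k * y 8)) - ((-(2 * k * y 10)) * 0 + (y 4 + k * y 7) * (2 * k * x 2) + (y 3 + k * y 8) * (-(2 * k * x 1)) + (-(k * y 0)) * (-(2 * k * x 9)) + 0 * (-(2 * k * x 10)) + (-(k * y 2)) * (2 * k * x 7) + (k * y 1) * (2 * k * x 8)) = (-(2 * k * mm10 x y)) + (0)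
    simp only [mm0, mm1, mm2, mm3, mm4, mm5, mm6, mm7, mm8, mm9, mm10, mh0, mh1, mh2, w]
    ring
  · change ((-(2 * k * x 10)) * (-(2 * k * y 2)) + (x 4 + k * x 7) * 0 + (x 3 + k * x 8) * (2 * k * y 0) + (-(k * x 0)) * (y 3 - k * y 8) + 0 * (y 4 + k * y 7) + (-(k * x 2)) * (y 5 + k * y 10) + (k * x 1) * (y 6 - k * y 9)) - ((-(2 * k * y 10)) * (-(2 * k * x 2)) + (y 4 + k * y 7) * 0 + (y 3 + k * y 8) * (2 * k * x 0) + (-(k * y 0)) * (x 3 - k * x 8) + 0 * (x 4 + k * x 7) + (-(k * y 2)) * (x 5 + k * x 10) + (k * y 1) * (x 6 - k * x 9)) = (mm4 x y + k * mm7 x y) + (0)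
    simp only [mm0, mm1, mm2, mm3, mm4, mm5, mm6, mm7, mm8, mm9, mm10, mh0, mh1, mh2, w]
    linear_combination (-3 * x 1 * y 9 + 3 * x 10 * y 2 - 3 * x 2 * y 10 + 3 * x 9 * y 1) * k_sq'
  · change ((-(2 * k * x 10)) * (2 * k * y 1) + (x 4 + k * x 7) * (-(2 * k * y 0)) + (x 3 + k * x 8) * 0 + (-(k * x 0)) * (-y 4 + k * y 7) + 0 * (y 3 + k * y 8) + (-(k * x 2)) * (y 6 + k * y 9) + (k * x 1) * (-y 5 + k * y 10)) - ((-(2 * k * y 10)) * (2 * k * x 1) + (y 4 + k * y 7) * (-(2 * k * x 0)) + (y 3 + k * y 8) * 0 + (-(k * y 0)) * (-x 4 + k * x 7) + 0 * (x 3 + k * x 8) + (-(k * y 2)) * (x 6 + k * x 9) + (k * y 1) * (-x 5 + k * x 10)) = (mm3 x y + k * mm8 x y) + (0)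
    simp only [mm0, mm1, mm2, mm3, mm4, mm5, mm6, mm7, mm8, mm9, mm10, mh0, mh1, mh2, w]
    linear_combination (3 * x 1 * y 10 - 3 * x 10 * y 1 - 3 * x 2 * y 9 + 3 * x 9 * y 2) * k_sq'
  · change ((-(2 * k * x 10)) * (2 * k * y 9) + (x 4 + k * x 7) * (-y 3 + k * y 8) + (x 3 + k * x 8) * (y 4 - k * y 7) + (-(k * x 0)) * 0 + 0 * (-(k * y 0)) + (-(k * x 2)) * (-(k * y 1)) + (k * x 1) * (-(k * y 2))) - ((-(2 * k * y 10)) * (2 * k * x 9) + (y 4 + k * y 7) * (-x 3 + k * x 8) + (y 3 + k * y 8) * (x 4 - k * x 7) + (-(k * y 0)) * 0 + 0 * (-(k * x 0)) + (-(k * y 2)) * (-(k * x 1)) + (k * y 1) * (-(k * x 2))) = (-(k * mm0 x y)) + (mh0 x y)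
    simp only [mm0, mm1, mm2, mm3, mm4, mm5, mm6, mm7, mm8, mm9, mm10, mh0, mh1, mh2, w]
    linear_combination (-3 * x 10 * y 9 - 3 * x 3 * y 4 + 3 * x 4 * y 3 + 3 * x 5 * y 6 - 3 * x 6 * y 5 + 3 * x 7 * y 8 - 3 * x 8 * y 7 + 3 * x 9 * y 10) * k_sq'
  · change ((-(2 * k * x 10)) * (2 * k * y 10) + (x 4 + k * x 7) * (-y 4 - k * y 7) + (x 3 + k * x 8) * (-y 3 - k * y 8) + (-(k * x 0)) * (k * y 0) + 0 * 0 + (-(k * x 2)) * (k * y 2) + (k * x 1) * (-(k * y 1))) - ((-(2 * k * y 10)) * (2 * k * x 10) + (y 4 + k * y 7) * (-x 4 - k * x 7) + (y 3 + k * y 8) * (-x 3 - k * x 8) + (-(k * y 0)) * (k * x 0) + 0 * 0 + (-(k * y 2)) * (k * x 2) + (k * y 1) * (-(k * x 1))) = (0) + (0)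
    simp only [mm0, mm1, mm2, mm3, mm4, mm5, mm6, mm7, mm8, mm9, mm10, mh0, mh1, mh2, w]
    ring
  · change ((-(2 * k * x 10)) * (-(2 * k * y 7)) + (x 4 + k * x 7) * (-y 5 - k * y 10) + (x 3 + k * x 8) * (-y 6 - k * y 9) + (-(k * x 0)) * (k * y 1) + 0 * (-(k * y 2)) + (-(k * x 2)) * 0 + (k * x 1) * (k * y 0)) - ((-(2 * k * y 10)) * (-(2 * k * x 7)) + (y 4 + k * y 7) * (-x 5 - k * x 10) + (y 3 + k * y 8) * (-x 6 - k * x 9) + (-(k * y 0)) * (k * x 1) + 0 * (-(k * x 2)) + (-(k * y 2)) * 0 + (k * y 1) * (k * x 0)) = (-(k * mm2 x y)) + (-mh2 x y)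
    simp only [mm0, mm1, mm2, mm3, mm4, mm5, mm6, mm7, mm8, mm9, mm10, mh0, mh1, mh2, w]
    linear_combination (3 * x 10 * y 7 - 3 * x 7 * y 10 - 3 * x 8 * y 9 + 3 * x 9 * y 8) * k_sq'
  · change ((-(2 * k * x 10)) * (-(2 * k * y 8)) + (x 4 + k * x 7) * (-y 6 + k * y 9) + (x 3 + k * x 8) * (y 5 - k * y 10) + (-(k * x 0)) * (k * y 2) + 0 * (k * y 1) + (-(k * x 2)) * (-(k * y 0)) + (k * x 1) * 0) - ((-(2 * k * y 10)) * (-(2 * k * x 8)) + (y 4 + k * y 7) * (-x 6 + k * x 9) + (y 3 + k * y 8) * (x 5 - k * x 10) + (-(k * y 0)) * (k * x 2) + 0 * (k * x 1) + (-(k * y 2)) * (-(k * x 0)) + (k * y 1) * 0) = (k * mm1 x y) + (mh1 x y)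
    simp only [mm0, mm1, mm2, mm3, mm4, mm5, mm6, mm7, mm8, mm9, mm10, mh0, mh1, mh2, w]
    linear_combination (3 * x 10 * y 8 + 3 * x 7 * y 9 - 3 * x 8 * y 10 - 3 * x 9 * y 7) * k_sq'
  · change ((2 * k * x 7) * 0 + (x 5 + k * x 10) * (2 * k * y 2) + (x 6 + k * x 9) * (-(2 * k * y 1)) + (-(k * x 1)) * (-(2 * k * y 9)) + (k * x 2) * (-(2 * k * y 10)) + 0 * (2 * k * y 7) + (-(k * x 0)) * (2 * k * y 8)) - ((2 * k * y 7) * 0 + (y 5 + k * y 10) * (2 * k * x 2) + (y 6 + k * y 9) * (-(2 * k * x 1)) + (-(k * y 1)) * (-(2 * k * x 9)) + (k * y 2) * (-(2 * k * x 10)) + 0 * (2 * k * x 7) + (-(k * y 0)) * (2 * k * x 8)) = (2 * k * mm7 x y) + (0)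
    simp only [mm0, mm1, mm2, mm3, mm4, mm5, mm6, mm7, mm8, mm9, mm10, mh0, mh1, mh2, w]
    ring
  · change ((2 * k * x 7) * (-(2 * k * y 2)) + (x 5 + k * x 10) * 0 + (x 6 + k * x 9) * (2 * k * y 0) + (-(k * x 1)) * (y 3 - k * y 8) + (k * x 2) * (y 4 + k * y 7) + 0 * (y 5 + k * y 10) + (-(k * x 0)) * (y 6 - k * y 9)) - ((2 * k * y 7) * (-(2 * k * x 2)) + (y 5 + k * y 10) * 0 + (y 6 + k * y 9) * (2 * k * x 0) + (-(k * y 1)) * (x 3 - k * x 8) + (k * y 2) * (x 4 + k * x 7) + 0 * (x 5 + k * x 10) + (-(k * y 0)) * (x 6 - k * x 9)) = (mm5 x y + k * mm10 x y) + (0)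
    simp only [mm0, mm1, mm2, mm3, mm4, mm5, mm6, mm7, mm8, mm9, mm10, mh0, mh1, mh2, w]
    linear_combination (3 * x 1 * y 8 + 3 * x 2 * y 7 - 3 * x 7 * y 2 - 3 * x 8 * y 1) * k_sq'
  · change ((2 * k * x 7) * (2 * k * y 1) + (x 5 + k * x 10) * (-(2 * k * y 0)) + (x 6 + k * x 9) * 0 + (-(k * x 1)) * (-y 4 + k * y 7) + (k * x 2) * (y 3 + k * y 8) + 0 * (y 6 + k * y 9) + (-(k * x 0)) * (-y 5 + k * y 10)) - ((2 * k * y 7) * (2 * k * x 1) + (y 5 + k * y 10) * (-(2 * k * x 0)) + (y 6 + k * y 9) * 0 + (-(k * y 1)) * (-x 4 + k * x 7) + (k * y 2) * (x 3 + k * x 8) + 0 * (x 6 + k * x 9) + (-(k * y 0)) * (-x 5 + k * x 10)) = (mm6 x y + k * mm9 x y) + (0)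
    simp only [mm0, mm1, mm2, mm3, mm4, mm5, mm6, mm7, mm8, mm9, mm10, mh0, mh1, mh2, w]
    linear_combination (-3 * x 1 * y 7 + 3 * x 2 * y 8 + 3 * x 7 * y 1 - 3 * x 8 * y 2) * k_sq'
  · change ((2 * k * x 7) * (2 * k * y 9) + (x 5 + k * x 10) * (-y 3 + k * y 8) + (x 6 + k * x 9) * (y 4 - k * y 7) + (-(k * x 1)) * 0 + (k * x 2) * (-(k * y 0)) + 0 * (-(k * y 1)) + (-(k * x 0)) * (-(k * y 2))) - ((2 * k * y 7) * (2 * k * x 9) + (y 5 + k * y 10) * (-x 3 + k * x 8) + (y 6 + k * y 9) * (x 4 - k * x 7) + (-(k * y 1)) * 0 + (k * y 2) * (-(k * x 0)) + 0 * (-(k * x 1)) + (-(k * y 0)) * (-(k * x 2))) = (-(k * mm1 x y)) + (mh1 x y)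
    simp only [mm0, mm1, mm2, mm3, mm4, mm5, mm6, mm7, mm8, mm9, mm10, mh0, mh1, mh2, w]
    linear_combination (3 * x 10 * y 8 + 3 * x 7 * y 9 - 3 * x 8 * y 10 - 3 * x 9 * y 7) * k_sq'
  · change ((2 * k * x 7) * (2 * k * y 10) + (x 5 + k * x 10) * (-y 4 - k * y 7) + (x 6 + k * x 9) * (-y 3 - k * y 8) + (-(k * x 1)) * (k * y 0) + (k * x 2) * 0 + 0 * (k * y 2) + (-(k * x 0)) * (-(k * y 1))) - ((2 * k * y 7) * (2 * k * x 10) + (y 5 + k * y 10) * (-x 4 - k * x 7) + (y 6 + k * y 9) * (-x 3 - k * x 8) + (-(k * y 1)) * (k * x 0) + (k * y 2) * 0 + 0 * (k * x 2) + (-(k * y 0)) * (-(k * x 1))) = (k * mm2 x y) + (mh2 x y)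
    simp only [mm0, mm1, mm2, mm3, mm4, mm5, mm6, mm7, mm8, mm9, mm10, mh0, mh1, mh2, w]
    linear_combination (-3 * x 10 * y 7 + 3 * x 7 * y 10 + 3 * x 8 * y 9 - 3 * x 9 * y 8) * k_sq'
  · change ((2 * k * x 7) * (-(2 * k * y 7)) + (x 5 + k * x 10) * (-y 5 - k * y 10) + (x 6 + k * x 9) * (-y 6 - k * y 9) + (-(k * x 1)) * (k * y 1) + (k * x 2) * (-(k * y 2)) + 0 * 0 + (-(k * x 0)) * (k * y 0)) - ((2 * k * y 7) * (-(2 * k * x 7)) + (y 5 + k * y 10) * (-x 5 - k * x 10) + (y 6 + k * y 9) * (-x 6 - k * x 9) + (-(k * y 1)) * (k * x 1) + (k * y 2) * (-(k * x 2)) + 0 * 0 + (-(k * y 0)) * (k * x 0)) = (0) + (0)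
    simp only [mm0, mm1, mm2, mm3, mm4, mm5, mm6, mm7, mm8, mm9, mm10, mh0, mh1, mh2, w]
    ring
  · change ((2 * k * x 7) * (-(2 * k * y 8)) + (x 5 + k * x 10) * (-y 6 + k * y 9) + (x 6 + k * x 9) * (y 5 - k * y 10) + (-(k * x 1)) * (k * y 2) + (k * x 2) * (k * y 1) + 0 * (-(k * y 0)) + (-(k * x 0)) * 0) - ((2 * k * y 7) * (-(2 * k * x 8)) + (y 5 + k * y 10) * (-x 6 + k * x 9) + (y 6 + k * y 9) * (x 5 - k * x 10) + (-(k * y 1)) * (k * x 2) + (k * y 2) * (k * x 1) + 0 * (-(k * x 0)) + (-(k * y 0)) * 0) = (-(k * mm0 x y)) + (-mh0 x y)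
    simp only [mm0, mm1, mm2, mm3, mm4, mm5, mm6, mm7, mm8, mm9, mm10, mh0, mh1, mh2, w]
    linear_combination (3 * x 10 * y 9 - 3 * x 3 * y 4 + 3 * x 4 * y 3 + 3 * x 5 * y 6 - 3 * x 6 * y 5 - 3 * x 7 * y 8 + 3 * x 8 * y 7 - 3 * x 9 * y 10) * k_sq'
  · change ((2 * k * x 8) * 0 + (x 6 - k * x 9) * (2 * k * y 2) + (-x 5 + k * x 10) * (-(2 * k * y 1)) + (-(k * x 2)) * (-(2 * k * y 9)) + (-(k * x 1)) * (-(2 * k * y 10)) + (k * x 0) * (2 * k * y 7) + 0 * (2 * k * y 8)) - ((2 * k * y 8) * 0 + (y 6 - k * y 9) * (2 * k * x 2) + (-y 5 + k * y 10) * (-(2 * k * x 1)) + (-(k * y 2)) * (-(2 * k * x 9)) + (-(k * y 1)) * (-(2 * k * x 10)) + (k * y 0) * (2 * k * x 7) + 0 * (2 * k * x 8)) = (2 * k * mm8 x y) + (0)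
    simp only [mm0, mm1, mm2, mm3, mm4, mm5, mm6, mm7, mm8, mm9, mm10, mh0, mh1, mh2, w]
    ring
  · change ((2 * k * x 8) * (-(2 * k * y 2)) + (x 6 - k * x 9) * 0 + (-x 5 + k * x 10) * (2 * k * y 0) + (-(k * x 2)) * (y 3 - k * y 8) + (-(k * x 1)) * (y 4 + k * y 7) + (k * x 0) * (y 5 + k * y 10) + 0 * (y 6 - k * y 9)) - ((2 * k * y 8) * (-(2 * k * x 2)) + (y 6 - k * y 9) * 0 + (-y 5 + k * y 10) * (2 * k * x 0) + (-(k * y 2)) * (x 3 - k * x 8) + (-(k * y 1)) * (x 4 + k * x 7) + (k * y 0) * (x 5 + k * x 10) + 0 * (x 6 - k * x 9)) = (mm6 x y - k * mm9 x y) + (0)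
    simp only [mm0, mm1, mm2, mm3, mm4, mm5, mm6, mm7, mm8, mm9, mm10, mh0, mh1, mh2, w]
    linear_combination (-3 * x 1 * y 7 + 3 * x 2 * y 8 + 3 * x 7 * y 1 - 3 * x 8 * y 2) * k_sq'
  · change ((2 * k * x 8) * (2 * k * y 1) + (x 6 - k * x 9) * (-(2 * k * y 0)) + (-x 5 + k * x 10) * 0 + (-(k * x 2)) * (-y 4 + k * y 7) + (-(k * x 1)) * (y 3 + k * y 8) + (k * x 0) * (y 6 + k * y 9) + 0 * (-y 5 + k * y 10)) - ((2 * k * y 8) * (2 * k * x 1) + (y 6 - k * y 9) * (-(2 * k * x 0)) + (-y 5 + k * y 10) * 0 + (-(k * y 2)) * (-x 4 + k * x 7) + (-(k * y 1)) * (x 3 + k * x 8) + (k * y 0) * (x 6 + k * x 9) + 0 * (-x 5 + k * x 10)) = (-mm5 x y + k * mm10 x y) + (0)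
    simp only [mm0, mm1, mm2, mm3, mm4, mm5, mm6, mm7, mm8, mm9, mm10, mh0, mh1, mh2, w]
    linear_combination (-3 * x 1 * y 8 - 3 * x 2 * y 7 + 3 * x 7 * y 2 + 3 * x 8 * y 1) * k_sq'
  · change ((2 * k * x 8) * (2 * k * y 9) + (x 6 - k * x 9) * (-y 3 + k * y 8) + (-x 5 + k * x 10) * (y 4 - k * y 7) + (-(k * x 2)) * 0 + (-(k * x 1)) * (-(k * y 0)) + (k * x 0) * (-(k * y 1)) + 0 * (-(k * y 2))) - ((2 * k * y 8) * (2 * k * x 9) + (y 6 - k * y 9) * (-x 3 + k * x 8) + (-y 5 + k * y 10) * (x 4 - k * x 7) + (-(k * y 2)) * 0 + (-(k * y 1)) * (-(k * x 0)) + (k * y 0) * (-(k * x 1)) + 0 * (-(k * x 2))) = (-(k * mm2 x y)) + (mh2 x y)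
    simp only [mm0, mm1, mm2, mm3, mm4, mm5, mm6, mm7, mm8, mm9, mm10, mh0, mh1, mh2, w]
    linear_combination (-3 * x 10 * y 7 + 3 * x 7 * y 10 + 3 * x 8 * y 9 - 3 * x 9 * y 8) * k_sq'
  · change ((2 * k * x 8) * (2 * k * y 10) + (x 6 - k * x 9) * (-y 4 - k * y 7) + (-x 5 + k * x 10) * (-y 3 - k * y 8) + (-(k * x 2)) * (k * y 0) + (-(k * x 1)) * 0 + (k * x 0) * (k * y 2) + 0 * (-(k * y 1))) - ((2 * k * y 8) * (2 * k * x 10) + (y 6 - k * y 9) * (-x 4 - k * x 7) + (-y 5 + k * y 10) * (-x 3 - k * x 8) + (-(k * y 2)) * (k * x 0) + (-(k * y 1)) * 0 + (k * y 0) * (k * x 2) + 0 * (-(k * x 1))) = (-(k * mm1 x y)) + (-mh1 x y)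
    simp only [mm0, mm1, mm2, mm3, mm4, mm5, mm6, mm7, mm8, mm9, mm10, mh0, mh1, mh2, w]
    linear_combination (-3 * x 10 * y 8 - 3 * x 7 * y 9 + 3 * x 8 * y 10 + 3 * x 9 * y 7) * k_sq'
  · change ((2 * k * x 8) * (-(2 * k * y 7)) + (x 6 - k * x 9) * (-y 5 - k * y 10) + (-x 5 + k * x 10) * (-y 6 - k * y 9) + (-(k * x 2)) * (k * y 1) + (-(k * x 1)) * (-(k * y 2)) + (k * x 0) * 0 + 0 * (k * y 0)) - ((2 * k * y 8) * (-(2 * k * x 7)) + (y 6 - k * y 9) * (-x 5 - k * x 10) + (-y 5 + k * y 10) * (-x 6 - k * x 9) + (-(k * y 2)) * (k * x 1) + (-(k * y 1)) * (-(k * x 2)) + (k * y 0) * 0 + 0 * (k * x 0)) = (k * mm0 x y) + (mh0 x y)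
    simp only [mm0, mm1, mm2, mm3, mm4, mm5, mm6, mm7, mm8, mm9, mm10, mh0, mh1, mh2, w]
    linear_combination (-3 * x 10 * y 9 + 3 * x 3 * y 4 - 3 * x 4 * y 3 - 3 * x 5 * y 6 + 3 * x 6 * y 5 + 3 * x 7 * y 8 - 3 * x 8 * y 7 + 3 * x 9 * y 10) * k_sq'
  · change ((2 * k * x 8) * (-(2 * k * y 8)) + (x 6 - k * x 9) * (-y 6 + k * y 9) + (-x 5 + k * x 10) * (y 5 - k * y 10) + (-(k * x 2)) * (k * y 2) + (-(k * x 1)) * (k * y 1) + (k * x 0) * (-(k * y 0)) + 0 * 0) - ((2 * k * y 8) * (-(2 * k * x 8)) + (y 6 - k * y 9) * (-x 6 + k * x 9) + (-y 5 + k * y 10) * (x 5 - k * x 10) + (-(k * y 2)) * (k * x 2) + (-(k * y 1)) * (k * x 1) + (k * y 0) * (-(k * x 0)) + 0 * 0) = (0) + (0)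
    simp only [mm0, mm1, mm2, mm3, mm4, mm5, mm6, mm7, mm8, mm9, mm10, mh0, mh1, mh2, w]
    ring

theorem hat_iota (A : E3) (x : V11) : hat A * iota x - iota x * hat A = iota (actF A x) := by
  ext i j
  rw [Matrix.sub_apply, mul7, mul7]
  fin_cases i <;> fin_cases j
  · change (0 * 0 + 0 * (2 * k * x 2) + 0 * (-(2 * k * x 1)) + 0 * (-(2 * k * x 9)) + 0 * (-(2 * k * x 10)) + 0 * (2 * k * x 7) + 0 * (2 * k * x 8)) - (0 * 0 + (-(2 * k * x 2)) * 0 + (2 * k * x 1) * 0 + (2 * k * x 9) * 0 + (2 * k * x 10) * 0 + (-(2 * k * x 7)) * 0 + (-(2 * k * x 8)) * 0) = 0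
    simp only [ac3, ac4, ac5, ac6, ac7, ac8, ac9, ac10]
    ring
  · change (0 * (-(2 * k * x 2)) + 0 * 0 + 0 * (2 * k * x 0) + 0 * (x 3 - k * x 8) + 0 * (x 4 + k * x 7) + 0 * (x 5 + k * x 10) + 0 * (x 6 - k * x 9)) - (0 * 0 + (-(2 * k * x 2)) * 0 + (2 * k * x 1) * 0 + (2 * k * x 9) * 0 + (2 * k * x 10) * 0 + (-(2 * k * x 7)) * 0 + (-(2 * k * x 8)) * 0) = -(2 * k * 0)
    simp only [ac3, ac4, ac5, ac6, ac7, ac8, ac9, ac10]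
    ring
  · change (0 * (2 * k * x 1) + 0 * (-(2 * k * x 0)) + 0 * 0 + 0 * (-x 4 + k * x 7) + 0 * (x 3 + k * x 8) + 0 * (x 6 + k * x 9) + 0 * (-x 5 + k * x 10)) - (0 * 0 + (-(2 * k * x 2)) * 0 + (2 * k * x 1) * 0 + (2 * k * x 9) * 0 + (2 * k * x 10) * 0 + (-(2 * k * x 7)) * 0 + (-(2 * k * x 8)) * 0) = 2 * k * 0
    simp only [ac3, ac4, ac5, ac6, ac7, ac8, ac9, ac10]
    ring
  · change (0 * (2 * k * x 9) + 0 * (-x 3 + k * x 8) + 0 * (x 4 - k * x 7) + 0 * 0 + 0 * (-(k * x 0)) + 0 * (-(k * x 1)) + 0 * (-(k * x 2))) - (0 * 0 + (-(2 * k * x 2)) * 0 + (2 * k * x 1) * 0 + (2 * k * x 9) * 0 + (2 * k * x 10) * A 0 + (-(2 * k * x 7)) * A 1 + (-(2 * k * x 8)) * A 2) = 2 * k * ac9 A x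
    simp only [ac3, ac4, ac5, ac6, ac7, ac8, ac9, ac10]
    ring
  · change (0 * (2 * k * x 10) + 0 * (-x 4 - k * x 7) + 0 * (-x 3 - k * x 8) + 0 * (k * x 0) + 0 * 0 + 0 * (k * x 2) + 0 * (-(k * x 1))) - (0 * 0 + (-(2 * k * x 2)) * 0 + (2 * k * x 1) * 0 + (2 * k * x 9) * (-A 0) + (2 * k * x 10) * 0 + (-(2 * k * x 7)) * A 2 + (-(2 * k * x 8)) * (-A 1)) = 2 * k * ac10 A x
    simp only [ac3, ac4, ac5, ac6, ac7, ac8, ac9, ac10]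
    ring
  · change (0 * (-(2 * k * x 7)) + 0 * (-x 5 - k * x 10) + 0 * (-x 6 - k * x 9) + 0 * (k * x 1) + 0 * (-(k * x 2)) + 0 * 0 + 0 * (k * x 0)) - (0 * 0 + (-(2 * k * x 2)) * 0 + (2 * k * x 1) * 0 + (2 * k * x 9) * (-A 1) + (2 * k * x 10) * (-A 2) + (-(2 * k * x 7)) * 0 + (-(2 * k * x 8)) * A 0) = -(2 * k * ac7 A x)
    simp only [ac3, ac4, ac5, ac6, ac7, ac8, ac9, ac10]
    ring
  · change (0 * (-(2 * k * x 8)) + 0 * (-x 6 + k * x 9) + 0 * (x 5 - k * x 10) + 0 * (k * x 2) + 0 * (k * x 1) + 0 * (-(k * x 0)) + 0 * 0) - (0 * 0 + (-(2 * k * x 2)) * 0 + (2 * k * x 1) * 0 + (2 * k * x 9) * (-A 2) + (2 * k * x 10) * A 1 + (-(2 * k * x 7)) * (-A 0) + (-(2 * k * x 8)) * 0) = -(2 * k * ac8 A x)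
    simp only [ac3, ac4, ac5, ac6, ac7, ac8, ac9, ac10]
    ring
  · change (0 * 0 + 0 * (2 * k * x 2) + 0 * (-(2 * k * x 1)) + 0 * (-(2 * k * x 9)) + 0 * (-(2 * k * x 10)) + 0 * (2 * k * x 7) + 0 * (2 * k * x 8)) - ((2 * k * x 2) * 0 + 0 * 0 + (-(2 * k * x 0)) * 0 + (-x 3 + k * x 8) * 0 + (-x 4 - k * x 7) * 0 + (-x 5 - k * x 10) * 0 + (-x 6 + k * x 9) * 0) = 2 * k * 0
    simp only [ac3, ac4, ac5, ac6, ac7, ac8, ac9, ac10]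
    ring
  · change (0 * (-(2 * k * x 2)) + 0 * 0 + 0 * (2 * k * x 0) + 0 * (x 3 - k * x 8) + 0 * (x 4 + k * x 7) + 0 * (x 5 + k * x 10) + 0 * (x 6 - k * x 9)) - ((2 * k * x 2) * 0 + 0 * 0 + (-(2 * k * x 0)) * 0 + (-x 3 + k * x 8) * 0 + (-x 4 - k * x 7) * 0 + (-x 5 - k * x 10) * 0 + (-x 6 + k * x 9) * 0) = 0
    simp only [ac3, ac4, ac5, ac6, ac7, ac8, ac9, ac10]
    ring
  · change (0 * (2 * k * x 1) + 0 * (-(2 * k * x 0)) + 0 * 0 + 0 * (-x 4 + k * x 7) + 0 * (x 3 + k * x 8) + 0 * (x 6 + k * x 9) + 0 * (-x 5 + k * x 10)) - ((2 * k * x 2) * 0 + 0 * 0 + (-(2 * k * x 0)) * 0 + (-x 3 + k * x 8) * 0 + (-x 4 - k * x 7) * 0 + (-x 5 - k * x 10) * 0 + (-x 6 + k * x 9) * 0) = -(2 * k * 0)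
    simp only [ac3, ac4, ac5, ac6, ac7, ac8, ac9, ac10]
    ring
  · change (0 * (2 * k * x 9) + 0 * (-x 3 + k * x 8) + 0 * (x 4 - k * x 7) + 0 * 0 + 0 * (-(k * x 0)) + 0 * (-(k * x 1)) + 0 * (-(k * x 2))) - ((2 * k * x 2) * 0 + 0 * 0 + (-(2 * k * x 0)) * 0 + (-x 3 + k * x 8) * 0 + (-x 4 - k * x 7) * A 0 + (-x 5 - k * x 10) * A 1 + (-x 6 + k * x 9) * A 2) = -ac3 A x + k * ac8 A x
    simp only [ac3, ac4, ac5, ac6, ac7, ac8, ac9, ac10]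
    ring
  · change (0 * (2 * k * x 10) + 0 * (-x 4 - k * x 7) + 0 * (-x 3 - k * x 8) + 0 * (k * x 0) + 0 * 0 + 0 * (k * x 2) + 0 * (-(k * x 1))) - ((2 * k * x 2) * 0 + 0 * 0 + (-(2 * k * x 0)) * 0 + (-x 3 + k * x 8) * (-A 0) + (-x 4 - k * x 7) * 0 + (-x 5 - k * x 10) * A 2 + (-x 6 + k * x 9) * (-A 1)) = -ac4 A x - k * ac7 A x
    simp only [ac3, ac4, ac5, ac6, ac7, ac8, ac9, ac10]
    ring
  · change (0 * (-(2 * k * x 7)) + 0 * (-x 5 - k * x 10) + 0 * (-x 6 - k * x 9) + 0 * (k * x 1) + 0 * (-(k * x 2)) + 0 * 0 + 0 * (k * x 0)) - ((2 * k * x 2) * 0 + 0 * 0 + (-(2 * k * x 0)) * 0 + (-x 3 + k * x 8) * (-A 1) + (-x 4 - k * x 7) * (-A 2) + (-x 5 - k * x 10) * 0 + (-x 6 + k * x 9) * A 0) = -ac5 A x - k * ac10 A x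
    simp only [ac3, ac4, ac5, ac6, ac7, ac8, ac9, ac10]
    ring
  · change (0 * (-(2 * k * x 8)) + 0 * (-x 6 + k * x 9) + 0 * (x 5 - k * x 10) + 0 * (k * x 2) + 0 * (k * x 1) + 0 * (-(k * x 0)) + 0 * 0) - ((2 * k * x 2) * 0 + 0 * 0 + (-(2 * k * x 0)) * 0 + (-x 3 + k * x 8) * (-A 2) + (-x 4 - k * x 7) * A 1 + (-x 5 - k * x 10) * (-A 0) + (-x 6 + k * x 9) * 0) = -ac6 A x + k * ac9 A x
    simp only [ac3, ac4, ac5, ac6, ac7, ac8, ac9, ac10]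
    ring
  · change (0 * 0 + 0 * (2 * k * x 2) + 0 * (-(2 * k * x 1)) + 0 * (-(2 * k * x 9)) + 0 * (-(2 * k * x 10)) + 0 * (2 * k * x 7) + 0 * (2 * k * x 8)) - ((-(2 * k * x 1)) * 0 + (2 * k * x 0) * 0 + 0 * 0 + (x 4 - k * x 7) * 0 + (-x 3 - k * x 8) * 0 + (-x 6 - k * x 9) * 0 + (x 5 - k * x 10) * 0) = -(2 * k * 0)
    simp only [ac3, ac4, ac5, ac6, ac7, ac8, ac9, ac10]
    ring
  · change (0 * (-(2 * k * x 2)) + 0 * 0 + 0 * (2 * k * x 0) + 0 * (x 3 - k * x 8) + 0 * (x 4 + k * x 7) + 0 * (x 5 + k * x 10) + 0 * (x 6 - k * x 9)) - ((-(2 * k * x 1)) * 0 + (2 * k * x 0) * 0 + 0 * 0 + (x 4 - k * x 7) * 0 + (-x 3 - k * x 8) * 0 + (-x 6 - k * x 9) * 0 + (x 5 - k * x 10) * 0) = 2 * k * 0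
    simp only [ac3, ac4, ac5, ac6, ac7, ac8, ac9, ac10]
    ring
  · change (0 * (2 * k * x 1) + 0 * (-(2 * k * x 0)) + 0 * 0 + 0 * (-x 4 + k * x 7) + 0 * (x 3 + k * x 8) + 0 * (x 6 + k * x 9) + 0 * (-x 5 + k * x 10)) - ((-(2 * k * x 1)) * 0 + (2 * k * x 0) * 0 + 0 * 0 + (x 4 - k * x 7) * 0 + (-x 3 - k * x 8) * 0 + (-x 6 - k * x 9) * 0 + (x 5 - k * x 10) * 0) = 0
    simp only [ac3, ac4, ac5, ac6, ac7, ac8, ac9, ac10]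
    ring
  · change (0 * (2 * k * x 9) + 0 * (-x 3 + k * x 8) + 0 * (x 4 - k * x 7) + 0 * 0 + 0 * (-(k * x 0)) + 0 * (-(k * x 1)) + 0 * (-(k * x 2))) - ((-(2 * k * x 1)) * 0 + (2 * k * x 0) * 0 + 0 * 0 + (x 4 - k * x 7) * 0 + (-x 3 - k * x 8) * A 0 + (-x 6 - k * x 9) * A 1 + (x 5 - k * x 10) * A 2) = ac4 A x - k * ac7 A x
    simp only [ac3, ac4, ac5, ac6, ac7, ac8, ac9, ac10]
    ring
  · change (0 * (2 * k * x 10) + 0 * (-x 4 - k * x 7) + 0 * (-x 3 - k * x 8) + 0 * (k * x 0) + 0 * 0 + 0 * (k * x 2) + 0 * (-(k * x 1))) - ((-(2 * k * x 1)) * 0 + (2 * k * x 0) * 0 + 0 * 0 + (x 4 - k * x 7) * (-A 0) + (-x 3 - k * x 8) * 0 + (-x 6 - k * x 9) * A 2 + (x 5 - k * x 10) * (-A 1)) = -ac3 A x - k * ac8 A x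
    simp only [ac3, ac4, ac5, ac6, ac7, ac8, ac9, ac10]
    ring
  · change (0 * (-(2 * k * x 7)) + 0 * (-x 5 - k * x 10) + 0 * (-x 6 - k * x 9) + 0 * (k * x 1) + 0 * (-(k * x 2)) + 0 * 0 + 0 * (k * x 0)) - ((-(2 * k * x 1)) * 0 + (2 * k * x 0) * 0 + 0 * 0 + (x 4 - k * x 7) * (-A 1) + (-x 3 - k * x 8) * (-A 2) + (-x 6 - k * x 9) * 0 + (x 5 - k * x 10) * A 0) = -ac6 A x - k * ac9 A x
    simp only [ac3, ac4, ac5, ac6, ac7, ac8, ac9, ac10]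
    ring
  · change (0 * (-(2 * k * x 8)) + 0 * (-x 6 + k * x 9) + 0 * (x 5 - k * x 10) + 0 * (k * x 2) + 0 * (k * x 1) + 0 * (-(k * x 0)) + 0 * 0) - ((-(2 * k * x 1)) * 0 + (2 * k * x 0) * 0 + 0 * 0 + (x 4 - k * x 7) * (-A 2) + (-x 3 - k * x 8) * A 1 + (-x 6 - k * x 9) * (-A 0) + (x 5 - k * x 10) * 0) = ac5 A x - k * ac10 A x
    simp only [ac3, ac4, ac5, ac6, ac7, ac8, ac9, ac10]
    ring
  · change (0 * 0 + 0 * (2 * k * x 2) + 0 * (-(2 * k * x 1)) + 0 * (-(2 * k * x 9)) + (-A 0) * (-(2 * k * x 10)) + (-A 1) * (2 * k * x 7) + (-A 2) * (2 * k * x 8)) - ((-(2 * k * x 9)) * 0 + (x 3 - k * x 8) * 0 + (-x 4 + k * x 7) * 0 + 0 * 0 + (k * x 0) * 0 + (k * x 1) * 0 + (k * x 2) * 0) = -(2 * k * ac9 A x)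
    simp only [ac3, ac4, ac5, ac6, ac7, ac8, ac9, ac10]
    ring
  · change (0 * (-(2 * k * x 2)) + 0 * 0 + 0 * (2 * k * x 0) + 0 * (x 3 - k * x 8) + (-A 0) * (x 4 + k * x 7) + (-A 1) * (x 5 + k * x 10) + (-A 2) * (x 6 - k * x 9)) - ((-(2 * k * x 9)) * 0 + (x 3 - k * x 8) * 0 + (-x 4 + k * x 7) * 0 + 0 * 0 + (k * x 0) * 0 + (k * x 1) * 0 + (k * x 2) * 0) = ac3 A x - k * ac8 A x
    simp only [ac3, ac4, ac5, ac6, ac7, ac8, ac9, ac10]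
    ring
  · change (0 * (2 * k * x 1) + 0 * (-(2 * k * x 0)) + 0 * 0 + 0 * (-x 4 + k * x 7) + (-A 0) * (x 3 + k * x 8) + (-A 1) * (x 6 + k * x 9) + (-A 2) * (-x 5 + k * x 10)) - ((-(2 * k * x 9)) * 0 + (x 3 - k * x 8) * 0 + (-x 4 + k * x 7) * 0 + 0 * 0 + (k * x 0) * 0 + (k * x 1) * 0 + (k * x 2) * 0) = -ac4 A x + k * ac7 A x
    simp only [ac3, ac4, ac5, ac6, ac7, ac8, ac9, ac10]
    ring
  · change (0 * (2 * k * x 9) + 0 * (-x 3 + k * x 8) + 0 * (x 4 - k * x 7) + 0 * 0 + (-A 0) * (-(k * x 0)) + (-A 1) * (-(k * x 1)) + (-A 2) * (-(k * x 2))) - ((-(2 * k * x 9)) * 0 + (x 3 - k * x 8) * 0 + (-x 4 + k * x 7) * 0 + 0 * 0 + (k * x 0) * A 0 + (k * x 1) * A 1 + (k * x 2) * A 2) = 0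
    simp only [ac3, ac4, ac5, ac6, ac7, ac8, ac9, ac10]
    ring
  · change (0 * (2 * k * x 10) + 0 * (-x 4 - k * x 7) + 0 * (-x 3 - k * x 8) + 0 * (k * x 0) + (-A 0) * 0 + (-A 1) * (k * x 2) + (-A 2) * (-(k * x 1))) - ((-(2 * k * x 9)) * 0 + (x 3 - k * x 8) * 0 + (-x 4 + k * x 7) * 0 + 0 * (-A 0) + (k * x 0) * 0 + (k * x 1) * A 2 + (k * x 2) * (-A 1)) = k * 0
    simp only [ac3, ac4, ac5, ac6, ac7, ac8, ac9, ac10]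
    ring
  · change (0 * (-(2 * k * x 7)) + 0 * (-x 5 - k * x 10) + 0 * (-x 6 - k * x 9) + 0 * (k * x 1) + (-A 0) * (-(k * x 2)) + (-A 1) * 0 + (-A 2) * (k * x 0)) - ((-(2 * k * x 9)) * 0 + (x 3 - k * x 8) * 0 + (-x 4 + k * x 7) * 0 + 0 * (-A 1) + (k * x 0) * (-A 2) + (k * x 1) * 0 + (k * x 2) * A 0) = k * 0
    simp only [ac3, ac4, ac5, ac6, ac7, ac8, ac9, ac10]
    ring
  · change (0 * (-(2 * k * x 8)) + 0 * (-x 6 + k * x 9) + 0 * (x 5 - k * x 10) + 0 * (k * x 2) + (-A 0) * (k * x 1) + (-A 1) * (-(k * x 0)) + (-A 2) * 0) - ((-(2 * k * x 9)) * 0 + (x 3 - k * x 8) * 0 + (-x 4 + k * x 7) * 0 + 0 * (-A 2) + (k * x 0) * A 1 + (k * x 1) * (-A 0) + (k * x 2) * 0) = k * 0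
    simp only [ac3, ac4, ac5, ac6, ac7, ac8, ac9, ac10]
    ring
  · change (0 * 0 + 0 * (2 * k * x 2) + 0 * (-(2 * k * x 1)) + A 0 * (-(2 * k * x 9)) + 0 * (-(2 * k * x 10)) + (-A 2) * (2 * k * x 7) + A 1 * (2 * k * x 8)) - ((-(2 * k * x 10)) * 0 + (x 4 + k * x 7) * 0 + (x 3 + k * x 8) * 0 + (-(k * x 0)) * 0 + 0 * 0 + (-(k * x 2)) * 0 + (k * x 1) * 0) = -(2 * k * ac10 A x)
    simp only [ac3, ac4, ac5, ac6, ac7, ac8, ac9, ac10]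
    ring
  · change (0 * (-(2 * k * x 2)) + 0 * 0 + 0 * (2 * k * x 0) + A 0 * (x 3 - k * x 8) + 0 * (x 4 + k * x 7) + (-A 2) * (x 5 + k * x 10) + A 1 * (x 6 - k * x 9)) - ((-(2 * k * x 10)) * 0 + (x 4 + k * x 7) * 0 + (x 3 + k * x 8) * 0 + (-(k * x 0)) * 0 + 0 * 0 + (-(k * x 2)) * 0 + (k * x 1) * 0) = ac4 A x + k * ac7 A x
    simp only [ac3, ac4, ac5, ac6, ac7, ac8, ac9, ac10]
    ring
  · change (0 * (2 * k * x 1) + 0 * (-(2 * k * x 0)) + 0 * 0 + A 0 * (-x 4 + k * x 7) + 0 * (x 3 + k * x 8) + (-A 2) * (x 6 + k * x 9) + A 1 * (-x 5 + k * x 10)) - ((-(2 * k * x 10)) * 0 + (x 4 + k * x 7) * 0 + (x 3 + k * x 8) * 0 + (-(k * x 0)) * 0 + 0 * 0 + (-(k * x 2)) * 0 + (k * x 1) * 0) = ac3 A x + k * ac8 A x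
    simp only [ac3, ac4, ac5, ac6, ac7, ac8, ac9, ac10]
    ring
  · change (0 * (2 * k * x 9) + 0 * (-x 3 + k * x 8) + 0 * (x 4 - k * x 7) + A 0 * 0 + 0 * (-(k * x 0)) + (-A 2) * (-(k * x 1)) + A 1 * (-(k * x 2))) - ((-(2 * k * x 10)) * 0 + (x 4 + k * x 7) * 0 + (x 3 + k * x 8) * 0 + (-(k * x 0)) * 0 + 0 * A 0 + (-(k * x 2)) * A 1 + (k * x 1) * A 2) = -(k * 0)
    simp only [ac3, ac4, ac5, ac6, ac7, ac8, ac9, ac10]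
    ring
  · change (0 * (2 * k * x 10) + 0 * (-x 4 - k * x 7) + 0 * (-x 3 - k * x 8) + A 0 * (k * x 0) + 0 * 0 + (-A 2) * (k * x 2) + A 1 * (-(k * x 1))) - ((-(2 * k * x 10)) * 0 + (x 4 + k * x 7) * 0 + (x 3 + k * x 8) * 0 + (-(k * x 0)) * (-A 0) + 0 * 0 + (-(k * x 2)) * A 2 + (k * x 1) * (-A 1)) = 0
    simp only [ac3, ac4, ac5, ac6, ac7, ac8, ac9, ac10]
    ring
  · change (0 * (-(2 * k * x 7)) + 0 * (-x 5 - k * x 10) + 0 * (-x 6 - k * x 9) + A 0 * (k * x 1) + 0 * (-(k * x 2)) + (-A 2) * 0 + A 1 * (k * x 0)) - ((-(2 * k * x 10)) * 0 + (x 4 + k * x 7) * 0 + (x 3 + k * x 8) * 0 + (-(k * x 0)) * (-A 1) + 0 * (-A 2) + (-(k * x 2)) * 0 + (k * x 1) * A 0) = -(k * 0)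
    simp only [ac3, ac4, ac5, ac6, ac7, ac8, ac9, ac10]
    ring
  · change (0 * (-(2 * k * x 8)) + 0 * (-x 6 + k * x 9) + 0 * (x 5 - k * x 10) + A 0 * (k * x 2) + 0 * (k * x 1) + (-A 2) * (-(k * x 0)) + A 1 * 0) - ((-(2 * k * x 10)) * 0 + (x 4 + k * x 7) * 0 + (x 3 + k * x 8) * 0 + (-(k * x 0)) * (-A 2) + 0 * A 1 + (-(k * x 2)) * (-A 0) + (k * x 1) * 0) = k * 0
    simp only [ac3, ac4, ac5, ac6, ac7, ac8, ac9, ac10]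
    ring
  · change (0 * 0 + 0 * (2 * k * x 2) + 0 * (-(2 * k * x 1)) + A 1 * (-(2 * k * x 9)) + A 2 * (-(2 * k * x 10)) + 0 * (2 * k * x 7) + (-A 0) * (2 * k * x 8)) - ((2 * k * x 7) * 0 + (x 5 + k * x 10) * 0 + (x 6 + k * x 9) * 0 + (-(k * x 1)) * 0 + (k * x 2) * 0 + 0 * 0 + (-(k * x 0)) * 0) = 2 * k * ac7 A x
    simp only [ac3, ac4, ac5, ac6, ac7, ac8, ac9, ac10]
    ring
  · change (0 * (-(2 * k * x 2)) + 0 * 0 + 0 * (2 * k * x 0) + A 1 * (x 3 - k * x 8) + A 2 * (x 4 + k * x 7) + 0 * (x 5 + k * x 10) + (-A 0) * (x 6 - k * x 9)) - ((2 * k * x 7) * 0 + (x 5 + k * x 10) * 0 + (x 6 + k * x 9) * 0 + (-(k * x 1)) * 0 + (k * x 2) * 0 + 0 * 0 + (-(k * x 0)) * 0) = ac5 A x + k * ac10 A x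
    simp only [ac3, ac4, ac5, ac6, ac7, ac8, ac9, ac10]
    ring
  · change (0 * (2 * k * x 1) + 0 * (-(2 * k * x 0)) + 0 * 0 + A 1 * (-x 4 + k * x 7) + A 2 * (x 3 + k * x 8) + 0 * (x 6 + k * x 9) + (-A 0) * (-x 5 + k * x 10)) - ((2 * k * x 7) * 0 + (x 5 + k * x 10) * 0 + (x 6 + k * x 9) * 0 + (-(k * x 1)) * 0 + (k * x 2) * 0 + 0 * 0 + (-(k * x 0)) * 0) = ac6 A x + k * ac9 A x
    simp only [ac3, ac4, ac5, ac6, ac7, ac8, ac9, ac10]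
    ring
  · change (0 * (2 * k * x 9) + 0 * (-x 3 + k * x 8) + 0 * (x 4 - k * x 7) + A 1 * 0 + A 2 * (-(k * x 0)) + 0 * (-(k * x 1)) + (-A 0) * (-(k * x 2))) - ((2 * k * x 7) * 0 + (x 5 + k * x 10) * 0 + (x 6 + k * x 9) * 0 + (-(k * x 1)) * 0 + (k * x 2) * A 0 + 0 * A 1 + (-(k * x 0)) * A 2) = -(k * 0)
    simp only [ac3, ac4, ac5, ac6, ac7, ac8, ac9, ac10]
    ring
  · change (0 * (2 * k * x 10) + 0 * (-x 4 - k * x 7) + 0 * (-x 3 - k * x 8) + A 1 * (k * x 0) + A 2 * 0 + 0 * (k * x 2) + (-A 0) * (-(k * x 1))) - ((2 * k * x 7) * 0 + (x 5 + k * x 10) * 0 + (x 6 + k * x 9) * 0 + (-(k * x 1)) * (-A 0) + (k * x 2) * 0 + 0 * A 2 + (-(k * x 0)) * (-A 1)) = k * 0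
    simp only [ac3, ac4, ac5, ac6, ac7, ac8, ac9, ac10]
    ring
  · change (0 * (-(2 * k * x 7)) + 0 * (-x 5 - k * x 10) + 0 * (-x 6 - k * x 9) + A 1 * (k * x 1) + A 2 * (-(k * x 2)) + 0 * 0 + (-A 0) * (k * x 0)) - ((2 * k * x 7) * 0 + (x 5 + k * x 10) * 0 + (x 6 + k * x 9) * 0 + (-(k * x 1)) * (-A 1) + (k * x 2) * (-A 2) + 0 * 0 + (-(k * x 0)) * A 0) = 0
    simp only [ac3, ac4, ac5, ac6, ac7, ac8, ac9, ac10]
    ring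
  · change (0 * (-(2 * k * x 8)) + 0 * (-x 6 + k * x 9) + 0 * (x 5 - k * x 10) + A 1 * (k * x 2) + A 2 * (k * x 1) + 0 * (-(k * x 0)) + (-A 0) * 0) - ((2 * k * x 7) * 0 + (x 5 + k * x 10) * 0 + (x 6 + k * x 9) * 0 + (-(k * x 1)) * (-A 2) + (k * x 2) * A 1 + 0 * (-A 0) + (-(k * x 0)) * 0) = -(k * 0)
    simp only [ac3, ac4, ac5, ac6, ac7, ac8, ac9, ac10]
    ring
  · change (0 * 0 + 0 * (2 * k * x 2) + 0 * (-(2 * k * x 1)) + A 2 * (-(2 * k * x 9)) + (-A 1) * (-(2 * k * x 10)) + A 0 * (2 * k * x 7) + 0 * (2 * k * x 8)) - ((2 * k * x 8) * 0 + (x 6 - k * x 9) * 0 + (-x 5 + k * x 10) * 0 + (-(k * x 2)) * 0 + (-(k * x 1)) * 0 + (k * x 0) * 0 + 0 * 0) = 2 * k * ac8 A x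
    simp only [ac3, ac4, ac5, ac6, ac7, ac8, ac9, ac10]
    ring
  · change (0 * (-(2 * k * x 2)) + 0 * 0 + 0 * (2 * k * x 0) + A 2 * (x 3 - k * x 8) + (-A 1) * (x 4 + k * x 7) + A 0 * (x 5 + k * x 10) + 0 * (x 6 - k * x 9)) - ((2 * k * x 8) * 0 + (x 6 - k * x 9) * 0 + (-x 5 + k * x 10) * 0 + (-(k * x 2)) * 0 + (-(k * x 1)) * 0 + (k * x 0) * 0 + 0 * 0) = ac6 A x - k * ac9 A x
    simp only [ac3, ac4, ac5, ac6, ac7, ac8, ac9, ac10]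
    ring
  · change (0 * (2 * k * x 1) + 0 * (-(2 * k * x 0)) + 0 * 0 + A 2 * (-x 4 + k * x 7) + (-A 1) * (x 3 + k * x 8) + A 0 * (x 6 + k * x 9) + 0 * (-x 5 + k * x 10)) - ((2 * k * x 8) * 0 + (x 6 - k * x 9) * 0 + (-x 5 + k * x 10) * 0 + (-(k * x 2)) * 0 + (-(k * x 1)) * 0 + (k * x 0) * 0 + 0 * 0) = -ac5 A x + k * ac10 A x
    simp only [ac3, ac4, ac5, ac6, ac7, ac8, ac9, ac10]
    ring
  · change (0 * (2 * k * x 9) + 0 * (-x 3 + k * x 8) + 0 * (x 4 - k * x 7) + A 2 * 0 + (-A 1) * (-(k * x 0)) + A 0 * (-(k * x 1)) + 0 * (-(k * x 2))) - ((2 * k * x 8) * 0 + (x 6 - k * x 9) * 0 + (-x 5 + k * x 10) * 0 + (-(k * x 2)) * 0 + (-(k * x 1)) * A 0 + (k * x 0) * A 1 + 0 * A 2) = -(k * 0)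
    simp only [ac3, ac4, ac5, ac6, ac7, ac8, ac9, ac10]
    ring
  · change (0 * (2 * k * x 10) + 0 * (-x 4 - k * x 7) + 0 * (-x 3 - k * x 8) + A 2 * (k * x 0) + (-A 1) * 0 + A 0 * (k * x 2) + 0 * (-(k * x 1))) - ((2 * k * x 8) * 0 + (x 6 - k * x 9) * 0 + (-x 5 + k * x 10) * 0 + (-(k * x 2)) * (-A 0) + (-(k * x 1)) * 0 + (k * x 0) * A 2 + 0 * (-A 1)) = -(k * 0)
    simp only [ac3, ac4, ac5, ac6, ac7, ac8, ac9, ac10]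
    ring
  · change (0 * (-(2 * k * x 7)) + 0 * (-x 5 - k * x 10) + 0 * (-x 6 - k * x 9) + A 2 * (k * x 1) + (-A 1) * (-(k * x 2)) + A 0 * 0 + 0 * (k * x 0)) - ((2 * k * x 8) * 0 + (x 6 - k * x 9) * 0 + (-x 5 + k * x 10) * 0 + (-(k * x 2)) * (-A 1) + (-(k * x 1)) * (-A 2) + (k * x 0) * 0 + 0 * A 0) = k * 0
    simp only [ac3, ac4, ac5, ac6, ac7, ac8, ac9, ac10]
    ring
  · change (0 * (-(2 * k * x 8)) + 0 * (-x 6 + k * x 9) + 0 * (x 5 - k * x 10) + A 2 * (k * x 2) + (-A 1) * (k * x 1) + A 0 * (-(k * x 0)) + 0 * 0) - ((2 * k * x 8) * 0 + (x 6 - k * x 9) * 0 + (-x 5 + k * x 10) * 0 + (-(k * x 2)) * (-A 2) + (-(k * x 1)) * A 1 + (k * x 0) * (-A 0) + 0 * 0) = 0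
    simp only [ac3, ac4, ac5, ac6, ac7, ac8, ac9, ac10]
    ring

/-- `[hat A, hat B] = hat (2 A × B)` -/
noncomputable def crF (A B : E3) : E3 :=
  !₂[2 * (A 1 * B 2 - A 2 * B 1), 2 * (A 2 * B 0 - A 0 * B 2), 2 * (A 0 * B 1 - A 1 * B 0)]

theorem hat_hat (A B : E3) : hat A * hat B - hat B * hat A = hat (crF A B) := by
  ext i j
  rw [Matrix.sub_apply, mul7, mul7]
  fin_cases i <;> fin_cases j
  · change (0 * 0 + 0 * 0 + 0 * 0 + 0 * 0 + 0 * 0 + 0 * 0 + 0 * 0) - (0 * 0 + 0 * 0 + 0 * 0 + 0 * 0 + 0 * 0 + 0 * 0 + 0 * 0) = 0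
    ring
  · change (0 * 0 + 0 * 0 + 0 * 0 + 0 * 0 + 0 * 0 + 0 * 0 + 0 * 0) - (0 * 0 + 0 * 0 + 0 * 0 + 0 * 0 + 0 * 0 + 0 * 0 + 0 * 0) = 0
    ring
  · change (0 * 0 + 0 * 0 + 0 * 0 + 0 * 0 + 0 * 0 + 0 * 0 + 0 * 0) - (0 * 0 + 0 * 0 + 0 * 0 + 0 * 0 + 0 * 0 + 0 * 0 + 0 * 0) = 0
    ring
  · change (0 * 0 + 0 * 0 + 0 * 0 + 0 * 0 + 0 * B 0 + 0 * B 1 + 0 * B 2) - (0 * 0 + 0 * 0 + 0 * 0 + 0 * 0 + 0 * A 0 + 0 * A 1 + 0 * A 2) = 0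
    ring
  · change (0 * 0 + 0 * 0 + 0 * 0 + 0 * (-B 0) + 0 * 0 + 0 * B 2 + 0 * (-B 1)) - (0 * 0 + 0 * 0 + 0 * 0 + 0 * (-A 0) + 0 * 0 + 0 * A 2 + 0 * (-A 1)) = 0
    ring
  · change (0 * 0 + 0 * 0 + 0 * 0 + 0 * (-B 1) + 0 * (-B 2) + 0 * 0 + 0 * B 0) - (0 * 0 + 0 * 0 + 0 * 0 + 0 * (-A 1) + 0 * (-A 2) + 0 * 0 + 0 * A 0) = 0
    ring
  · change (0 * 0 + 0 * 0 + 0 * 0 + 0 * (-B 2) + 0 * B 1 + 0 * (-B 0) + 0 * 0) - (0 * 0 + 0 * 0 + 0 * 0 + 0 * (-A 2) + 0 * A 1 + 0 * (-A 0) + 0 * 0) = 0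
    ring
  · change (0 * 0 + 0 * 0 + 0 * 0 + 0 * 0 + 0 * 0 + 0 * 0 + 0 * 0) - (0 * 0 + 0 * 0 + 0 * 0 + 0 * 0 + 0 * 0 + 0 * 0 + 0 * 0) = 0
    ring
  · change (0 * 0 + 0 * 0 + 0 * 0 + 0 * 0 + 0 * 0 + 0 * 0 + 0 * 0) - (0 * 0 + 0 * 0 + 0 * 0 + 0 * 0 + 0 * 0 + 0 * 0 + 0 * 0) = 0
    ring
  · change (0 * 0 + 0 * 0 + 0 * 0 + 0 * 0 + 0 * 0 + 0 * 0 + 0 * 0) - (0 * 0 + 0 * 0 + 0 * 0 + 0 * 0 + 0 * 0 + 0 * 0 + 0 * 0) = 0
    ring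
  · change (0 * 0 + 0 * 0 + 0 * 0 + 0 * 0 + 0 * B 0 + 0 * B 1 + 0 * B 2) - (0 * 0 + 0 * 0 + 0 * 0 + 0 * 0 + 0 * A 0 + 0 * A 1 + 0 * A 2) = 0
    ring
  · change (0 * 0 + 0 * 0 + 0 * 0 + 0 * (-B 0) + 0 * 0 + 0 * B 2 + 0 * (-B 1)) - (0 * 0 + 0 * 0 + 0 * 0 + 0 * (-A 0) + 0 * 0 + 0 * A 2 + 0 * (-A 1)) = 0
    ring
  · change (0 * 0 + 0 * 0 + 0 * 0 + 0 * (-B 1) + 0 * (-B 2) + 0 * 0 + 0 * B 0) - (0 * 0 + 0 * 0 + 0 * 0 + 0 * (-A 1) + 0 * (-A 2) + 0 * 0 + 0 * A 0) = 0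
    ring
  · change (0 * 0 + 0 * 0 + 0 * 0 + 0 * (-B 2) + 0 * B 1 + 0 * (-B 0) + 0 * 0) - (0 * 0 + 0 * 0 + 0 * 0 + 0 * (-A 2) + 0 * A 1 + 0 * (-A 0) + 0 * 0) = 0
    ring
  · change (0 * 0 + 0 * 0 + 0 * 0 + 0 * 0 + 0 * 0 + 0 * 0 + 0 * 0) - (0 * 0 + 0 * 0 + 0 * 0 + 0 * 0 + 0 * 0 + 0 * 0 + 0 * 0) = 0
    ring
  · change (0 * 0 + 0 * 0 + 0 * 0 + 0 * 0 + 0 * 0 + 0 * 0 + 0 * 0) - (0 * 0 + 0 * 0 + 0 * 0 + 0 * 0 + 0 * 0 + 0 * 0 + 0 * 0) = 0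
    ring
  · change (0 * 0 + 0 * 0 + 0 * 0 + 0 * 0 + 0 * 0 + 0 * 0 + 0 * 0) - (0 * 0 + 0 * 0 + 0 * 0 + 0 * 0 + 0 * 0 + 0 * 0 + 0 * 0) = 0
    ring
  · change (0 * 0 + 0 * 0 + 0 * 0 + 0 * 0 + 0 * B 0 + 0 * B 1 + 0 * B 2) - (0 * 0 + 0 * 0 + 0 * 0 + 0 * 0 + 0 * A 0 + 0 * A 1 + 0 * A 2) = 0
    ring
  · change (0 * 0 + 0 * 0 + 0 * 0 + 0 * (-B 0) + 0 * 0 + 0 * B 2 + 0 * (-B 1)) - (0 * 0 + 0 * 0 + 0 * 0 + 0 * (-A 0) + 0 * 0 + 0 * A 2 + 0 * (-A 1)) = 0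
    ring
  · change (0 * 0 + 0 * 0 + 0 * 0 + 0 * (-B 1) + 0 * (-B 2) + 0 * 0 + 0 * B 0) - (0 * 0 + 0 * 0 + 0 * 0 + 0 * (-A 1) + 0 * (-A 2) + 0 * 0 + 0 * A 0) = 0
    ring
  · change (0 * 0 + 0 * 0 + 0 * 0 + 0 * (-B 2) + 0 * B 1 + 0 * (-B 0) + 0 * 0) - (0 * 0 + 0 * 0 + 0 * 0 + 0 * (-A 2) + 0 * A 1 + 0 * (-A 0) + 0 * 0) = 0
    ring
  · change (0 * 0 + 0 * 0 + 0 * 0 + 0 * 0 + (-A 0) * 0 + (-A 1) * 0 + (-A 2) * 0) - (0 * 0 + 0 * 0 + 0 * 0 + 0 * 0 + (-B 0) * 0 + (-B 1) * 0 + (-B 2) * 0) = 0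
    ring
  · change (0 * 0 + 0 * 0 + 0 * 0 + 0 * 0 + (-A 0) * 0 + (-A 1) * 0 + (-A 2) * 0) - (0 * 0 + 0 * 0 + 0 * 0 + 0 * 0 + (-B 0) * 0 + (-B 1) * 0 + (-B 2) * 0) = 0
    ring
  · change (0 * 0 + 0 * 0 + 0 * 0 + 0 * 0 + (-A 0) * 0 + (-A 1) * 0 + (-A 2) * 0) - (0 * 0 + 0 * 0 + 0 * 0 + 0 * 0 + (-B 0) * 0 + (-B 1) * 0 + (-B 2) * 0) = 0
    ring
  · change (0 * 0 + 0 * 0 + 0 * 0 + 0 * 0 + (-A 0) * B 0 + (-A 1) * B 1 + (-A 2) * B 2) - (0 * 0 + 0 * 0 + 0 * 0 + 0 * 0 + (-B 0) * A 0 + (-B 1) * A 1 + (-B 2) * A 2) = 0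
    ring
  · change (0 * 0 + 0 * 0 + 0 * 0 + 0 * (-B 0) + (-A 0) * 0 + (-A 1) * B 2 + (-A 2) * (-B 1)) - (0 * 0 + 0 * 0 + 0 * 0 + 0 * (-A 0) + (-B 0) * 0 + (-B 1) * A 2 + (-B 2) * (-A 1)) = -(2 * (A 1 * B 2 - A 2 * B 1))
    ring
  · change (0 * 0 + 0 * 0 + 0 * 0 + 0 * (-B 1) + (-A 0) * (-B 2) + (-A 1) * 0 + (-A 2) * B 0) - (0 * 0 + 0 * 0 + 0 * 0 + 0 * (-A 1) + (-B 0) * (-A 2) + (-B 1) * 0 + (-B 2) * A 0) = -(2 * (A 2 * B 0 - A 0 * B 2))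
    ring
  · change (0 * 0 + 0 * 0 + 0 * 0 + 0 * (-B 2) + (-A 0) * B 1 + (-A 1) * (-B 0) + (-A 2) * 0) - (0 * 0 + 0 * 0 + 0 * 0 + 0 * (-A 2) + (-B 0) * A 1 + (-B 1) * (-A 0) + (-B 2) * 0) = -(2 * (A 0 * B 1 - A 1 * B 0))
    ring
  · change (0 * 0 + 0 * 0 + 0 * 0 + A 0 * 0 + 0 * 0 + (-A 2) * 0 + A 1 * 0) - (0 * 0 + 0 * 0 + 0 * 0 + B 0 * 0 + 0 * 0 + (-B 2) * 0 + B 1 * 0) = 0
    ring
  · change (0 * 0 + 0 * 0 + 0 * 0 + A 0 * 0 + 0 * 0 + (-A 2) * 0 + A 1 * 0) - (0 * 0 + 0 * 0 + 0 * 0 + B 0 * 0 + 0 * 0 + (-B 2) * 0 + B 1 * 0) = 0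
    ring
  · change (0 * 0 + 0 * 0 + 0 * 0 + A 0 * 0 + 0 * 0 + (-A 2) * 0 + A 1 * 0) - (0 * 0 + 0 * 0 + 0 * 0 + B 0 * 0 + 0 * 0 + (-B 2) * 0 + B 1 * 0) = 0
    ring
  · change (0 * 0 + 0 * 0 + 0 * 0 + A 0 * 0 + 0 * B 0 + (-A 2) * B 1 + A 1 * B 2) - (0 * 0 + 0 * 0 + 0 * 0 + B 0 * 0 + 0 * A 0 + (-B 2) * A 1 + B 1 * A 2) = (2 * (A 1 * B 2 - A 2 * B 1))
    ring
  · change (0 * 0 + 0 * 0 + 0 * 0 + A 0 * (-B 0) + 0 * 0 + (-A 2) * B 2 + A 1 * (-B 1)) - (0 * 0 + 0 * 0 + 0 * 0 + B 0 * (-A 0) + 0 * 0 + (-B 2) * A 2 + B 1 * (-A 1)) = 0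
    ring
  · change (0 * 0 + 0 * 0 + 0 * 0 + A 0 * (-B 1) + 0 * (-B 2) + (-A 2) * 0 + A 1 * B 0) - (0 * 0 + 0 * 0 + 0 * 0 + B 0 * (-A 1) + 0 * (-A 2) + (-B 2) * 0 + B 1 * A 0) = -(2 * (A 0 * B 1 - A 1 * B 0))
    ring
  · change (0 * 0 + 0 * 0 + 0 * 0 + A 0 * (-B 2) + 0 * B 1 + (-A 2) * (-B 0) + A 1 * 0) - (0 * 0 + 0 * 0 + 0 * 0 + B 0 * (-A 2) + 0 * A 1 + (-B 2) * (-A 0) + B 1 * 0) = (2 * (A 2 * B 0 - A 0 * B 2))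
    ring
  · change (0 * 0 + 0 * 0 + 0 * 0 + A 1 * 0 + A 2 * 0 + 0 * 0 + (-A 0) * 0) - (0 * 0 + 0 * 0 + 0 * 0 + B 1 * 0 + B 2 * 0 + 0 * 0 + (-B 0) * 0) = 0
    ring
  · change (0 * 0 + 0 * 0 + 0 * 0 + A 1 * 0 + A 2 * 0 + 0 * 0 + (-A 0) * 0) - (0 * 0 + 0 * 0 + 0 * 0 + B 1 * 0 + B 2 * 0 + 0 * 0 + (-B 0) * 0) = 0
    ring
  · change (0 * 0 + 0 * 0 + 0 * 0 + A 1 * 0 + A 2 * 0 + 0 * 0 + (-A 0) * 0) - (0 * 0 + 0 * 0 + 0 * 0 + B 1 * 0 + B 2 * 0 + 0 * 0 + (-B 0) * 0) = 0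
    ring
  · change (0 * 0 + 0 * 0 + 0 * 0 + A 1 * 0 + A 2 * B 0 + 0 * B 1 + (-A 0) * B 2) - (0 * 0 + 0 * 0 + 0 * 0 + B 1 * 0 + B 2 * A 0 + 0 * A 1 + (-B 0) * A 2) = (2 * (A 2 * B 0 - A 0 * B 2))
    ring
  · change (0 * 0 + 0 * 0 + 0 * 0 + A 1 * (-B 0) + A 2 * 0 + 0 * B 2 + (-A 0) * (-B 1)) - (0 * 0 + 0 * 0 + 0 * 0 + B 1 * (-A 0) + B 2 * 0 + 0 * A 2 + (-B 0) * (-A 1)) = (2 * (A 0 * B 1 - A 1 * B 0))
    ring
  · change (0 * 0 + 0 * 0 + 0 * 0 + A 1 * (-B 1) + A 2 * (-B 2) + 0 * 0 + (-A 0) * B 0) - (0 * 0 + 0 * 0 + 0 * 0 + B 1 * (-A 1) + B 2 * (-A 2) + 0 * 0 + (-B 0) * A 0) = 0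
    ring
  · change (0 * 0 + 0 * 0 + 0 * 0 + A 1 * (-B 2) + A 2 * B 1 + 0 * (-B 0) + (-A 0) * 0) - (0 * 0 + 0 * 0 + 0 * 0 + B 1 * (-A 2) + B 2 * A 1 + 0 * (-A 0) + (-B 0) * 0) = -(2 * (A 1 * B 2 - A 2 * B 1))
    ring
  · change (0 * 0 + 0 * 0 + 0 * 0 + A 2 * 0 + (-A 1) * 0 + A 0 * 0 + 0 * 0) - (0 * 0 + 0 * 0 + 0 * 0 + B 2 * 0 + (-B 1) * 0 + B 0 * 0 + 0 * 0) = 0
    ring
  · change (0 * 0 + 0 * 0 + 0 * 0 + A 2 * 0 + (-A 1) * 0 + A 0 * 0 + 0 * 0) - (0 * 0 + 0 * 0 + 0 * 0 + B 2 * 0 + (-B 1) * 0 + B 0 * 0 + 0 * 0) = 0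
    ring
  · change (0 * 0 + 0 * 0 + 0 * 0 + A 2 * 0 + (-A 1) * 0 + A 0 * 0 + 0 * 0) - (0 * 0 + 0 * 0 + 0 * 0 + B 2 * 0 + (-B 1) * 0 + B 0 * 0 + 0 * 0) = 0
    ring
  · change (0 * 0 + 0 * 0 + 0 * 0 + A 2 * 0 + (-A 1) * B 0 + A 0 * B 1 + 0 * B 2) - (0 * 0 + 0 * 0 + 0 * 0 + B 2 * 0 + (-B 1) * A 0 + B 0 * A 1 + 0 * A 2) = (2 * (A 0 * B 1 - A 1 * B 0))
    ring
  · change (0 * 0 + 0 * 0 + 0 * 0 + A 2 * (-B 0) + (-A 1) * 0 + A 0 * B 2 + 0 * (-B 1)) - (0 * 0 + 0 * 0 + 0 * 0 + B 2 * (-A 0) + (-B 1) * 0 + B 0 * A 2 + 0 * (-A 1)) = -(2 * (A 2 * B 0 - A 0 * B 2))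
    ring
  · change (0 * 0 + 0 * 0 + 0 * 0 + A 2 * (-B 1) + (-A 1) * (-B 2) + A 0 * 0 + 0 * B 0) - (0 * 0 + 0 * 0 + 0 * 0 + B 2 * (-A 1) + (-B 1) * (-A 2) + B 0 * 0 + 0 * A 0) = (2 * (A 1 * B 2 - A 2 * B 1))
    ring
  · change (0 * 0 + 0 * 0 + 0 * 0 + A 2 * (-B 2) + (-A 1) * B 1 + A 0 * (-B 0) + 0 * 0) - (0 * 0 + 0 * 0 + 0 * 0 + B 2 * (-A 2) + (-B 1) * A 1 + B 0 * (-A 0) + 0 * 0) = 0
    ring

theorem iota_transpose (x : V11) : (iota x)ᵀ = -iota x := by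
  ext i j
  fin_cases i <;> fin_cases j
  · change 0 = -(0)
    ring
  · change 2 * k * x 2 = -(-(2 * k * x 2))
    ring
  · change -(2 * k * x 1) = -(2 * k * x 1)
    ring
  · change -(2 * k * x 9) = -(2 * k * x 9)
    ring
  · change -(2 * k * x 10) = -(2 * k * x 10)
    ring
  · change 2 * k * x 7 = -(-(2 * k * x 7))
    ring
  · change 2 * k * x 8 = -(-(2 * k * x 8))
    ring
  · change -(2 * k * x 2) = -(2 * k * x 2)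
    ring
  · change 0 = -(0)
    ring
  · change 2 * k * x 0 = -(-(2 * k * x 0))
    ring
  · change x 3 - k * x 8 = -(-x 3 + k * x 8)
    ring
  · change x 4 + k * x 7 = -(-x 4 - k * x 7)
    ring
  · change x 5 + k * x 10 = -(-x 5 - k * x 10)
    ring
  · change x 6 - k * x 9 = -(-x 6 + k * x 9)
    ring
  · change 2 * k * x 1 = -(-(2 * k * x 1))
    ring
  · change -(2 * k * x 0) = -(2 * k * x 0)
    ring
  · change 0 = -(0)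
    ring
  · change -x 4 + k * x 7 = -(x 4 - k * x 7)
    ring
  · change x 3 + k * x 8 = -(-x 3 - k * x 8)
    ring
  · change x 6 + k * x 9 = -(-x 6 - k * x 9)
    ring
  · change -x 5 + k * x 10 = -(x 5 - k * x 10)
    ring
  · change 2 * k * x 9 = -(-(2 * k * x 9))
    ring
  · change -x 3 + k * x 8 = -(x 3 - k * x 8)
    ring
  · change x 4 - k * x 7 = -(-x 4 + k * x 7)
    ring
  · change 0 = -(0)
    ring
  · change -(k * x 0) = -(k * x 0)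
    ring
  · change -(k * x 1) = -(k * x 1)
    ring
  · change -(k * x 2) = -(k * x 2)
    ring
  · change 2 * k * x 10 = -(-(2 * k * x 10))
    ring
  · change -x 4 - k * x 7 = -(x 4 + k * x 7)
    ring
  · change -x 3 - k * x 8 = -(x 3 + k * x 8)
    ring
  · change k * x 0 = -(-(k * x 0))
    ring
  · change 0 = -(0)
    ring
  · change k * x 2 = -(-(k * x 2))
    ring
  · change -(k * x 1) = -(k * x 1)
    ring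
  · change -(2 * k * x 7) = -(2 * k * x 7)
    ring
  · change -x 5 - k * x 10 = -(x 5 + k * x 10)
    ring
  · change -x 6 - k * x 9 = -(x 6 + k * x 9)
    ring
  · change k * x 1 = -(-(k * x 1))
    ring
  · change -(k * x 2) = -(k * x 2)
    ring
  · change 0 = -(0)
    ring
  · change k * x 0 = -(-(k * x 0))
    ring
  · change -(2 * k * x 8) = -(2 * k * x 8)
    ring
  · change -x 6 + k * x 9 = -(x 6 - k * x 9)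
    ring
  · change x 5 - k * x 10 = -(-x 5 + k * x 10)
    ring
  · change k * x 2 = -(-(k * x 2))
    ring
  · change k * x 1 = -(-(k * x 1))
    ring
  · change -(k * x 0) = -(k * x 0)
    ring
  · change 0 = -(0)
    ring

theorem hat_transpose (A : E3) : (hat A)ᵀ = -hat A := by
  ext i j
  fin_cases i <;> fin_cases j
  · change 0 = -(0)
    ring
  · change 0 = -(0)
    ring
  · change 0 = -(0)
    ring
  · change 0 = -(0)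
    ring
  · change 0 = -(0)
    ring
  · change 0 = -(0)
    ring
  · change 0 = -(0)
    ring
  · change 0 = -(0)
    ring
  · change 0 = -(0)
    ring
  · change 0 = -(0)
    ring
  · change 0 = -(0)
    ring
  · change 0 = -(0)
    ring
  · change 0 = -(0)
    ring
  · change 0 = -(0)
    ring
  · change 0 = -(0)
    ring
  · change 0 = -(0)
    ring
  · change 0 = -(0)
    ring
  · change 0 = -(0)
    ring
  · change 0 = -(0)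
    ring
  · change 0 = -(0)
    ring
  · change 0 = -(0)
    ring
  · change 0 = -(0)
    ring
  · change 0 = -(0)
    ring
  · change 0 = -(0)
    ring
  · change 0 = -(0)
    ring
  · change A 0 = -(-A 0)
    ring
  · change A 1 = -(-A 1)
    ring
  · change A 2 = -(-A 2)
    ring
  · change 0 = -(0)
    ring
  · change 0 = -(0)
    ring
  · change 0 = -(0)
    ring
  · change -A 0 = -(A 0)
    ring
  · change 0 = -(0)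
    ring
  · change A 2 = -(-A 2)
    ring
  · change -A 1 = -(A 1)
    ring
  · change 0 = -(0)
    ring
  · change 0 = -(0)
    ring
  · change 0 = -(0)
    ring
  · change -A 1 = -(A 1)
    ring
  · change -A 2 = -(A 2)
    ring
  · change 0 = -(0)
    ring
  · change A 0 = -(-A 0)
    ring
  · change 0 = -(0)
    ring
  · change 0 = -(0)
    ring
  · change 0 = -(0)
    ring
  · change -A 2 = -(A 2)
    ring
  · change A 1 = -(-A 1)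
    ring
  · change -A 0 = -(A 0)
    ring
  · change 0 = -(0)
    ring

theorem iota_hat_zero {x : V11} {A : E3} (h : iota x + hat A = 0) : x = 0 ∧ A = 0 := by
  have e : ∀ i j, iota x i j + hat A i j = 0 := fun i j => by
    rw [← Matrix.add_apply, h]
    rfl
  have hk := k_pos.ne'
  have h21 : 2 * k * x 2 + 0 = 0 := e 1 0
  have h12 : -(2 * k * x 0) + 0 = 0 := e 1 2
  have h02 : 2 * k * x 1 + 0 = 0 := e 0 2
  have h03 : 2 * k * x 9 + 0 = 0 := e 0 3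
  have h04 : 2 * k * x 10 + 0 = 0 := e 0 4
  have h05 : -(2 * k * x 7) + 0 = 0 := e 0 5
  have h06 : -(2 * k * x 8) + 0 = 0 := e 0 6
  have h13 : -x 3 + k * x 8 + 0 = 0 := e 1 3
  have h14 : -x 4 - k * x 7 + 0 = 0 := e 1 4
  have h15 : -x 5 - k * x 10 + 0 = 0 := e 1 5
  have h16 : -x 6 + k * x 9 + 0 = 0 := e 1 6
  have h34 : k * x 0 + -A 0 = 0 := e 3 4
  have h35 : k * x 1 + -A 1 = 0 := e 3 5
  have h36 : k * x 2 + -A 2 = 0 := e 3 6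
  have x0 : x 0 = 0 := by
    have : k * x 0 = 0 := by linarith
    exact (mul_eq_zero.1 this).resolve_left hk
  have x1 : x 1 = 0 := by
    have : k * x 1 = 0 := by linarith
    exact (mul_eq_zero.1 this).resolve_left hk
  have x2 : x 2 = 0 := by
    have : k * x 2 = 0 := by linarith
    exact (mul_eq_zero.1 this).resolve_left hk
  have x7 : x 7 = 0 := by
    have : k * x 7 = 0 := by linarith
    exact (mul_eq_zero.1 this).resolve_left hk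
  have x8 : x 8 = 0 := by
    have : k * x 8 = 0 := by linarith
    exact (mul_eq_zero.1 this).resolve_left hk
  have x9 : x 9 = 0 := by
    have : k * x 9 = 0 := by linarith
    exact (mul_eq_zero.1 this).resolve_left hk
  have x10 : x 10 = 0 := by
    have : k * x 10 = 0 := by linarith
    exact (mul_eq_zero.1 this).resolve_left hk
  rw [x8] at h13
  rw [x7] at h14
  rw [x10] at h15
  rw [x9] at h16
  rw [x0] at h34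
  rw [x1] at h35
  rw [x2] at h36
  constructor
  · ext i
    fin_cases i
    · exact x0
    · exact x1
    · exact x2
    · change x 3 = 0; linarith
    · change x 4 = 0; linarith
    · change x 5 = 0; linarith
    · change x 6 = 0; linarith
    · exact x7
    · exact x8
    · exact x9
    · exact x10
  · ext i
    fin_cases i
    · change A 0 = 0; linarith
    · change A 1 = 0; linarith
    · change A 2 = 0; linarith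

end G2F
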